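import Pool.Agent.RefW.Defs
import Pool.Agent.SST.ProdK
import Mathlib

/-!
RW13. Proof: the product of `ρ R` over all `ρ : k →+* A` (`A` algebraically closed of
characteristic zero) is the norm of `R` (`Algebra.norm_eq_prod_embeddings`, `RingHom.equivRatAlgHom`),
a nonzero integer `z`, and `|z| * ∏ t, ‖z‖_{p t} ≥ 1`. Integral elements of `ℂ_[p]` have norm at
most one (ultrametric).
-/

open Polynomial NumberField
open scoped Classical

namespace Pool.Agent.RefW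

theorem one_le_prod_embeddings (k : Type) [Field k] [NumberField k] {T : Type} [Fintype T]
    (p : T → ℕ) [∀ t, Fact (p t).Prime] (hp : Function.Injective p) (R : 𝓞 k) (hR : R ≠ 0) :
    1 ≤ (∏ ρ : k →+* ℂ, ‖ρ (R : k)‖) * ∏ t, ∏ ρ : k →+* ℂ_[p t], ‖ρ (R : k)‖ := by
  have h1 : ∏ ρ : k →+* ℂ, ‖ρ (R : k)‖ = |((Algebra.norm ℤ R : ℤ) : ℝ)| := by
    rw [Pool.Agent.SST.prodK_norm_prod ℂ R, Complex.norm_intCast]
  have h2 : ∀ t, ∏ ρ : k →+* ℂ_[p t], ‖ρ (R : k)‖ =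
      ‖((Algebra.norm ℤ R : ℤ) : ℚ_[p t])‖ := by
    intro t
    rw [Pool.Agent.SST.prodK_norm_prod ℂ_[p t] R]
    have h4 : (((Algebra.norm ℤ R : ℤ) : ℚ_[p t]) : ℂ_[p t]) =
        ((Algebra.norm ℤ R : ℤ) : ℂ_[p t]) :=
      map_intCast (algebraMap ℚ_[p t] ℂ_[p t]) (Algebra.norm ℤ R)
    rw [← h4, PadicComplex.norm_extends']
  rw [h1, Finset.prod_congr rfl fun t _ => h2 t]
  exact Pool.Agent.SST.sk_prod_ge p hp _ (Algebra.norm_ne_zero_iff.2 hR)

theorem norm_le_one_of_ringOfIntegers {k : Type} [Field k] [NumberField k] (p : ℕ)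
    [Fact p.Prime] (ρ : k →+* ℂ_[p]) (R : 𝓞 k) : ‖ρ (R : k)‖ ≤ 1 := by
  obtain ⟨P, hPm, hP⟩ := R.2
  by_contra hcon
  push Not at hcon
  set x : ℂ_[p] := ρ (R : k) with hx
  have hev : Polynomial.eval₂ (Int.castRingHom ℂ_[p]) x P = 0 := by
    have h1 : ρ (Polynomial.eval₂ (algebraMap ℤ k) (R : k) P) = 0 := by
      have : Polynomial.eval₂ (algebraMap ℤ k) (R : k) P = 0 := hP
      rw [this, map_zero]
    rw [Polynomial.hom_eval₂] at h1
    have h2 : ρ.comp (algebraMap ℤ k) = Int.castRingHom ℂ_[p] := RingHom.ext_int _ _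
    rwa [h2] at h1
  have hn0 : P.natDegree ≠ 0 := by
    intro h0
    have : P = 1 := hPm.natDegree_eq_zero.1 h0
    rw [this, Polynomial.eval₂_one] at hev
    exact one_ne_zero hev
  rw [Polynomial.eval₂_eq_sum_range, Finset.sum_range_succ, hPm.coeff_natDegree, map_one,
    one_mul] at hev
  have hx0 : 0 < ‖x‖ := lt_trans zero_lt_one hcon
  have h3 : ‖∑ i ∈ Finset.range P.natDegree, (Int.castRingHom ℂ_[p]) (P.coeff i) * x ^ i‖ ≤
      ‖x‖ ^ (P.natDegree - 1) := by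
    apply IsUltrametricDist.norm_sum_le_of_forall_le_of_nonneg (by positivity)
    intro i hi
    rw [Finset.mem_range] at hi
    rw [norm_mul, norm_pow]
    have h4 : ‖(Int.castRingHom ℂ_[p]) (P.coeff i)‖ ≤ 1 := by
      have h5 : ((((P.coeff i : ℤ) : ℚ_[p])) : ℂ_[p]) = (Int.castRingHom ℂ_[p]) (P.coeff i) :=
        map_intCast (algebraMap ℚ_[p] ℂ_[p]) (P.coeff i)
      rw [← h5, PadicComplex.norm_extends']
      exact Padic.norm_int_le_one _
    calc ‖(Int.castRingHom ℂ_[p]) (P.coeff i)‖ * ‖x‖ ^ i ≤ 1 * ‖x‖ ^ i :=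
          mul_le_mul_of_nonneg_right h4 (by positivity)
      _ = ‖x‖ ^ i := one_mul _
      _ ≤ ‖x‖ ^ (P.natDegree - 1) := pow_le_pow_right₀ hcon.le (by omega)
  have h6 : ‖x ^ P.natDegree‖ ≤ ‖x‖ ^ (P.natDegree - 1) := by
    have : x ^ P.natDegree =
        -∑ i ∈ Finset.range P.natDegree, (Int.castRingHom ℂ_[p]) (P.coeff i) * x ^ i := by
      linear_combination hev
    rw [this, norm_neg]
    exact h3
  rw [norm_pow] at h6
  have h7 : ‖x‖ ^ (P.natDegree - 1) < ‖x‖ ^ P.natDegree :=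
    pow_lt_pow_right₀ hcon (by omega)
  exact absurd h6 (not_le.2 h7)

end Pool.Agent.RefW
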