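import Mathlib

/-!
RW17. The denominator ideal of the minimal polynomial.
Proof: `f = minpoly k x`. Let `𝔞 = {a | a * f.coeff i is integral for all i}`, a nonzero ideal of
`𝓞 k`, and `𝔟 = {b ∈ 𝓞 K | b * x ∈ 𝓞 K}`, a nonzero ideal of `𝓞 K`. For `b ∈ 𝔟` the norm from
`K[X]` to `k[X]` of `b X - b x`, i.e. the characteristic polynomial of ..., is
`norm (b) * f` (as `K = k(x)`), and it has integral coefficients (they are polynomials with integer
coefficients in the conjugates of `b` and `b x`). So `norm_{K/k} b ∈ 𝔞`, `Ideal.spanNorm 𝔟 ≤ 𝔞`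
(`= Ideal.relNorm`), `Ideal.absNorm 𝔞 ≤ absNorm (relNorm 𝔟) = absNorm 𝔟` (`Ideal.absNorm_relNorm`).
Finally `absNorm 𝔟 * ∏ σ, max 1 ‖σ x‖ = mulHeight₁ x`: `NumberField.mulHeight₁_eq`; for the finite
places write `x = c / a` with `a, c ∈ 𝓞 K`; `𝔟 * (a, c) = (a)` and the product over the finite
places of `max ‖a‖ ‖c‖` is `1 / absNorm (a, c)` (see the end of `Pool/Agent/SST/HeightQ.lean` and
Mathlib.NumberTheory.Height.NumberField; SST/HeightK.lean has the product over the infinite
places). Only `≤` is needed.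
-/

open Polynomial NumberField
open scoped Classical

namespace Pool.Agent.RefW

/-- Products over the infinite places as products over the complex embeddings. -/
theorem denIdeal_prod_infinite (K : Type) [Field K] [NumberField K] (F : InfinitePlace K → ℝ) :
    ∏ v : InfinitePlace K, F v ^ v.mult = ∏ σ : K →+* ℂ, F (InfinitePlace.mk σ) := by
  rw [← Finset.prod_fiberwise Finset.univ InfinitePlace.mk (fun φ => F (InfinitePlace.mk φ))]
  refine Finset.prod_congr rfl fun v _ => ?_
  have h1 : ∀ φ ∈ ({φ | InfinitePlace.mk φ = v} : Finset (K →+* ℂ)),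
      F (InfinitePlace.mk φ) = F v := by
    intro φ hφ
    rw [(Finset.mem_filter.mp hφ).2]
  rw [Finset.prod_congr rfl h1, Finset.prod_const, InfinitePlace.card_filter_mk_eq]

/-- The minimal polynomial of a generator as a product over the embeddings. -/
theorem denIdeal_minpoly {k : Type} [Field k] [NumberField k] {K : Type} [Field K] [NumberField K]
    [Algebra k K] (x : K) (hx : IntermediateField.adjoin k {x} = ⊤) :
    (minpoly k x).map (algebraMap k (AlgebraicClosure k)) =
      ∏ σ : K →ₐ[k] AlgebraicClosure k, (X - C (σ x)) := by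
  have hint : IsIntegral k x := Algebra.IsIntegral.isIntegral x
  have hinj : Function.Injective fun σ : K →ₐ[k] AlgebraicClosure k => σ x := by
    intro σ τ h
    have h1 : ∀ y : K, y ∈ IntermediateField.adjoin k {x} → σ y = τ y := by
      intro y hy
      induction hy using IntermediateField.adjoin_induction with
      | mem y hy =>
        rw [Set.mem_singleton_iff] at hy
        rw [hy]
        exact h
      | algebraMap a => simp
      | add a b _ _ ha hb => rw [map_add, map_add, ha, hb]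
      | inv a _ ha => rw [map_inv₀, map_inv₀, ha]
      | mul a b _ _ ha hb => rw [map_mul, map_mul, ha, hb]
    ext y
    exact h1 y (by rw [hx]; exact IntermediateField.mem_top)
  refine Polynomial.eq_of_monic_of_dvd_of_natDegree_le ?_ ?_ ?_ ?_
  · exact Polynomial.monic_prod_of_monic _ _ fun σ _ => monic_X_sub_C _
  · exact (minpoly.monic hint).map _
  · refine Finset.prod_dvd_of_coprime ?_ ?_
    · intro σ _ τ _ hne
      exact Polynomial.isCoprime_X_sub_C_of_isUnit_sub
        (isUnit_iff_ne_zero.2 (sub_ne_zero.2 fun h => hne (hinj h)))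
    · intro σ _
      rw [Polynomial.dvd_iff_isRoot, Polynomial.IsRoot.def, Polynomial.eval_map,
        ← Polynomial.aeval_def, Polynomial.aeval_algHom_apply, minpoly.aeval, map_zero]
  · rw [(minpoly.monic hint).natDegree_map, Polynomial.natDegree_prod_of_monic _ _
      fun σ _ => monic_X_sub_C _]
    simp only [Polynomial.natDegree_X_sub_C, Finset.sum_const, smul_eq_mul, mul_one,
      Finset.card_univ]
    rw [AlgHom.card, ← IntermediateField.adjoin.finrank hint, hx, IntermediateField.finrank_top']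

/-- Integrality of the coefficients of `norm b * minpoly x` when `b` and `b x` are integral. -/
theorem denIdeal_integral {k : Type} [Field k] [NumberField k] {K : Type} [Field K] [NumberField K]
    [Algebra k K] (x : K) (hx : IntermediateField.adjoin k {x} = ⊤) (b : K)
    (hb : IsIntegral ℤ b) (hbx : IsIntegral ℤ (b * x)) (i : ℕ) :
    IsIntegral ℤ (Algebra.norm k b * (minpoly k x).coeff i) := by
  have h1 : (C (Algebra.norm k b) * minpoly k x).map (algebraMap k (AlgebraicClosure k)) =
      ∏ σ : K →ₐ[k] AlgebraicClosure k, (C (σ b) * X - C (σ (b * x))) := by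
    rw [Polynomial.map_mul, Polynomial.map_C, denIdeal_minpoly x hx,
      Algebra.norm_eq_prod_embeddings k (AlgebraicClosure k) b, map_prod, ← Finset.prod_mul_distrib]
    refine Finset.prod_congr rfl fun σ _ => ?_
    rw [map_mul, C_mul]
    ring
  have h2 : (∏ σ : K →ₐ[k] AlgebraicClosure k, (C (σ b) * X - C (σ (b * x)))) ∈
      Polynomial.lifts (algebraMap (integralClosure ℤ (AlgebraicClosure k)) (AlgebraicClosure k)) := by
    refine Subsemiring.prod_mem _ fun σ _ => ?_
    refine ⟨C ⟨σ b, hb.map σ.toRingHom.toIntAlgHom⟩ * X -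
      C ⟨σ (b * x), hbx.map σ.toRingHom.toIntAlgHom⟩, ?_⟩
    simp only [Polynomial.coe_mapRingHom, Polynomial.map_sub, Polynomial.map_mul, Polynomial.map_C,
      Polynomial.map_X]
    rfl
  rw [← h1, Polynomial.lifts_iff_coeff_lifts] at h2
  obtain ⟨c, hc⟩ := h2 i
  rw [Polynomial.coeff_map, Polynomial.coeff_C_mul] at hc
  have h3 : IsIntegral ℤ (algebraMap k (AlgebraicClosure k)
      (Algebra.norm k b * (minpoly k x).coeff i)) := by
    rw [← hc]
    exact c.2
  exact (isIntegral_algebraMap_iff (algebraMap k (AlgebraicClosure k)).injective).1 h3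

/-- The denominator ideal of an element. -/
def denIdealOf {K : Type} [Field K] [NumberField K] (x : K) : Ideal (𝓞 K) where
  carrier := {b | ∃ t : 𝓞 K, (t : K) = (b : K) * x}
  add_mem' := by
    rintro a b ⟨s, hs⟩ ⟨t, ht⟩
    refine ⟨s + t, ?_⟩
    have e1 : ((s + t : 𝓞 K) : K) = (s : K) + (t : K) := rfl
    have e2 : ((a + b : 𝓞 K) : K) = (a : K) + (b : K) := rfl
    rw [e1, e2, hs, ht]
    ring
  zero_mem' := ⟨0, by simp⟩
  smul_mem' := by
    rintro c b ⟨t, ht⟩
    refine ⟨c * t, ?_⟩
    have e1 : ((c * t : 𝓞 K) : K) = (c : K) * (t : K) := rfl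
    have e2 : ((c • b : 𝓞 K) : K) = (c : K) * (b : K) := rfl
    rw [e1, e2, ht]
    ring

theorem denIdeal_norm_le {K : Type} [Field K] [NumberField K] (x : K) :
    denIdealOf x ≠ ⊥ ∧ (Ideal.absNorm (denIdealOf x) : ℝ) * ∏ σ : K →+* ℂ, max 1 ‖σ x‖ ≤
      Height.mulHeight₁ x := by
  obtain ⟨c, a, ha, hxca⟩ := IsFractionRing.div_surjective (𝓞 K) x
  have ha0 : a ≠ 0 := nonZeroDivisors.ne_zero ha
  have haK : (a : K) ≠ 0 := by
    intro h
    exact ha0 (by exact_mod_cast h)
  have hcK : (c : K) = (a : K) * x := by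
    rw [← hxca]
    exact (mul_div_cancel₀ _ haK).symm
  have hdvd : Ideal.span {c, a} ∣ Ideal.span {a} := by
    rw [Ideal.dvd_iff_le, Ideal.span_singleton_le_iff_mem]
    exact Ideal.subset_span (by simp)
  obtain ⟨J, hJ⟩ := hdvd
  have hane : Ideal.span {a} ≠ ⊥ := by
    rw [Ne, Ideal.span_singleton_eq_bot]
    exact ha0
  have hJ0 : J ≠ ⊥ := by
    rintro rfl
    apply hane
    rw [hJ, Ideal.mul_bot]
  have hJle : J ≤ denIdealOf x := by
    intro j hj
    have h1 : c * j ∈ Ideal.span {a} := by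
      rw [hJ]
      exact Ideal.mul_mem_mul (Ideal.subset_span (by simp)) hj
    obtain ⟨t, ht⟩ := Ideal.mem_span_singleton.1 h1
    refine ⟨t, ?_⟩
    have h2 : (c : K) * (j : K) = (a : K) * (t : K) := by
      have := congrArg (fun z : 𝓞 K => (z : K)) ht
      simpa using this
    rw [hcK] at h2
    apply mul_left_cancel₀ haK
    rw [← h2]
    ring
  have hden0 : denIdealOf x ≠ ⊥ := by
    intro h
    apply hJ0
    rw [eq_bot_iff, ← h]
    exact hJle
  refine ⟨hden0, ?_⟩
  have hJn : Ideal.absNorm J ≠ 0 := by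
    rw [Ne, Ideal.absNorm_eq_zero_iff]
    exact hJ0
  have h1 : Ideal.absNorm (denIdealOf x) ≤ Ideal.absNorm J :=
    Nat.le_of_dvd (Nat.pos_of_ne_zero hJn) (Ideal.absNorm_dvd_absNorm_of_le hJle)
  have h2 : (Ideal.absNorm (Ideal.span {c, a}) : ℝ) * Ideal.absNorm J =
      ∏ σ : K →+* ℂ, ‖σ (a : K)‖ := by
    rw [← Nat.cast_mul, ← map_mul, ← hJ, Ideal.absNorm_span_singleton]
    have h3 := InfinitePlace.prod_eq_abs_norm (a : K)
    rw [denIdeal_prod_infinite K (fun v => v (a : K))] at h3
    simp only [InfinitePlace.apply] at h3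
    rw [h3, ← Algebra.coe_norm_int]
    push_cast
    rw [Nat.cast_natAbs, Int.cast_abs]
  have hne : (![c, a] : Fin 2 → 𝓞 K) ≠ 0 := fun h => ha0 (congrFun h 1)
  have hne' : (![(c : K), (a : K)] : Fin 2 → K) ≠ 0 := fun h => haK (congrFun h 1)
  have hfin := absNorm_mul_finprod_finitePlace_eq_one hne
  have hrange : Set.range ![c, a] = {c, a} := by
    simp [Matrix.range_cons, Matrix.range_empty, Set.pair_comm]
  have hcoe : (fun i => ((![c, a] i : 𝓞 K) : K)) = ![(c : K), (a : K)] := by
    funext i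
    fin_cases i <;> rfl
  have hfin' : (Ideal.absNorm (Ideal.span {c, a}) : ℝ) *
      ∏ᶠ v : FinitePlace K, ⨆ i, v (![(c : K), (a : K)] i) = 1 := by
    rw [← hcoe, ← hrange]
    exact hfin
  have hH : Height.mulHeight₁ x = Height.mulHeight ![(c : K), (a : K)] := by
    rw [← Height.mulHeight₁_div_eq_mulHeight, hcK, mul_div_cancel_left₀ _ haK]
  rw [mulHeight_eq hne'] at hH
  have hsup : ∀ v : InfinitePlace K, (⨆ i, v (![(c : K), (a : K)] i)) =
      v (a : K) * max 1 (v x) := by
    intro v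
    have h1 : (⨆ i, v (![(c : K), (a : K)] i)) = max (v (c : K)) (v (a : K)) := by
      refine le_antisymm (ciSup_le fun i => ?_) ?_
      · fin_cases i
        · exact le_max_left _ _
        · exact le_max_right _ _
      · have hbd : BddAbove (Set.range fun i => v (![(c : K), (a : K)] i)) :=
          Set.Finite.bddAbove (Set.finite_range _)
        exact max_le (le_ciSup hbd 0) (le_ciSup hbd 1)
    rw [h1, hcK, map_mul, mul_max_of_nonneg _ _ (apply_nonneg v (a : K)), mul_one, max_comm]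
  have hP : ∏ v : InfinitePlace K, (⨆ i, v (![(c : K), (a : K)] i)) ^ v.mult =
      (∏ σ : K →+* ℂ, ‖σ (a : K)‖) * ∏ σ : K →+* ℂ, max 1 ‖σ x‖ := by
    rw [denIdeal_prod_infinite K (fun v => ⨆ i, v (![(c : K), (a : K)] i)),
      ← Finset.prod_mul_distrib]
    refine Finset.prod_congr rfl fun σ _ => ?_
    rw [hsup, InfinitePlace.apply, InfinitePlace.apply]
  rw [hH, hP, ← h2]
  set Q : ℝ := ∏ᶠ v : FinitePlace K, ⨆ i, v (![(c : K), (a : K)] i)
  set M : ℝ := ∏ σ : K →+* ℂ, max 1 ‖σ x‖
  have hM : 0 ≤ M := Finset.prod_nonneg fun σ _ => le_trans zero_le_one (le_max_left _ _)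
  have h4 : (Ideal.absNorm (Ideal.span {c, a}) : ℝ) * Ideal.absNorm J * M * Q =
      Ideal.absNorm J * M := by
    linear_combination (Ideal.absNorm J : ℝ) * M * hfin'
  rw [h4]
  exact mul_le_mul_of_nonneg_right (by exact_mod_cast h1) hM

theorem exists_den_ideal {k : Type} [Field k] [NumberField k] {K : Type} [Field K] [NumberField K]
    [Algebra k K] (x : K) (hx : IntermediateField.adjoin k {x} = ⊤) :
    ∃ 𝔞 : Ideal (𝓞 k), 𝔞 ≠ ⊥ ∧
      (∀ a ∈ 𝔞, ∀ i, ∃ b : 𝓞 k, (b : k) = (a : k) * (minpoly k x).coeff i) ∧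
      (Ideal.absNorm 𝔞 : ℝ) * ∏ σ : K →+* ℂ, max 1 ‖σ x‖ ≤ Height.mulHeight₁ x := by
  obtain ⟨hden0, hden⟩ := denIdeal_norm_le x
  refine ⟨Ideal.relNorm (𝓞 k) (denIdealOf x), ?_, ?_, ?_⟩
  · rw [Ne, Ideal.relNorm_eq_bot_iff]
    exact hden0
  · intro a ha i
    rw [Ideal.relNorm_apply] at ha
    induction ha using Submodule.span_induction with
    | mem y hy =>
      obtain ⟨b, hb, rfl⟩ := hy
      obtain ⟨t, ht⟩ := hb
      have h1 : (((Algebra.intNorm (𝓞 k) (𝓞 K)) b : 𝓞 k) : k) = Algebra.norm k (b : K) :=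
        Algebra.algebraMap_intNorm (A := 𝓞 k) (K := k) (L := K) b
      have h2 := denIdeal_integral x hx (b : K) (RingOfIntegers.isIntegral_coe b)
        (by rw [← ht]; exact RingOfIntegers.isIntegral_coe t) i
      refine ⟨⟨_, h2⟩, ?_⟩
      rw [h1]
      rfl
    | zero => exact ⟨0, by simp⟩
    | add y z _ _ hy hz =>
      obtain ⟨s, hs⟩ := hy
      obtain ⟨t, ht⟩ := hz
      refine ⟨s + t, ?_⟩
      have e1 : ((s + t : 𝓞 k) : k) = (s : k) + (t : k) := rfl
      have e2 : ((y + z : 𝓞 k) : k) = (y : k) + (z : k) := rfl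
      rw [e1, e2, hs, ht]
      ring
    | smul r y _ hy =>
      obtain ⟨s, hs⟩ := hy
      refine ⟨r * s, ?_⟩
      have e1 : ((r * s : 𝓞 k) : k) = (r : k) * (s : k) := rfl
      have e2 : ((r • y : 𝓞 k) : k) = (r : k) * (y : k) := rfl
      rw [e1, e2, hs]
      ring
  · rw [Ideal.absNorm_relNorm]
    exact hden

end Pool.Agent.RefW
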