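import Pool.Agent.RefW.Defs
import Mathlib

/-!
RW11. The roots of the image of `F` are the conjugates of `x`.
Proof: the polynomial `f = ∑ F i X ^ i` over `k` is nonzero of degree at most `n = deg (minpoly k x)`
and has the root `x`, so it is `C (F n) * minpoly k x`, `F n ≠ 0`. Give `A` the `k`-algebra
structure `ρ.toAlgebra`; the `k`-algebra maps `K → A` are the `σ` with `σ ∘ algebraMap = ρ`; there
are `n` of them, separated by their values at `x`, which are roots of the image of `minpoly k x`.
-/

open Polynomial NumberField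
open scoped Classical

namespace Pool.Agent.RefW

private theorem fibre_poly {k : Type} [Field k] [NumberField k] {n : ℕ} {F : Fin (n + 1) → 𝓞 k}
    (hF : F ≠ 0) {K : Type} [Field K] [NumberField K] [Algebra k K] {x : K} (h : RootOf F K x) :
    (∑ i, Polynomial.C (F i : k) * X ^ (i : ℕ)) =
      Polynomial.C (F (Fin.last n) : k) * minpoly k x ∧ (minpoly k x).natDegree = n := by
  have hfd : FiniteDimensional k K := FiniteDimensional.right ℚ k K
  have hint : IsIntegral k x := IsIntegral.of_finite k x
  have hdeg : (minpoly k x).natDegree = n := by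
    rw [← IntermediateField.adjoin.finrank hint, h.gen, IntermediateField.finrank_top', h.deg]
  refine ⟨?_, hdeg⟩
  set f : k[X] := ∑ i : Fin (n + 1), Polynomial.C (F i : k) * X ^ (i : ℕ) with hf
  have hcoeff : ∀ i : Fin (n + 1), f.coeff i = (F i : k) := by
    intro i
    rw [hf, finsetSum_coeff]
    simp only [coeff_C_mul, coeff_X_pow]
    rw [Finset.sum_eq_single i]
    · simp
    · intro b _ hb
      have : (i : ℕ) ≠ (b : ℕ) := fun h' => hb (Fin.ext h'.symm)
      simp [this]
    · intro h'
      exact absurd (Finset.mem_univ i) h'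
  have hfdeg : f.natDegree ≤ n := by
    rw [hf]
    refine natDegree_sum_le_of_forall_le _ _ fun i _ => ?_
    refine (natDegree_C_mul_X_pow_le _ _).trans ?_
    have := i.2
    omega
  have hroot : aeval x f = 0 := by
    rw [hf, map_sum]
    simpa using h.root
  obtain ⟨g, hg⟩ := minpoly.dvd k x hroot
  have hmon : (minpoly k x).Monic := minpoly.monic hint
  have hf0 : f ≠ 0 := by
    intro h0
    apply hF
    funext i
    have := hcoeff i
    rw [h0, coeff_zero] at this
    exact (RingOfIntegers.ext (by simpa using this.symm))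
  have hg0 : g ≠ 0 := by
    rintro rfl
    exact hf0 (by rw [hg, mul_zero])
  have hgdeg : g.natDegree = 0 := by
    have := congrArg natDegree hg
    rw [hmon.natDegree_mul' hg0, hdeg] at this
    omega
  obtain ⟨c, rfl⟩ : ∃ c, g = C c := ⟨g.coeff 0, eq_C_of_natDegree_eq_zero hgdeg⟩
  have hc : c = (F (Fin.last n) : k) := by
    have h1 := hcoeff (Fin.last n)
    rw [hg, mul_comm, coeff_C_mul, Fin.val_last] at h1
    rw [← h1]
    have h2 := hmon.coeff_natDegree
    rw [hdeg] at h2
    rw [h2, mul_one]
  rw [hg, hc, mul_comm]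

theorem exists_fibre_equiv {k : Type} [Field k] [NumberField k] {n : ℕ} {F : Fin (n + 1) → 𝓞 k}
    (hF : F ≠ 0) {K : Type} [Field K] [NumberField K] [Algebra k K] {x : K} (h : RootOf F K x)
    {A : Type} [Field A] [IsAlgClosed A] (ρ : k →+* A) :
    ∃ e : Fin n ≃ {σ : K →+* A // σ.comp (algebraMap k K) = ρ},
      ∑ i, Polynomial.C (ρ (F i : k)) * X ^ (i : ℕ) =
        Polynomial.C (ρ (F (Fin.last n) : k)) * ∏ l, (X - Polynomial.C ((e l).1 x)) := by
  have hfd : FiniteDimensional k K := FiniteDimensional.right ℚ k K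
  obtain ⟨hpoly, hdeg⟩ := fibre_poly hF h
  have hint : IsIntegral k x := IsIntegral.of_finite k x
  have hmon : (minpoly k x).Monic := minpoly.monic hint
  let _ := ρ.toAlgebra
  let S := {σ : K →+* A // σ.comp (algebraMap k K) = ρ}
  let φ : (K →ₐ[k] A) ≃ S :=
    { toFun := fun σ => ⟨(σ : K →+* A), by
        ext a
        exact σ.commutes a⟩
      invFun := fun σ => ⟨σ.1, fun a => by
        have := congrArg (fun f : k →+* A => f a) σ.2
        exact this⟩
      left_inv := fun σ => by ext; rfl
      right_inv := fun σ => by ext; rfl }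
  have hcard : Fintype.card (K →ₐ[k] A) = n := by
    rw [AlgHom.card, h.deg]
  let e0 : Fin n ≃ (K →ₐ[k] A) := (Fintype.equivFinOfCardEq hcard).symm
  refine ⟨e0.trans φ, ?_⟩
  have hval : ∀ l, ((e0.trans φ) l).1 x = e0 l x := fun l => rfl
  simp only [hval]
  have hinj : Function.Injective fun l => e0 l x := by
    intro l l' hll
    apply e0.injective
    have h1 : ∀ y : (⊤ : IntermediateField k K), e0 l y = e0 l' y := by
      intro y
      have h2 : (e0 l).comp (⊤ : IntermediateField k K).val =
          (e0 l').comp (⊤ : IntermediateField k K).val := by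
        apply IntermediateField.algHom_ext_of_eq_adjoin k h.gen.symm
        intro z hz
        obtain rfl : z = x := hz
        exact hll
      exact congrArg (fun f : (⊤ : IntermediateField k K) →ₐ[k] A => f y) h2
    ext y
    exact h1 ⟨y, IntermediateField.mem_top⟩
  -- the minimal polynomial splits
  set p : A[X] := (minpoly k x).map ρ with hp
  have hpmon : p.Monic := hmon.map ρ
  have hpdeg : p.natDegree = n := by rw [hp, natDegree_map, hdeg]
  set s : Multiset A := Finset.univ.val.map fun l => e0 l x with hs
  have hnodup : s.Nodup := Multiset.Nodup.map hinj Finset.univ.nodup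
  have hle : s ≤ p.roots := by
    rw [Multiset.le_iff_subset hnodup]
    intro a ha
    rw [hs, Multiset.mem_map] at ha
    obtain ⟨l, _, rfl⟩ := ha
    rw [mem_roots hpmon.ne_zero, IsRoot.def, hp, eval_map]
    have h1 : eval₂ (algebraMap k A) (e0 l x) (minpoly k x) = 0 := by
      rw [← aeval_def, aeval_algHom_apply, minpoly.aeval, map_zero]
    exact h1
  have hdvd : (s.map fun a => X - C a).prod ∣ p :=
    (Multiset.prod_X_sub_C_dvd_iff_le_roots hpmon.ne_zero s).2 hle
  have hprod : (s.map fun a => X - C a).prod = ∏ l, (X - C (e0 l x)) := by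
    rw [hs, Multiset.map_map]
    rfl
  have hpeq : p = ∏ l, (X - C (e0 l x)) := by
    rw [← hprod]
    refine eq_of_monic_of_dvd_of_natDegree_le ?_ hpmon hdvd ?_
    · rw [hprod]; exact monic_prod_X_sub_C _ _
    · rw [hprod, hpdeg, natDegree_prod_of_monic _ _ (fun i _ => monic_X_sub_C _)]
      simp
  have h3 : (∑ i : Fin (n + 1), Polynomial.C (ρ (F i : k)) * X ^ (i : ℕ)) =
      (∑ i : Fin (n + 1), Polynomial.C (F i : k) * X ^ (i : ℕ)).map ρ := by
    rw [Polynomial.map_sum]
    simp
  rw [h3, hpoly, Polynomial.map_mul, map_C, ← hp, hpeq]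

end Pool.Agent.RefW
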