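import Pool.Agent.RefW.Defs
import Mathlib

/-!
RW10. The chordal distances satisfy `DistOK`.
-/

open Polynomial NumberField
open scoped Classical

namespace Pool.Agent.RefW

private theorem dist_aux {A : Type} [NormedField A] (δ : A → OnePoint A → ℝ) (N : A → ℝ)
    (h1 : ∀ x, max 1 ‖x‖ ≤ N x) (h2 : ∀ x, N x ≤ 2 * max 1 ‖x‖)
    (hi : ∀ x, δ x OnePoint.infty = 1 / N x)
    (hs : ∀ x z : A, δ x (z : OnePoint A) = ‖x - z‖ / (N x * N z))
    (hN : ∀ x z : A, ‖x - z‖ ≤ N x * N z) : DistOK δ := by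
  have hN1 : ∀ x, 1 ≤ N x := fun x => (le_max_left _ _).trans (h1 x)
  have hN0 : ∀ x, 0 < N x := fun x => lt_of_lt_of_le one_pos (hN1 x)
  have hNle : ∀ x, N x ≤ 2 + 2 * ‖x‖ := by
    intro x
    have h3 : max 1 ‖x‖ ≤ 1 + ‖x‖ := max_le (by linarith [norm_nonneg x]) (by linarith)
    have := h2 x
    linarith
  have hsepi : ∀ w : A, ∃ c : ℝ, 0 < c ∧ ∀ x, c ≤ max (δ x OnePoint.infty) (δ x (w : OnePoint A)) := by
    intro w
    have hw := hN0 w
    have hK : 0 < (4 + 2 * ‖w‖) * N w := by
      have := norm_nonneg w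
      positivity
    refine ⟨1 / ((4 + 2 * ‖w‖) * N w), by positivity, fun x => ?_⟩
    have hx := hN0 x
    have hxw : ‖x‖ ≤ ‖w‖ + ‖x - w‖ := by
      have := norm_add_le w (x - w)
      rwa [add_sub_cancel] at this
    have hx2 := hNle x
    rcases le_total ‖x - w‖ 1 with h | h
    · refine le_max_of_le_left ?_
      rw [hi, div_le_div_iff₀ hK hx]
      have h4 : N x ≤ 4 + 2 * ‖w‖ := by linarith
      have h5 : (4 + 2 * ‖w‖) * 1 ≤ (4 + 2 * ‖w‖) * N w :=
        mul_le_mul_of_nonneg_left (hN1 w) (by linarith [norm_nonneg w])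
      linarith
    · refine le_max_of_le_right ?_
      rw [hs, div_le_div_iff₀ hK (by positivity)]
      have h4 : N x ≤ ‖x - w‖ * (4 + 2 * ‖w‖) := by
        have h6 : 2 + 2 * ‖w‖ ≤ ‖x - w‖ * (2 + 2 * ‖w‖) :=
          le_mul_of_one_le_left (by linarith [norm_nonneg w]) h
        linarith
      have h5 := mul_le_mul_of_nonneg_right h4 hw.le
      linarith
  refine ⟨?_, ?_, ?_, ?_, ?_⟩
  · intro x θ
    induction θ using OnePoint.rec with
    | infty =>
      rw [hi]
      exact (div_pos one_pos (hN0 x)).le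
    | coe z =>
      rw [hs]
      exact div_nonneg (norm_nonneg _) (mul_pos (hN0 x) (hN0 z)).le
  · intro x θ
    induction θ using OnePoint.rec with
    | infty =>
      rw [hi, div_le_one (hN0 x)]
      exact hN1 x
    | coe z =>
      rw [hs, div_le_one (mul_pos (hN0 x) (hN0 z))]
      exact hN x z
  · refine ⟨2, fun x => ?_⟩
    rw [hi, mul_one_div, le_div_iff₀ (hN0 x), one_mul]
    exact h2 x
  · intro z
    refine ⟨2 * N z, fun x => ?_⟩
    have hx := hN0 x
    have hz := hN0 z
    rw [hs, mul_div_assoc', le_div_iff₀ (mul_pos hx hz)]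
    have h3 := h2 x
    have h4 : (‖x - z‖ * N z) * N x ≤ (‖x - z‖ * N z) * (2 * max 1 ‖x‖) :=
      mul_le_mul_of_nonneg_left h3 (mul_nonneg (norm_nonneg _) hz.le)
    calc ‖x - z‖ * (N x * N z) = (‖x - z‖ * N z) * N x := by ring
      _ ≤ (‖x - z‖ * N z) * (2 * max 1 ‖x‖) := h4
      _ = 2 * N z * max 1 ‖x‖ * ‖x - z‖ := by ring
  · intro α β hαβ
    induction α using OnePoint.rec with
    | infty =>
      induction β using OnePoint.rec with
      | infty => exact absurd rfl hαβ
      | coe w => exact hsepi w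
    | coe z =>
      induction β using OnePoint.rec with
      | infty =>
        obtain ⟨c, hc, h⟩ := hsepi z
        exact ⟨c, hc, fun x => by rw [max_comm]; exact h x⟩
      | coe w =>
        have hne : z ≠ w := fun h => hαβ (by rw [h])
        have hr : 0 < ‖z - w‖ := norm_pos_iff.mpr (sub_ne_zero.mpr hne)
        have hz := hN0 z
        have hw := hN0 w
        -- the constant
        set K : ℝ := 2 + 4 * (1 + ‖z‖ + ‖w‖) / ‖z - w‖ with hKdef
        have hK : 0 < K := by
          have := norm_nonneg z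
          have := norm_nonneg w
          positivity
        have hKzw : 0 < K * (N z * N w) := by positivity
        refine ⟨1 / (K * (N z * N w)), by positivity, fun x => ?_⟩
        have hx := hN0 x
        have hx2 := hNle x
        have hxz : ‖x‖ ≤ ‖z‖ + ‖x - z‖ := by
          have := norm_add_le z (x - z)
          rwa [add_sub_cancel] at this
        have hxw : ‖x‖ ≤ ‖w‖ + ‖x - w‖ := by
          have := norm_add_le w (x - w)
          rwa [add_sub_cancel] at this
        have htri : ‖z - w‖ ≤ ‖x - z‖ + ‖x - w‖ := by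
          have := norm_add_le (z - x) (x - w)
          rw [sub_add_sub_cancel, norm_sub_rev z x] at this
          exact this
        have main : ∀ m v : ℝ, ‖z - w‖ / 2 ≤ m → 0 ≤ v → v ≤ ‖z‖ + ‖w‖ → ‖x‖ ≤ v + m →
            N x ≤ m * K := by
          intro m v hm hv hv2 hxm
          have h3 : 1 + ‖z‖ + ‖w‖ ≤ m * (2 * (1 + ‖z‖ + ‖w‖) / ‖z - w‖) := by
            have h4 : 0 ≤ 2 * (1 + ‖z‖ + ‖w‖) / ‖z - w‖ := by
              have := norm_nonneg z
              have := norm_nonneg w
              positivity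
            have h5 := mul_le_mul_of_nonneg_right hm h4
            have h6 : ‖z - w‖ / 2 * (2 * (1 + ‖z‖ + ‖w‖) / ‖z - w‖) = 1 + ‖z‖ + ‖w‖ := by
              field_simp
            linarith
          have h7 : m * K = 2 * m + 2 * (m * (2 * (1 + ‖z‖ + ‖w‖) / ‖z - w‖)) := by
            rw [hKdef]
            ring
          rw [h7]
          linarith
        have hzw1 : N w ≤ N z * N w := le_mul_of_one_le_left hw.le (hN1 z)
        have hzw2 : N z ≤ N z * N w := le_mul_of_one_le_right hz.le (hN1 w)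
        rcases le_total (‖z - w‖ / 2) ‖x - z‖ with h | h
        · refine le_max_of_le_left ?_
          rw [hs, div_le_div_iff₀ hKzw (mul_pos hx hz), one_mul]
          have h3 := main ‖x - z‖ ‖z‖ h (norm_nonneg z) (by linarith [norm_nonneg w]) hxz
          calc N x * N z ≤ (‖x - z‖ * K) * (N z * N w) :=
                mul_le_mul h3 hzw2 hz.le (mul_nonneg (norm_nonneg _) hK.le)
            _ = ‖x - z‖ * (K * (N z * N w)) := by ring
        · refine le_max_of_le_right ?_
          rw [hs, div_le_div_iff₀ hKzw (mul_pos hx hw), one_mul]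
          have h3 := main ‖x - w‖ ‖w‖ (by linarith) (norm_nonneg w)
            (by linarith [norm_nonneg z]) hxw
          calc N x * N w ≤ (‖x - w‖ * K) * (N z * N w) :=
                mul_le_mul h3 hzw1 hw.le (mul_nonneg (norm_nonneg _) hK.le)
            _ = ‖x - w‖ * (K * (N z * N w)) := by ring

theorem distOK_chord : DistOK SST.chord := by
  refine dist_aux SST.chord (fun x => Real.sqrt (1 + ‖x‖ ^ 2)) ?_ ?_ (fun x => rfl)
    (fun x z => rfl) ?_
  · intro x
    refine max_le ?_ ?_
    · exact Real.one_le_sqrt.mpr (by nlinarith [norm_nonneg x])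
    · exact Real.le_sqrt_of_sq_le (by linarith)
  · intro x
    have h1 : (1 : ℝ) ≤ max 1 ‖x‖ := le_max_left _ _
    have h2 : ‖x‖ ≤ max 1 ‖x‖ := le_max_right _ _
    apply Real.sqrt_le_iff.mpr
    refine ⟨by linarith, ?_⟩
    nlinarith [norm_nonneg x]
  · intro x z
    show ‖x - z‖ ≤ Real.sqrt (1 + ‖x‖ ^ 2) * Real.sqrt (1 + ‖z‖ ^ 2)
    rw [← Real.sqrt_mul (by positivity)]
    apply Real.le_sqrt_of_sq_le
    have h1 := norm_sub_le x z
    have h2 := norm_nonneg (x - z)
    have h3 : ‖x - z‖ ^ 2 ≤ (‖x‖ + ‖z‖) ^ 2 := by gcongr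
    nlinarith [sq_nonneg (‖x‖ * ‖z‖ - 1)]

theorem distOK_chordM {A : Type} [NormedField A] [IsUltrametricDist A] :
    DistOK (SST.chordM (A := A)) := by
  refine dist_aux SST.chordM (fun x => max 1 ‖x‖) (fun x => le_rfl) ?_ (fun x => rfl)
    (fun x z => rfl) ?_
  · intro x
    have h1 : (1 : ℝ) ≤ max 1 ‖x‖ := le_max_left _ _
    show max 1 ‖x‖ ≤ 2 * max 1 ‖x‖
    linarith
  · intro x z
    show ‖x - z‖ ≤ max 1 ‖x‖ * max 1 ‖z‖
    have hx : (1 : ℝ) ≤ max 1 ‖x‖ := le_max_left _ _
    have hz : (1 : ℝ) ≤ max 1 ‖z‖ := le_max_left _ _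
    have h1 : ‖x - z‖ ≤ max ‖x‖ ‖z‖ := by
      have := IsUltrametricDist.norm_add_le_max x (-z)
      rwa [norm_neg, ← sub_eq_add_neg] at this
    refine h1.trans (max_le ?_ ?_)
    · exact (le_max_right 1 ‖x‖).trans (le_mul_of_one_le_right (by linarith) hz)
    · exact (le_max_right 1 ‖z‖).trans (le_mul_of_one_le_left (by linarith) hx)

end Pool.Agent.RefW
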