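import Pool.Agent.RefW.Defs
import Mathlib

/-!
RW9. The local estimate at one embedding.
Put `M = ‖a‖ * ∏ l, max 1 ‖x l‖`.
(1) For `θ ∈ D`: `‖tcA θ j F‖ ≤ C * M * max over I of size n - j of ∏ l ∈ I, δ (x l) θ`: for
`θ = z` the Taylor coefficient is `± a` times the elementary symmetric function of degree `n - j`
of the `x l - z`, and `‖x l - z‖ ≤ C * max 1 ‖x l‖ * δ (x l) z`, `max 1 ‖x l‖ ≥ 1`; for `θ = ∞` it
is `F (n - j) = ± a * e_j (x)` and `1 ≤ C * max 1 ‖x l‖ * δ (x l) ∞`.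
(2) `G (x l) = ∑ j, tcA z j G * (x l - z) ^ j` (Taylor), resp. `∑ j, G (n - j) * x l ^ (n - j)`, so
`‖G (x l)‖ ≤ C * E * M * (max 1 ‖x l‖) ^ n * ∏ l', max (δ (x l) θ) (δ (x l') θ)` for every
`θ ∈ D`, since `(∏ l' ∈ I, δ (x l') θ) * (δ (x l) θ) ^ j ≤ ∏ l', max ..` for `I` of size `n - j`.
(3) Choose for each `l` the point `θ_l ∈ D` with `δ (x l) θ` minimal. For `θ ≠ θ_l` we have
`δ (x l) θ ≥ c` by `sep`, so the product over all `θ ∈ D` of `∏ l', max ..` is at least `c ^ ..`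
times the one for `θ_l`. Hence
`‖G (x l)‖ ≤ C * E * M * (max 1 ‖x l‖) ^ n * ∏ θ ∈ D, ∏ l', max (δ (x l) θ) (δ (x l') θ)`.
(4) Multiply over `l` and by `‖a‖ ^ n`; `min (-log u) (-log v) = -log (max u v)`.
-/

open Polynomial NumberField
open scoped Classical

namespace Pool.Agent.RefW

private lemma loc_taylor {A : Type} [Field A] {n : ℕ} (F : Fin (n + 1) → A) (x z : A) :
    ∑ i, F i * x ^ (i : ℕ) =
      ∑ j : Fin (n + 1), tcA (OnePoint.some z) j F * (x - z) ^ (j : ℕ) := by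
  have h1 : ∀ i : Fin (n + 1), F i * x ^ (i : ℕ) = ∑ j : Fin (n + 1),
      ((i : ℕ).choose j : A) * F i * z ^ ((i : ℕ) - j) * (x - z) ^ (j : ℕ) := by
    intro i
    have hx : x ^ (i : ℕ) = ((x - z) + z) ^ (i : ℕ) := by rw [sub_add_cancel]
    rw [hx, add_pow, Finset.mul_sum]
    rw [Fin.sum_univ_eq_sum_range
      (fun j => ((i : ℕ).choose j : A) * F i * z ^ ((i : ℕ) - j) * (x - z) ^ j) (n + 1)]
    have hsub : Finset.range ((i : ℕ) + 1) ⊆ Finset.range (n + 1) :=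
      Finset.range_mono (Nat.succ_le_of_lt i.2)
    rw [← Finset.sum_subset hsub]
    · refine Finset.sum_congr rfl fun j _ => ?_
      ring
    · intro j _ hj
      have : (i : ℕ) < j := by
        simpa using hj
      rw [Nat.choose_eq_zero_of_lt this]
      simp
  rw [Finset.sum_congr rfl fun i _ => h1 i, Finset.sum_comm]
  refine Finset.sum_congr rfl fun j _ => ?_
  simp only [tcA]
  rw [Finset.sum_mul]

private lemma loc_coef_some {A : Type} [Field A] {n : ℕ} (F : Fin (n + 1) → A) (a z : A)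
    (x : Fin n → A)
    (h : ∑ i, Polynomial.C (F i) * X ^ (i : ℕ) =
      Polynomial.C a * ∏ l, (X - Polynomial.C (x l))) (j : Fin (n + 1)) :
    tcA (OnePoint.some z) j F =
      a * ∑ t ∈ (Finset.univ : Finset (Fin n)).powersetCard (n - j), ∏ l ∈ t, (z - x l) := by
  have h2 := congrArg (fun P : A[X] => (P.comp (X + Polynomial.C z)).coeff j) h
  have hl : ((∑ i, Polynomial.C (F i) * X ^ (i : ℕ) : A[X]).comp
      (X + Polynomial.C z)).coeff j = tcA (OnePoint.some z) j F := by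
    simp only [tcA]
    rw [Polynomial.sum_comp, Polynomial.finsetSum_coeff]
    refine Finset.sum_congr rfl fun i _ => ?_
    rw [mul_comp, C_comp, pow_comp, X_comp, coeff_C_mul, coeff_X_add_C_pow]
    ring
  have hr : ((Polynomial.C a * ∏ l, (X - Polynomial.C (x l)) : A[X]).comp
      (X + Polynomial.C z)).coeff j =
      a * ∑ t ∈ (Finset.univ : Finset (Fin n)).powersetCard (n - j), ∏ l ∈ t, (z - x l) := by
    rw [mul_comp, C_comp, coeff_C_mul, Polynomial.prod_comp]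
    congr 1
    have h3 : (∏ l, (X - Polynomial.C (x l)).comp (X + Polynomial.C z) : A[X]) =
        ∏ l, (X + Polynomial.C (z - x l)) := by
      refine Finset.prod_congr rfl fun l _ => ?_
      rw [sub_comp, X_comp, C_comp, C_sub]
      ring
    rw [h3]
    have hj : (j : ℕ) ≤ (Finset.univ : Finset (Fin n)).card := by
      rw [Finset.card_univ, Fintype.card_fin]
      exact Nat.lt_succ_iff.mp j.2
    rw [Finset.prod_X_add_C_coeff _ _ hj]
    rw [Finset.card_univ, Fintype.card_fin]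
  rw [← hl, ← hr]
  exact h2

private lemma loc_coef_infty {A : Type} [Field A] {n : ℕ} (F : Fin (n + 1) → A) (a : A)
    (x : Fin n → A)
    (h : ∑ i, Polynomial.C (F i) * X ^ (i : ℕ) =
      Polynomial.C a * ∏ l, (X - Polynomial.C (x l))) (j : Fin (n + 1)) :
    tcA OnePoint.infty j F =
      a * ∑ t ∈ (Finset.univ : Finset (Fin n)).powersetCard j, ∏ l ∈ t, (- x l) := by
  have h0 := loc_coef_some F a 0 x h j.rev
  have h1 : tcA (OnePoint.some (0 : A)) j.rev F = F j.rev := by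
    simp only [tcA]
    rw [Finset.sum_eq_single j.rev]
    · simp
    · intro i _ hi
      rcases lt_or_gt_of_ne (fun h => hi (Fin.ext h) : (i : ℕ) ≠ (j.rev : ℕ)) with h' | h'
      · rw [Nat.choose_eq_zero_of_lt h']
        simp
      · have : (i : ℕ) - (j.rev : ℕ) ≠ 0 := by omega
        rw [zero_pow this, mul_zero]
    · intro h'
      exact absurd (Finset.mem_univ _) h'
  have h2 : tcA OnePoint.infty j F = F j.rev := rfl
  rw [h2, ← h1, h0]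
  have h3 : n - ((j.rev : Fin (n + 1)) : ℕ) = (j : ℕ) := by
    rw [Fin.val_rev]
    have := j.2
    omega
  rw [h3]
  simp

private lemma loc_dist_some {A : Type} [NormedField A] (δ : A → OnePoint A → ℝ) (hδ : DistOK δ)
    (z : A) : ∃ C : ℝ, 1 ≤ C ∧ ∀ x : A, ‖x - z‖ ≤ C * max 1 ‖x‖ * δ x (OnePoint.some z) := by
  obtain ⟨C, hC⟩ := hδ.some z
  refine ⟨max 1 C, le_max_left _ _, fun x => (hC x).trans ?_⟩
  have h1 := hδ.nonneg x (OnePoint.some z)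
  have h2 : (0 : ℝ) ≤ max 1 ‖x‖ := le_trans zero_le_one (le_max_left _ _)
  exact mul_le_mul_of_nonneg_right (mul_le_mul_of_nonneg_right (le_max_right _ _) h2) h1

private lemma loc_dist_infty {A : Type} [NormedField A] (δ : A → OnePoint A → ℝ) (hδ : DistOK δ) :
    ∃ C : ℝ, 1 ≤ C ∧ ∀ x : A, 1 ≤ C * max 1 ‖x‖ * δ x OnePoint.infty := by
  obtain ⟨C, hC⟩ := hδ.infty
  refine ⟨max 1 C, le_max_left _ _, fun x => (hC x).trans ?_⟩
  have h1 := hδ.nonneg x OnePoint.infty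
  have h2 : (0 : ℝ) ≤ max 1 ‖x‖ := le_trans zero_le_one (le_max_left _ _)
  exact mul_le_mul_of_nonneg_right (mul_le_mul_of_nonneg_right (le_max_right _ _) h2) h1

private lemma loc_prod_le {n : ℕ} (m : Fin n → ℝ) (hm : ∀ l, 1 ≤ m l) (t : Finset (Fin n)) :
    ∏ l ∈ t, m l ≤ ∏ l, m l :=
  Finset.prod_le_prod_of_subset_of_one_le (Finset.subset_univ t)
    (fun l _ => zero_le_one.trans (hm l)) (fun l _ _ => hm l)

private lemma loc_one {A : Type} [NormedField A] (δ : A → OnePoint A → ℝ) (hδ : DistOK δ) (n : ℕ)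
    (θ : OnePoint A) :
    ∃ C : ℝ, 1 ≤ C ∧ ∀ (F : Fin (n + 1) → A) (a : A) (x : Fin n → A),
      (∑ i, Polynomial.C (F i) * X ^ (i : ℕ) = Polynomial.C a * ∏ l, (X - Polynomial.C (x l))) →
      ∀ j : Fin (n + 1), ‖tcA θ j F‖ ≤ C * (‖a‖ * ∏ l, max 1 ‖x l‖) *
        ∑ t ∈ (Finset.univ : Finset (Fin n)).powersetCard (n - j), ∏ l ∈ t, δ (x l) θ := by
  induction θ using OnePoint.rec with
  | infty =>
    obtain ⟨C, hC1, hC⟩ := loc_dist_infty δ hδ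
    refine ⟨C ^ n, one_le_pow₀ hC1, fun F a x h j => ?_⟩
    have hm : ∀ l, 1 ≤ max 1 ‖x l‖ := fun l => le_max_left _ _
    rw [loc_coef_infty F a x h j, norm_mul]
    have hre : ∑ t ∈ (Finset.univ : Finset (Fin n)).powersetCard (n - j),
        ∏ l ∈ t, δ (x l) OnePoint.infty =
        ∑ t ∈ (Finset.univ : Finset (Fin n)).powersetCard j,
          ∏ l ∈ tᶜ, δ (x l) OnePoint.infty := by
      have hj : (j : ℕ) ≤ n := Nat.lt_succ_iff.mp j.2
      refine Finset.sum_nbij' (fun t => tᶜ) (fun t => tᶜ) ?_ ?_ ?_ ?_ ?_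
      · intro t ht
        rw [Finset.mem_powersetCard] at ht ⊢
        refine ⟨Finset.subset_univ _, ?_⟩
        rw [Finset.card_compl, Fintype.card_fin, ht.2]
        omega
      · intro t ht
        rw [Finset.mem_powersetCard] at ht ⊢
        refine ⟨Finset.subset_univ _, ?_⟩
        rw [Finset.card_compl, Fintype.card_fin, ht.2]
      · intro t _
        exact compl_compl t
      · intro t _
        exact compl_compl t
      · intro t _
        rw [compl_compl]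
    rw [hre]
    have key : ∀ t : Finset (Fin n), ‖∏ l ∈ t, (-x l)‖ ≤
        C ^ n * (∏ l, max 1 ‖x l‖) * ∏ l ∈ tᶜ, δ (x l) OnePoint.infty := by
      intro t
      have h1 : ‖∏ l ∈ t, (-x l)‖ ≤ ∏ l ∈ t, max 1 ‖x l‖ := by
        rw [norm_prod]
        refine Finset.prod_le_prod (fun l _ => norm_nonneg _) fun l _ => ?_
        rw [norm_neg]
        exact le_max_right _ _
      have h2 : (1 : ℝ) ≤ ∏ l ∈ tᶜ, (C * max 1 ‖x l‖ * δ (x l) OnePoint.infty) :=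
        Finset.one_le_prod fun l _ => hC (x l)
      have h3 : ∏ l ∈ tᶜ, (C * max 1 ‖x l‖ * δ (x l) OnePoint.infty) =
          C ^ (tᶜ).card * (∏ l ∈ tᶜ, max 1 ‖x l‖) * ∏ l ∈ tᶜ, δ (x l) OnePoint.infty := by
        rw [Finset.prod_mul_distrib, Finset.prod_mul_distrib, Finset.prod_const]
      have h4 : (0 : ℝ) ≤ ∏ l ∈ t, max 1 ‖x l‖ :=
        Finset.prod_nonneg fun l _ => zero_le_one.trans (hm l)
      have h5 : (∏ l ∈ t, max 1 ‖x l‖) * ∏ l ∈ tᶜ, max 1 ‖x l‖ = ∏ l, max 1 ‖x l‖ :=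
        Finset.prod_mul_prod_compl t _
      have h6 : C ^ (tᶜ).card ≤ C ^ n := by
        refine pow_le_pow_right₀ hC1 ?_
        simpa using Finset.card_le_univ (tᶜ)
      have h7 : (0 : ℝ) ≤ ∏ l ∈ tᶜ, δ (x l) OnePoint.infty :=
        Finset.prod_nonneg fun l _ => hδ.nonneg _ _
      have h8 : (0 : ℝ) ≤ ∏ l, max 1 ‖x l‖ :=
        Finset.prod_nonneg fun l _ => zero_le_one.trans (hm l)
      calc ‖∏ l ∈ t, (-x l)‖ ≤ ∏ l ∈ t, max 1 ‖x l‖ := h1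
        _ ≤ (∏ l ∈ t, max 1 ‖x l‖) * ∏ l ∈ tᶜ, (C * max 1 ‖x l‖ * δ (x l) OnePoint.infty) :=
            le_mul_of_one_le_right h4 h2
        _ = C ^ (tᶜ).card * ((∏ l ∈ t, max 1 ‖x l‖) * ∏ l ∈ tᶜ, max 1 ‖x l‖) *
              ∏ l ∈ tᶜ, δ (x l) OnePoint.infty := by
            rw [h3]; ring
        _ = C ^ (tᶜ).card * (∏ l, max 1 ‖x l‖) * ∏ l ∈ tᶜ, δ (x l) OnePoint.infty := by
            rw [h5]
        _ ≤ C ^ n * (∏ l, max 1 ‖x l‖) * ∏ l ∈ tᶜ, δ (x l) OnePoint.infty :=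
            mul_le_mul_of_nonneg_right (mul_le_mul_of_nonneg_right h6 h8) h7
    calc ‖a‖ * ‖∑ t ∈ (Finset.univ : Finset (Fin n)).powersetCard j, ∏ l ∈ t, (-x l)‖
        ≤ ‖a‖ * ∑ t ∈ (Finset.univ : Finset (Fin n)).powersetCard j,
            (C ^ n * (∏ l, max 1 ‖x l‖) * ∏ l ∈ tᶜ, δ (x l) OnePoint.infty) :=
          mul_le_mul_of_nonneg_left
            ((norm_sum_le _ _).trans (Finset.sum_le_sum fun t _ => key t)) (norm_nonneg _)
      _ = _ := by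
          rw [← Finset.mul_sum]; ring
  | coe z =>
    obtain ⟨C, hC1, hC⟩ := loc_dist_some δ hδ z
    refine ⟨C ^ n, one_le_pow₀ hC1, fun F a x h j => ?_⟩
    have hm : ∀ l, 1 ≤ max 1 ‖x l‖ := fun l => le_max_left _ _
    have hco := loc_coef_some F a z x h j
    have hz : ((z : A) : OnePoint A) = OnePoint.some z := rfl
    rw [hz, hco, norm_mul]
    have key : ∀ t : Finset (Fin n), ‖∏ l ∈ t, (z - x l)‖ ≤
        C ^ n * (∏ l, max 1 ‖x l‖) * ∏ l ∈ t, δ (x l) (OnePoint.some z) := by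
      intro t
      have h1 : ‖∏ l ∈ t, (z - x l)‖ ≤
          ∏ l ∈ t, (C * max 1 ‖x l‖ * δ (x l) (OnePoint.some z)) := by
        rw [norm_prod]
        refine Finset.prod_le_prod (fun l _ => norm_nonneg _) fun l _ => ?_
        rw [norm_sub_rev]
        exact hC (x l)
      have h3 : ∏ l ∈ t, (C * max 1 ‖x l‖ * δ (x l) (OnePoint.some z)) =
          C ^ t.card * (∏ l ∈ t, max 1 ‖x l‖) * ∏ l ∈ t, δ (x l) (OnePoint.some z) := by
        rw [Finset.prod_mul_distrib, Finset.prod_mul_distrib, Finset.prod_const]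
      have h4 : (0 : ℝ) ≤ ∏ l ∈ t, max 1 ‖x l‖ :=
        Finset.prod_nonneg fun l _ => zero_le_one.trans (hm l)
      have h6 : C ^ t.card ≤ C ^ n := by
        refine pow_le_pow_right₀ hC1 ?_
        simpa using Finset.card_le_univ t
      have h7 : (0 : ℝ) ≤ ∏ l ∈ t, δ (x l) (OnePoint.some z) :=
        Finset.prod_nonneg fun l _ => hδ.nonneg _ _
      have h9 : (0 : ℝ) ≤ C ^ n := pow_nonneg (zero_le_one.trans hC1) _
      calc ‖∏ l ∈ t, (z - x l)‖ ≤ _ := h1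
        _ = _ := h3
        _ ≤ C ^ n * (∏ l, max 1 ‖x l‖) * ∏ l ∈ t, δ (x l) (OnePoint.some z) :=
            mul_le_mul_of_nonneg_right
              (mul_le_mul h6 (loc_prod_le _ hm t) h4 h9) h7
    calc ‖a‖ * ‖∑ t ∈ (Finset.univ : Finset (Fin n)).powersetCard (n - j), ∏ l ∈ t, (z - x l)‖
        ≤ ‖a‖ * ∑ t ∈ (Finset.univ : Finset (Fin n)).powersetCard (n - j),
            (C ^ n * (∏ l, max 1 ‖x l‖) * ∏ l ∈ t, δ (x l) (OnePoint.some z)) :=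
          mul_le_mul_of_nonneg_left
            ((norm_sum_le _ _).trans (Finset.sum_le_sum fun t _ => key t)) (norm_nonneg _)
      _ = _ := by
          rw [← Finset.mul_sum]; ring

private lemma loc_val {A : Type} [NormedField A] (δ : A → OnePoint A → ℝ) (hδ : DistOK δ) (n : ℕ)
    (θ : OnePoint A) :
    ∃ C : ℝ, 1 ≤ C ∧ ∀ (G : Fin (n + 1) → A) (x : A),
      ‖∑ i, G i * x ^ (i : ℕ)‖ ≤
        ∑ j : Fin (n + 1), ‖tcA θ j G‖ * (C * (max 1 ‖x‖) ^ n * δ x θ ^ (j : ℕ)) := by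
  induction θ using OnePoint.rec with
  | infty =>
    obtain ⟨C, hC1, hC⟩ := loc_dist_infty δ hδ
    refine ⟨C ^ n, one_le_pow₀ hC1, fun G x => ?_⟩
    have hm : (1 : ℝ) ≤ max 1 ‖x‖ := le_max_left _ _
    have h0 : ∑ i, G i * x ^ (i : ℕ) =
        ∑ j : Fin (n + 1), G j.rev * x ^ ((j.rev : Fin (n + 1)) : ℕ) :=
      (Equiv.sum_comp Fin.revPerm (fun i : Fin (n + 1) => G i * x ^ (i : ℕ))).symm
    rw [h0]
    refine (norm_sum_le _ _).trans (Finset.sum_le_sum fun j _ => ?_)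
    rw [norm_mul, norm_pow]
    have h1 : tcA OnePoint.infty j G = G j.rev := rfl
    rw [h1]
    refine mul_le_mul_of_nonneg_left ?_ (norm_nonneg _)
    have hj : (j : ℕ) ≤ n := Nat.lt_succ_iff.mp j.2
    have hr : ((j.rev : Fin (n + 1)) : ℕ) = n - j := by
      rw [Fin.val_rev]; omega
    rw [hr]
    have h2 : ‖x‖ ^ (n - (j : ℕ)) ≤ (max 1 ‖x‖) ^ (n - (j : ℕ)) :=
      pow_le_pow_left₀ (norm_nonneg _) (le_max_right _ _) _
    have h3 : (1 : ℝ) ≤ (C * max 1 ‖x‖ * δ x OnePoint.infty) ^ (j : ℕ) := one_le_pow₀ (hC x)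
    have h4 : (0 : ℝ) ≤ (max 1 ‖x‖) ^ (n - (j : ℕ)) := pow_nonneg (zero_le_one.trans hm) _
    have h5 : (max 1 ‖x‖) ^ (n - (j : ℕ)) * (max 1 ‖x‖) ^ (j : ℕ) = (max 1 ‖x‖) ^ n := by
      rw [← pow_add]; congr 1; omega
    have h6 : C ^ (j : ℕ) ≤ C ^ n := pow_le_pow_right₀ hC1 hj
    have h7 : (0 : ℝ) ≤ δ x OnePoint.infty ^ (j : ℕ) := pow_nonneg (hδ.nonneg _ _) _
    calc ‖x‖ ^ (n - (j : ℕ)) ≤ (max 1 ‖x‖) ^ (n - (j : ℕ)) := h2
      _ ≤ (max 1 ‖x‖) ^ (n - (j : ℕ)) * (C * max 1 ‖x‖ * δ x OnePoint.infty) ^ (j : ℕ) :=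
          le_mul_of_one_le_right h4 h3
      _ = C ^ (j : ℕ) * ((max 1 ‖x‖) ^ (n - (j : ℕ)) * (max 1 ‖x‖) ^ (j : ℕ)) *
            δ x OnePoint.infty ^ (j : ℕ) := by
          rw [mul_pow, mul_pow]; ring
      _ = C ^ (j : ℕ) * (max 1 ‖x‖) ^ n * δ x OnePoint.infty ^ (j : ℕ) := by rw [h5]
      _ ≤ C ^ n * (max 1 ‖x‖) ^ n * δ x OnePoint.infty ^ (j : ℕ) :=
          mul_le_mul_of_nonneg_right (mul_le_mul_of_nonneg_right h6
            (pow_nonneg (zero_le_one.trans hm) _)) h7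
  | coe z =>
    obtain ⟨C, hC1, hC⟩ := loc_dist_some δ hδ z
    refine ⟨C ^ n, one_le_pow₀ hC1, fun G x => ?_⟩
    have hm : (1 : ℝ) ≤ max 1 ‖x‖ := le_max_left _ _
    have hz : ((z : A) : OnePoint A) = OnePoint.some z := rfl
    rw [hz, loc_taylor G x z]
    refine (norm_sum_le _ _).trans (Finset.sum_le_sum fun j _ => ?_)
    rw [norm_mul, norm_pow]
    refine mul_le_mul_of_nonneg_left ?_ (norm_nonneg _)
    have hj : (j : ℕ) ≤ n := Nat.lt_succ_iff.mp j.2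
    have h2 : ‖x - z‖ ^ (j : ℕ) ≤ (C * max 1 ‖x‖ * δ x (OnePoint.some z)) ^ (j : ℕ) :=
      pow_le_pow_left₀ (norm_nonneg _) (hC x) _
    have h6 : C ^ (j : ℕ) ≤ C ^ n := pow_le_pow_right₀ hC1 hj
    have h5 : (max 1 ‖x‖) ^ (j : ℕ) ≤ (max 1 ‖x‖) ^ n := pow_le_pow_right₀ hm hj
    have h7 : (0 : ℝ) ≤ δ x (OnePoint.some z) ^ (j : ℕ) := pow_nonneg (hδ.nonneg _ _) _
    refine h2.trans ?_
    rw [mul_pow, mul_pow]
    exact mul_le_mul_of_nonneg_right (mul_le_mul h6 h5 (pow_nonneg (zero_le_one.trans hm) _)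
      (pow_nonneg (zero_le_one.trans hC1) _)) h7

private lemma loc_max_prod {n : ℕ} (d : ℝ) (e : Fin n → ℝ) (hd : 0 ≤ d) (he : ∀ l, 0 ≤ e l)
    (t : Finset (Fin n)) (j : ℕ) (hj : j ≤ n) (ht : t.card = n - j) :
    (∏ l ∈ t, e l) * d ^ j ≤ ∏ l, max d (e l) := by
  have h1 : (tᶜ).card = j := by
    rw [Finset.card_compl, Fintype.card_fin, ht]
    omega
  have h2 : d ^ j = ∏ l ∈ tᶜ, d := by
    rw [Finset.prod_const, h1]
  rw [h2, ← Finset.prod_mul_prod_compl t (fun l => max d (e l))]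
  refine mul_le_mul ?_ ?_ ?_ ?_
  · exact Finset.prod_le_prod (fun l _ => he l) fun l _ => le_max_right _ _
  · exact Finset.prod_le_prod (fun l _ => hd) fun l _ => le_max_left _ _
  · exact Finset.prod_nonneg fun l _ => hd
  · exact Finset.prod_nonneg fun l _ => hd.trans (le_max_left _ _)

private lemma loc_two {A : Type} [NormedField A] (δ : A → OnePoint A → ℝ) (hδ : DistOK δ) (n : ℕ)
    (θ : OnePoint A) :
    ∃ C : ℝ, 1 ≤ C ∧ ∀ (F G : Fin (n + 1) → A) (a : A) (x : Fin n → A) (E : ℝ), 0 ≤ E →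
      (∑ i, Polynomial.C (F i) * X ^ (i : ℕ) = Polynomial.C a * ∏ l, (X - Polynomial.C (x l))) →
      (∀ j, ‖tcA θ j G‖ ≤ E * ‖tcA θ j F‖) → ∀ l,
      ‖∑ i, G i * x l ^ (i : ℕ)‖ ≤ C * E * (‖a‖ * ∏ l, max 1 ‖x l‖) * (max 1 ‖x l‖) ^ n *
        ∏ l', max (δ (x l) θ) (δ (x l') θ) := by
  obtain ⟨C1, hC1, h1⟩ := loc_one δ hδ n θ
  obtain ⟨C2, hC2, h2⟩ := loc_val δ hδ n θ
  have hc1 : (0 : ℝ) ≤ C1 := zero_le_one.trans hC1
  have hc2 : (0 : ℝ) ≤ C2 := zero_le_one.trans hC2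
  refine ⟨(n + 1 : ℝ) * 2 ^ n * C1 * C2, ?_, fun F G a x E hE h hG l => ?_⟩
  · have h3 : (1 : ℝ) ≤ (n + 1 : ℝ) := by
      have : (0 : ℝ) ≤ n := Nat.cast_nonneg n
      linarith
    have h4 : (1 : ℝ) ≤ 2 ^ n := one_le_pow₀ (by norm_num)
    exact one_le_mul_of_one_le_of_one_le (one_le_mul_of_one_le_of_one_le
      (one_le_mul_of_one_le_of_one_le h3 h4) hC1) hC2
  set M : ℝ := ‖a‖ * ∏ l, max 1 ‖x l‖ with hM
  have hM0 : 0 ≤ M := mul_nonneg (norm_nonneg _)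
    (Finset.prod_nonneg fun l _ => zero_le_one.trans (le_max_left _ _))
  have hm0 : (0 : ℝ) ≤ max 1 ‖x l‖ := zero_le_one.trans (le_max_left _ _)
  set P : ℝ := ∏ l', max (δ (x l) θ) (δ (x l') θ) with hP
  have hP0 : 0 ≤ P := Finset.prod_nonneg fun l' _ => (hδ.nonneg _ _).trans (le_max_left _ _)
  set K : ℝ := E * C1 * M * C2 * (max 1 ‖x l‖) ^ n with hK
  have hK0 : 0 ≤ K := by positivity
  have h3 : ∀ j : Fin (n + 1), ‖tcA θ j G‖ * (C2 * (max 1 ‖x l‖) ^ n * δ (x l) θ ^ (j : ℕ)) ≤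
      2 ^ n * (K * P) := by
    intro j
    have hj : (j : ℕ) ≤ n := Nat.lt_succ_iff.mp j.2
    have h4 : ‖tcA θ j G‖ ≤ E * (C1 * M *
        ∑ t ∈ (Finset.univ : Finset (Fin n)).powersetCard (n - j), ∏ l ∈ t, δ (x l) θ) :=
      (hG j).trans (mul_le_mul_of_nonneg_left (h1 F a x h j) hE)
    have h5 : (0 : ℝ) ≤ C2 * (max 1 ‖x l‖) ^ n * δ (x l) θ ^ (j : ℕ) :=
      mul_nonneg (mul_nonneg hc2 (pow_nonneg hm0 _)) (pow_nonneg (hδ.nonneg _ _) _)
    have h6 : ∑ t ∈ (Finset.univ : Finset (Fin n)).powersetCard (n - j),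
        ((∏ l ∈ t, δ (x l) θ) * δ (x l) θ ^ (j : ℕ)) ≤ 2 ^ n * P := by
      have h7 : ∀ t ∈ (Finset.univ : Finset (Fin n)).powersetCard (n - j),
          (∏ l ∈ t, δ (x l) θ) * δ (x l) θ ^ (j : ℕ) ≤ P := fun t ht =>
        loc_max_prod (δ (x l) θ) (fun l' => δ (x l') θ) (hδ.nonneg _ _)
          (fun l' => hδ.nonneg _ _) t j hj (Finset.mem_powersetCard.mp ht).2
      refine (Finset.sum_le_sum h7).trans ?_
      rw [Finset.sum_const, nsmul_eq_mul]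
      refine mul_le_mul_of_nonneg_right ?_ hP0
      have h8 : ((Finset.univ : Finset (Fin n)).powersetCard (n - j)).card ≤ 2 ^ n := by
        rw [Finset.card_powersetCard, Finset.card_univ, Fintype.card_fin]
        exact Nat.choose_le_two_pow _ _
      exact_mod_cast h8
    calc ‖tcA θ j G‖ * (C2 * (max 1 ‖x l‖) ^ n * δ (x l) θ ^ (j : ℕ))
        ≤ (E * (C1 * M * ∑ t ∈ (Finset.univ : Finset (Fin n)).powersetCard (n - j),
            ∏ l ∈ t, δ (x l) θ)) * (C2 * (max 1 ‖x l‖) ^ n * δ (x l) θ ^ (j : ℕ)) :=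
          mul_le_mul_of_nonneg_right h4 h5
      _ = K * ∑ t ∈ (Finset.univ : Finset (Fin n)).powersetCard (n - j),
            ((∏ l ∈ t, δ (x l) θ) * δ (x l) θ ^ (j : ℕ)) := by
          rw [← Finset.sum_mul, hK]; ring
      _ ≤ K * (2 ^ n * P) := mul_le_mul_of_nonneg_left h6 hK0
      _ = 2 ^ n * (K * P) := by ring
  refine (h2 G (x l)).trans ((Finset.sum_le_sum fun j _ => h3 j).trans ?_)
  rw [Finset.sum_const, nsmul_eq_mul, Finset.card_univ, Fintype.card_fin]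
  push_cast
  rw [hK]
  exact le_of_eq (by ring)

private lemma loc_unif_le {ι : Type*} (S : Finset ι) (f : ι → ℝ) (hf : ∀ i ∈ S, 1 ≤ f i) :
    ∃ C : ℝ, 1 ≤ C ∧ ∀ i ∈ S, f i ≤ C := by
  refine ⟨∏ i ∈ S, f i, Finset.one_le_prod hf, fun i hi => ?_⟩
  have h1 := Finset.prod_le_prod_of_subset_of_one_le (Finset.singleton_subset_iff.mpr hi)
    (f := f) (fun j hj => by
      rw [Finset.mem_singleton] at hj
      rw [hj]
      exact zero_le_one.trans (hf i hi)) (fun j hj _ => hf j hj)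
  rwa [Finset.prod_singleton] at h1

private lemma loc_sep {A : Type} [NormedField A] (δ : A → OnePoint A → ℝ) (hδ : DistOK δ)
    (D : Finset (OnePoint A)) :
    ∃ c : ℝ, 0 < c ∧ c ≤ 1 ∧ ∀ α ∈ D, ∀ β ∈ D, α ≠ β → ∀ x, c ≤ max (δ x α) (δ x β) := by
  choose! c hc0 hc using hδ.sep
  obtain ⟨C, hC1, hC⟩ := loc_unif_le (D ×ˢ D)
    (fun p => if p.1 = p.2 then 1 else max 1 (c p.1 p.2)⁻¹) (fun p _ => by
      split_ifs
      · exact le_refl _
      · exact le_max_left _ _)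
  have hC0 : 0 < C := lt_of_lt_of_le one_pos hC1
  refine ⟨C⁻¹, inv_pos.mpr hC0, inv_le_one_of_one_le₀ hC1, fun α hα β hβ hne x => ?_⟩
  refine le_trans ?_ (hc α β hne x)
  have h1 := hC (α, β) (Finset.mk_mem_product hα hβ)
  simp only [hne, if_false] at h1
  have h2 : (c α β)⁻¹ ≤ C := (le_max_right _ _).trans h1
  exact inv_le_of_inv_le₀ (hc0 α β hne) h2

private lemma loc_three {A : Type} [NormedField A] (δ : A → OnePoint A → ℝ) (hδ : DistOK δ) (n : ℕ)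
    (D : Finset (OnePoint A)) (hi : OnePoint.infty ∈ D) :
    ∃ C : ℝ, 1 ≤ C ∧ ∀ (F G : Fin (n + 1) → A) (a : A) (x : Fin n → A) (E : ℝ), 0 ≤ E →
      (∑ i, Polynomial.C (F i) * X ^ (i : ℕ) = Polynomial.C a * ∏ l, (X - Polynomial.C (x l))) →
      (∀ θ ∈ D, ∀ j, ‖tcA θ j G‖ ≤ E * ‖tcA θ j F‖) → ∀ l,
      ‖∑ i, G i * x l ^ (i : ℕ)‖ ≤ C * E * (‖a‖ * ∏ l, max 1 ‖x l‖) * (max 1 ‖x l‖) ^ n *
        ∏ θ ∈ D, ∏ l', max (δ (x l) θ) (δ (x l') θ) := by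
  choose f hf1 hf using loc_two δ hδ n
  obtain ⟨C, hC1, hC⟩ := loc_unif_le D f (fun θ _ => hf1 θ)
  obtain ⟨c, hc0, hc1, hc⟩ := loc_sep δ hδ D
  have hC0 : 0 ≤ C := zero_le_one.trans hC1
  set b : ℝ := (c ^ n) ^ D.card with hb
  have hb0 : 0 < b := pow_pos (pow_pos hc0 _) _
  have hb1 : b ≤ 1 := pow_le_one₀ (pow_pos hc0 _).le (pow_le_one₀ hc0.le hc1)
  refine ⟨C * b⁻¹, one_le_mul_of_one_le_of_one_le hC1 ((one_le_inv₀ hb0).mpr hb1),
    fun F G a x E hE h hG l => ?_⟩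
  obtain ⟨θ₀, hθ₀, hmin⟩ := Finset.exists_min_image D (fun θ => δ (x l) θ) ⟨_, hi⟩
  have h1 := hf θ₀ F G a x E hE h (hG θ₀ hθ₀) l
  set M : ℝ := ‖a‖ * ∏ l, max 1 ‖x l‖ with hM
  have hM0 : 0 ≤ M := mul_nonneg (norm_nonneg _)
    (Finset.prod_nonneg fun l _ => zero_le_one.trans (le_max_left _ _))
  have hm0 : (0 : ℝ) ≤ max 1 ‖x l‖ := zero_le_one.trans (le_max_left _ _)
  have hQ0 : ∀ θ, 0 ≤ ∏ l', max (δ (x l) θ) (δ (x l') θ) := fun θ =>
    Finset.prod_nonneg fun l' _ => (hδ.nonneg _ _).trans (le_max_left _ _)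
  have h2 : ∀ θ ∈ D.erase θ₀, c ^ n ≤ ∏ l', max (δ (x l) θ) (δ (x l') θ) := by
    intro θ hθ
    have hθD : θ ∈ D := Finset.mem_of_mem_erase hθ
    have hne : θ ≠ θ₀ := Finset.ne_of_mem_erase hθ
    have h3 : c ≤ δ (x l) θ := by
      have h4 := hc θ hθD θ₀ hθ₀ hne (x l)
      rwa [max_eq_left (hmin θ hθD)] at h4
    have h5 : c ^ n = ∏ _l' : Fin n, c := by
      rw [Finset.prod_const, Finset.card_univ, Fintype.card_fin]
    rw [h5]
    exact Finset.prod_le_prod (fun _ _ => hc0.le) fun l' _ => h3.trans (le_max_left _ _)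
  have h6 : b ≤ ∏ θ ∈ D.erase θ₀, ∏ l', max (δ (x l) θ) (δ (x l') θ) := by
    have h7 : (c ^ n) ^ (D.erase θ₀).card ≤
        ∏ θ ∈ D.erase θ₀, ∏ l', max (δ (x l) θ) (δ (x l') θ) := by
      rw [← Finset.prod_const]
      exact Finset.prod_le_prod (fun _ _ => (pow_pos hc0 _).le) h2
    refine le_trans ?_ h7
    exact pow_le_pow_of_le_one (pow_pos hc0 _).le (pow_le_one₀ hc0.le hc1)
      (Finset.card_le_card (Finset.erase_subset _ _))
  have h8 : (∏ l', max (δ (x l) θ₀) (δ (x l') θ₀)) * b ≤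
      ∏ θ ∈ D, ∏ l', max (δ (x l) θ) (δ (x l') θ) := by
    rw [← Finset.mul_prod_erase D _ hθ₀]
    exact mul_le_mul_of_nonneg_left h6 (hQ0 θ₀)
  have h9 : ∏ l', max (δ (x l) θ₀) (δ (x l') θ₀) ≤
      b⁻¹ * ∏ θ ∈ D, ∏ l', max (δ (x l) θ) (δ (x l') θ) := by
    rw [inv_mul_eq_div, le_div_iff₀ hb0]
    exact h8
  have h10 : f θ₀ * E * M * (max 1 ‖x l‖) ^ n ≤ C * E * M * (max 1 ‖x l‖) ^ n := by
    refine mul_le_mul_of_nonneg_right (mul_le_mul_of_nonneg_right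
      (mul_le_mul_of_nonneg_right (hC θ₀ hθ₀) hE) hM0) (pow_nonneg hm0 _)
  calc ‖∑ i, G i * x l ^ (i : ℕ)‖ ≤ _ := h1
    _ ≤ C * E * M * (max 1 ‖x l‖) ^ n *
          (b⁻¹ * ∏ θ ∈ D, ∏ l', max (δ (x l) θ) (δ (x l') θ)) :=
        mul_le_mul h10 h9 (hQ0 θ₀)
          (mul_nonneg (mul_nonneg (mul_nonneg hC0 hE) hM0) (pow_nonneg hm0 _))
    _ = _ := by ring

private lemma loc_exp {A : Type} [NormedField A] (δ : A → OnePoint A → ℝ) (D : Finset (OnePoint A))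
    {n : ℕ} (x : Fin n → A) (hpos : ∀ l, ∀ θ ∈ D, 0 < δ (x l) θ) :
    Real.exp (-pairLoc δ D x) = ∏ l, ∏ θ ∈ D, ∏ l', max (δ (x l) θ) (δ (x l') θ) := by
  have h1 : ∀ θ ∈ D, ∀ l l', Real.exp (-min (-Real.log (δ (x l) θ)) (-Real.log (δ (x l') θ))) =
      max (δ (x l) θ) (δ (x l') θ) := by
    intro θ hθ l l'
    rw [min_neg_neg, neg_neg]
    rcases le_total (δ (x l) θ) (δ (x l') θ) with h | h
    · rw [max_eq_right h, max_eq_right (Real.log_le_log (hpos l θ hθ) h),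
        Real.exp_log (hpos l' θ hθ)]
    · rw [max_eq_left h, max_eq_left (Real.log_le_log (hpos l' θ hθ) h),
        Real.exp_log (hpos l θ hθ)]
  rw [Finset.prod_comm]
  unfold pairLoc
  rw [← Finset.sum_neg_distrib, Real.exp_sum]
  refine Finset.prod_congr rfl fun θ hθ => ?_
  rw [← Finset.sum_neg_distrib, Real.exp_sum]
  refine Finset.prod_congr rfl fun l _ => ?_
  rw [← Finset.sum_neg_distrib, Real.exp_sum]
  exact Finset.prod_congr rfl fun l' _ => h1 θ hθ l l'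

theorem local_est {A : Type} [NormedField A] (δ : A → OnePoint A → ℝ) (hδ : DistOK δ) (n : ℕ)
    (D : Finset (OnePoint A)) (hi : OnePoint.infty ∈ D) :
    ∃ C : ℝ, 1 ≤ C ∧ ∀ (F G : Fin (n + 1) → A) (a : A) (x : Fin n → A) (E : ℝ), 0 ≤ E →
      (∑ i, Polynomial.C (F i) * X ^ (i : ℕ) = Polynomial.C a * ∏ l, (X - Polynomial.C (x l))) →
      (∀ θ ∈ D, ∀ j, ‖tcA θ j G‖ ≤ E * ‖tcA θ j F‖) →
      (∀ l, ∀ θ ∈ D, 0 < δ (x l) θ) →
      ‖a‖ ^ n * ∏ l, ‖∑ i, G i * x l ^ (i : ℕ)‖ ≤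
        C * E ^ n * (‖a‖ * ∏ l, max 1 ‖x l‖) ^ (2 * n) * Real.exp (-pairLoc δ D x) := by
  obtain ⟨C, hC1, hC⟩ := loc_three δ hδ n D hi
  refine ⟨C ^ n, one_le_pow₀ hC1, fun F G a x E hE h hG hpos => ?_⟩
  have h1 : ∏ l, ‖∑ i, G i * x l ^ (i : ℕ)‖ ≤
      ∏ l, (C * E * (‖a‖ * ∏ l, max 1 ‖x l‖) * (max 1 ‖x l‖) ^ n *
        ∏ θ ∈ D, ∏ l', max (δ (x l) θ) (δ (x l') θ)) :=
    Finset.prod_le_prod (fun l _ => norm_nonneg _) fun l _ => hC F G a x E hE h hG l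
  have h2 : ∏ l, (C * E * (‖a‖ * ∏ l, max 1 ‖x l‖) * (max 1 ‖x l‖) ^ n *
        ∏ θ ∈ D, ∏ l', max (δ (x l) θ) (δ (x l') θ)) =
      (C * E * (‖a‖ * ∏ l, max 1 ‖x l‖)) ^ n * (∏ l, max 1 ‖x l‖) ^ n *
        ∏ l, ∏ θ ∈ D, ∏ l', max (δ (x l) θ) (δ (x l') θ) := by
    rw [Finset.prod_mul_distrib, Finset.prod_mul_distrib, Finset.prod_const, Finset.card_univ,
      Fintype.card_fin, Finset.prod_pow]
  rw [h2, ← loc_exp δ D x hpos] at h1
  calc ‖a‖ ^ n * ∏ l, ‖∑ i, G i * x l ^ (i : ℕ)‖ ≤ ‖a‖ ^ n * _ :=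
        mul_le_mul_of_nonneg_left h1 (pow_nonneg (norm_nonneg _) _)
    _ = _ := by
        rw [mul_pow, mul_pow, mul_pow, two_mul, pow_add]
        ring

end Pool.Agent.RefW
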