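import Pool.Agent.RefW.Defs
import Mathlib

/-!
RW15. `mahler_le`: `Polynomial.mahlerMeasure_eq_leadingCoeff_mul_prod_roots`,
`mahlerMeasure_le_sum_norm_coeff`, `norm_coeff_le_choose_mul_mahlerMeasure` (the case `a = 0` is
trivial: then all `F i = 0`). `gauss_eq`: `Polynomial.gaussNorm_mul` with `c = 1`.
-/

open Polynomial NumberField
open scoped Classical

namespace Pool.Agent.RefW

private lemma Mahler_coeff {A : Type*} [Semiring A] {n : ℕ} (F : Fin (n + 1) → A) (j : ℕ) :
    (∑ i, Polynomial.C (F i) * X ^ (i : ℕ)).coeff j =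
      if h : j < n + 1 then F ⟨j, h⟩ else 0 := by
  rw [Polynomial.finsetSum_coeff]
  split_ifs with h
  · rw [Finset.sum_eq_single (⟨j, h⟩ : Fin (n + 1))]
    · simp
    · intro b _ hb
      rw [Polynomial.coeff_C_mul, Polynomial.coeff_X_pow, if_neg, mul_zero]
      intro hj
      exact hb (Fin.ext hj.symm)
    · intro hh
      exact absurd (Finset.mem_univ _) hh
  · refine Finset.sum_eq_zero fun i _ => ?_
    rw [Polynomial.coeff_C_mul, Polynomial.coeff_X_pow, if_neg, mul_zero]
    intro hj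
    exact h (hj ▸ i.2)

private lemma Mahler_natDegree {A : Type*} [Semiring A] {n : ℕ} (F : Fin (n + 1) → A) :
    (∑ i, Polynomial.C (F i) * X ^ (i : ℕ)).natDegree ≤ n := by
  rw [Polynomial.natDegree_le_iff_coeff_eq_zero]
  intro j hj
  rw [Mahler_coeff, dif_neg (by omega)]

private lemma Mahler_measure {n : ℕ} (a : ℂ) (x : Fin n → ℂ) :
    (Polynomial.C a * ∏ l, (X - Polynomial.C (x l))).mahlerMeasure =
      ‖a‖ * ∏ l, max 1 ‖x l‖ := by
  rw [mahlerMeasure_mul, mahlerMeasure_const]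
  congr 1
  have h1 : (∏ l, (X - Polynomial.C (x l))).mahlerMeasure =
      ∏ l, (X - Polynomial.C (x l)).mahlerMeasure := by
    have h2 := prod_mahlerMeasure_eq_mahlerMeasure_prod
      ((Finset.univ.val).map fun l => (X - Polynomial.C (x l)))
    rw [Multiset.map_map] at h2
    exact h2
  rw [h1]
  exact Finset.prod_congr rfl fun l _ => mahlerMeasure_X_sub_C _

theorem mahler_le {n : ℕ} (F : Fin (n + 1) → ℂ) (a : ℂ) (x : Fin n → ℂ)
    (h : ∑ i, Polynomial.C (F i) * X ^ (i : ℕ) = Polynomial.C a * ∏ l, (X - Polynomial.C (x l))) :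
    ‖a‖ * ∏ l, max 1 ‖x l‖ ≤ (n + 1) * ‖F‖ ∧ ‖F‖ ≤ 2 ^ n * (‖a‖ * ∏ l, max 1 ‖x l‖) := by
  have hM := Mahler_measure a x
  rw [← h] at hM
  rw [← hM]
  refine ⟨?_, ?_⟩
  · refine (mahlerMeasure_le_sum_norm_coeff _).trans ?_
    rw [Polynomial.sum_over_range' _ (fun n => norm_zero) (n + 1)
      (Nat.lt_succ_of_le (Mahler_natDegree F))]
    have h1 : ∀ j ∈ Finset.range (n + 1),
        ‖(∑ i, Polynomial.C (F i) * X ^ (i : ℕ)).coeff j‖ ≤ ‖F‖ := by
      intro j hj
      rw [Mahler_coeff, dif_pos (Finset.mem_range.mp hj)]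
      exact norm_le_pi_norm F _
    refine (Finset.sum_le_sum h1).trans (le_of_eq ?_)
    rw [Finset.sum_const, Finset.card_range, nsmul_eq_mul]
    push_cast
    rfl
  · have h0 : 0 ≤ (∑ i, Polynomial.C (F i) * X ^ (i : ℕ)).mahlerMeasure := mahlerMeasure_nonneg _
    rw [pi_norm_le_iff_of_nonneg (mul_nonneg (by positivity) h0)]
    intro i
    have h1 := norm_coeff_le_choose_mul_mahlerMeasure (i : ℕ)
      (∑ i, Polynomial.C (F i) * X ^ (i : ℕ))
    rw [Mahler_coeff, dif_pos i.2] at h1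
    refine h1.trans (mul_le_mul_of_nonneg_right ?_ h0)
    have h2 : ((∑ i, Polynomial.C (F i) * X ^ (i : ℕ)).natDegree).choose i ≤ 2 ^ n :=
      (Nat.choose_le_two_pow _ _).trans (Nat.pow_le_pow_right two_pos (Mahler_natDegree F))
    exact_mod_cast h2

theorem gauss_eq {A : Type} [NormedField A] [IsUltrametricDist A] {n : ℕ} (F : Fin (n + 1) → A)
    (a : A) (x : Fin n → A)
    (h : ∑ i, Polynomial.C (F i) * X ^ (i : ℕ) = Polynomial.C a * ∏ l, (X - Polynomial.C (x l))) :
    ‖a‖ * ∏ l, max 1 ‖x l‖ = ‖F‖ := by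
  set v : AbsoluteValue A ℝ := NormedField.toAbsoluteValue A with hv
  have hva : ∀ z : A, v z = ‖z‖ := fun z => rfl
  have hna : IsNonarchimedean v := fun y z => by
    rw [hva, hva, hva]
    exact IsUltrametricDist.norm_add_le_max y z
  have h1 : ∀ z : A, (X - Polynomial.C z).gaussNorm v 1 = max 1 ‖z‖ := by
    intro z
    apply le_antisymm
    · obtain ⟨i, hi⟩ := exists_eq_gaussNorm v 1 (X - Polynomial.C z)
      rw [hi, one_pow, mul_one, hva]
      rcases i with _ | _ | i
      · simp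
      · simp
      · have : (X - Polynomial.C z).coeff (i + 1 + 1) = 0 := by
          rw [Polynomial.coeff_sub, Polynomial.coeff_X_of_ne_one (by omega),
            Polynomial.coeff_C_succ, sub_zero]
        rw [this, norm_zero]
        exact zero_le_one.trans (le_max_left _ _)
    · have h2 := le_gaussNorm v (X - Polynomial.C z) zero_le_one 1
      have h3 := le_gaussNorm v (X - Polynomial.C z) zero_le_one 0
      rw [hva] at h2 h3
      simp at h2 h3
      exact max_le h2 h3
  have h2 : ∀ s : Finset (Fin n), (∏ l ∈ s, (X - Polynomial.C (x l))).gaussNorm v 1 =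
      ∏ l ∈ s, max 1 ‖x l‖ := by
    intro s
    induction s using Finset.induction_on with
    | empty =>
      rw [Finset.prod_empty, Finset.prod_empty, ← Polynomial.C_1, gaussNorm_C, hva, norm_one]
    | insert l s hl ih =>
      rw [Finset.prod_insert hl, Finset.prod_insert hl, gaussNorm_mul hna one_pos, ih, h1]
  have h3 : (∑ i, Polynomial.C (F i) * X ^ (i : ℕ)).gaussNorm v 1 = ‖a‖ * ∏ l, max 1 ‖x l‖ := by
    rw [h, gaussNorm_mul hna one_pos, gaussNorm_C, h2, hva]
  rw [← h3]
  apply le_antisymm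
  · obtain ⟨i, hi⟩ := exists_eq_gaussNorm v 1 (∑ i, Polynomial.C (F i) * X ^ (i : ℕ))
    rw [hi, one_pow, mul_one, hva, Mahler_coeff]
    split_ifs with hin
    · exact norm_le_pi_norm F _
    · rw [norm_zero]
      exact norm_nonneg _
  · rw [pi_norm_le_iff_of_nonneg (gaussNorm_nonneg v _ zero_le_one)]
    intro i
    have h4 := le_gaussNorm v (∑ i, Polynomial.C (F i) * X ^ (i : ℕ)) zero_le_one (i : ℕ)
    rw [one_pow, mul_one, hva, Mahler_coeff, dif_pos i.2] at h4
    exact h4

end Pool.Agent.RefW
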