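import Pool.Agent.RefW.Defs
import Pool.Agent.RefW.Fibre
import Mathlib

/-!
RW14. `R` is `Polynomial.resultant f g n n` over `𝓞 k` with `f = ∑ C (F i) X ^ i` etc.
(`resultant_map_map`, `resultant_eq_prod_eval`; the leading coefficient `F n` is nonzero by the
argument of `exists_fibre_equiv`). If `R = 0`, the formula with `A = ℂ`, any `ρ` and the conjugates
`y` of `x` gives `σ (G (x)) = 0`, so `G (x) = 0`, `minpoly k x ∣ G`, and `G` has degree at most `n`,
so it is a multiple of `minpoly k x`, hence of `F`.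
-/

open Polynomial NumberField
open scoped Classical

namespace Pool.Agent.RefW

private lemma Res_coeff {A : Type*} [Semiring A] {n : ℕ} (F : Fin (n + 1) → A) (j : ℕ) :
    (∑ i, Polynomial.C (F i) * X ^ (i : ℕ)).coeff j =
      if h : j < n + 1 then F ⟨j, h⟩ else 0 := by
  rw [Polynomial.finsetSum_coeff]
  split_ifs with h
  · rw [Finset.sum_eq_single (⟨j, h⟩ : Fin (n + 1))]
    · simp
    · intro b _ hb
      rw [Polynomial.coeff_C_mul, Polynomial.coeff_X_pow, if_neg, mul_zero]
      intro hj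
      exact hb (Fin.ext hj.symm)
    · intro hh
      exact absurd (Finset.mem_univ _) hh
  · refine Finset.sum_eq_zero fun i _ => ?_
    rw [Polynomial.coeff_C_mul, Polynomial.coeff_X_pow, if_neg, mul_zero]
    intro hj
    exact h (hj ▸ i.2)

private lemma Res_natDegree {A : Type*} [Semiring A] {n : ℕ} (F : Fin (n + 1) → A) :
    (∑ i, Polynomial.C (F i) * X ^ (i : ℕ)).natDegree ≤ n := by
  rw [Polynomial.natDegree_le_iff_coeff_eq_zero]
  intro j hj
  rw [Res_coeff, dif_neg (by omega)]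

/-- The resultant of a split polynomial of exact degree `n` and a polynomial of degree at most
`n`. -/
private lemma Res_prod {A : Type*} [Field A] {n : ℕ} (f g : A[X]) (a : A) (y : Fin n → A)
    (ha : a ≠ 0) (hf : f = Polynomial.C a * ∏ l, (X - Polynomial.C (y l)))
    (hg : g.natDegree ≤ n) : resultant f g n n = a ^ n * ∏ l, g.eval (y l) := by
  have hm : (∏ l, (X - Polynomial.C (y l))).Monic := monic_prod_X_sub_C _ _
  have hd : f.natDegree = n := by
    rw [hf, natDegree_C_mul ha, natDegree_finsetProd_X_sub_C_eq_card]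
    simp
  have hl : f.leadingCoeff = a := by
    rw [hf, leadingCoeff_mul, leadingCoeff_C, hm.leadingCoeff, mul_one]
  have hs : f.Splits := by
    rw [hf]
    exact (Splits.C a).mul (Splits.prod fun l _ => Splits.X_sub_C _)
  have hr : f.roots = Finset.univ.val.map y := by
    rw [hf, roots_C_mul _ ha, roots_prod _ _ hm.ne_zero]
    simp
  have h1 := resultant_eq_prod_eval f g n hg hs
  rw [hd, hl, hr, Multiset.map_map] at h1
  exact h1

theorem exists_resultant {k : Type} [Field k] [NumberField k] {n : ℕ}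
    {F : Fin (n + 1) → 𝓞 k} (hF : F ≠ 0) {K : Type} [Field K] [NumberField K] [Algebra k K]
    {x : K} (h : RootOf F K x) (G : Fin (n + 1) → 𝓞 k) (hG : ¬ Par F G) :
    ∃ R : 𝓞 k, R ≠ 0 ∧ ∀ {A : Type} [Field A] [IsAlgClosed A] (ρ : k →+* A) (y : Fin n → A),
      (∑ i, Polynomial.C (ρ (F i : k)) * X ^ (i : ℕ) =
        Polynomial.C (ρ (F (Fin.last n) : k)) * ∏ l, (X - Polynomial.C (y l))) →
      ρ (R : k) = ρ (F (Fin.last n) : k) ^ n * ∏ l, ∑ i, ρ (G i : k) * y l ^ (i : ℕ) := by
  have hne : Nonempty (k →+* ℂ) := inferInstance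
  obtain ⟨ρ₀⟩ := hne
  obtain ⟨e, he⟩ := exists_fibre_equiv hF h ρ₀
  have hlast : F (Fin.last n) ≠ 0 := by
    intro h0
    rw [h0] at he
    rw [show ((0 : 𝓞 k) : k) = 0 from map_zero (algebraMap (𝓞 k) k), map_zero, map_zero,
      zero_mul] at he
    apply hF
    funext i
    have h1 := congrArg (fun p => p.coeff (i : ℕ)) he
    simp only [coeff_zero] at h1
    rw [Res_coeff (fun i => ρ₀ (F i : k)), dif_pos i.2] at h1
    have h2 : ((F i : 𝓞 k) : k) = 0 := by
      simpa using h1
    exact_mod_cast h2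
  have key : ∀ {A : Type} [Field A] (ρ : k →+* A) (y : Fin n → A),
      (∑ i, Polynomial.C (ρ (F i : k)) * X ^ (i : ℕ) =
        Polynomial.C (ρ (F (Fin.last n) : k)) * ∏ l, (X - Polynomial.C (y l))) →
      ρ ((resultant (∑ i, Polynomial.C (F i) * X ^ (i : ℕ))
        (∑ i, Polynomial.C (G i) * X ^ (i : ℕ)) n n : 𝓞 k) : k) =
        ρ (F (Fin.last n) : k) ^ n * ∏ l, ∑ i, ρ (G i : k) * y l ^ (i : ℕ) := by
    intro A _ ρ y hy
    have h1 : ρ (F (Fin.last n) : k) ≠ 0 := by
      rw [Ne, map_eq_zero_iff ρ ρ.injective]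
      exact_mod_cast hlast
    have h2 : ∀ H : Fin (n + 1) → 𝓞 k,
        (∑ i, Polynomial.C (H i) * X ^ (i : ℕ)).map (ρ.comp (algebraMap (𝓞 k) k)) =
          ∑ i, Polynomial.C (ρ (H i : k)) * X ^ (i : ℕ) := by
      intro H
      rw [Polynomial.map_sum]
      refine Finset.sum_congr rfl fun i _ => ?_
      rw [Polynomial.map_mul, Polynomial.map_pow, map_X, map_C]
      rfl
    have h3 : ρ ((resultant (∑ i, Polynomial.C (F i) * X ^ (i : ℕ))
        (∑ i, Polynomial.C (G i) * X ^ (i : ℕ)) n n : 𝓞 k) : k) =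
        resultant (∑ i, Polynomial.C (ρ (F i : k)) * X ^ (i : ℕ))
          (∑ i, Polynomial.C (ρ (G i : k)) * X ^ (i : ℕ)) n n := by
      rw [← h2, ← h2, resultant_map_map]
      rfl
    rw [h3, Res_prod _ _ _ y h1 hy (Res_natDegree _)]
    congr 1
    refine Finset.prod_congr rfl fun l _ => ?_
    rw [eval_finsetSum]
    refine Finset.sum_congr rfl fun i _ => ?_
    rw [eval_mul, eval_C, eval_pow, eval_X]
  refine ⟨resultant (∑ i, Polynomial.C (F i) * X ^ (i : ℕ))
    (∑ i, Polynomial.C (G i) * X ^ (i : ℕ)) n n, ?_, fun {A} _ _ ρ y hy => key ρ y hy⟩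
  intro hR
  have h1 := key ρ₀ (fun l => (e l).1 x) he
  rw [hR, show ((0 : 𝓞 k) : k) = 0 from map_zero (algebraMap (𝓞 k) k), map_zero] at h1
  have h2 : ρ₀ (F (Fin.last n) : k) ≠ 0 := by
    rw [Ne, map_eq_zero_iff ρ₀ ρ₀.injective]
    exact_mod_cast hlast
  rcases mul_eq_zero.mp h1.symm with h3 | h3
  · exact (pow_ne_zero _ h2) h3
  obtain ⟨l, -, hl⟩ := Finset.prod_eq_zero_iff.mp h3
  have h4 : (e l).1 (∑ i, algebraMap k K (G i : k) * x ^ (i : ℕ)) = 0 := by
    rw [map_sum, ← hl]
    refine Finset.sum_congr rfl fun i _ => ?_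
    rw [map_mul, map_pow]
    congr 1
    exact congrArg (fun φ : k →+* ℂ => φ (G i : k)) (e l).2
  have h5 : ∑ i, algebraMap k K (G i : k) * x ^ (i : ℕ) = 0 := by
    rwa [map_eq_zero_iff _ (e l).1.injective] at h4
  have hfin : FiniteDimensional k K := by
    have : FiniteDimensional ℚ K := inferInstance
    exact FiniteDimensional.right ℚ k K
  have hint : IsIntegral k x := IsIntegral.of_finite k x
  have hdeg : (minpoly k x).natDegree = n := by
    rw [← IntermediateField.adjoin.finrank hint, h.gen, IntermediateField.finrank_top', h.deg]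
  have haev : ∀ H : Fin (n + 1) → 𝓞 k, ∑ i, algebraMap k K (H i : k) * x ^ (i : ℕ) = 0 →
      ∃ c : k, ∀ i, (H i : k) = c * (minpoly k x).coeff (i : ℕ) := by
    intro H hH
    set p : k[X] := ∑ i, Polynomial.C (H i : k) * X ^ (i : ℕ) with hp
    have h6 : aeval x p = 0 := by
      rw [hp, map_sum, ← hH]
      refine Finset.sum_congr rfl fun i _ => ?_
      rw [map_mul, aeval_C, map_pow, aeval_X]
    have h7 : minpoly k x ∣ p := minpoly.dvd _ _ h6
    have h8 : p.natDegree ≤ (minpoly k x).natDegree := by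
      rw [hdeg]
      exact Res_natDegree _
    have h9 := eq_leadingCoeff_mul_of_monic_of_dvd_of_natDegree_le (minpoly.monic hint) h7 h8
    refine ⟨p.leadingCoeff, fun i => ?_⟩
    have h10 := congrArg (fun q => q.coeff (i : ℕ)) h9
    simp only [coeff_C_mul] at h10
    rw [← h10, hp, Res_coeff, dif_pos i.2]
  obtain ⟨c, hc⟩ := haev F h.root
  obtain ⟨d, hd⟩ := haev G h5
  have hc0 : c ≠ 0 := by
    intro h0
    apply hlast
    have := hc (Fin.last n)
    rw [h0, zero_mul] at this
    exact_mod_cast this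
  apply hG
  refine ⟨d / c, fun i => ?_⟩
  rw [hc, hd]
  field_simp

end Pool.Agent.RefW
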