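import Pool.Agent.RefW.Defs
import Pool.Agent.RefW.Fibre
import Mathlib

/-!
RW12. The pair sum in terms of roots. For `pairSum_eq`: split the sum over `σ, τ` according to the
restriction `ρ` of `σ`, and use `exists_fibre_equiv` and `pairRoots_eq` (leading coefficient
nonzero, see `exists_fibre_equiv`: if it were zero the left side would be zero, but `F ≠ 0` and
`ρ` is injective).
-/

open Polynomial NumberField
open scoped Classical

namespace Pool.Agent.RefW

/-- The closeness of pairs of roots of the polynomial `P` to the points of `D`. -/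
noncomputable def pairRoots {A : Type} [NormedField A] (δ : A → OnePoint A → ℝ)
    (D : Finset (OnePoint A)) (P : A[X]) : ℝ :=
  ∑ θ ∈ D, (P.roots.map fun z => (P.roots.map fun w =>
    min (-Real.log (δ z θ)) (-Real.log (δ w θ))).sum).sum

theorem pairRoots_eq {A : Type} [NormedField A] (δ : A → OnePoint A → ℝ)
    (D : Finset (OnePoint A)) {n : ℕ} (a : A) (ha : a ≠ 0) (x : Fin n → A) :
    pairRoots δ D (Polynomial.C a * ∏ l, (X - Polynomial.C (x l))) = pairLoc δ D x := by
  have h1 : (Polynomial.C a * ∏ l, (X - Polynomial.C (x l))).roots =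
      (Finset.univ : Finset (Fin n)).val.map x := by
    rw [Polynomial.roots_C_mul _ ha]
    have h2 : ∏ l, (X - Polynomial.C (x l)) =
        (((Finset.univ : Finset (Fin n)).val.map x).map fun b => X - Polynomial.C b).prod := by
      rw [Multiset.map_map]
      rfl
    rw [h2, Polynomial.roots_multiset_prod_X_sub_C]
  unfold pairRoots pairLoc
  rw [h1]
  refine Finset.sum_congr rfl fun θ _ => ?_
  rw [Multiset.map_map]
  refine Finset.sum_congr rfl fun l _ => ?_
  rw [Function.comp, Multiset.map_map]
  rfl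

theorem pairSum_eq {k : Type} [Field k] [NumberField k] {n : ℕ} {F : Fin (n + 1) → 𝓞 k}
    (hF : F ≠ 0) {K : Type} [Field K] [NumberField K] [Algebra k K] {x : K} (h : RootOf F K x)
    {A : Type} [NormedField A] [IsAlgClosed A] [CharZero A] (δ : A → OnePoint A → ℝ)
    (D : (k →+* A) → Finset (OnePoint A)) :
    pairSum δ D K x =
      ∑ ρ : k →+* A, pairRoots δ (D ρ) (∑ i, Polynomial.C (ρ (F i : k)) * X ^ (i : ℕ)) := by
  have key : ∀ ρ : k →+* A,
      pairRoots δ (D ρ) (∑ i, Polynomial.C (ρ (F i : k)) * X ^ (i : ℕ)) =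
        ∑ σ : {σ : K →+* A // σ.comp (algebraMap k K) = ρ},
          ∑ τ : {τ : K →+* A // τ.comp (algebraMap k K) = ρ},
            ∑ θ ∈ D ρ, min (-Real.log (δ (σ.1 x) θ)) (-Real.log (δ (τ.1 x) θ)) := by
    intro ρ
    obtain ⟨e, he⟩ := exists_fibre_equiv hF h ρ
    have hlast : ρ (F (Fin.last n) : k) ≠ 0 := by
      intro h0
      rw [h0, Polynomial.C_0, zero_mul] at he
      apply hF
      funext i
      have h1 : (∑ j : Fin (n + 1), Polynomial.C (ρ (F j : k)) * X ^ (j : ℕ)).coeff (i : ℕ) =
          ρ (F i : k) := by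
        rw [Polynomial.finsetSum_coeff, Finset.sum_eq_single i]
        · rw [Polynomial.coeff_C_mul_X_pow, if_pos rfl]
        · intro j _ hj
          rw [Polynomial.coeff_C_mul_X_pow, if_neg]
          intro h2
          exact hj (Fin.ext h2.symm)
        · intro h2
          exact absurd (Finset.mem_univ i) h2
      rw [he, Polynomial.coeff_zero] at h1
      have h2 : (F i : k) = 0 := (map_eq_zero ρ).mp h1.symm
      have h3 : F i = 0 := by
        apply RingOfIntegers.coe_injective
        simpa using h2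
      simpa using h3
    rw [he, pairRoots_eq δ (D ρ) _ hlast]
    unfold pairLoc
    rw [Finset.sum_comm]
    rw [← e.sum_comp]
    refine Finset.sum_congr rfl fun l _ => ?_
    rw [Finset.sum_comm, ← e.sum_comp]
  rw [Finset.sum_congr rfl fun ρ _ => key ρ]
  unfold pairSum
  rw [← (Equiv.sigmaFiberEquiv fun σ : K →+* A => σ.comp (algebraMap k K)).sum_comp,
    Fintype.sum_sigma]
  refine Finset.sum_congr rfl fun ρ _ => ?_
  refine Finset.sum_congr rfl fun σ _ => ?_
  obtain ⟨σ, hσ⟩ := σ
  subst hσ
  show ∑ τ : K →+* A, (if σ.comp (algebraMap k K) = τ.comp (algebraMap k K) then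
      ∑ θ ∈ D (σ.comp (algebraMap k K)), min (-Real.log (δ (σ x) θ)) (-Real.log (δ (τ x) θ))
    else 0) = _
  rw [← Finset.sum_filter]
  refine (Finset.sum_subtype (Finset.univ.filter fun τ : K →+* A =>
    σ.comp (algebraMap k K) = τ.comp (algebraMap k K))
    (p := fun τ : K →+* A => τ.comp (algebraMap k K) = σ.comp (algebraMap k K)) ?_ _)
  intro τ
  rw [Finset.mem_filter]
  exact ⟨fun h => h.2.symm, fun h => ⟨Finset.mem_univ _, h.symm⟩⟩

theorem pairSum_split {k A : Type} [Field k] [NumberField k] [NormedField A] [IsAlgClosed A]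
    [CharZero A] (δ : A → OnePoint A → ℝ) (D : (k →+* A) → Finset (OnePoint A)) (K : Type)
    [Field K] [NumberField K] [Algebra k K] (x : K) :
    pairSum δ D K x = diagSum δ D K x + offSum δ D K x := by
  unfold pairSum diagSum offSum
  rw [← Finset.sum_add_distrib]
  refine Finset.sum_congr rfl fun σ _ => ?_
  rw [← sub_eq_iff_eq_add, ← Finset.sum_sub_distrib, Finset.sum_eq_single σ]
  · rw [if_pos rfl, if_neg (fun h => h.2 rfl), sub_zero]
    refine Finset.sum_congr rfl fun θ _ => ?_
    rw [min_self]
  · intro τ _ hτ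
    by_cases h : σ.comp (algebraMap k K) = τ.comp (algebraMap k K)
    · rw [if_pos h, if_pos ⟨h, fun h2 => hτ h2.symm⟩, sub_self]
    · rw [if_neg h, if_neg (fun h2 => h h2.1), sub_zero]
  · intro h
    exact absurd (Finset.mem_univ σ) h

end Pool.Agent.RefW
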