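import Mathlib
import Pool.Agent.SST.RedZ
import Pool.Agent.SST.Lattice

/-!
RW2. Small vectors, full dimensional case.
Proof: `SST.exists_lattice` for `M` and `r` gives `B` with `|det B| ≤ exp C * ∏ r⁻¹` and
`‖(M t * B) i j‖ ≤ r t i`. Apply `SST.exists_redZ` to the real matrix
`A a l = (∑ j, L a j * B j l) / s a`, whose determinant is `det L * det B / ∏ s`, nonzero: this
gives `y' i`, `lam` monotone, `RedZ` and `∏ lam ≤ C * |det A|`. Put `y i = B.mulVec (y' i)`. The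
`p`-adic bound follows from the ultrametric inequality (integers have norm at most one).
-/

namespace Pool.Agent.RefW

theorem box_full {T : Type} [Fintype T] (p : T → ℕ) [∀ t, Fact (p t).Prime] {N : ℕ}
    (L : Matrix (Fin N) (Fin N) ℝ) (hL : L.det ≠ 0) (M : ∀ t, Matrix (Fin N) (Fin N) ℚ_[p t]) :
    ∃ C : ℝ, 0 < C ∧ ∀ (s : Fin N → ℝ) (r : ∀ t, Fin N → ℝ), (∀ i, 0 < s i) →
      (∀ t i, 0 < r t i ∧ r t i ≤ 1) →
      ∃ (y : Fin N → Fin N → ℤ) (lam : Fin N → ℝ), Monotone lam ∧ (∀ i, 0 < lam i) ∧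
        (Matrix.of y).det ≠ 0 ∧ ∏ i, lam i ≤ C * ((∏ i, s i) * ∏ t, ∏ i, r t i)⁻¹ ∧
        (∀ i a, |∑ j, L a j * ((y i j : ℤ) : ℝ)| ≤ C * lam i * s a) ∧
        ∀ i t a, ‖∑ j, M t a j * ((y i j : ℤ) : ℚ_[p t])‖ ≤ r t a := by
  classical
  obtain ⟨C1, hC1⟩ := SST.exists_lattice p M
  obtain ⟨C2, hC2, hred⟩ := SST.exists_redZ N
  have hLpos : 0 < |L.det| := abs_pos.mpr hL
  refine ⟨C2 + C2 * |L.det| * Real.exp C1, by positivity, fun s r hs hr => ?_⟩
  obtain ⟨B, hB0, hB1, hB2, -⟩ := hC1 r hr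
  have hB0' : ((B.det : ℤ) : ℝ) ≠ 0 := by exact_mod_cast hB0
  have hdetB : (B.map (Int.castRingHom ℝ)).det = ((B.det : ℤ) : ℝ) := by
    have := (RingHom.map_det (Int.castRingHom ℝ) B).symm
    rw [RingHom.mapMatrix_apply] at this
    rw [this]
    rfl
  set A : Matrix (Fin N) (Fin N) ℝ :=
    Matrix.diagonal (fun a => (s a)⁻¹) * (L * B.map (Int.castRingHom ℝ)) with hA
  have hsp : 0 < ∏ i, s i := Finset.prod_pos fun i _ => hs i
  have hdetA : A.det = (∏ i, s i)⁻¹ * (L.det * ((B.det : ℤ) : ℝ)) := by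
    rw [hA, Matrix.det_mul, Matrix.det_mul, Matrix.det_diagonal, hdetB, Finset.prod_inv_distrib]
  have hAne : A.det ≠ 0 := by
    rw [hdetA]
    exact mul_ne_zero (inv_ne_zero hsp.ne') (mul_ne_zero hL hB0')
  obtain ⟨y', lam, hmono, hR, hprod⟩ := hred A hAne
  refine ⟨fun i => B.mulVec (y' i), lam, hmono, hR.pos, ?_, ?_, ?_, ?_⟩
  · have h1 : (Matrix.of fun i => B.mulVec (y' i)) = Matrix.of y' * B.transpose := by
      ext i j
      simp only [Matrix.of_apply, Matrix.mul_apply, Matrix.mulVec, dotProduct,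
        Matrix.transpose_apply]
      exact Finset.sum_congr rfl fun k _ => mul_comm _ _
    rw [h1, Matrix.det_mul, Matrix.det_transpose]
    exact mul_ne_zero hR.ne hB0
  · have h2 : |A.det| = (∏ i, s i)⁻¹ * (|L.det| * |((B.det : ℤ) : ℝ)|) := by
      rw [hdetA, abs_mul, abs_mul, abs_of_pos (inv_pos.mpr hsp)]
    have h3 : ∏ t, ∏ i, (r t i)⁻¹ = (∏ t, ∏ i, r t i)⁻¹ := by
      rw [← Finset.prod_inv_distrib]
      exact Finset.prod_congr rfl fun t _ => Finset.prod_inv_distrib _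
    have hrp : 0 < ∏ t, ∏ i, r t i :=
      Finset.prod_pos fun t _ => Finset.prod_pos fun i _ => (hr t i).1
    rw [h3] at hB1
    have h4 : |A.det| ≤ |L.det| * Real.exp C1 * ((∏ i, s i) * ∏ t, ∏ i, r t i)⁻¹ := by
      rw [h2, mul_inv]
      calc (∏ i, s i)⁻¹ * (|L.det| * |((B.det : ℤ) : ℝ)|) ≤
            (∏ i, s i)⁻¹ * (|L.det| * (Real.exp C1 * (∏ t, ∏ i, r t i)⁻¹)) := by
              gcongr
        _ = _ := by ring
    have h5 : 0 ≤ ((∏ i, s i) * ∏ t, ∏ i, r t i)⁻¹ := by positivity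
    calc ∏ i, lam i ≤ C2 * |A.det| := hprod
      _ ≤ C2 * (|L.det| * Real.exp C1 * ((∏ i, s i) * ∏ t, ∏ i, r t i)⁻¹) := by gcongr
      _ = (C2 * |L.det| * Real.exp C1) * ((∏ i, s i) * ∏ t, ∏ i, r t i)⁻¹ := by ring
      _ ≤ _ := by
        apply mul_le_mul_of_nonneg_right _ h5
        linarith
  · intro i a
    have h1 := hR.upper a i
    have h2 : A.mulVec (fun k => ((y' i k : ℤ) : ℝ)) a =
        (s a)⁻¹ * ∑ j, L a j * (((B.mulVec (y' i)) j : ℤ) : ℝ) := by
      rw [hA, ← Matrix.mulVec_mulVec, Matrix.mulVec_diagonal, ← Matrix.mulVec_mulVec]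
      congr 1
      rw [Matrix.mulVec, dotProduct]
      refine Finset.sum_congr rfl fun j _ => ?_
      congr 1
      simp only [Matrix.mulVec, dotProduct, Matrix.map_apply, eq_intCast, Int.cast_sum,
        Int.cast_mul]
    have h3 : |(s a)⁻¹ * ∑ j, L a j * (((B.mulVec (y' i)) j : ℤ) : ℝ)| ≤ C2 * lam i := by
      rw [← h2]
      exact h1
    rw [abs_mul, abs_of_pos (inv_pos.mpr (hs a)), inv_mul_le_iff₀ (hs a)] at h3
    have h4 : C2 * lam i * s a ≤ (C2 + C2 * |L.det| * Real.exp C1) * lam i * s a := by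
      apply mul_le_mul_of_nonneg_right _ (hs a).le
      apply mul_le_mul_of_nonneg_right _ (hR.pos i).le
      have : 0 ≤ C2 * |L.det| * Real.exp C1 := by positivity
      linarith
    linarith
  · intro i t a
    have h1 : ∑ j, M t a j * (((B.mulVec (y' i)) j : ℤ) : ℚ_[p t]) =
        ∑ l, (M t * B.map (Int.castRingHom ℚ_[p t])) a l * ((y' i l : ℤ) : ℚ_[p t]) := by
      simp only [Matrix.mul_apply, Matrix.mulVec, dotProduct, Matrix.map_apply, eq_intCast,
        Int.cast_sum, Int.cast_mul, Finset.sum_mul, Finset.mul_sum]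
      rw [Finset.sum_comm]
      exact Finset.sum_congr rfl fun l _ => Finset.sum_congr rfl fun j _ => by ring
    rw [h1]
    refine IsUltrametricDist.norm_sum_le_of_forall_le_of_nonneg (hr t a).1.le fun l _ => ?_
    rw [norm_mul]
    calc _ ≤ r t a * 1 := mul_le_mul (hB2 t a l) (Padic.norm_int_le_one _) (norm_nonneg _)
            (hr t a).1.le
      _ = r t a := mul_one _

end Pool.Agent.RefW
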