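import Mathlib

/-!
RW1. Greedy bases of a finite spanning family of linear forms, with uniform constants.
Proof: the rows `L i` span `Fin N → 𝕜` (otherwise a nonzero `z` is orthogonal to all of them), so
some `e` has nonzero determinant. Given `s`, choose among the finitely many `e : Fin N → I` with
nonzero determinant one with `∑ j, s (e j)` minimal. Expand `L i` in the basis `L (e j)`; if the
coefficient `c j` is nonzero, replacing `e j` by `i` gives a determinant `c j` times the old one,
hence nonzero, so `s (e j) ≤ s i` by minimality. `C` is the maximum of the norms of the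
coefficients over all `e` with nonzero determinant and all `i, j`.
-/

namespace Pool.Agent.RefW

theorem greedy_exists {𝕜 : Type} [Field 𝕜] {N : ℕ} {I : Type}
    (L : I → Fin N → 𝕜) (hL : ∀ z : Fin N → 𝕜, (∀ i, ∑ j, L i j * z j = 0) → z = 0) :
    ∃ e : Fin N → I, (Matrix.of fun j => L (e j)).det ≠ 0 := by
  classical
  have hspan : Submodule.span 𝕜 (Set.range L) = ⊤ := by
    by_contra hne
    have hlt : Submodule.span 𝕜 (Set.range L) < ⊤ := lt_of_le_of_ne le_top hne
    obtain ⟨f, hf0, hf⟩ := Submodule.exists_le_ker_of_lt_top _ hlt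
    apply hf0
    have hz : (fun j => f (Pi.single j 1)) = (0 : Fin N → 𝕜) := by
      apply hL
      intro i
      have h1 : f (L i) = 0 := by
        have : L i ∈ Submodule.span 𝕜 (Set.range L) := Submodule.subset_span ⟨i, rfl⟩
        exact hf this
      rw [← h1]
      conv_rhs => rw [pi_eq_sum_univ' (L i)]
      rw [map_sum]
      refine Finset.sum_congr rfl fun j _ => ?_
      rw [map_smul, smul_eq_mul]
    apply LinearMap.pi_ext'
    intro j
    ext
    simpa using congrFun hz j
  obtain ⟨b, hb, hb2, hb3⟩ := exists_linearIndependent 𝕜 (Set.range L)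
  rw [hspan] at hb2
  let B : Module.Basis b 𝕜 (Fin N → 𝕜) := Module.Basis.mk hb3 (by
    rw [Subtype.range_coe_subtype, Set.ofPred_mem_eq, hb2])
  have : Fintype b := FiniteDimensional.fintypeBasisIndex B
  have hcard : Fintype.card b = N := by
    rw [← Module.finrank_eq_card_basis B, Module.finrank_fin_fun]
  let q : Fin N ≃ b := (Fintype.equivFinOfCardEq hcard).symm
  have hch : ∀ j : Fin N, ∃ i : I, L i = (q j : Fin N → 𝕜) := fun j => hb (q j).2
  choose e he using hch
  refine ⟨e, ?_⟩
  have hli : LinearIndependent 𝕜 (fun j => L (e j)) := by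
    have h1 : (fun j => L (e j)) = (fun x : b => (x : Fin N → 𝕜)) ∘ q := by
      funext j
      rw [he j]
      rfl
    rw [h1]
    exact hb3.comp q q.injective
  have hu : IsUnit (Matrix.of fun j => L (e j)) :=
    Matrix.linearIndependent_rows_iff_isUnit.mp hli
  exact ((Matrix.isUnit_iff_isUnit_det _).mp hu).ne_zero

theorem exists_greedy {𝕜 : Type} [NormedField 𝕜] {N : ℕ} {I : Type} [Fintype I]
    (L : I → Fin N → 𝕜) (hL : ∀ z : Fin N → 𝕜, (∀ i, ∑ j, L i j * z j = 0) → z = 0) :
    ∃ C : ℝ, 0 < C ∧ ∀ s : I → ℝ, ∃ e : Fin N → I, (Matrix.of fun j => L (e j)).det ≠ 0 ∧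
      ∀ i, ∃ c : Fin N → 𝕜, (∀ l, L i l = ∑ j, c j * L (e j) l) ∧ (∀ j, ‖c j‖ ≤ C) ∧
        ∀ j, c j ≠ 0 → s (e j) ≤ s i := by
  classical
  set M : (Fin N → I) → Matrix (Fin N) (Fin N) 𝕜 := fun e => Matrix.of fun j => L (e j) with hM
  set c : (Fin N → I) → I → Fin N → 𝕜 := fun e i j =>
    ((M e).updateRow j (L i)).det / (M e).det with hc
  have hnn : ∀ (e : Fin N → I) (i : I), 0 ≤ ∑ j, ‖c e i j‖ :=
    fun e i => Finset.sum_nonneg fun j _ => norm_nonneg _
  refine ⟨1 + ∑ e, ∑ i, ∑ j, ‖c e i j‖, by
    have : 0 ≤ ∑ e, ∑ i, ∑ j, ‖c e i j‖ :=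
      Finset.sum_nonneg fun e _ => Finset.sum_nonneg fun i _ => hnn e i
    linarith, ?_⟩
  intro s
  obtain ⟨e0, he0⟩ := greedy_exists L hL
  obtain ⟨e, he, hmin⟩ := Finset.exists_min_image
    (Finset.univ.filter fun e : Fin N → I => (M e).det ≠ 0) (fun e => ∑ j, s (e j))
    ⟨e0, by simpa [hM] using he0⟩
  have hdet : (M e).det ≠ 0 := by simpa using he
  refine ⟨e, hdet, ?_⟩
  intro i
  refine ⟨c e i, ?_, ?_, ?_⟩
  · intro l
    have h1 := congrFun (Matrix.mulVec_cramer (M e).transpose (L i)) l
    have h2 : ∑ j, c e i j * L (e j) l =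
        ((M e).transpose.mulVec (Matrix.cramer (M e).transpose (L i))) l / (M e).det := by
      rw [Matrix.mulVec, dotProduct, Finset.sum_div]
      refine Finset.sum_congr rfl fun j _ => ?_
      rw [Matrix.cramer_transpose_apply]
      simp only [hc, hM, Matrix.transpose_apply, Matrix.of_apply]
      ring
    rw [h2, h1, Matrix.det_transpose, Pi.smul_apply, smul_eq_mul, mul_div_cancel_left₀ _ hdet]
  · intro j
    have h1 : ‖c e i j‖ ≤ ∑ j, ‖c e i j‖ :=
      Finset.single_le_sum (f := fun j => ‖c e i j‖) (fun j _ => norm_nonneg _)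
        (Finset.mem_univ j)
    have h2 : ∑ j, ‖c e i j‖ ≤ ∑ i, ∑ j, ‖c e i j‖ :=
      Finset.single_le_sum (f := fun i => ∑ j, ‖c e i j‖) (fun i _ => hnn e i)
        (Finset.mem_univ i)
    have h3 : ∑ i, ∑ j, ‖c e i j‖ ≤ ∑ e, ∑ i, ∑ j, ‖c e i j‖ :=
      Finset.single_le_sum (f := fun e => ∑ i, ∑ j, ‖c e i j‖)
        (fun e _ => Finset.sum_nonneg fun i _ => hnn e i) (Finset.mem_univ e)
    linarith
  · intro j hj
    have hup : M (Function.update e j i) = (M e).updateRow j (L i) := by
      ext a l
      by_cases ha : a = j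
      · subst ha
        simp [hM]
      · simp [hM, Matrix.updateRow_ne ha, Function.update_of_ne ha]
    have hd' : (M (Function.update e j i)).det ≠ 0 := by
      rw [hup]
      intro h0
      apply hj
      simp only [hc]
      rw [h0, zero_div]
    have hm := hmin (Function.update e j i) (by simpa using hd')
    have h1 : ∑ l, s (Function.update e j i l) = s i + ∑ l ∈ Finset.univ \ {j}, s (e l) := by
      have : (fun l => s (Function.update e j i l)) = Function.update (fun l => s (e l)) j (s i) := by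
        funext l
        by_cases hl : l = j
        · subst hl
          simp
        · simp [Function.update_of_ne hl]
      rw [this]
      exact Finset.sum_update_of_mem (Finset.mem_univ j) _ _
    have h2 : ∑ l, s (e l) = s (e j) + ∑ l ∈ Finset.univ \ {j}, s (e l) := by
      rw [← Finset.add_sum_erase _ _ (Finset.mem_univ j), Finset.sdiff_singleton_eq_erase]
    rw [h1, h2] at hm
    linarith

end Pool.Agent.RefW
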