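import Mathlib

/-!
RW3. A basis of the integer points of a rational hyperplane.
Proof: the kernel of `x ↦ ∑ i, b i * x i` on `Fin (m + 1) → ℤ` is free of rank `m` (rank nullity,
the image is a nonzero ideal of `ℤ`); let `B` have a basis of it as columns. A left inverse up to a
scalar is `adj (Bᵀ B) Bᵀ`.
-/

namespace Pool.Agent.RefW

private theorem plane_finrank {m : ℕ} (φ : (Fin (m + 1) → ℤ) →ₗ[ℤ] ℤ) (hφ : φ ≠ 0) :
    Module.finrank ℤ (LinearMap.ker φ) = m := by
  have h0 := Submodule.finrank_quotient_add_finrank (LinearMap.ker φ)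
  have h1 : Module.finrank ℤ (LinearMap.range φ) + Module.finrank ℤ (LinearMap.ker φ) =
      Module.finrank ℤ (Fin (m + 1) → ℤ) := by
    rw [← h0, LinearEquiv.finrank_eq φ.quotKerEquivRange]
  have h2 : Module.finrank ℤ (LinearMap.range φ) ≤ 1 := by
    have := Submodule.finrank_le (LinearMap.range φ)
    simpa using this
  have h3 : 0 < Module.finrank ℤ (LinearMap.range φ) := by
    have hne : LinearMap.range φ ≠ ⊥ := fun h => hφ (LinearMap.range_eq_bot.1 h)
    have : Nontrivial (LinearMap.range φ) := Submodule.nontrivial_iff_ne_bot.2 hne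
    exact Module.finrank_pos
  rw [Module.finrank_fin_fun] at h1
  omega

theorem hyperplane_basis {m : ℕ} (b : Fin (m + 1) → ℤ) (hb : b ≠ 0) :
    ∃ (B : Matrix (Fin (m + 1)) (Fin m) ℤ) (Q : Matrix (Fin m) (Fin (m + 1)) ℤ) (d : ℤ), d ≠ 0 ∧
      Q * B = d • (1 : Matrix (Fin m) (Fin m) ℤ) ∧
      ∀ x : Fin (m + 1) → ℤ, ∑ i, b i * x i = 0 → ∃ y : Fin m → ℤ, x = B.mulVec y := by
  classical
  let φ : (Fin (m + 1) → ℤ) →ₗ[ℤ] ℤ := ∑ i, b i • LinearMap.proj i
  have hφa : ∀ x, φ x = ∑ i, b i * x i := fun x => by simp [φ]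
  have hφ : φ ≠ 0 := by
    intro h
    apply hb
    funext i
    have h1 := hφa (Pi.single i 1)
    rw [h] at h1
    simpa [Pi.single_apply] using h1.symm
  let bs : Module.Basis (Fin m) ℤ (LinearMap.ker φ) :=
    Module.finBasisOfFinrankEq ℤ _ (plane_finrank φ hφ)
  let B : Matrix (Fin (m + 1)) (Fin m) ℤ := Matrix.of fun i j => (bs j : Fin (m + 1) → ℤ) i
  have hB : ∀ y : Fin m → ℤ, B.mulVec y = ((∑ j, y j • bs j : LinearMap.ker φ) :
      Fin (m + 1) → ℤ) := by
    intro y
    funext i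
    rw [Submodule.coe_sum]
    simp [B, Matrix.mulVec, dotProduct, mul_comm]
  have hinj : ∀ y : Fin m → ℤ, B.mulVec y = 0 → y = 0 := by
    intro y hy
    rw [hB] at hy
    have h1 : (∑ j, y j • bs j : LinearMap.ker φ) = 0 := Subtype.ext hy
    have h2 := (Fintype.linearIndependent_iff.1 bs.linearIndependent) y h1
    exact funext h2
  have hdet : (B.transpose * B).det ≠ 0 := by
    intro h
    rw [← Matrix.exists_mulVec_eq_zero_iff] at h
    obtain ⟨w, hw0, hw⟩ := h
    apply hw0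
    apply hinj
    rw [← dotProduct_self_eq_zero]
    have h1 : w ⬝ᵥ (B.transpose * B).mulVec w = B.mulVec w ⬝ᵥ B.mulVec w := by
      rw [← Matrix.mulVec_mulVec, Matrix.dotProduct_mulVec, Matrix.vecMul_transpose]
    rw [← h1, hw, dotProduct_zero]
  refine ⟨B, (B.transpose * B).adjugate * B.transpose, (B.transpose * B).det, hdet, ?_, ?_⟩
  · rw [Matrix.mul_assoc, Matrix.adjugate_mul]
  · intro x hx
    have hxk : x ∈ LinearMap.ker φ := by
      rw [LinearMap.mem_ker, hφa]
      exact hx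
    refine ⟨fun j => bs.repr ⟨x, hxk⟩ j, ?_⟩
    rw [hB, bs.sum_repr]

end Pool.Agent.RefW
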