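import Pool.Agent.RefW.Defs
import Pool.Agent.RefW.Greedy
import Pool.Agent.RefW.Full
import Pool.Agent.RefW.Plane
import Pool.Agent.SST.Schlick

/-!
RW4. The box theorem for real and `p`-adic forms, by induction on `N`.
-/

open Polynomial NumberField
open scoped Classical

namespace Pool.Agent.RefW

private theorem box_mono {N : ℕ} {I T : Type} {p : T → ℕ} [∀ t, Fact (p t).Prime] {J : T → Type}
    {L : I → Fin N → ℝ} {M : ∀ t, J t → Fin N → ℚ_[p t]} {s : I → ℝ} {r : ∀ t, J t → ℝ}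
    {C P C' P' : ℝ} {U : Submodule ℚ (Fin N → ℚ)} {m : ℕ} {y : Fin m → Fin N → ℤ}
    {lam : Fin m → ℝ} (h : SmallBasis L M s r C P U y lam) (hC : C ≤ C') (hP : P ≤ P')
    (hs : ∀ i, 0 ≤ s i) (hr : ∀ t i, 0 ≤ r t i) : SmallBasis L M s r C' P' U y lam where
  le := h.le
  mono := h.mono
  pos := h.pos
  ne := h.ne
  span := h.span
  prod := h.prod.trans hP
  real i a := (h.real i a).trans (mul_le_mul_of_nonneg_right
    (mul_le_mul_of_nonneg_right hC (h.pos i).le) (hs a))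
  padic i t a := (h.padic i t a).trans (mul_le_mul_of_nonneg_right hC (hr t a))

/-- The conclusion of the box theorem. -/
private def BoxConc {T : Type} {p : T → ℕ} [∀ t, Fact (p t).Prime] (ε : ℝ)
    {N : ℕ} {I : Type} {J : T → Type} (L : I → Fin N → ℝ) (M : ∀ t, J t → Fin N → ℚ_[p t])
    (C : ℝ) (𝒰 : Finset (Submodule ℚ (Fin N → ℚ))) (x : Fin N → ℤ) (H : ℝ) : Prop :=
  ∀ (s : I → ℝ) (r : ∀ t, J t → ℝ), (∀ i, |∑ j, L i j * ((x j : ℤ) : ℝ)| ≤ s i) →
    (∀ t i, ‖∑ j, M t i j * ((x j : ℤ) : ℚ_[p t])‖ ≤ r t i) → (∀ t i, r t i ≤ 1) →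
    ∃ U ∈ 𝒰, (fun j => ((x j : ℤ) : ℚ)) ∈ U ∧
      ∃ (m : ℕ) (y : Fin m → Fin N → ℤ) (lam : Fin m → ℝ),
        SmallBasis L M s r C (C * H ^ ε) U y lam

private theorem box_sum_mul {R : Type} [CommRing R] {N m : ℕ} (l : Fin N → R)
    (B : Matrix (Fin N) (Fin m) ℤ) (z : Fin m → R) :
    ∑ a, (∑ j, l j * ((B j a : ℤ) : R)) * z a = ∑ j, l j * ∑ a, ((B j a : ℤ) : R) * z a := by
  simp only [Finset.sum_mul, Finset.mul_sum]
  rw [Finset.sum_comm]
  exact Finset.sum_congr rfl fun j _ => Finset.sum_congr rfl fun a _ => by ring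

private theorem box_mulVec {R : Type} [CommRing R] {N m : ℕ}
    (B : Matrix (Fin N) (Fin m) ℤ) (y : Fin m → ℤ) (j : Fin N) :
    ((B.mulVec y j : ℤ) : R) = ∑ a, ((B j a : ℤ) : R) * ((y a : ℤ) : R) := by
  simp [Matrix.mulVec, dotProduct]

private theorem box_left {R : Type} [CommRing R] [NoZeroDivisors R] [CharZero R] {N m : ℕ}
    {B : Matrix (Fin N) (Fin m) ℤ} {Q : Matrix (Fin m) (Fin N) ℤ} {d : ℤ} (hd : d ≠ 0)
    (hQ : Q * B = d • (1 : Matrix (Fin m) (Fin m) ℤ)) (z : Fin m → R)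
    (h : ∀ j, ∑ a, ((B j a : ℤ) : R) * z a = 0) : z = 0 := by
  funext a
  have h1 : ∑ j, ((Q a j : ℤ) : R) * ∑ c, ((B j c : ℤ) : R) * z c = 0 := by
    simp only [h, mul_zero, Finset.sum_const_zero]
  rw [← box_sum_mul] at h1
  have h2 : ∀ c, ∑ j, ((Q a j : ℤ) : R) * ((B j c : ℤ) : R) = if a = c then (d : R) else 0 := by
    intro c
    have h3 := congrFun (congrFun hQ a) c
    rw [Matrix.mul_apply, Matrix.smul_apply, Matrix.one_apply] at h3
    have h4 := congrArg (fun n : ℤ => (n : R)) h3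
    push_cast at h4
    rw [h4]
    split_ifs <;> simp
  simp only [h2, ite_mul, zero_mul, Finset.sum_ite_eq, Finset.mem_univ, if_true] at h1
  rcases mul_eq_zero.1 h1 with h3 | h3
  · exact absurd (by exact_mod_cast h3) hd
  · exact h3

/-- The linear map given by an integer matrix. -/
private noncomputable def boxLin {N m : ℕ} (B : Matrix (Fin N) (Fin m) ℤ) :
    (Fin m → ℚ) →ₗ[ℚ] (Fin N → ℚ) := (B.map (Int.castRingHom ℚ)).mulVecLin

private theorem boxLin_int {N m : ℕ} (B : Matrix (Fin N) (Fin m) ℤ) (y : Fin m → ℤ) :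
    boxLin B (fun j => ((y j : ℤ) : ℚ)) = fun j => ((B.mulVec y j : ℤ) : ℚ) := by
  funext j
  rw [box_mulVec]
  simp [boxLin, Matrix.mulVec, dotProduct]

/-- The step for one hyperplane. -/
private theorem box_plane {T : Type} [Fintype T] (p : T → ℕ) [∀ t, Fact (p t).Prime]
    (ε : ℝ) (hε : 0 < ε) {N : ℕ}
    (ih : ∀ (I : Type) [Fintype I] (J : T → Type) [∀ t, Fintype (J t)]
      (L : I → Fin N → ℝ) (M : ∀ t, J t → Fin N → ℚ_[p t])
      (_ : ∀ i j, IsAlgebraic ℚ (L i j)) (_ : ∀ t i j, IsAlgebraic ℚ (M t i j))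
      (_ : ∀ z : Fin N → ℝ, (∀ i, ∑ j, L i j * z j = 0) → z = 0)
      (_ : ∀ t (z : Fin N → ℚ_[p t]), (∀ i, ∑ j, M t i j * z j = 0) → z = 0),
    ∃ C : ℝ, 0 < C ∧ ∃ 𝒰 : Finset (Submodule ℚ (Fin N → ℚ)),
      ∀ (x : Fin N → ℤ) (H : ℝ), x ≠ 0 → 1 ≤ H → (∀ j, |((x j : ℤ) : ℝ)| ≤ H) →
        BoxConc ε L M C 𝒰 x H)
    {I : Type} [Fintype I] {J : T → Type} [∀ t, Fintype (J t)]
    (L : I → Fin (N + 1) → ℝ) (M : ∀ t, J t → Fin (N + 1) → ℚ_[p t])
    (hLa : ∀ i j, IsAlgebraic ℚ (L i j)) (hMa : ∀ t i j, IsAlgebraic ℚ (M t i j))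
    (hL : ∀ z : Fin (N + 1) → ℝ, (∀ i, ∑ j, L i j * z j = 0) → z = 0)
    (hM : ∀ t (z : Fin (N + 1) → ℚ_[p t]), (∀ i, ∑ j, M t i j * z j = 0) → z = 0)
    (b : Fin (N + 1) → ℤ) :
    ∃ C : ℝ, 0 < C ∧ ∃ 𝒰 : Finset (Submodule ℚ (Fin (N + 1) → ℚ)), b ≠ 0 →
      ∀ (x : Fin (N + 1) → ℤ) (H : ℝ), x ≠ 0 → 1 ≤ H → (∀ j, |((x j : ℤ) : ℝ)| ≤ H) →
        ∑ i, b i * x i = 0 → BoxConc ε L M C 𝒰 x H := by
  by_cases hb : b = 0
  · exact ⟨1, one_pos, ∅, fun h => absurd hb h⟩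
  obtain ⟨B, Q, d, hd, hQ, hB⟩ := hyperplane_basis b hb
  have halgZ : ∀ {R : Type} [Field R] [CharZero R] (n : ℤ), IsAlgebraic ℚ ((n : ℤ) : R) := by
    intro R _ _ n
    have := isAlgebraic_algebraMap (R := ℚ) (A := R) (n : ℚ)
    simpa using this
  obtain ⟨C, hC, 𝒰, h𝒰⟩ := ih I J (fun i a => ∑ j, L i j * ((B j a : ℤ) : ℝ))
    (fun t i a => ∑ j, M t i j * ((B j a : ℤ) : ℚ_[p t]))
    (fun i a => isAlgebraic_iff_isIntegral.2 (IsIntegral.sum _ fun j _ =>
      isAlgebraic_iff_isIntegral.1 ((hLa i j).mul (halgZ _))))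
    (fun t i a => isAlgebraic_iff_isIntegral.2 (IsIntegral.sum _ fun j _ =>
      isAlgebraic_iff_isIntegral.1 ((hMa t i j).mul (halgZ _))))
    (fun z hz => by
      refine box_left hd hQ z fun j => ?_
      refine congrFun (hL (fun j => ∑ a, ((B j a : ℤ) : ℝ) * z a) fun i => ?_) j
      rw [← box_sum_mul]
      exact hz i)
    (fun t z hz => by
      refine box_left hd hQ z fun j => ?_
      refine congrFun (hM t (fun j => ∑ a, ((B j a : ℤ) : ℚ_[p t]) * z a) fun i => ?_) j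
      rw [← box_sum_mul]
      exact hz i)
  set q : ℝ := 1 + ∑ a, ∑ j, |((Q a j : ℤ) : ℝ)| with hq
  have hq1 : 1 ≤ q := by
    have : 0 ≤ ∑ a, ∑ j, |((Q a j : ℤ) : ℝ)| :=
      Finset.sum_nonneg fun _ _ => Finset.sum_nonneg fun _ _ => abs_nonneg _
    linarith
  have hqε : 1 ≤ q ^ ε := Real.one_le_rpow hq1 hε.le
  refine ⟨C * q ^ ε, by positivity, 𝒰.image (Submodule.map (boxLin B)), fun _ x H hx hH hxH hbx => ?_⟩
  intro s r hs hr hr1
  obtain ⟨x', rfl⟩ := hB x hbx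
  have hx' : x' ≠ 0 := by
    rintro rfl
    exact hx (Matrix.mulVec_zero B)
  have hbound : ∀ a, |((x' a : ℤ) : ℝ)| ≤ q * H := by
    intro a
    have h1 : (d : ℝ) * ((x' a : ℤ) : ℝ) = ∑ j, ((Q a j : ℤ) : ℝ) * ((B.mulVec x' j : ℤ) : ℝ) := by
      have h2 : Q.mulVec (B.mulVec x') = d • x' := by
        rw [Matrix.mulVec_mulVec, hQ, Matrix.smul_mulVec, Matrix.one_mulVec]
      have h3 := congrFun h2 a
      have h4 := congrArg (fun n : ℤ => (n : ℝ)) h3
      simp only [Pi.smul_apply, smul_eq_mul, Int.cast_mul] at h4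
      rw [← h4]
      simp [Matrix.mulVec, dotProduct]
    have h2 : (1 : ℝ) ≤ |(d : ℝ)| := by
      have : (1 : ℤ) ≤ |d| := Int.one_le_abs hd
      exact_mod_cast this
    calc |((x' a : ℤ) : ℝ)| ≤ |(d : ℝ)| * |((x' a : ℤ) : ℝ)| :=
          le_mul_of_one_le_left (abs_nonneg _) h2
      _ = |∑ j, ((Q a j : ℤ) : ℝ) * ((B.mulVec x' j : ℤ) : ℝ)| := by rw [← abs_mul, h1]
      _ ≤ ∑ j, |((Q a j : ℤ) : ℝ) * ((B.mulVec x' j : ℤ) : ℝ)| := Finset.abs_sum_le_sum_abs _ _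
      _ ≤ ∑ j, |((Q a j : ℤ) : ℝ)| * H := Finset.sum_le_sum fun j _ => by
          rw [abs_mul]
          exact mul_le_mul_of_nonneg_left (hxH j) (abs_nonneg _)
      _ = (∑ j, |((Q a j : ℤ) : ℝ)|) * H := (Finset.sum_mul _ _ _).symm
      _ ≤ q * H := by
          refine mul_le_mul_of_nonneg_right ?_ (by linarith)
          have h3 : ∑ j, |((Q a j : ℤ) : ℝ)| ≤ ∑ a, ∑ j, |((Q a j : ℤ) : ℝ)| :=
            Finset.single_le_sum (f := fun a => ∑ j, |((Q a j : ℤ) : ℝ)|)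
              (fun _ _ => Finset.sum_nonneg fun _ _ => abs_nonneg _) (Finset.mem_univ a)
          linarith
  have hH' : 1 ≤ q * H := one_le_mul_of_one_le_of_one_le hq1 hH
  have hs' : ∀ i, |∑ a, (∑ j, L i j * ((B j a : ℤ) : ℝ)) * ((x' a : ℤ) : ℝ)| ≤ s i := by
    intro i
    rw [box_sum_mul]
    simp only [← box_mulVec]
    exact hs i
  have hr' : ∀ t i, ‖∑ a, (∑ j, M t i j * ((B j a : ℤ) : ℚ_[p t])) * ((x' a : ℤ) : ℚ_[p t])‖ ≤
      r t i := by
    intro t i
    rw [box_sum_mul]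
    simp only [← box_mulVec]
    exact hr t i
  obtain ⟨U, hU, hxU, m, y, lam, hy⟩ := h𝒰 x' (q * H) hx' hH' hbound s r hs' hr' hr1
  have hs0 : ∀ i, 0 ≤ s i := fun i => (abs_nonneg _).trans (hs i)
  have hr0 : ∀ t i, 0 ≤ r t i := fun t i => (norm_nonneg _).trans (hr t i)
  have hCle : C ≤ C * q ^ ε := le_mul_of_one_le_right hC.le hqε
  refine ⟨_, Finset.mem_image_of_mem _ hU, ?_, m, fun i => B.mulVec (y i), lam, ?_⟩
  · rw [← boxLin_int]
    exact Submodule.mem_map_of_mem hxU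
  · have hne : ∀ i, B.mulVec (y i) ≠ 0 := by
      intro i h0
      refine hy.ne i ?_
      have h1 := box_left (R := ℤ) hd hQ (y i) (fun j => by
        have := congrFun h0 j
        simpa [Matrix.mulVec, dotProduct] using this)
      exact h1
    refine ⟨hy.le.trans (Nat.le_succ N), hy.mono, hy.pos, hne, ?_, ?_, ?_, ?_⟩
    · rw [← hy.span, Submodule.map_span]
      congr 1
      rw [← Set.range_comp]
      congr 1
      funext i
      exact (boxLin_int B (y i)).symm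
    · refine hy.prod.trans (le_of_eq ?_)
      rw [Real.mul_rpow (by positivity) (by positivity)]
      ring
    · intro i a
      have h1 := hy.real i a
      rw [box_sum_mul] at h1
      simp only [← box_mulVec] at h1
      exact h1.trans (mul_le_mul_of_nonneg_right
        (mul_le_mul_of_nonneg_right hCle (hy.pos i).le) (hs0 a))
    · intro i t a
      have h1 := hy.padic i t a
      rw [box_sum_mul] at h1
      simp only [← box_mulVec] at h1
      exact h1.trans (mul_le_mul_of_nonneg_right hCle (hr0 t a))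

private theorem box_span {N : ℕ} (y : Fin N → Fin N → ℤ) (hy : (Matrix.of y).det ≠ 0) :
    Submodule.span ℚ (Set.range fun i j => ((y i j : ℤ) : ℚ)) = ⊤ := by
  have h1 : ((Matrix.of y).map (Int.castRingHom ℚ)).det ≠ 0 := by
    rw [← RingHom.mapMatrix_apply, ← RingHom.map_det]
    simpa using hy
  have h2 := Matrix.linearIndependent_rows_iff_isUnit.2
    ((Matrix.isUnit_iff_isUnit_det _).2 (isUnit_iff_ne_zero.2 h1))
  have h3 := h2.span_eq_top_of_card_eq_finrank' (by simp)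
  exact h3

private theorem box_expand {𝕜 : Type} [NormedField 𝕜] {N : ℕ} {I : Type}
    (L : I → Fin N → 𝕜) (e : Fin N → I) (i : I) (c : Fin N → 𝕜) (C D : ℝ) (hD : 0 ≤ D)
    (hC : 0 ≤ C) (s : I → ℝ)
    (hs : ∀ i, 0 ≤ s i) (h1 : ∀ l, L i l = ∑ j, c j * L (e j) l) (h2 : ∀ j, ‖c j‖ ≤ C)
    (h3 : ∀ j, c j ≠ 0 → s (e j) ≤ s i) (y : Fin N → 𝕜)
    (h4 : ∀ j, ‖∑ l, L (e j) l * y l‖ ≤ D * s (e j)) :
    ‖∑ l, L i l * y l‖ ≤ N * C * (D * s i) := by
  have h5 : ∑ l, L i l * y l = ∑ j, c j * ∑ l, L (e j) l * y l := by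
    simp only [h1, Finset.sum_mul, Finset.mul_sum]
    rw [Finset.sum_comm]
    exact Finset.sum_congr rfl fun j _ => Finset.sum_congr rfl fun a _ => by ring
  rw [h5]
  refine (norm_sum_le _ _).trans ?_
  have h6 : ∀ j ∈ (Finset.univ : Finset (Fin N)), ‖c j * ∑ l, L (e j) l * y l‖ ≤ C * (D * s i) := by
    intro j _
    rw [norm_mul]
    by_cases hc : c j = 0
    · rw [hc, norm_zero, zero_mul]
      exact mul_nonneg hC (mul_nonneg hD (hs i))
    · exact mul_le_mul (h2 j) ((h4 j).trans (mul_le_mul_of_nonneg_left (h3 j hc) hD))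
        (norm_nonneg _) hC
  refine (Finset.sum_le_card_nsmul _ _ _ h6).trans (le_of_eq ?_)
  rw [Finset.card_univ, Fintype.card_fin, nsmul_eq_mul]
  ring

private theorem box_real_aux {T : Type} [Fintype T] [DecidableEq T] (p : T → ℕ)
    [∀ t, Fact (p t).Prime] (hp : Function.Injective p) (ε : ℝ) (hε : 0 < ε) :
    ∀ (N : ℕ) (I : Type) [Fintype I] (J : T → Type) [∀ t, Fintype (J t)]
      (L : I → Fin N → ℝ) (M : ∀ t, J t → Fin N → ℚ_[p t])
      (_ : ∀ i j, IsAlgebraic ℚ (L i j)) (_ : ∀ t i j, IsAlgebraic ℚ (M t i j))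
      (_ : ∀ z : Fin N → ℝ, (∀ i, ∑ j, L i j * z j = 0) → z = 0)
      (_ : ∀ t (z : Fin N → ℚ_[p t]), (∀ i, ∑ j, M t i j * z j = 0) → z = 0),
    ∃ C : ℝ, 0 < C ∧ ∃ 𝒰 : Finset (Submodule ℚ (Fin N → ℚ)),
      ∀ (x : Fin N → ℤ) (H : ℝ), x ≠ 0 → 1 ≤ H → (∀ j, |((x j : ℤ) : ℝ)| ≤ H) →
        BoxConc ε L M C 𝒰 x H := by
  intro N
  induction N with
  | zero =>
    intro I _ J _ L M _ _ _ _
    exact ⟨1, one_pos, ∅, fun x H hx => absurd (Subsingleton.elim x 0) hx⟩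
  | succ N ih =>
    intro I _ J _ L M hLa hMa hL hM
    rcases Nat.eq_zero_or_pos N with hN | hN
    · subst hN
      have hss : Subsingleton (Fin (0 + 1)) := inferInstanceAs (Subsingleton (Fin 1))
      refine ⟨1, one_pos, {⊤}, fun x H hx hH hxH s r hs hr hr1 => ?_⟩
      have hx0 : x 0 ≠ 0 := by
        intro h
        refine hx (funext fun j => ?_)
        rw [Subsingleton.elim j 0]
        exact h
      refine ⟨⊤, Finset.mem_singleton_self _, trivial, 1, fun _ => x, fun _ => 1, ?_⟩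
      refine ⟨le_rfl, fun _ _ _ => le_rfl, fun _ => one_pos, fun _ => hx, ?_, ?_, ?_, ?_⟩
      · rw [eq_top_iff]
        intro z _
        have hz : z = (z 0 / ((x 0 : ℤ) : ℚ)) • (fun j => ((x j : ℤ) : ℚ)) := by
          funext j
          rw [Subsingleton.elim j 0, Pi.smul_apply, smul_eq_mul,
            div_mul_cancel₀ _ (by exact_mod_cast hx0)]
        rw [hz]
        exact Submodule.smul_mem _ _ (Submodule.subset_span ⟨0, rfl⟩)
      · simp only [Finset.prod_const_one, one_mul]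
        exact Real.one_le_rpow hH hε.le
      · intro i a
        rw [one_mul, one_mul]
        exact hs a
      · intro i t a
        rw [one_mul]
        exact hr t a
    · obtain ⟨CL, hCL, hgL⟩ := exists_greedy L hL
      have hgM' : ∀ t, ∃ C : ℝ, 0 < C ∧ ∀ s : J t → ℝ, ∃ e : Fin (N + 1) → J t,
          (Matrix.of fun j => M t (e j)).det ≠ 0 ∧
          ∀ i, ∃ c : Fin (N + 1) → ℚ_[p t], (∀ l, M t i l = ∑ j, c j * M t (e j) l) ∧
            (∀ j, ‖c j‖ ≤ C) ∧ ∀ j, c j ≠ 0 → s (e j) ≤ s i := fun t => exists_greedy (M t) (hM t)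
      choose CM hCM hgM using hgM'
      have h1 : ∀ (e : Fin (N + 1) → I) (f : ∀ t, Fin (N + 1) → J t), ∃ C : ℝ, 0 < C ∧
          ∃ F : Finset (Fin (N + 1) → ℤ), (Matrix.of fun j => L (e j)).det ≠ 0 →
            (∀ t, (Matrix.of fun j => M t (f t j)).det ≠ 0) → 0 ∉ F ∧
            (∀ (s : Fin (N + 1) → ℝ) (r : ∀ t, Fin (N + 1) → ℝ), (∀ i, 0 < s i) →
              (∀ t i, 0 < r t i ∧ r t i ≤ 1) →
              ∃ (y : Fin (N + 1) → Fin (N + 1) → ℤ) (lam : Fin (N + 1) → ℝ), Monotone lam ∧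
                (∀ i, 0 < lam i) ∧ (Matrix.of y).det ≠ 0 ∧
                ∏ i, lam i ≤ C * ((∏ i, s i) * ∏ t, ∏ i, r t i)⁻¹ ∧
                (∀ i a, |∑ j, L (e a) j * ((y i j : ℤ) : ℝ)| ≤ C * lam i * s a) ∧
                ∀ i t a, ‖∑ j, M t (f t a) j * ((y i j : ℤ) : ℚ_[p t])‖ ≤ r t a) ∧
            (∀ (x : Fin (N + 1) → ℤ) (H : ℝ), 1 ≤ H → (∀ i, |((x i : ℤ) : ℝ)| ≤ H) →
              (∏ i, |∑ j, L (e i) j * ((x j : ℤ) : ℝ)|) *
                ∏ t, ∏ i, ‖∑ j, M t (f t i) j * ((x j : ℤ) : ℚ_[p t])‖ ≤ H ^ (-ε) →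
              ∃ b ∈ F, ∑ i, b i * x i = 0) := by
        intro e f
        by_cases hd : (Matrix.of fun j => L (e j)).det ≠ 0 ∧
            ∀ t, (Matrix.of fun j => M t (f t j)).det ≠ 0
        · obtain ⟨C, hC, h2⟩ := box_full p (Matrix.of fun j => L (e j)) hd.1
            (fun t => Matrix.of fun j => M t (f t j))
          obtain ⟨F, hF0, hF⟩ := SST.schlickewei p hp hN (Matrix.of fun j => L (e j))
            (fun i j => hLa _ _) hd.1 (fun t => Matrix.of fun j => M t (f t j))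
            (fun t i j => hMa _ _ _) hd.2 ε hε
          exact ⟨C, hC, F, fun _ _ => ⟨hF0, h2, hF⟩⟩
        · exact ⟨1, one_pos, ∅, fun h2 h3 => absurd ⟨h2, h3⟩ hd⟩
      choose C1 hC1 F hF using h1
      have h2 := fun b => box_plane p ε hε ih L M hLa hMa hL hM b
      choose Cb hCb Ub hUb using h2
      set FF : Finset (Fin (N + 1) → ℤ) := Finset.univ.biUnion fun e =>
        Finset.univ.biUnion fun f => F e f with hFF
      set C : ℝ := 1 + (∑ e, ∑ f, (1 + ((N + 1 : ℕ) : ℝ) * CL) * C1 e f) +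
        (∑ t, ((N + 1 : ℕ) : ℝ) * CM t) + ∑ b ∈ FF, Cb b with hC
      have n1 : 0 ≤ ∑ e, ∑ f, (1 + ((N + 1 : ℕ) : ℝ) * CL) * C1 e f :=
        Finset.sum_nonneg fun e _ => Finset.sum_nonneg fun f _ => by
          have := hC1 e f
          positivity
      have n2 : 0 ≤ ∑ t, ((N + 1 : ℕ) : ℝ) * CM t := Finset.sum_nonneg fun t _ => by
        have := hCM t
        positivity
      have n3 : 0 ≤ ∑ b ∈ FF, Cb b := Finset.sum_nonneg fun b _ => (hCb b).le
      have hC0 : 0 < C := by rw [hC]; linarith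
      have hCef : ∀ e f, (1 + ((N + 1 : ℕ) : ℝ) * CL) * C1 e f ≤ C := by
        intro e f
        have a1 : (1 + ((N + 1 : ℕ) : ℝ) * CL) * C1 e f ≤
            ∑ f, (1 + ((N + 1 : ℕ) : ℝ) * CL) * C1 e f :=
          Finset.single_le_sum (f := fun f => (1 + ((N + 1 : ℕ) : ℝ) * CL) * C1 e f)
            (fun f _ => by have := hC1 e f; positivity) (Finset.mem_univ f)
        have a2 : ∑ f, (1 + ((N + 1 : ℕ) : ℝ) * CL) * C1 e f ≤
            ∑ e, ∑ f, (1 + ((N + 1 : ℕ) : ℝ) * CL) * C1 e f :=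
          Finset.single_le_sum (f := fun e => ∑ f, (1 + ((N + 1 : ℕ) : ℝ) * CL) * C1 e f)
            (fun e _ => Finset.sum_nonneg fun f _ => by have := hC1 e f; positivity)
            (Finset.mem_univ e)
        rw [hC]; linarith
      have hCt : ∀ t, ((N + 1 : ℕ) : ℝ) * CM t ≤ C := by
        intro t
        have a1 : ((N + 1 : ℕ) : ℝ) * CM t ≤ ∑ t, ((N + 1 : ℕ) : ℝ) * CM t :=
          Finset.single_le_sum (f := fun t => ((N + 1 : ℕ) : ℝ) * CM t)
            (fun t _ => by have := hCM t; positivity) (Finset.mem_univ t)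
        rw [hC]; linarith
      have hCbb : ∀ b ∈ FF, Cb b ≤ C := by
        intro b hb
        have a1 : Cb b ≤ ∑ b ∈ FF, Cb b :=
          Finset.single_le_sum (fun b _ => (hCb b).le) hb
        rw [hC]; linarith
      refine ⟨C, hC0, insert ⊤ (FF.biUnion Ub), fun x H hx hH hxH s r hs hr hr1 => ?_⟩
      have hs0 : ∀ i, 0 ≤ s i := fun i => (abs_nonneg _).trans (hs i)
      have hr0 : ∀ t i, 0 ≤ r t i := fun t i => (norm_nonneg _).trans (hr t i)
      have hHε : 0 < H ^ ε := Real.rpow_pos_of_pos (by linarith) _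
      obtain ⟨e, he, heL⟩ := hgL s
      have hfM := fun t => hgM t (r t)
      choose f hf hfM' using hfM
      obtain ⟨hF0, hbox, hsch⟩ := hF e f he hf
      by_cases hcase : (∏ i, |∑ j, L (e i) j * ((x j : ℤ) : ℝ)|) *
          ∏ t, ∏ i, ‖∑ j, M t (f t i) j * ((x j : ℤ) : ℚ_[p t])‖ ≤ H ^ (-ε)
      · obtain ⟨b, hb, hbx⟩ := hsch x H hH hxH hcase
        have hbF : b ∈ FF := by
          rw [hFF]
          exact Finset.mem_biUnion.2 ⟨e, Finset.mem_univ _,
            Finset.mem_biUnion.2 ⟨f, Finset.mem_univ _, hb⟩⟩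
        have hb0 : b ≠ 0 := fun h => hF0 (h ▸ hb)
        obtain ⟨U, hU, hxU, m, y, lam, hy⟩ := hUb b hb0 x H hx hH hxH hbx s r hs hr hr1
        exact ⟨U, Finset.mem_insert_of_mem (Finset.mem_biUnion.2 ⟨b, hbF, hU⟩), hxU, m, y, lam,
          box_mono hy (hCbb b hbF) (mul_le_mul_of_nonneg_right (hCbb b hbF) hHε.le) hs0 hr0⟩
      · have hlt : H ^ (-ε) < (∏ i, s (e i)) * ∏ t, ∏ i, r t (f t i) := by
          refine (not_le.1 hcase).trans_le ?_
          refine mul_le_mul (Finset.prod_le_prod (fun _ _ => abs_nonneg _) fun i _ => hs _)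
            (Finset.prod_le_prod (fun _ _ => Finset.prod_nonneg fun _ _ => norm_nonneg _)
              fun t _ => Finset.prod_le_prod (fun _ _ => norm_nonneg _) fun i _ => hr _ _)
            (Finset.prod_nonneg fun _ _ => Finset.prod_nonneg fun _ _ => norm_nonneg _)
            (Finset.prod_nonneg fun _ _ => hs0 _)
        have hpos : 0 < (∏ i, s (e i)) * ∏ t, ∏ i, r t (f t i) :=
          (Real.rpow_pos_of_pos (by linarith) _).trans hlt
        have hse : ∀ i, 0 < s (e i) := by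
          intro i
          refine lt_of_le_of_ne (hs0 _) fun h => ?_
          rw [Finset.prod_eq_zero (Finset.mem_univ i) h.symm, zero_mul] at hpos
          exact lt_irrefl _ hpos
        have hrf : ∀ t i, 0 < r t (f t i) := by
          intro t i
          refine lt_of_le_of_ne (hr0 _ _) fun h => ?_
          have h3 : ∏ t, ∏ i, r t (f t i) = 0 :=
            Finset.prod_eq_zero (Finset.mem_univ t) (Finset.prod_eq_zero (Finset.mem_univ i) h.symm)
          rw [h3, mul_zero] at hpos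
          exact lt_irrefl _ hpos
        obtain ⟨y, lam, hmono, hlam, hdet, hprod, hreal, hpad⟩ := hbox (fun i => s (e i))
          (fun t i => r t (f t i)) hse (fun t i => ⟨hrf t i, hr1 _ _⟩)
        have hC1C : C1 e f ≤ C := by
          refine le_trans ?_ (hCef e f)
          refine le_mul_of_one_le_left (hC1 e f).le ?_
          have : 0 ≤ ((N + 1 : ℕ) : ℝ) * CL := by positivity
          linarith
        have hCLC : ((N + 1 : ℕ) : ℝ) * CL * C1 e f ≤ C := by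
          refine le_trans ?_ (hCef e f)
          refine mul_le_mul_of_nonneg_right (by linarith) (hC1 e f).le
        refine ⟨⊤, Finset.mem_insert_self _ _, trivial, N + 1, y, lam, le_rfl, hmono, hlam, ?_,
          box_span y hdet, ?_, ?_, ?_⟩
        · intro i h0
          refine hdet (Matrix.det_eq_zero_of_row_eq_zero i fun j => ?_)
          rw [Matrix.of_apply, h0]; rfl
        · refine hprod.trans (mul_le_mul hC1C ?_ (inv_nonneg.2 hpos.le) hC0.le)
          rw [inv_le_comm₀ hpos hHε, ← Real.rpow_neg (by linarith)]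
          exact hlt.le
        · intro i a
          obtain ⟨c, hc1, hc2, hc3⟩ := heL a
          have h3 := box_expand L e a c CL (C1 e f * lam i) (mul_nonneg (hC1 e f).le (hlam i).le)
            hCL.le s hs0 hc1 hc2 hc3 (fun j => ((y i j : ℤ) : ℝ)) (fun j => hreal i j)
          refine h3.trans ?_
          calc ((N + 1 : ℕ) : ℝ) * CL * (C1 e f * lam i * s a)
              = (((N + 1 : ℕ) : ℝ) * CL * C1 e f) * lam i * s a := by ring
            _ ≤ C * lam i * s a := mul_le_mul_of_nonneg_right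
                (mul_le_mul_of_nonneg_right hCLC (hlam i).le) (hs0 a)
        · intro i t a
          obtain ⟨c, hc1, hc2, hc3⟩ := hfM' t a
          have h3 := box_expand (M t) (f t) a c (CM t) 1 zero_le_one (hCM t).le (r t) (hr0 t)
            hc1 hc2 hc3 (fun j => ((y i j : ℤ) : ℚ_[p t]))
            (fun j => by rw [one_mul]; exact hpad i t j)
          rw [one_mul] at h3
          exact h3.trans (mul_le_mul_of_nonneg_right (hCt t) (hr0 t a))

theorem box_real {T : Type} [Fintype T] [DecidableEq T] (p : T → ℕ) [∀ t, Fact (p t).Prime]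
    (hp : Function.Injective p) (ε : ℝ) (hε : 0 < ε) :
    ∀ (N : ℕ) (I : Type) [Fintype I] (J : T → Type) [∀ t, Fintype (J t)]
      (L : I → Fin N → ℝ) (M : ∀ t, J t → Fin N → ℚ_[p t])
      (_ : ∀ i j, IsAlgebraic ℚ (L i j)) (_ : ∀ t i j, IsAlgebraic ℚ (M t i j))
      (_ : ∀ z : Fin N → ℝ, (∀ i, ∑ j, L i j * z j = 0) → z = 0)
      (_ : ∀ t (z : Fin N → ℚ_[p t]), (∀ i, ∑ j, M t i j * z j = 0) → z = 0),
    ∃ C : ℝ, 0 < C ∧ ∃ 𝒰 : Finset (Submodule ℚ (Fin N → ℚ)),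
      ∀ (x : Fin N → ℤ) (H : ℝ), x ≠ 0 → 1 ≤ H → (∀ j, |((x j : ℤ) : ℝ)| ≤ H) →
      ∀ (s : I → ℝ) (r : ∀ t, J t → ℝ), (∀ i, |∑ j, L i j * ((x j : ℤ) : ℝ)| ≤ s i) →
        (∀ t i, ‖∑ j, M t i j * ((x j : ℤ) : ℚ_[p t])‖ ≤ r t i) → (∀ t i, r t i ≤ 1) →
        ∃ U ∈ 𝒰, (fun j => ((x j : ℤ) : ℚ)) ∈ U ∧
          ∃ (m : ℕ) (y : Fin m → Fin N → ℤ) (lam : Fin m → ℝ),
            SmallBasis L M s r C (C * H ^ ε) U y lam :=
  fun N I _ J _ L M h1 h2 h3 h4 => box_real_aux p hp ε hε N I J L M h1 h2 h3 h4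

end Pool.Agent.RefW
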