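import Pool.Agent.RefW.Defs
import Pool.Agent.RefW.Box
import Pool.Agent.SST.PadicDecomp

/-!
RW5. The box theorem for forms with values in `ℂ` and `ℂ_[p]` on a lattice `V`.
Proof: write `x = ∑ j, x j • b j`. Real family for `box_real`: `Re (ℓ a (b j))`,
`Im (ℓ a (b j))` (algebraic, as `(z + conj z) / 2`) with weights `‖ℓ a x‖`, and the coordinates
with weight `H`. `p`-adic family: apply `SST.padic_decomp` to the coefficients `ℓ' t a (b j)`:
components with coefficients in `ℚ_[p]`, algebraic, bounded by `C ‖ℓ' t a x‖`, and conversely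
`‖ℓ' t a y‖` is at most a constant times the largest component; scale by a power of `p` such
that all coefficients have norm at most one, weights `min 1 (C' ‖ℓ' t a x‖)`; and the coordinates
with weight one. The coordinates give the spanning hypotheses. Transport `U` to the additive
subgroup of all `v` whose coordinates are in `U`; `U = span ℚ (y i)` gives the statement with
`c` by clearing denominators.
-/

open Polynomial NumberField
open scoped Classical

namespace Pool.Agent.RefW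

private lemma bx_alg_conj {z : ℂ} (h : IsAlgebraic ℚ z) :
    IsAlgebraic ℚ ((starRingEnd ℂ) z) := by
  have h2 : IsAlgebraic ℚ (((Complex.conjAe : ℂ →ₐ[ℝ] ℂ).restrictScalars ℚ) z) :=
    h.algHom _
  exact h2

private lemma bx_alg_re {z : ℂ} (h : IsAlgebraic ℚ z) : IsAlgebraic ℚ z.re := by
  have h1 : IsAlgebraic ℚ (z + (starRingEnd ℂ) z) := h.add (bx_alg_conj h)
  rw [Complex.add_conj] at h1
  have h2 : IsAlgebraic ℚ ((2 * z.re : ℝ)) := by
    have : IsAlgebraic ℚ (algebraMap ℝ ℂ (2 * z.re)) := by simpa using h1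
    exact (isAlgebraic_algebraMap_iff (algebraMap ℝ ℂ).injective).1 this
  have h3 : IsAlgebraic ℚ ((1 / 2 : ℚ) • (2 * z.re : ℝ)) := h2.smul _
  have h4 : ((1 / 2 : ℚ) • (2 * z.re : ℝ)) = z.re := by
    rw [Rat.smul_def]
    push_cast
    ring
  rwa [h4] at h3

private lemma bx_alg_im {z : ℂ} (h : IsAlgebraic ℚ z) : IsAlgebraic ℚ z.im := by
  have hI : IsAlgebraic ℚ Complex.I := by
    refine ⟨Polynomial.X ^ 2 + 1, ?_, ?_⟩
    · intro h0
      have := congrArg (Polynomial.eval 0) h0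
      simp at this
    · simp
  have h1 : IsAlgebraic ℚ (z * (-Complex.I)) := h.mul hI.neg
  have h2 := bx_alg_re h1
  simpa using h2

/-- a homomorphism on a lattice through the coordinates -/
private lemma bx_map_eq {V : Type} [AddCommGroup V] {N : ℕ} (b : Module.Basis (Fin N) ℤ V)
    {A : Type*} [Ring A] (f : V →+ A) (v : V) :
    f v = ∑ j, f (b j) * ((b.repr v j : ℤ) : A) := by
  conv_lhs => rw [← b.sum_repr v]
  rw [map_sum]
  refine Finset.sum_congr rfl fun j _ => ?_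
  rw [map_zsmul, zsmul_eq_mul]
  exact Int.cast_comm _ _

/-- a power of `p` which makes finitely many `p`-adic numbers integral -/
private lemma bx_scale (p : ℕ) [Fact p.Prime] {A : Type} [Fintype A] (f : A → ℚ_[p]) :
    ∃ q : ℚ_[p], q ≠ 0 ∧ IsAlgebraic ℚ q ∧ ∀ a, ‖q * f a‖ ≤ 1 := by
  obtain ⟨K, hK⟩ := exists_nat_ge (∑ a, ‖f a‖)
  have hp1 : (1 : ℝ) < p := by exact_mod_cast (Fact.out : p.Prime).one_lt
  obtain ⟨n, hn⟩ := pow_unbounded_of_one_lt (K : ℝ) hp1
  have hp0 : (p : ℚ_[p]) ≠ 0 := by exact_mod_cast (Fact.out : p.Prime).ne_zero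
  refine ⟨(p : ℚ_[p]) ^ n, pow_ne_zero _ hp0, ?_, fun a => ?_⟩
  · have := (isAlgebraic_natCast (R := ℚ) (A := ℚ_[p]) p).pow n
    exact this
  · rw [norm_mul, norm_pow, Padic.norm_p]
    have h1 : ‖f a‖ ≤ (p : ℝ) ^ n :=
      (Finset.single_le_sum (fun i _ => norm_nonneg (f i)) (Finset.mem_univ a)).trans
        (hK.trans hn.le)
    have h2 : (0 : ℝ) < (p : ℝ) ^ n := by positivity
    rw [inv_pow, inv_mul_le_iff₀ h2]
    simpa using h1

theorem box_lattice {T : Type} [Fintype T] [DecidableEq T] (p : T → ℕ) [∀ t, Fact (p t).Prime]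
    (hp : Function.Injective p) {V : Type} [AddCommGroup V] {N : ℕ}
    (b : Module.Basis (Fin N) ℤ V) {I : Type} [Fintype I] {J : T → Type} [∀ t, Fintype (J t)]
    (ℓ : I → V →+ ℂ) (hℓ : ∀ i v, IsAlgebraic ℚ (ℓ i v))
    (ℓ' : ∀ t, J t → V →+ ℂ_[p t]) (hℓ' : ∀ t i v, IsAlgebraic ℚ (ℓ' t i v))
    (ε : ℝ) (hε : 0 < ε) :
    ∃ C : ℝ, 0 < C ∧ ∃ 𝒰 : Finset (AddSubgroup V), ∀ (x : V) (H : ℝ), x ≠ 0 → 1 ≤ H →
      (∀ j, |((b.repr x j : ℤ) : ℝ)| ≤ H) →
      ∃ U ∈ 𝒰, x ∈ U ∧ ∃ (m : ℕ) (y : Fin m → V) (lam : Fin m → ℝ), m ≤ N ∧ Monotone lam ∧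
        (∀ i, 0 < lam i) ∧ (∀ i, y i ≠ 0) ∧
        (∀ u ∈ U, ∃ c : ℤ, c ≠ 0 ∧ c • u ∈ AddSubgroup.closure (Set.range y)) ∧
        ∏ i, lam i ≤ C * H ^ ε ∧ (∀ i a, ‖ℓ a (y i)‖ ≤ C * lam i * ‖ℓ a x‖) ∧
        ∀ i t a, ‖ℓ' t a (y i)‖ ≤ C * ‖ℓ' t a x‖ := by
  -- the decomposition of the `p`-adic coefficients
  have hdec : ∀ t, ∃ (g : ℕ) (ω : Fin g → ℂ_[p t]) (m : J t → Fin N → Fin g → ℚ_[p t]) (C : ℝ),
      0 < C ∧ (∀ a j, ℓ' t a (b j) = ∑ s, algebraMap ℚ_[p t] ℂ_[p t] (m a j s) * ω s) ∧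
      (∀ a j s, IsAlgebraic ℚ (m a j s)) ∧
      ∀ (y : Fin g → ℚ_[p t]) (s : Fin g),
        ‖y s‖ ≤ C * ‖∑ s, algebraMap ℚ_[p t] ℂ_[p t] (y s) * ω s‖ := by
    intro t
    obtain ⟨g, ω, m, C, hC, hm, halg, hb⟩ := Pool.Agent.SST.padic_decomp (p t)
      (fun i => ℓ' t ((Fintype.equivFin (J t × Fin N)).symm i).1
        (b ((Fintype.equivFin (J t × Fin N)).symm i).2)) (fun i => hℓ' _ _ _)
    refine ⟨g, ω, fun a j => m (Fintype.equivFin (J t × Fin N) (a, j)), C, hC, fun a j => ?_,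
      fun a j s => halg _ _, hb⟩
    have := hm (Fintype.equivFin (J t × Fin N) (a, j))
    simpa using this
  choose g ω mm Cp hCp hmm halgp hbp using hdec
  have hsc : ∀ t, ∃ q : ℚ_[p t], q ≠ 0 ∧ IsAlgebraic ℚ q ∧
      ∀ a : J t × Fin N × Fin (g t), ‖q * mm t a.1 a.2.1 a.2.2‖ ≤ 1 :=
    fun t => bx_scale (p t) _
  choose q hq0 hqalg hq1 using hsc
  -- the families
  let L : (I ⊕ I) ⊕ Fin N → Fin N → ℝ := fun i j => match i with
    | Sum.inl (Sum.inl a) => (ℓ a (b j)).re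
    | Sum.inl (Sum.inr a) => (ℓ a (b j)).im
    | Sum.inr k => if j = k then 1 else 0
  let M : ∀ t, (J t × Fin (g t)) ⊕ Fin N → Fin N → ℚ_[p t] := fun t i j => match i with
    | Sum.inl a => q t * mm t a.1 j a.2
    | Sum.inr k => if j = k then 1 else 0
  obtain ⟨C, hC, 𝒰, hbox⟩ := box_real p hp ε hε N ((I ⊕ I) ⊕ Fin N)
    (fun t => (J t × Fin (g t)) ⊕ Fin N) L M
    (by
      rintro ((a | a) | k) j
      · exact bx_alg_re (hℓ _ _)
      · exact bx_alg_im (hℓ _ _)
      · show IsAlgebraic ℚ (if j = k then (1 : ℝ) else 0)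
        split_ifs
        · exact isAlgebraic_one
        · exact isAlgebraic_zero)
    (by
      rintro t (a | k) j
      · exact (hqalg t).mul (halgp _ _ _ _)
      · show IsAlgebraic ℚ (if j = k then (1 : ℚ_[p t]) else 0)
        split_ifs
        · exact isAlgebraic_one
        · exact isAlgebraic_zero)
    (by
      intro z hz
      funext k
      have := hz (Sum.inr k)
      simpa [L] using this)
    (by
      intro t z hz
      funext k
      have := hz (Sum.inr k)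
      simpa [M] using this)
  -- the coordinates
  let φ : V →+ (Fin N → ℚ) :=
    { toFun := fun v j => ((b.repr v j : ℤ) : ℚ)
      map_zero' := by
        funext j
        simp
      map_add' := by
        intro v w
        funext j
        simp }
  have hφ : ∀ v j, φ v j = ((b.repr v j : ℤ) : ℚ) := fun v j => rfl
  have hφinj : Function.Injective φ := by
    intro v w h
    apply b.repr.injective
    ext j
    have := congrFun h j
    rw [hφ, hφ] at this
    exact_mod_cast this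
  -- constants
  let W : T → ℝ := fun t => ∑ s, ‖ω t s‖
  have hW : ∀ t, 0 ≤ W t := fun t => Finset.sum_nonneg fun s _ => norm_nonneg _
  let D : ℝ := 2 + ∑ t, Cp t * W t
  have hD2 : 2 ≤ D := by
    have : 0 ≤ ∑ t, Cp t * W t := Finset.sum_nonneg fun t _ => mul_nonneg (hCp t).le (hW t)
    simp only [D]
    linarith
  have hDt : ∀ t, Cp t * W t ≤ D := by
    intro t
    have : Cp t * W t ≤ ∑ t, Cp t * W t :=
      Finset.single_le_sum (f := fun t => Cp t * W t)
        (fun t _ => mul_nonneg (hCp t).le (hW t)) (Finset.mem_univ t)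
    simp only [D]
    linarith
  -- values of the forms
  have hre : ∀ a v, (ℓ a v).re = ∑ j, (ℓ a (b j)).re * ((b.repr v j : ℤ) : ℝ) := by
    intro a v
    rw [bx_map_eq b (ℓ a) v, Complex.re_sum]
    refine Finset.sum_congr rfl fun j _ => ?_
    rw [← Complex.ofReal_intCast, Complex.re_mul_ofReal]
  have him : ∀ a v, (ℓ a v).im = ∑ j, (ℓ a (b j)).im * ((b.repr v j : ℤ) : ℝ) := by
    intro a v
    rw [bx_map_eq b (ℓ a) v, Complex.im_sum]
    refine Finset.sum_congr rfl fun j _ => ?_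
    rw [← Complex.ofReal_intCast, Complex.im_mul_ofReal]
  have hpad : ∀ t a v, ℓ' t a v = ∑ s, algebraMap ℚ_[p t] ℂ_[p t]
      (∑ j, mm t a j s * ((b.repr v j : ℤ) : ℚ_[p t])) * ω t s := by
    intro t a v
    rw [bx_map_eq b (ℓ' t a) v]
    simp_rw [hmm, map_sum, Finset.sum_mul]
    rw [Finset.sum_comm]
    refine Finset.sum_congr rfl fun j _ => Finset.sum_congr rfl fun s _ => ?_
    rw [map_mul, map_intCast]
    ring
  refine ⟨C * D, mul_pos hC (by linarith),
    𝒰.image (fun W => AddSubgroup.comap φ W.toAddSubgroup), ?_⟩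
  intro x H hx hH hxH
  have hx0 : (fun j => (b.repr x j : ℤ)) ≠ 0 := by
    intro h
    apply hx
    apply b.repr.injective
    ext j
    have := congrFun h j
    simpa using this
  obtain ⟨U, hU, hxU, m, y, lam, hS⟩ := hbox (fun j => (b.repr x j : ℤ)) H hx0 hH hxH
    (fun i => match i with
      | Sum.inl (Sum.inl a) => ‖ℓ a x‖
      | Sum.inl (Sum.inr a) => ‖ℓ a x‖
      | Sum.inr _ => H)
    (fun t i => match i with
      | Sum.inl a => min 1 (Cp t * ‖q t‖ * ‖ℓ' t a.1 x‖)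
      | Sum.inr _ => 1)
    (by
      rintro ((a | a) | k)
      · show |∑ j, (ℓ a (b j)).re * ((b.repr x j : ℤ) : ℝ)| ≤ ‖ℓ a x‖
        rw [← hre]
        exact Complex.abs_re_le_norm _
      · show |∑ j, (ℓ a (b j)).im * ((b.repr x j : ℤ) : ℝ)| ≤ ‖ℓ a x‖
        rw [← him]
        exact Complex.abs_im_le_norm _
      · have : ∑ j, L (Sum.inr k) j * ((b.repr x j : ℤ) : ℝ) = ((b.repr x k : ℤ) : ℝ) := by
          simp [L]
        show |∑ j, L (Sum.inr k) j * ((b.repr x j : ℤ) : ℝ)| ≤ H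
        rw [this]
        exact hxH k)
    (by
      rintro t (a | k)
      · show ‖∑ j, q t * mm t a.1 j a.2 * ((b.repr x j : ℤ) : ℚ_[p t])‖ ≤
          min 1 (Cp t * ‖q t‖ * ‖ℓ' t a.1 x‖)
        refine le_min ?_ ?_
        · refine IsUltrametricDist.norm_sum_le_of_forall_le_of_nonneg zero_le_one fun j _ => ?_
          rw [norm_mul]
          have h1 := hq1 t (a.1, j, a.2)
          have h2 := Padic.norm_int_le_one (p := p t) (b.repr x j)
          have h3 : (0 : ℝ) ≤ ‖q t * mm t a.1 j a.2‖ := norm_nonneg _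
          have h4 : (0 : ℝ) ≤ ‖((b.repr x j : ℤ) : ℚ_[p t])‖ := norm_nonneg _
          calc _ ≤ (1 : ℝ) * 1 := mul_le_mul h1 h2 h4 zero_le_one
            _ = 1 := one_mul 1
        · have h1 : ∑ j, q t * mm t a.1 j a.2 * ((b.repr x j : ℤ) : ℚ_[p t])
              = q t * ∑ j, mm t a.1 j a.2 * ((b.repr x j : ℤ) : ℚ_[p t]) := by
            rw [Finset.mul_sum]
            exact Finset.sum_congr rfl fun j _ => mul_assoc _ _ _
          rw [h1, norm_mul]
          have h2 := hbp t (fun s => ∑ j, mm t a.1 j s * ((b.repr x j : ℤ) : ℚ_[p t])) a.2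
          rw [← hpad] at h2
          calc ‖q t‖ * ‖∑ j, mm t a.1 j a.2 * ((b.repr x j : ℤ) : ℚ_[p t])‖
              ≤ ‖q t‖ * (Cp t * ‖ℓ' t a.1 x‖) := mul_le_mul_of_nonneg_left h2 (norm_nonneg _)
            _ = Cp t * ‖q t‖ * ‖ℓ' t a.1 x‖ := by ring
      · have : ∑ j, M t (Sum.inr k) j * ((b.repr x j : ℤ) : ℚ_[p t])
            = ((b.repr x k : ℤ) : ℚ_[p t]) := by
          simp [M]
        show ‖∑ j, M t (Sum.inr k) j * ((b.repr x j : ℤ) : ℚ_[p t])‖ ≤ 1
        rw [this]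
        exact Padic.norm_int_le_one _)
    (by
      rintro t (a | k)
      · exact min_le_left _ _
      · exact le_rfl)
  -- transport
  let y' : Fin m → V := fun i => b.equivFun.symm (y i)
  have hy' : ∀ i j, (b.repr (y' i) j : ℤ) = y i j := by
    intro i j
    have := congrFun (b.equivFun.apply_symm_apply (y i)) j
    rw [Module.Basis.equivFun_apply] at this
    exact this
  refine ⟨_, Finset.mem_image_of_mem _ hU, hxU, m, y', lam, hS.le, hS.mono, hS.pos, ?_, ?_, ?_,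
    ?_, ?_⟩
  · intro i h
    apply hS.ne i
    funext j
    rw [← hy' i j, h]
    simp
  · intro u hu
    have hu' : φ u ∈ U := hu
    rw [← hS.span, Submodule.mem_span_range_iff_exists_fun] at hu'
    obtain ⟨c, hc⟩ := hu'
    obtain ⟨d, hd⟩ := IsLocalization.exist_integer_multiples_of_finite (nonZeroDivisors ℤ) c
    choose n hn using hd
    refine ⟨d, nonZeroDivisors.coe_ne_zero d, ?_⟩
    have h1 : (d : ℤ) • u = ∑ i, n i • y' i := by
      apply hφinj
      rw [map_zsmul, map_sum]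
      funext j
      rw [← hc]
      simp only [Finset.sum_apply, map_zsmul, Pi.smul_apply, hφ, hy']
      simp only [smul_eq_mul, zsmul_eq_mul]
      rw [Finset.mul_sum]
      refine Finset.sum_congr rfl fun i _ => ?_
      have h2 := hn i
      simp only [algebraMap_int_eq, eq_intCast, zsmul_eq_mul] at h2
      rw [h2]
      simp [mul_assoc]
    rw [h1]
    exact AddSubgroup.sum_mem _ fun i _ =>
      AddSubgroup.zsmul_mem _ (AddSubgroup.subset_closure (Set.mem_range_self i)) _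
  · have hHε : 0 ≤ H ^ ε := by positivity
    refine hS.prod.trans ?_
    have : C * H ^ ε ≤ C * H ^ ε * D := by
      have h0 : 0 ≤ C * H ^ ε := mul_nonneg hC.le hHε
      nlinarith
    calc C * H ^ ε ≤ C * H ^ ε * D := this
      _ = C * D * H ^ ε := by ring
  · intro i a
    have h1 := hS.real i (Sum.inl (Sum.inl a))
    have h2 := hS.real i (Sum.inl (Sum.inr a))
    have h1' : |(ℓ a (y' i)).re| ≤ C * lam i * ‖ℓ a x‖ := by
      rw [hre]
      simp_rw [hy']
      exact h1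
    have h2' : |(ℓ a (y' i)).im| ≤ C * lam i * ‖ℓ a x‖ := by
      rw [him]
      simp_rw [hy']
      exact h2
    have h3 := Complex.norm_le_abs_re_add_abs_im (ℓ a (y' i))
    have h4 : 0 ≤ C * lam i * ‖ℓ a x‖ :=
      mul_nonneg (mul_nonneg hC.le (hS.pos i).le) (norm_nonneg _)
    calc ‖ℓ a (y' i)‖ ≤ 2 * (C * lam i * ‖ℓ a x‖) := by linarith
      _ ≤ D * (C * lam i * ‖ℓ a x‖) := mul_le_mul_of_nonneg_right hD2 h4
      _ = C * D * lam i * ‖ℓ a x‖ := by ring
  · intro i t a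
    have hqpos : 0 < ‖q t‖ := norm_pos_iff.2 (hq0 t)
    have h1 : ∀ s, ‖∑ j, mm t a j s * ((b.repr (y' i) j : ℤ) : ℚ_[p t])‖ ≤
        C * Cp t * ‖ℓ' t a x‖ := by
      intro s
      have h2 := hS.padic i t (Sum.inl (a, s))
      have h3 : ∑ j, M t (Sum.inl (a, s)) j * ((y i j : ℤ) : ℚ_[p t])
          = q t * ∑ j, mm t a j s * ((b.repr (y' i) j : ℤ) : ℚ_[p t]) := by
        rw [Finset.mul_sum]
        refine Finset.sum_congr rfl fun j _ => ?_
        rw [hy']
        exact mul_assoc _ _ _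
      rw [h3, norm_mul] at h2
      have h4 : C * min 1 (Cp t * ‖q t‖ * ‖ℓ' t a x‖) ≤ C * (Cp t * ‖q t‖ * ‖ℓ' t a x‖) :=
        mul_le_mul_of_nonneg_left (min_le_right _ _) hC.le
      have h5 : ‖q t‖ * ‖∑ j, mm t a j s * ((b.repr (y' i) j : ℤ) : ℚ_[p t])‖ ≤
          ‖q t‖ * (C * Cp t * ‖ℓ' t a x‖) := by
        calc _ ≤ C * min 1 (Cp t * ‖q t‖ * ‖ℓ' t a x‖) := h2
          _ ≤ C * (Cp t * ‖q t‖ * ‖ℓ' t a x‖) := h4
          _ = ‖q t‖ * (C * Cp t * ‖ℓ' t a x‖) := by ring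
      exact le_of_mul_le_mul_left h5 hqpos
    rw [hpad]
    calc ‖∑ s, algebraMap ℚ_[p t] ℂ_[p t]
          (∑ j, mm t a j s * ((b.repr (y' i) j : ℤ) : ℚ_[p t])) * ω t s‖
        ≤ ∑ s, ‖algebraMap ℚ_[p t] ℂ_[p t]
          (∑ j, mm t a j s * ((b.repr (y' i) j : ℤ) : ℚ_[p t])) * ω t s‖ := norm_sum_le _ _
      _ ≤ ∑ s, C * Cp t * ‖ℓ' t a x‖ * ‖ω t s‖ := by
          refine Finset.sum_le_sum fun s _ => ?_
          rw [norm_mul, norm_algebraMap']
          exact mul_le_mul_of_nonneg_right (h1 s) (norm_nonneg _)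
      _ = C * (Cp t * W t) * ‖ℓ' t a x‖ := by
          rw [← Finset.mul_sum]
          ring
      _ ≤ C * D * ‖ℓ' t a x‖ := by
          refine mul_le_mul_of_nonneg_right ?_ (norm_nonneg _)
          exact mul_le_mul_of_nonneg_left (hDt t) hC.le

end Pool.Agent.RefW
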