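import Pool.Agent.RefW.Defs
import Mathlib

/-!
RW7. Choice of a short vector which is not a multiple of `F`.
Proof: let `i₀` be the first index with `¬ Par F (y i₀)`. For `i < i₀` the vector `y i` is a
nonzero multiple of `F`, so `hs F ≤ hs (y i) ≤ C * lam i * hs F`, `hs F > 0`, `lam i ≥ 1 / C`. For
`i ≥ i₀`, `lam i ≥ lam i₀`. If `lam i₀ ≤ 1` we are done. Otherwise
`∏ lam ≥ (1 / C) ^ i₀ * lam i₀ ^ (m - i₀) ≥ C ^ (-m) * lam i₀`.
-/

open Polynomial NumberField
open scoped Classical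

namespace Pool.Agent.RefW

private theorem choose_hs_pos {k : Type} [Field k] [NumberField k] {n : ℕ}
    {F : Fin (n + 1) → 𝓞 k} (hF : F ≠ 0) : 0 < hs F := by
  unfold hs
  rw [norm_pos_iff]
  intro h
  apply hF
  funext i
  obtain ⟨ρ⟩ : Nonempty (k →+* ℂ) := inferInstance
  have h1 := congrFun h (ρ, i)
  have h2 : ρ (F i : k) = 0 := h1
  rw [map_eq_zero] at h2
  exact_mod_cast h2

theorem exists_notPar {k : Type} [Field k] [NumberField k] {n m : ℕ} {F : Fin (n + 1) → 𝓞 k}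
    (hF : SupMin F) {y : Fin m → Fin (n + 1) → 𝓞 k} {lam : Fin m → ℝ} (hmono : Monotone lam)
    (hpos : ∀ i, 0 < lam i) (hne : ∀ i, y i ≠ 0) {C P : ℝ} (hC : 1 ≤ C) (hP : 1 ≤ P)
    (hprod : ∏ i, lam i ≤ P)
    (hsmall : ∀ i (ρ : k →+* ℂ) j, ‖ρ (y i j : k)‖ ≤ C * lam i * ‖ρ (F j : k)‖)
    (hex : ∃ i, ¬ Par F (y i)) : ∃ i, ¬ Par F (y i) ∧ lam i ≤ C ^ m * P := by
  have hC0 : 0 < C := lt_of_lt_of_le one_pos hC
  have hC1 : (1 : ℝ) ≤ C ^ m := one_le_pow₀ hC
  -- the first index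
  obtain ⟨i₀, hi₀, hmin⟩ : ∃ i₀, ¬ Par F (y i₀) ∧ ∀ i, i < i₀ → Par F (y i) := by
    have hfin : (Finset.univ.filter fun i : Fin m => ¬ Par F (y i)).Nonempty := by
      obtain ⟨i, hi⟩ := hex
      exact ⟨i, Finset.mem_filter.2 ⟨Finset.mem_univ _, hi⟩⟩
    refine ⟨(Finset.univ.filter fun i : Fin m => ¬ Par F (y i)).min' hfin,
      (Finset.mem_filter.1 (Finset.min'_mem _ hfin)).2, fun i hi => ?_⟩
    by_contra hcon
    exact absurd (Finset.min'_le (Finset.univ.filter fun i : Fin m => ¬ Par F (y i)) i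
      (Finset.mem_filter.2 ⟨Finset.mem_univ _, hcon⟩)) (not_le.2 hi)
  refine ⟨i₀, hi₀, ?_⟩
  by_cases h1 : lam i₀ ≤ 1
  · calc lam i₀ ≤ 1 := h1
      _ = 1 * 1 := (one_mul 1).symm
      _ ≤ C ^ m * P := mul_le_mul hC1 hP zero_le_one (zero_le_one.trans hC1)
  · push Not at h1
    have hhs : 0 < hs F := choose_hs_pos hF.1
    have hlow : ∀ i, i < i₀ → 1 ≤ C * lam i := by
      intro i hi
      have h2 : hs F ≤ hs (y i) := hF.2 _ (hne i) (hmin i hi)
      have h3 : hs (y i) ≤ C * lam i * hs F := by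
        have h0 : 0 ≤ C * lam i * hs F :=
          mul_nonneg (mul_nonneg hC0.le (hpos i).le) hhs.le
        unfold hs at h0 ⊢
        refine (pi_norm_le_iff_of_nonneg h0).2 fun q => ?_
        refine (hsmall i q.1 q.2).trans ?_
        refine mul_le_mul_of_nonneg_left ?_ (mul_nonneg hC0.le (hpos i).le)
        exact norm_le_pi_norm (fun q : (k →+* ℂ) × Fin (n + 1) => q.1 (F q.2 : k)) q
      have h4 : 1 * hs F ≤ C * lam i * hs F := by
        rw [one_mul]
        exact h2.trans h3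
      exact le_of_mul_le_mul_right h4 hhs
    have hall : ∀ i, (if i = i₀ then lam i₀ else 1) ≤ C * lam i := by
      intro i
      split_ifs with h
      · rw [h]
        exact le_mul_of_one_le_left (hpos i₀).le hC
      · rcases lt_or_gt_of_ne h with h2 | h2
        · exact hlow i h2
        · have h3 : 1 ≤ lam i := h1.le.trans (hmono h2.le)
          calc (1 : ℝ) = 1 * 1 := (one_mul 1).symm
            _ ≤ C * lam i := mul_le_mul hC h3 zero_le_one hC0.le
    calc lam i₀ = ∏ i, (if i = i₀ then lam i₀ else 1) := by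
          rw [Finset.prod_ite_eq' Finset.univ i₀ fun _ => lam i₀, if_pos (Finset.mem_univ _)]
      _ ≤ ∏ i, C * lam i := by
          refine Finset.prod_le_prod (fun i _ => ?_) fun i _ => hall i
          split_ifs
          · exact (hpos i₀).le
          · exact zero_le_one
      _ = C ^ m * ∏ i, lam i := by
          rw [Finset.prod_mul_distrib, Finset.prod_const, Finset.card_univ, Fintype.card_fin]
      _ ≤ C ^ m * P := mul_le_mul_of_nonneg_left hprod (zero_le_one.trans hC1)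

end Pool.Agent.RefW
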