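import Pool.Agent.RefW.Defs
import Mathlib

/-!
RW6. A basis of `Fin (n + 1) → 𝓞 k` with coordinates bounded by `hs`.
Proof: take the product of integral bases `ω` (`Pi.basis`, `RingOfIntegers.basis`, reindexed by
`Fin N`). The coordinates of `a ∈ 𝓞 k` are `Tr (a * ω'_j)` with the dual basis for the trace, and
`Tr z = ∑ ρ : k →+* ℂ, ρ z`; or invert the matrix `ρ (ω_j)`. For `one_le_hs`: some `F i ≠ 0` and
the product of `‖ρ (F i)‖` over all `ρ` is `|norm (F i)| ≥ 1`.
-/

open Polynomial NumberField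
open scoped Classical

namespace Pool.Agent.RefW

/-- The conjugates of the coefficients are bounded by `hs`. -/
theorem coord_le_hs {k : Type} [Field k] [NumberField k] {n : ℕ} (F : Fin (n + 1) → 𝓞 k)
    (ρ : k →+* ℂ) (i : Fin (n + 1)) : ‖ρ (F i : k)‖ ≤ hs F :=
  norm_le_pi_norm (fun q : (k →+* ℂ) × Fin (n + 1) => q.1 (F q.2 : k)) (ρ, i)

/-- The integral coordinates are the coordinates of the canonical embedding. -/
theorem coord_repr (k : Type) [Field k] [NumberField k] (a : 𝓞 k)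
    (l : Module.Free.ChooseBasisIndex ℤ (𝓞 k)) :
    (canonicalEmbedding.latticeBasis k).equivFun (canonicalEmbedding k (a : k)) l =
      (((RingOfIntegers.basis k).repr a l : ℤ) : ℂ) := by
  have h1 : canonicalEmbedding k (a : k) = ∑ j, (((RingOfIntegers.basis k).repr a j : ℤ) : ℂ) •
      canonicalEmbedding.latticeBasis k j := by
    conv_lhs => rw [← (RingOfIntegers.basis k).sum_repr a]
    have h2 : ((∑ j, (RingOfIntegers.basis k).repr a j • RingOfIntegers.basis k j : 𝓞 k) : k) =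
        ∑ j, (((RingOfIntegers.basis k).repr a j : ℤ) : k) * integralBasis k j := by
      change algebraMap (𝓞 k) k _ = _
      rw [map_sum]
      refine Finset.sum_congr rfl fun j _ => ?_
      rw [integralBasis_apply, zsmul_eq_mul, map_mul, map_intCast]
    rw [h2, map_sum]
    refine Finset.sum_congr rfl fun j _ => ?_
    rw [canonicalEmbedding.latticeBasis_apply, map_mul, map_intCast]
    funext ρ
    simp [integralBasis_apply]
  rw [h1, map_sum, Finset.sum_apply]
  simp_rw [map_smul, Pi.smul_apply, Module.Basis.equivFun_self, smul_eq_mul]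
  simp

theorem exists_basis_bound (k : Type) [Field k] [NumberField k] (n : ℕ) :
    ∃ (N : ℕ) (b : Module.Basis (Fin N) ℤ (Fin (n + 1) → 𝓞 k)) (C : ℝ), 1 ≤ C ∧
      ∀ (F : Fin (n + 1) → 𝓞 k) (j : Fin N), |((b.repr F j : ℤ) : ℝ)| ≤ C * hs F := by
  set b₀ : Module.Basis (Σ _ : Fin (n + 1), Module.Free.ChooseBasisIndex ℤ (𝓞 k)) ℤ
    (Fin (n + 1) → 𝓞 k) := Pi.basis fun _ => RingOfIntegers.basis k with hb₀
  let e : (Σ _ : Fin (n + 1), Module.Free.ChooseBasisIndex ℤ (𝓞 k)) ≃ Fin (Fintype.card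
    (Σ _ : Fin (n + 1), Module.Free.ChooseBasisIndex ℤ (𝓞 k))) := Fintype.equivFin _
  let T : ((k →+* ℂ) → ℂ) →L[ℂ] (Module.Free.ChooseBasisIndex ℤ (𝓞 k) → ℂ) :=
    LinearMap.toContinuousLinearMap
      ((canonicalEmbedding.latticeBasis k).equivFun : ((k →+* ℂ) → ℂ) →ₗ[ℂ] _)
  refine ⟨_, b₀.reindex e, max 1 ‖T‖, le_max_left _ _, fun F j => ?_⟩
  have hs0 : 0 ≤ hs F := norm_nonneg _
  rw [Module.Basis.repr_reindex_apply]
  obtain ⟨i, l⟩ := e.symm j
  rw [hb₀, Pi.basis_repr]
  have h1 := coord_repr k (F i) l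
  have h2 : ‖canonicalEmbedding k (F i : k)‖ ≤ hs F := by
    rw [pi_norm_le_iff_of_nonneg hs0]
    exact fun ρ => coord_le_hs F ρ i
  have h3 : ‖T (canonicalEmbedding k (F i : k))‖ ≤ ‖T‖ * hs F :=
    (T.le_opNorm _).trans (mul_le_mul_of_nonneg_left h2 (norm_nonneg _))
  have h4 : ‖T (canonicalEmbedding k (F i : k)) l‖ ≤ ‖T‖ * hs F :=
    (norm_le_pi_norm _ l).trans h3
  have h5 : T (canonicalEmbedding k (F i : k)) l = (((RingOfIntegers.basis k).repr (F i) l : ℤ) : ℂ)
    := h1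
  rw [h5, Complex.norm_intCast] at h4
  exact h4.trans (mul_le_mul_of_nonneg_right (le_max_right _ _) hs0)

theorem one_le_hs {k : Type} [Field k] [NumberField k] {n : ℕ} (F : Fin (n + 1) → 𝓞 k)
    (hF : F ≠ 0) : 1 ≤ hs F := by
  obtain ⟨i, hi⟩ := Function.ne_iff.1 hF
  by_contra hlt
  rw [not_le] at hlt
  have key : ∀ w : InfinitePlace k, w (F i : k) < 1 := by
    intro w
    rw [← InfinitePlace.norm_embedding_eq]
    exact (coord_le_hs F _ i).trans_lt hlt
  obtain ⟨w⟩ : Nonempty (InfinitePlace k) := inferInstance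
  have h1 := InfinitePlace.one_le_of_lt_one (w := w) hi fun z _ => key z
  linarith [key w]

end Pool.Agent.RefW
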