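import Pool.Agent.RefW.Defs
import Pool.Agent.RefW.BoxC
import Pool.Agent.RefW.Coord
import Pool.Agent.RefW.Choose
import Mathlib

/-!
RW8. A second polynomial which is as small as `F` at all points of `D`.
Proof: `V = Fin (n + 1) → 𝓞 k` with the basis of `exists_basis_bound`. Apply `box_lattice` to the
family of all additive maps `F ↦ tc ρ θ j F` with `θ ∈ D ρ` (index type a sigma type), `ℓ'`
similarly, `H = C₁ * hs F`. Values are algebraic since elements of `𝓞 k` and `θ` are. For each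
`U ∈ 𝒰` put in `𝓔` one nonzero element `e` of `U` with `U ⊆ {G | Par e G}` if there is one. Given
`F` take `U, y, lam`. If all `y i` satisfy `Par F (y i)`, then all elements of `U` do (clear `c`),
so the `e` of `U` exists and `Par F e`, and `Par e F` since `F ∈ U`. Otherwise `exists_notPar`
(the hypothesis `hsmall` is the bound for `θ = ∞`, `j.rev`; `P = C * H ^ ε`, made at least one)
gives `G = y i` with `lam i ≤ C ^ m * P ≤ C ^ N * P`.
-/

open Polynomial NumberField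
open scoped Classical

namespace Pool.Agent.RefW

private theorem second_tcA_add {A : Type} [Field A] {n : ℕ} (θ : OnePoint A) (j : Fin (n + 1))
    (F G : Fin (n + 1) → A) : tcA θ j (F + G) = tcA θ j F + tcA θ j G := by
  induction θ using OnePoint.rec with
  | infty => rfl
  | coe z =>
    change ∑ i : Fin (n + 1), ((i : ℕ).choose j : A) * (F i + G i) * z ^ ((i : ℕ) - j) =
      (∑ i : Fin (n + 1), ((i : ℕ).choose j : A) * F i * z ^ ((i : ℕ) - j)) +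
      ∑ i : Fin (n + 1), ((i : ℕ).choose j : A) * G i * z ^ ((i : ℕ) - j)
    rw [← Finset.sum_add_distrib]
    refine Finset.sum_congr rfl fun i _ => ?_
    ring

private noncomputable def secondHom {k : Type} [Field k] [NumberField k] {A : Type} [Field A]
    (ρ : k →+* A) {n : ℕ} (θ : OnePoint A) (j : Fin (n + 1)) : (Fin (n + 1) → 𝓞 k) →+ A :=
  AddMonoidHom.mk' (fun F => tc ρ θ j F) (by
    intro F G
    unfold tc
    rw [← second_tcA_add]
    congr 1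
    funext i
    simp)

private theorem second_alg {k : Type} [Field k] [NumberField k] {A : Type} [Field A] [CharZero A]
    (ρ : k →+* A) (a : 𝓞 k) : IsAlgebraic ℚ (ρ (a : k)) := by
  have h : IsAlgebraic ℚ (a : k) := Algebra.IsAlgebraic.isAlgebraic _
  exact h.algHom ρ.toRatAlgHom

private theorem second_algTc {k : Type} [Field k] [NumberField k] {A : Type} [Field A] [CharZero A]
    (ρ : k →+* A) {n : ℕ} (θ : OnePoint A) (hθ : AlgP θ) (j : Fin (n + 1))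
    (F : Fin (n + 1) → 𝓞 k) : IsAlgebraic ℚ (tc ρ θ j F) := by
  unfold tc
  induction θ using OnePoint.rec with
  | infty => exact second_alg ρ _
  | coe z =>
    change IsAlgebraic ℚ (∑ i : Fin (n + 1), ((i : ℕ).choose j : A) * ρ (F i : k) *
      z ^ ((i : ℕ) - j))
    have hz : IsAlgebraic ℚ z := hθ z rfl
    rw [isAlgebraic_iff_isIntegral] at *
    refine IsIntegral.sum _ fun i _ => ?_
    refine IsIntegral.mul (IsIntegral.mul ?_ ?_) (hz.pow _)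
    · exact isIntegral_algebraMap (R := ℚ) (x := ((i : ℕ).choose j : ℚ)) |> fun h => by
        simpa using h
    · exact isAlgebraic_iff_isIntegral.1 (second_alg ρ (F i))

private theorem second_par_closure {k : Type} [Field k] [NumberField k] {n : ℕ}
    {F : Fin (n + 1) → 𝓞 k} {ι : Type} {y : ι → Fin (n + 1) → 𝓞 k} (hy : ∀ i, Par F (y i))
    {u : Fin (n + 1) → 𝓞 k} (hu : u ∈ AddSubgroup.closure (Set.range y)) : Par F u := by
  induction hu using AddSubgroup.closure_induction with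
  | mem x hx =>
    obtain ⟨i, rfl⟩ := hx
    exact hy i
  | zero => exact ⟨0, fun i => by simp⟩
  | add x z _ _ hx hz =>
    obtain ⟨c, hc⟩ := hx
    obtain ⟨d, hd⟩ := hz
    exact ⟨c + d, fun i => by simp [hc i, hd i, add_mul]⟩
  | neg x _ hx =>
    obtain ⟨c, hc⟩ := hx
    exact ⟨-c, fun i => by simp [hc i]⟩

theorem exists_second (k : Type) [Field k] [NumberField k] {T : Type} [Fintype T] [DecidableEq T]
    (p : T → ℕ) [∀ t, Fact (p t).Prime] (hp : Function.Injective p) (n : ℕ)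
    (D : (k →+* ℂ) → Finset (OnePoint ℂ)) (D' : ∀ t, (k →+* ℂ_[p t]) → Finset (OnePoint ℂ_[p t]))
    (hD : ∀ ρ, ∀ θ ∈ D ρ, AlgP θ) (hD' : ∀ t ρ, ∀ θ ∈ D' t ρ, AlgP θ)
    (hi : ∀ ρ, OnePoint.infty ∈ D ρ) (ε : ℝ) (hε : 0 < ε) :
    ∃ C : ℝ, 1 ≤ C ∧ ∃ 𝓔 : Finset (Fin (n + 1) → 𝓞 k), ∀ F : Fin (n + 1) → 𝓞 k, SupMin F →
      (∃ e ∈ 𝓔, Par F e ∧ Par e F) ∨ ∃ G : Fin (n + 1) → 𝓞 k, ¬ Par F G ∧
        (∀ ρ, ∀ θ ∈ D ρ, ∀ j, ‖tc ρ θ j G‖ ≤ C * hs F ^ ε * ‖tc ρ θ j F‖) ∧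
        ∀ t ρ, ∀ θ ∈ D' t ρ, ∀ j, ‖tc ρ θ j G‖ ≤ C * ‖tc ρ θ j F‖ := by
  obtain ⟨N, b, C₁, hC₁, hb⟩ := exists_basis_bound k n
  obtain ⟨C₂, hC₂, 𝒰, hbox⟩ := box_lattice p hp b
    (I := Σ ρ : k →+* ℂ, (↥(D ρ) × Fin (n + 1)))
    (J := fun t => Σ ρ : k →+* ℂ_[p t], (↥(D' t ρ) × Fin (n + 1)))
    (fun i => secondHom i.1 (i.2.1 : OnePoint ℂ) i.2.2)
    (fun i v => second_algTc i.1 _ (hD i.1 _ i.2.1.2) i.2.2 v)
    (fun t i => secondHom i.1 (i.2.1 : OnePoint ℂ_[p t]) i.2.2)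
    (fun t i v => second_algTc i.1 _ (hD' t i.1 _ i.2.1.2) i.2.2 v)
    ε hε
  set C₃ : ℝ := max 1 C₂ with hC₃
  have h1C₃ : 1 ≤ C₃ := le_max_left _ _
  have h0C₃ : 0 < C₃ := lt_of_lt_of_le one_pos h1C₃
  have h23 : C₂ ≤ C₃ := le_max_right _ _
  have hC₁ε : 1 ≤ C₁ ^ ε := Real.one_le_rpow hC₁ hε.le
  have hpow : 1 ≤ C₃ ^ (N + 1) := one_le_pow₀ h1C₃
  refine ⟨C₃ ^ (N + 2) * C₁ ^ ε, ?_, 𝒰.image (fun U =>
    if h : ∃ e, e ∈ U ∧ e ≠ 0 ∧ ∀ G ∈ U, Par e G then h.choose else 0), ?_⟩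
  · exact one_le_mul_of_one_le_of_one_le (one_le_pow₀ h1C₃) hC₁ε
  intro F hF
  have hhs : 1 ≤ hs F := one_le_hs F hF.1
  have hhs0 : 0 ≤ hs F := zero_le_one.trans hhs
  have hH : 1 ≤ C₁ * hs F := one_le_mul_of_one_le_of_one_le hC₁ hhs
  obtain ⟨U, hU, hFU, m, y, lam, hm, hmono, hpos, hne, hspan, hprod, hreal, hpad⟩ :=
    hbox F (C₁ * hs F) hF.1 hH (hb F)
  by_cases hall : ∀ i, Par F (y i)
  · left
    have hpar : ∀ G ∈ U, Par F G := by
      intro G hG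
      obtain ⟨c, hc, hcG⟩ := hspan G hG
      obtain ⟨d, hd⟩ := second_par_closure hall hcG
      have hck : (c : k) ≠ 0 := by exact_mod_cast hc
      refine ⟨d / c, fun i => ?_⟩
      have h1 := hd i
      have h2 : (((c • G) i : 𝓞 k) : k) = (c : k) * (G i : k) := by
        simp
      rw [h2] at h1
      field_simp
      rw [← h1]
      ring
    have hex : ∃ e, e ∈ U ∧ e ≠ 0 ∧ ∀ G ∈ U, Par e G := ⟨F, hFU, hF.1, hpar⟩
    refine ⟨hex.choose, ?_, hpar _ hex.choose_spec.1, hex.choose_spec.2.2 F hFU⟩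
    rw [Finset.mem_image]
    exact ⟨U, hU, by rw [dif_pos hex]⟩
  · right
    push Not at hall
    have hHε : 1 ≤ (C₁ * hs F) ^ ε := Real.one_le_rpow hH hε.le
    have hP : 1 ≤ C₃ * (C₁ * hs F) ^ ε := one_le_mul_of_one_le_of_one_le h1C₃ hHε
    have hsmall : ∀ i (ρ : k →+* ℂ) j, ‖ρ (y i j : k)‖ ≤ C₃ * lam i * ‖ρ (F j : k)‖ := by
      intro i ρ j
      have h := hreal i ⟨ρ, (⟨OnePoint.infty, hi ρ⟩, j.rev)⟩
      have hval : ∀ G : Fin (n + 1) → 𝓞 k,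
          secondHom ρ (OnePoint.infty : OnePoint ℂ) j.rev G = ρ (G j : k) := by
        intro G
        change ρ (G j.rev.rev : k) = ρ (G j : k)
        rw [Fin.rev_rev]
      simp only [hval] at h
      refine h.trans ?_
      have := hpos i
      gcongr
    obtain ⟨i, hi1, hi2⟩ := exists_notPar hF hmono hpos hne h1C₃ hP
      (hprod.trans (mul_le_mul_of_nonneg_right h23 (by positivity))) hsmall hall
    have hlam : lam i ≤ C₃ ^ (N + 1) * C₁ ^ ε * hs F ^ ε := by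
      refine hi2.trans ?_
      rw [Real.mul_rpow (by linarith) hhs0]
      have h1 : C₃ ^ m ≤ C₃ ^ N := pow_le_pow_right₀ h1C₃ hm
      have h2 : 0 ≤ hs F ^ ε := by positivity
      calc C₃ ^ m * (C₃ * (C₁ ^ ε * hs F ^ ε)) ≤ C₃ ^ N * (C₃ * (C₁ ^ ε * hs F ^ ε)) := by
            gcongr
        _ = C₃ ^ (N + 1) * C₁ ^ ε * hs F ^ ε := by ring
    refine ⟨y i, hi1, ?_, ?_⟩
    · intro ρ θ hθ j
      have h := hreal i ⟨ρ, (⟨θ, hθ⟩, j)⟩
      change ‖tc ρ θ j (y i)‖ ≤ C₂ * lam i * ‖tc ρ θ j F‖ at h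
      refine h.trans ?_
      have hl := (hpos i).le
      calc C₂ * lam i * ‖tc ρ θ j F‖ ≤ C₃ * (C₃ ^ (N + 1) * C₁ ^ ε * hs F ^ ε) *
            ‖tc ρ θ j F‖ := by gcongr
        _ = C₃ ^ (N + 2) * C₁ ^ ε * hs F ^ ε * ‖tc ρ θ j F‖ := by ring
    · intro t ρ θ hθ j
      have h := hpad i t ⟨ρ, (⟨θ, hθ⟩, j)⟩
      change ‖tc ρ θ j (y i)‖ ≤ C₂ * ‖tc ρ θ j F‖ at h
      refine h.trans ?_
      have h4 : C₂ ≤ C₃ ^ (N + 2) * C₁ ^ ε := by
        calc C₂ ≤ C₃ := h23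
          _ = C₃ * 1 * 1 := by ring
          _ ≤ C₃ * C₃ ^ (N + 1) * C₁ ^ ε := by gcongr
          _ = C₃ ^ (N + 2) * C₁ ^ ε := by ring
      gcongr

end Pool.Agent.RefW
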