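import Pool.Agent.RefW.Defs
import Pool.Agent.RefW.Second
import Pool.Agent.RefW.Local
import Pool.Agent.RefW.Dist
import Pool.Agent.RefW.Roots
import Pool.Agent.RefW.NormProd
import Pool.Agent.RefW.Res
import Pool.Agent.RefW.Mahler

/-!
RW16. The inequality in terms of the size of the minimal polynomial.
-/

open Polynomial NumberField
open scoped Classical

namespace Pool.Agent.RefW

section Aux

theorem core_chord_pos (z : ℂ) (θ : OnePoint ℂ) (h : ((z : ℂ) : OnePoint ℂ) ≠ θ) :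
    0 < SST.chord z θ := by
  induction θ using OnePoint.rec with
  | infty =>
    change 0 < 1 / Real.sqrt (1 + ‖z‖ ^ 2)
    positivity
  | coe w =>
    change 0 < ‖z - w‖ / (Real.sqrt (1 + ‖z‖ ^ 2) * Real.sqrt (1 + ‖w‖ ^ 2))
    have h1 : z ≠ w := fun h2 => h (by rw [h2])
    have h2 : 0 < ‖z - w‖ := norm_pos_iff.2 (sub_ne_zero.2 h1)
    positivity

theorem core_chordM_pos {A : Type} [NormedField A] (z : A) (θ : OnePoint A)
    (h : ((z : A) : OnePoint A) ≠ θ) : 0 < SST.chordM z θ := by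
  induction θ using OnePoint.rec with
  | infty =>
    change 0 < 1 / max 1 ‖z‖
    have : 0 < max 1 ‖z‖ := lt_of_lt_of_le one_pos (le_max_left _ _)
    positivity
  | coe w =>
    change 0 < ‖z - w‖ / (max 1 ‖z‖ * max 1 ‖w‖)
    have h1 : z ≠ w := fun h2 => h (by rw [h2])
    have h2 : 0 < ‖z - w‖ := norm_pos_iff.2 (sub_ne_zero.2 h1)
    have h3 : 0 < max 1 ‖z‖ := lt_of_lt_of_le one_pos (le_max_left _ _)
    have h4 : 0 < max 1 ‖w‖ := lt_of_lt_of_le one_pos (le_max_left _ _)
    positivity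

theorem core_nonneg {A : Type} [NormedField A] {δ : A → OnePoint A → ℝ} (hδ : DistOK δ) (x : A)
    (θ : OnePoint A) : 0 ≤ -Real.log (δ x θ) := by
  have := Real.log_nonpos (hδ.nonneg x θ) (hδ.le_one x θ)
  linarith

theorem core_mono {k A : Type} [Field k] [NumberField k] [NormedField A] [IsAlgClosed A]
    [CharZero A] {δ : A → OnePoint A → ℝ} (hδ : DistOK δ) (D : (k →+* A) → Finset (OnePoint A))
    (K : Type) [Field K] [NumberField K] [Algebra k K] (x : K) :
    pairSum δ D K x ≤ pairSum δ (fun ρ => insert OnePoint.infty (D ρ)) K x := by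
  refine Finset.sum_le_sum fun σ _ => Finset.sum_le_sum fun τ _ => ?_
  split_ifs with h
  · refine Finset.sum_le_sum_of_subset_of_nonneg (Finset.subset_insert _ _) fun θ _ _ => ?_
    exact le_min (core_nonneg hδ _ _) (core_nonneg hδ _ _)
  · exact le_rfl

theorem core_par {k A : Type} [Field k] [NumberField k] [NormedField A] [IsAlgClosed A]
    [CharZero A] (δ : A → OnePoint A → ℝ) (D : Finset (OnePoint A)) {n : ℕ}
    {F G : Fin (n + 1) → 𝓞 k} (hF : F ≠ 0) (h : Par G F) (ρ : k →+* A) :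
    pairRoots δ D (∑ i, Polynomial.C (ρ (F i : k)) * X ^ (i : ℕ)) =
      pairRoots δ D (∑ i, Polynomial.C (ρ (G i : k)) * X ^ (i : ℕ)) := by
  obtain ⟨c, hc⟩ := h
  have hc0 : c ≠ 0 := by
    rintro rfl
    apply hF
    funext i
    have h1 := hc i
    rw [zero_mul] at h1
    exact_mod_cast h1
  have h1 : (∑ i, Polynomial.C (ρ (F i : k)) * X ^ (i : ℕ) : A[X]) =
      Polynomial.C (ρ c) * ∑ i, Polynomial.C (ρ (G i : k)) * X ^ (i : ℕ) := by
    rw [Finset.mul_sum]
    refine Finset.sum_congr rfl fun i _ => ?_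
    rw [hc i, map_mul, Polynomial.C_mul, mul_assoc]
  unfold pairRoots
  rw [h1, Polynomial.roots_C_mul _ ((map_ne_zero ρ).2 hc0)]

end Aux

theorem core_main (k : Type) [Field k] [NumberField k] {T : Type} [Fintype T] [DecidableEq T]
    (p : T → ℕ) [∀ t, Fact (p t).Prime] (hp : Function.Injective p) (n : ℕ) (hn : 0 < n)
    (D : (k →+* ℂ) → Finset (OnePoint ℂ)) (D' : ∀ t, (k →+* ℂ_[p t]) → Finset (OnePoint ℂ_[p t]))
    (hD : ∀ ρ, ∀ θ ∈ D ρ, AlgP θ) (hD' : ∀ t ρ, ∀ θ ∈ D' t ρ, AlgP θ)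
    (hi : ∀ ρ, OnePoint.infty ∈ D ρ) (hi' : ∀ t ρ, OnePoint.infty ∈ D' t ρ)
    (ε : ℝ) (hε : 0 < ε) :
    ∃ C : ℝ, ∀ (K : Type) [Field K] [NumberField K] [Algebra k K] (x : K)
      (F : Fin (n + 1) → 𝓞 k), RootOf F K x → SupMin F →
      (∀ σ : K →+* ℂ, ((σ x : ℂ) : OnePoint ℂ) ∉ D (σ.comp (algebraMap k K))) →
      (∀ t (σ : K →+* ℂ_[p t]),
        ((σ x : ℂ_[p t]) : OnePoint ℂ_[p t]) ∉ D' t (σ.comp (algebraMap k K))) →
      pairSum SST.chord D K x + ∑ t, pairSum SST.chordM (D' t) K x ≤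
        (2 * n * Module.finrank ℚ k + ε) * Real.log (hs F) + C := by
  set d : ℕ := Module.finrank ℚ k with hd
  have hd0 : 0 < d := Module.finrank_pos
  have hdR : (0 : ℝ) < d := by exact_mod_cast hd0
  have hnR : (0 : ℝ) < n := by exact_mod_cast hn
  set ε' : ℝ := ε / (n * d) with hε'
  have hε'0 : 0 < ε' := by positivity
  obtain ⟨C₂, hC₂, 𝓔, hmain⟩ := exists_second k p hp n D D' hD hD' hi ε' hε'0
  choose Cl hCl1 hCl using fun ρ : k →+* ℂ => local_est SST.chord distOK_chord n (D ρ) (hi ρ)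
  choose Cl' hCl'1 hCl' using fun (t : T) (ρ : k →+* ℂ_[p t]) =>
    local_est SST.chordM distOK_chordM n (D' t ρ) (hi' t ρ)
  set E₁ : ℝ := ∑ e ∈ 𝓔, |∑ ρ : k →+* ℂ, pairRoots SST.chord (D ρ)
        (∑ i, Polynomial.C (ρ (e i : k)) * X ^ (i : ℕ)) +
      ∑ t, ∑ ρ : k →+* ℂ_[p t], pairRoots SST.chordM (D' t ρ)
        (∑ i, Polynomial.C (ρ (e i : k)) * X ^ (i : ℕ))| with hE₁
  have hE₁0 : 0 ≤ E₁ := Finset.sum_nonneg fun e _ => abs_nonneg _
  set E₂ : ℝ := ∑ ρ : k →+* ℂ, (Real.log (Cl ρ) + n * Real.log C₂ + 2 * n * Real.log (n + 1)) +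
      ∑ t, ∑ ρ : k →+* ℂ_[p t], (Real.log (Cl' t ρ) + n * Real.log C₂) with hE₂
  have hlogC₂ : 0 ≤ Real.log C₂ := Real.log_nonneg hC₂
  have hlogn : 0 ≤ Real.log ((n : ℝ) + 1) := Real.log_nonneg (by linarith)
  have hE₂0 : 0 ≤ E₂ := by
    refine add_nonneg (Finset.sum_nonneg fun ρ _ => ?_)
      (Finset.sum_nonneg fun t _ => Finset.sum_nonneg fun ρ _ => ?_)
    · have := Real.log_nonneg (hCl1 ρ)
      positivity
    · have := Real.log_nonneg (hCl'1 t ρ)
      positivity
  refine ⟨E₁ + E₂, fun K _ _ _ x F hroot hF hσ hσ' => ?_⟩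
  have hF0 : F ≠ 0 := hF.1
  have hhs : 1 ≤ hs F := one_le_hs F hF0
  have hloghs : 0 ≤ Real.log (hs F) := Real.log_nonneg hhs
  rcases hmain F hF with ⟨e, he, hFe, heF⟩ | ⟨G, hG, hsm, hsm'⟩
  · -- exceptional polynomials
    have h1 : pairSum SST.chord D K x = ∑ ρ : k →+* ℂ, pairRoots SST.chord (D ρ)
        (∑ i, Polynomial.C (ρ (e i : k)) * X ^ (i : ℕ)) := by
      rw [pairSum_eq hF0 hroot]
      exact Finset.sum_congr rfl fun ρ _ => core_par _ _ hF0 heF ρ
    have h2 : ∀ t, pairSum SST.chordM (D' t) K x = ∑ ρ : k →+* ℂ_[p t],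
        pairRoots SST.chordM (D' t ρ) (∑ i, Polynomial.C (ρ (e i : k)) * X ^ (i : ℕ)) := by
      intro t
      rw [pairSum_eq hF0 hroot]
      exact Finset.sum_congr rfl fun ρ _ => core_par _ _ hF0 heF ρ
    rw [h1, Finset.sum_congr rfl fun t _ => h2 t]
    have h3 := (le_abs_self _).trans (Finset.single_le_sum
      (f := fun e : Fin (n + 1) → 𝓞 k => |∑ ρ : k →+* ℂ, pairRoots SST.chord (D ρ)
        (∑ i, Polynomial.C (ρ (e i : k)) * X ^ (i : ℕ)) +
      ∑ t, ∑ ρ : k →+* ℂ_[p t], pairRoots SST.chordM (D' t ρ)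
        (∑ i, Polynomial.C (ρ (e i : k)) * X ^ (i : ℕ))|) (fun _ _ => abs_nonneg _) he)
    have h4 : 0 ≤ (2 * n * d + ε) * Real.log (hs F) := by positivity
    linarith
  · obtain ⟨R, hR0, hR⟩ := exists_resultant hF0 hroot G hG
    have hprod := one_le_prod_embeddings k p hp R hR0
    set E : ℝ := C₂ * hs F ^ ε' with hE
    have hhs0 : 0 < hs F := by linarith
    have hE1 : 1 ≤ E := by
      have h1 : 1 ≤ hs F ^ ε' := Real.one_le_rpow hhs hε'0.le
      nlinarith
    -- archimedean embeddings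
    have harch : ∀ ρ : k →+* ℂ, ‖ρ (R : k)‖ ≤ Cl ρ * E ^ n * ((n + 1) * hs F) ^ (2 * n) *
        Real.exp (-pairRoots SST.chord (D ρ)
          (∑ i, Polynomial.C (ρ (F i : k)) * X ^ (i : ℕ))) := by
      intro ρ
      obtain ⟨e, he⟩ := exists_fibre_equiv hF0 hroot ρ
      have ha : ρ (F (Fin.last n) : k) ≠ 0 := by
        intro ha
        rw [ha, map_zero, zero_mul] at he
        apply hF0
        funext j
        have h1 := congrArg (fun P : ℂ[X] => P.coeff (j : ℕ)) he
        simp only [finsetSum_coeff, Polynomial.coeff_C_mul, Polynomial.coeff_X_pow,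
          Polynomial.coeff_zero] at h1
        rw [Finset.sum_eq_single j (fun b _ hb => by
          rw [if_neg (fun h => hb (Fin.ext h.symm)), mul_zero]) (by simp)] at h1
        simpa using h1
      rw [he, pairRoots_eq _ _ _ ha, hR ρ _ he, norm_mul, norm_pow, norm_prod]
      have h1 := hCl ρ (fun i => ρ (F i : k)) (fun i => ρ (G i : k)) (ρ (F (Fin.last n) : k))
        (fun l => (e l).1 x) E (by linarith) he (fun θ hθ j => hsm ρ θ hθ j) (fun l θ hθ => by
          refine core_chord_pos _ _ fun h => ?_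
          have h2 := hσ (e l).1
          rw [(e l).2, h] at h2
          exact h2 hθ)
      refine h1.trans ?_
      have h3 : ‖ρ (F (Fin.last n) : k)‖ * ∏ l, max 1 ‖(e l).1 x‖ ≤ (n + 1) * hs F := by
        refine (mahler_le (fun i => ρ (F i : k)) _ _ he).1.trans ?_
        refine mul_le_mul_of_nonneg_left ?_ (by positivity)
        rw [pi_norm_le_iff_of_nonneg hhs0.le]
        intro i
        exact norm_le_pi_norm (fun q : (k →+* ℂ) × Fin (n + 1) => q.1 (F q.2 : k)) (ρ, i)
      have h4 : 0 ≤ ‖ρ (F (Fin.last n) : k)‖ * ∏ l, max 1 ‖(e l).1 x‖ :=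
        mul_nonneg (norm_nonneg _) (Finset.prod_nonneg fun l _ =>
          le_trans zero_le_one (le_max_left _ _))
      have h5 := hCl1 ρ
      refine mul_le_mul_of_nonneg_right ?_ (Real.exp_pos _).le
      refine mul_le_mul_of_nonneg_left ?_ (by positivity)
      exact pow_le_pow_left₀ h4 h3 _
    -- `p`-adic embeddings
    have hpad : ∀ t (ρ : k →+* ℂ_[p t]), ‖ρ (R : k)‖ ≤ Cl' t ρ * C₂ ^ n *
        Real.exp (-pairRoots SST.chordM (D' t ρ)
          (∑ i, Polynomial.C (ρ (F i : k)) * X ^ (i : ℕ))) := by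
      intro t ρ
      obtain ⟨e, he⟩ := exists_fibre_equiv hF0 hroot ρ
      have ha : ρ (F (Fin.last n) : k) ≠ 0 := by
        intro ha
        rw [ha, map_zero, zero_mul] at he
        apply hF0
        funext j
        have h1 := congrArg (fun P : ℂ_[p t][X] => P.coeff (j : ℕ)) he
        simp only [finsetSum_coeff, Polynomial.coeff_C_mul, Polynomial.coeff_X_pow,
          Polynomial.coeff_zero] at h1
        rw [Finset.sum_eq_single j (fun b _ hb => by
          rw [if_neg (fun h => hb (Fin.ext h.symm)), mul_zero]) (by simp)] at h1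
        simpa using h1
      rw [he, pairRoots_eq _ _ _ ha, hR ρ _ he, norm_mul, norm_pow, norm_prod]
      have h1 := hCl' t ρ (fun i => ρ (F i : k)) (fun i => ρ (G i : k))
        (ρ (F (Fin.last n) : k)) (fun l => (e l).1 x) C₂ (by linarith) he
        (fun θ hθ j => hsm' t ρ θ hθ j) (fun l θ hθ => by
          refine core_chordM_pos _ _ fun h => ?_
          have h2 := hσ' t (e l).1
          rw [(e l).2, h] at h2
          exact h2 hθ)
      refine h1.trans ?_
      have h3 : ‖ρ (F (Fin.last n) : k)‖ * ∏ l, max 1 ‖(e l).1 x‖ ≤ 1 := by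
        rw [gauss_eq (fun i => ρ (F i : k)) _ _ he]
        rw [pi_norm_le_iff_of_nonneg zero_le_one]
        intro i
        exact norm_le_one_of_ringOfIntegers _ ρ (F i)
      have h4 : 0 ≤ ‖ρ (F (Fin.last n) : k)‖ * ∏ l, max 1 ‖(e l).1 x‖ :=
        mul_nonneg (norm_nonneg _) (Finset.prod_nonneg fun l _ =>
          le_trans zero_le_one (le_max_left _ _))
      have h5 := hCl'1 t ρ
      refine mul_le_mul_of_nonneg_right ?_ (Real.exp_pos _).le
      calc Cl' t ρ * C₂ ^ n * (‖ρ (F (Fin.last n) : k)‖ * ∏ l, max 1 ‖(e l).1 x‖) ^ (2 * n)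
          ≤ Cl' t ρ * C₂ ^ n * 1 :=
            mul_le_mul_of_nonneg_left (pow_le_one₀ h4 h3) (by positivity)
        _ = _ := mul_one _
    -- logarithms
    have hlog := Real.log_nonneg hprod
    have hpos1 : ∀ ρ : k →+* ℂ, 0 < ‖ρ (R : k)‖ := fun ρ =>
      norm_pos_iff.2 ((map_ne_zero ρ).2 (by exact_mod_cast hR0))
    have hpos2 : ∀ t (ρ : k →+* ℂ_[p t]), 0 < ‖ρ (R : k)‖ := fun t ρ =>
      norm_pos_iff.2 ((map_ne_zero ρ).2 (by exact_mod_cast hR0))
    rw [Real.log_mul (Finset.prod_pos fun ρ _ => hpos1 ρ).ne'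
      (Finset.prod_pos fun t _ => Finset.prod_pos fun ρ _ => hpos2 t ρ).ne',
      Real.log_prod fun ρ _ => (hpos1 ρ).ne',
      Real.log_prod fun t _ => (Finset.prod_pos fun ρ _ => hpos2 t ρ).ne'] at hlog
    rw [Finset.sum_congr rfl fun t _ => Real.log_prod fun ρ _ => (hpos2 t ρ).ne'] at hlog
    have hlog1 : ∀ ρ : k →+* ℂ, Real.log ‖ρ (R : k)‖ ≤
        (Real.log (Cl ρ) + n * Real.log C₂ + 2 * n * Real.log (n + 1)) +
          (n * ε' + 2 * n) * Real.log (hs F) - pairRoots SST.chord (D ρ)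
          (∑ i, Polynomial.C (ρ (F i : k)) * X ^ (i : ℕ)) := by
      intro ρ
      have h1 := Real.log_le_log (hpos1 ρ) (harch ρ)
      have h5 : 0 < Cl ρ := lt_of_lt_of_le one_pos (hCl1 ρ)
      have h6 : 0 < E := by linarith
      have e1 : Real.log E = Real.log C₂ + ε' * Real.log (hs F) := by
        rw [hE, Real.log_mul (by positivity) (by positivity), Real.log_rpow hhs0]
      have e2 : Real.log (((n : ℝ) + 1) * hs F) = Real.log (n + 1) + Real.log (hs F) :=
        Real.log_mul (by positivity) (by positivity)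
      rw [Real.log_mul (by positivity) (Real.exp_pos _).ne', Real.log_exp,
        Real.log_mul (by positivity) (by positivity), Real.log_mul h5.ne'
        (pow_pos h6 _).ne', Real.log_pow, Real.log_pow, e2, e1] at h1
      push_cast at h1
      nlinarith [h1]
    have hlog2 : ∀ t (ρ : k →+* ℂ_[p t]), Real.log ‖ρ (R : k)‖ ≤
        (Real.log (Cl' t ρ) + n * Real.log C₂) - pairRoots SST.chordM (D' t ρ)
          (∑ i, Polynomial.C (ρ (F i : k)) * X ^ (i : ℕ)) := by
      intro t ρ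
      have h1 := Real.log_le_log (hpos2 t ρ) (hpad t ρ)
      have h5 : 0 < Cl' t ρ := lt_of_lt_of_le one_pos (hCl'1 t ρ)
      have h6 : 0 < C₂ := by linarith
      rw [Real.log_mul (by positivity) (Real.exp_pos _).ne', Real.log_exp,
        Real.log_mul (by positivity) (by positivity), Real.log_pow] at h1
      linarith [h1]
    have hsum1 := Finset.sum_le_sum fun (ρ : k →+* ℂ) (_ : ρ ∈ Finset.univ) => hlog1 ρ
    have hsum2 := Finset.sum_le_sum fun (t : T) (_ : t ∈ Finset.univ) =>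
      Finset.sum_le_sum fun (ρ : k →+* ℂ_[p t]) (_ : ρ ∈ Finset.univ) => hlog2 t ρ
    have hcard : (Fintype.card (k →+* ℂ) : ℝ) = d := by
      rw [NumberField.Embeddings.card]
    simp only [Finset.sum_sub_distrib] at hsum1 hsum2
    rw [Finset.sum_add_distrib, Finset.sum_const, Finset.card_univ, nsmul_eq_mul, hcard]
      at hsum1
    rw [pairSum_eq hF0 hroot, Finset.sum_congr rfl fun t _ => pairSum_eq hF0 hroot
      SST.chordM (D' t)]
    have hfin : (d : ℝ) * ((n * ε' + 2 * n) * Real.log (hs F)) =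
        (2 * n * d + ε) * Real.log (hs F) := by
      rw [hε']
      field_simp
      ring
    rw [hfin] at hsum1
    rw [hE₂]
    linarith

theorem core (k : Type) [Field k] [NumberField k] {T : Type} [Fintype T] [DecidableEq T]
    (p : T → ℕ) [∀ t, Fact (p t).Prime] (hp : Function.Injective p) (n : ℕ)
    (D : (k →+* ℂ) → Finset (OnePoint ℂ)) (D' : ∀ t, (k →+* ℂ_[p t]) → Finset (OnePoint ℂ_[p t]))
    (hD : ∀ ρ, ∀ θ ∈ D ρ, AlgP θ) (hD' : ∀ t ρ, ∀ θ ∈ D' t ρ, AlgP θ) (ε : ℝ) (hε : 0 < ε) :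
    ∃ C : ℝ, ∀ (K : Type) [Field K] [NumberField K] [Algebra k K] (x : K)
      (F : Fin (n + 1) → 𝓞 k), RootOf F K x → SupMin F →
      (∀ σ : K →+* ℂ, ((σ x : ℂ) : OnePoint ℂ) ∉ D (σ.comp (algebraMap k K))) →
      (∀ t (σ : K →+* ℂ_[p t]),
        ((σ x : ℂ_[p t]) : OnePoint ℂ_[p t]) ∉ D' t (σ.comp (algebraMap k K))) →
      pairSum SST.chord D K x + ∑ t, pairSum SST.chordM (D' t) K x ≤
        (2 * n * Module.finrank ℚ k + ε) * Real.log (hs F) + C := by
  rcases Nat.eq_zero_or_pos n with hn | hn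
  · refine ⟨0, fun K _ _ _ x F hroot _ _ _ => ?_⟩
    exfalso
    have h1 := hroot.deg
    rw [hn] at h1
    have h2 : 0 < Module.finrank k K := Module.finrank_pos
    omega
  · have hinf : AlgP (OnePoint.infty : OnePoint ℂ) := fun z hz =>
      absurd hz (OnePoint.infty_ne_coe z)
    have hinf' : ∀ t, AlgP (OnePoint.infty : OnePoint ℂ_[p t]) := fun t z hz =>
      absurd hz (OnePoint.infty_ne_coe z)
    obtain ⟨C, hC⟩ := core_main k p hp n hn (fun ρ => insert OnePoint.infty (D ρ))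
      (fun t ρ => insert OnePoint.infty (D' t ρ))
      (fun ρ θ hθ => by
        rcases Finset.mem_insert.1 hθ with h | h
        · rw [h]; exact hinf
        · exact hD ρ θ h)
      (fun t ρ θ hθ => by
        rcases Finset.mem_insert.1 hθ with h | h
        · rw [h]; exact hinf' t
        · exact hD' t ρ θ h)
      (fun ρ => Finset.mem_insert_self _ _) (fun t ρ => Finset.mem_insert_self _ _) ε hε
    refine ⟨C, fun K _ _ _ x F hroot hF hσ hσ' => ?_⟩
    have h1 := hC K x F hroot hF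
      (fun σ h => by
        rcases Finset.mem_insert.1 h with h | h
        · exact OnePoint.coe_ne_infty _ h
        · exact hσ σ h)
      (fun t σ h => by
        rcases Finset.mem_insert.1 h with h | h
        · exact OnePoint.coe_ne_infty _ h
        · exact hσ' t σ h)
    refine le_trans (add_le_add (core_mono distOK_chord D K x)
      (Finset.sum_le_sum fun t _ => core_mono distOK_chordM (D' t) K x)) h1

end Pool.Agent.RefW
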