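import Pool.Agent.SST.BalancedK
import Pool.Agent.SST.HeightK
import Mathlib

/-!
RW18. Minkowski: `NumberField.mixedEmbedding.exists_ne_zero_mem_ideal_lt` with
`f w = C * (absNorm 𝔞 * ∏ M) ^ (1 / d) / M (w.embedding)` (product of `f w ^ mult w` equal to
`C ^ d * absNorm 𝔞`), `convexBodyLT_volume`, `minkowskiBound`. See `balancedK_mink` in
`Pool/Agent/SST/BalancedK.lean` (you may import that file) and `heightK_prod_infinite` in HeightK.lean.
-/

open Polynomial NumberField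
open scoped Classical

namespace Pool.Agent.RefW

theorem exists_small_mem (k : Type) [Field k] [NumberField k] :
    ∃ C : ℝ, 0 < C ∧ ∀ 𝔞 : Ideal (𝓞 k), 𝔞 ≠ ⊥ → ∀ M : (k →+* ℂ) → ℝ, (∀ ρ, 0 < M ρ) →
      (∀ ρ, M (ComplexEmbedding.conjugate ρ) = M ρ) →
      ∃ a ∈ 𝔞, a ≠ 0 ∧ ∀ ρ : k →+* ℂ, ‖ρ (a : k)‖ * M ρ ≤
        C * ((Ideal.absNorm 𝔞 : ℝ) * ∏ ρ, M ρ) ^ (1 / Module.finrank ℚ k : ℝ) := by
  obtain ⟨C, hC1, hC⟩ := Pool.Agent.SST.balancedK_mink k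
  have hd0 : Module.finrank ℚ k ≠ 0 := (Module.finrank_pos (R := ℚ) (M := k)).ne'
  have hC1' : (1 : ℝ) ≤ C := by exact_mod_cast hC1
  have hC0 : (0 : ℝ) < C := by linarith
  refine ⟨C, hC0, fun 𝔞 h𝔞 M hM hMc => ?_⟩
  have hN : 0 < (Ideal.absNorm 𝔞 : ℝ) := by
    have : Ideal.absNorm 𝔞 ≠ 0 := fun h => h𝔞 (Ideal.absNorm_eq_zero_iff.1 h)
    exact_mod_cast Nat.pos_of_ne_zero this
  have hP : 0 < ∏ ρ, M ρ := Finset.prod_pos fun ρ _ => hM ρ
  set N := (Ideal.absNorm 𝔞 : ℝ) with hNdef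
  set t : ℝ := (N * ∏ ρ, M ρ) ^ (1 / Module.finrank ℚ k : ℝ) with htdef
  have ht : 0 < t := Real.rpow_pos_of_pos (mul_pos hN hP) _
  have htd : t ^ Module.finrank ℚ k = N * ∏ ρ, M ρ := by
    rw [htdef, one_div]
    exact Real.rpow_inv_natCast_pow (mul_pos hN hP).le hd0
  have hemb : ∀ ρ : k →+* ℂ, M (InfinitePlace.mk ρ).embedding = M ρ := by
    intro ρ
    rcases InfinitePlace.embedding_mk_eq ρ with h | h
    · rw [h]
    · rw [h, hMc]
  have h𝔞0 : ((𝔞 : Ideal (𝓞 k)) : FractionalIdeal (nonZeroDivisors (𝓞 k)) k) ≠ 0 :=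
    FractionalIdeal.coeIdeal_ne_zero.2 h𝔞
  obtain ⟨c, hcI, hc0, hcw⟩ := hC (Units.mk0 _ h𝔞0)
    (fun w => ⟨t / M w.embedding, (div_pos ht (hM _)).le⟩)
    (fun w h => (div_pos ht (hM _)).ne' (congrArg NNReal.toReal h)) (by
      rw [Units.val_mk0, FractionalIdeal.coeIdeal_absNorm]
      have e1 : ((Ideal.absNorm 𝔞 : ℚ) : ℝ) = N := by rw [hNdef]; push_cast; rfl
      rw [e1, ENNReal.ofReal_eq_coe_nnreal hN.le, ENNReal.coe_inj]
      apply NNReal.eq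
      push_cast
      change N = ∏ w : InfinitePlace k, (t / M w.embedding) ^ (InfinitePlace.mult w)
      rw [Pool.Agent.SST.heightK_prod_infinite k (fun w => t / M w.embedding)]
      simp_rw [hemb]
      rw [Finset.prod_div_distrib, Finset.prod_const, Finset.card_univ,
        NumberField.Embeddings.card k ℂ, htd]
      field_simp)
  rw [Units.val_mk0, FractionalIdeal.mem_coeIdeal] at hcI
  obtain ⟨a, ha, rfl⟩ := hcI
  refine ⟨a, ha, fun h => hc0 (by rw [h, map_zero]), fun ρ => ?_⟩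
  have h1 := hcw (InfinitePlace.mk ρ)
  rw [InfinitePlace.apply] at h1
  have h2 : ((C * ⟨t / M (InfinitePlace.mk ρ).embedding, (div_pos ht (hM _)).le⟩ : NNReal) : ℝ) =
      C * (t / M ρ) := by
    rw [NNReal.coe_mul, ← hemb ρ]
    rfl
  have h3 : ‖ρ (algebraMap (𝓞 k) k a)‖ < C * (t / M ρ) := by
    rw [← h2]; exact h1
  have h4 : C * (t / M ρ) * M ρ = C * t := by
    field_simp [(hM ρ).ne']
  rw [← h4]
  exact mul_le_mul_of_nonneg_right h3.le (hM ρ).le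

end Pool.Agent.RefW
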