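import Pool.Agent.RefW.Defs2
import Pool.Agent.RefW.Coord
import Pool.Agent.RefW.Mink
import Mathlib

/-!
RW26. A polynomial of minimal size is balanced and has bounded content.
Proof: `d = [k : ℚ]`, `𝔠 = Ideal.span (Set.range F)`, `0 ≠ b = F j ∈ 𝔠`; `𝔠 ∣ (b)`, so there is an ideal
`𝔞` with `𝔞 * 𝔠 = (b)`. For `a ∈ 𝔞` all `a * F i` are in `(b)`, so `G i = a * F i / b` is in `𝓞 k`.
`exists_small_mem` with `M ρ = ‖fun i => ρ (F i)‖ / ‖ρ b‖` gives `a ≠ 0` in `𝔞` with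
`‖ρ a‖ * M ρ ≤ C * (absNorm 𝔞 * ∏ M) ^ (1 / d)`, and `absNorm 𝔞 * ∏ M = (∏ ‖ρ F‖) / absNorm 𝔠`
(`∏ ‖ρ b‖ = absNorm (b)`). So `hs G ≤ C * ((∏ ‖ρ F‖) / absNorm 𝔠) ^ (1 / d)`, and `hs F ≤ hs G` as
`F` is minimal and `Par F G`. Hence `hs F ^ d ≤ C ^ d * (∏ ‖ρ F‖) / absNorm 𝔠`. The second claim
follows from `absNorm 𝔠 ≥ 1`, the first from `∏ ‖ρ F‖ ≤ hs F ^ d` (`Embeddings.card`).
-/

open Polynomial NumberField
open scoped Classical

namespace Pool.Agent.RefW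

private lemma balanced_norm (k : Type) [Field k] [NumberField k] (b : 𝓞 k) :
    ∏ ρ : k →+* ℂ, ‖ρ (b : k)‖ = (Ideal.absNorm (Ideal.span {b}) : ℝ) := by
  have h1 := InfinitePlace.prod_eq_abs_norm (b : k)
  have h2 := Pool.Agent.SST.heightK_prod_infinite k (fun w => w (b : k))
  rw [h2] at h1
  have h3 : ∏ ρ : k →+* ℂ, ‖ρ (b : k)‖ = ∏ ρ : k →+* ℂ, (InfinitePlace.mk ρ) (b : k) := by
    refine Finset.prod_congr rfl fun ρ _ => ?_
    rw [InfinitePlace.apply]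
  rw [h3, h1, Ideal.absNorm_span_singleton]
  have h4 : Algebra.norm ℚ (b : k) = ((Algebra.norm ℤ b : ℤ) : ℚ) :=
    (Algebra.coe_norm_int b).symm
  rw [h4, Nat.cast_natAbs]
  push_cast
  rfl

private lemma balanced_conj {k : Type} [Field k] [NumberField k] {n : ℕ} (F : Fin (n + 1) → 𝓞 k)
    (ρ : k →+* ℂ) : ‖fun i => (ComplexEmbedding.conjugate ρ) (F i : k)‖ =
      ‖fun i => ρ (F i : k)‖ := by
  have h : ∀ i, ‖(ComplexEmbedding.conjugate ρ) (F i : k)‖ = ‖ρ (F i : k)‖ := by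
    intro i
    rw [ComplexEmbedding.conjugate_coe_eq]
    exact RCLike.norm_conj _
  apply le_antisymm
  · rw [pi_norm_le_iff_of_nonneg (norm_nonneg _)]
    intro i
    rw [h]
    exact norm_le_pi_norm (fun i => ρ (F i : k)) i
  · rw [pi_norm_le_iff_of_nonneg (norm_nonneg _)]
    intro i
    rw [← h]
    exact norm_le_pi_norm (fun i => (ComplexEmbedding.conjugate ρ) (F i : k)) i

theorem supMin_balanced (k : Type) [Field k] [NumberField k] (n : ℕ) :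
    ∃ C : ℝ, 1 ≤ C ∧ ∀ F : Fin (n + 1) → 𝓞 k, SupMin F →
      (Ideal.absNorm (Ideal.span (Set.range F)) : ℝ) ≤ C ∧
      hs F ^ Module.finrank ℚ k ≤ C * ∏ ρ : k →+* ℂ, ‖fun i => ρ (F i : k)‖ := by
  obtain ⟨C₀, hC₀, hC⟩ := exists_small_mem k
  have hd0 : Module.finrank ℚ k ≠ 0 := (Module.finrank_pos (R := ℚ) (M := k)).ne'
  refine ⟨max 1 (C₀ ^ Module.finrank ℚ k), le_max_left _ _, fun F hF => ?_⟩
  obtain ⟨hF0, hmin⟩ := hF
  obtain ⟨j, hj⟩ := Function.ne_iff.1 hF0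
  have hj' : F j ≠ 0 := hj
  set 𝔠 := Ideal.span (Set.range F) with h𝔠
  have hmem : ∀ i, F i ∈ 𝔠 := fun i => Ideal.subset_span ⟨i, rfl⟩
  obtain ⟨𝔞, h𝔞⟩ : 𝔠 ∣ Ideal.span {F j} := by
    rw [Ideal.dvd_iff_le, Ideal.span_singleton_le_iff_mem]
    exact hmem j
  have hb0 : Ideal.span {F j} ≠ ⊥ := by
    rw [Ne, Ideal.span_singleton_eq_bot]
    exact hj'
  have h𝔞0 : 𝔞 ≠ ⊥ := by
    rintro rfl
    exact hb0 (by rw [h𝔞, Ideal.mul_bot])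
  have h𝔠0 : 𝔠 ≠ ⊥ := by
    intro h
    rw [h, Ideal.bot_mul] at h𝔞
    exact hb0 h𝔞
  have hN𝔞 : (0 : ℝ) < Ideal.absNorm 𝔞 := by
    exact_mod_cast Nat.pos_of_ne_zero fun h => h𝔞0 (Ideal.absNorm_eq_zero_iff.1 h)
  have hN𝔠 : (1 : ℝ) ≤ Ideal.absNorm 𝔠 := by
    exact_mod_cast Nat.pos_of_ne_zero fun h => h𝔠0 (Ideal.absNorm_eq_zero_iff.1 h)
  have hbk : (F j : k) ≠ 0 := by
    rw [Ne, RingOfIntegers.coe_eq_zero_iff]
    exact hj'
  have hρb : ∀ ρ : k →+* ℂ, 0 < ‖ρ (F j : k)‖ := fun ρ =>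
    norm_pos_iff.2 ((map_ne_zero ρ).2 hbk)
  have hρF : ∀ ρ : k →+* ℂ, 0 < ‖fun i => ρ (F i : k)‖ := fun ρ =>
    (hρb ρ).trans_le (norm_le_pi_norm (fun i => ρ (F i : k)) j)
  obtain ⟨a, ha, ha0, hab⟩ := hC 𝔞 h𝔞0
    (fun ρ => ‖fun i => ρ (F i : k)‖ / ‖ρ (F j : k)‖)
    (fun ρ => div_pos (hρF ρ) (hρb ρ))
    (fun ρ => by
      show ‖fun i => (ComplexEmbedding.conjugate ρ) (F i : k)‖ /
        ‖(ComplexEmbedding.conjugate ρ) (F j : k)‖ = _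
      rw [balanced_conj, ComplexEmbedding.conjugate_coe_eq, RCLike.norm_conj])
  -- the multiple `G`
  have hG : ∀ i, ∃ g : 𝓞 k, a * F i = F j * g := by
    intro i
    have h1 : F i * a ∈ Ideal.span {F j} := by
      rw [h𝔞]
      exact Ideal.mul_mem_mul (hmem i) ha
    obtain ⟨g, hg⟩ := Ideal.mem_span_singleton'.1 h1
    exact ⟨g, by rw [mul_comm a, ← hg, mul_comm]⟩
  choose G hG using hG
  have hGj : G j = a := by
    have h1 := hG j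
    rw [mul_comm a] at h1
    exact (mul_left_cancel₀ hj' h1).symm
  have hG0 : G ≠ 0 := by
    intro h
    apply ha0
    rw [← hGj, h]
    rfl
  have hGk : ∀ i, (a : k) * (F i : k) = (F j : k) * (G i : k) := by
    intro i
    have h1 := congrArg (algebraMap (𝓞 k) k) (hG i)
    rw [map_mul, map_mul] at h1
    exact h1
  have hPar : Par F G := by
    refine ⟨(a : k) / (F j : k), fun i => ?_⟩
    rw [div_mul_eq_mul_div, hGk i, mul_div_cancel_left₀ _ hbk]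
  set t : ℝ := ((Ideal.absNorm 𝔞 : ℝ) * ∏ ρ : k →+* ℂ,
    (‖fun i => ρ (F i : k)‖ / ‖ρ (F j : k)‖)) ^ (1 / Module.finrank ℚ k : ℝ) with ht
  have hprod0 : 0 ≤ (Ideal.absNorm 𝔞 : ℝ) * ∏ ρ : k →+* ℂ,
      (‖fun i => ρ (F i : k)‖ / ‖ρ (F j : k)‖) :=
    mul_nonneg hN𝔞.le (Finset.prod_nonneg fun ρ _ => (div_pos (hρF ρ) (hρb ρ)).le)
  have ht0 : 0 ≤ t := Real.rpow_nonneg hprod0 _
  have hhsG : hs G ≤ C₀ * t := by
    rw [hs, pi_norm_le_iff_of_nonneg (mul_nonneg hC₀.le ht0)]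
    rintro ⟨ρ, i⟩
    have h1 : ‖ρ (a : k)‖ * ‖ρ (F i : k)‖ = ‖ρ (F j : k)‖ * ‖ρ (G i : k)‖ := by
      have h3 := congrArg (fun x => ‖ρ x‖) (hGk i)
      simpa only [map_mul, norm_mul] using h3
    have h2 : ‖ρ (G i : k)‖ = ‖ρ (a : k)‖ * (‖ρ (F i : k)‖ / ‖ρ (F j : k)‖) := by
      rw [← mul_div_assoc, h1, mul_div_cancel_left₀ _ (hρb ρ).ne']
    show ‖ρ (G i : k)‖ ≤ C₀ * t
    rw [h2]
    refine le_trans ?_ (hab ρ)
    refine mul_le_mul_of_nonneg_left ?_ (norm_nonneg _)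
    exact div_le_div_of_nonneg_right (norm_le_pi_norm (fun i => ρ (F i : k)) i) (hρb ρ).le
  have hhs : hs F ≤ C₀ * t := (hmin G hG0 hPar).trans hhsG
  have hhs0 : 0 ≤ hs F := norm_nonneg _
  have htd : t ^ Module.finrank ℚ k = (Ideal.absNorm 𝔞 : ℝ) * ∏ ρ : k →+* ℂ,
      (‖fun i => ρ (F i : k)‖ / ‖ρ (F j : k)‖) := by
    rw [ht, one_div]
    exact Real.rpow_inv_natCast_pow hprod0 hd0
  have hmain : hs F ^ Module.finrank ℚ k * (Ideal.absNorm 𝔠 : ℝ) ≤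
      C₀ ^ Module.finrank ℚ k * ∏ ρ : k →+* ℂ, ‖fun i => ρ (F i : k)‖ := by
    have h1 : hs F ^ Module.finrank ℚ k ≤ C₀ ^ Module.finrank ℚ k *
        ((Ideal.absNorm 𝔞 : ℝ) * ∏ ρ : k →+* ℂ, (‖fun i => ρ (F i : k)‖ / ‖ρ (F j : k)‖)) := by
      rw [← htd, ← mul_pow]
      exact pow_le_pow_left₀ hhs0 hhs _
    have h2 : (Ideal.absNorm 𝔞 : ℝ) * ∏ ρ : k →+* ℂ, (‖fun i => ρ (F i : k)‖ / ‖ρ (F j : k)‖) =
        (∏ ρ : k →+* ℂ, ‖fun i => ρ (F i : k)‖) / Ideal.absNorm 𝔠 := by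
      rw [Finset.prod_div_distrib, balanced_norm, h𝔞, map_mul]
      push_cast
      field_simp
    rw [h2, ← mul_div_assoc] at h1
    exact (le_div_iff₀ (by linarith)).1 h1
  have hFprod0 : 0 < ∏ ρ : k →+* ℂ, ‖fun i => ρ (F i : k)‖ :=
    Finset.prod_pos fun ρ _ => hρF ρ
  have hprodle : ∏ ρ : k →+* ℂ, ‖fun i => ρ (F i : k)‖ ≤ hs F ^ Module.finrank ℚ k := by
    rw [← NumberField.Embeddings.card k ℂ, ← Finset.card_univ, ← Finset.prod_const]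
    refine Finset.prod_le_prod (fun ρ _ => norm_nonneg _) fun ρ _ => ?_
    rw [pi_norm_le_iff_of_nonneg hhs0]
    exact fun i => coord_le_hs F ρ i
  have hhspos : 0 < hs F ^ Module.finrank ℚ k := hFprod0.trans_le hprodle
  have hC0d : 0 ≤ C₀ ^ Module.finrank ℚ k := (pow_pos hC₀ _).le
  constructor
  · refine le_trans ?_ (le_max_right _ _)
    have h1 : hs F ^ Module.finrank ℚ k * (Ideal.absNorm 𝔠 : ℝ) ≤
        hs F ^ Module.finrank ℚ k * C₀ ^ Module.finrank ℚ k := by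
      refine hmain.trans ?_
      rw [mul_comm (hs F ^ _)]
      exact mul_le_mul_of_nonneg_left hprodle hC0d
    exact le_of_mul_le_mul_left h1 hhspos
  · have h1 : hs F ^ Module.finrank ℚ k ≤ hs F ^ Module.finrank ℚ k * (Ideal.absNorm 𝔠 : ℝ) :=
      le_mul_of_one_le_right hhspos.le hN𝔠
    refine h1.trans (hmain.trans ?_)
    exact mul_le_mul_of_nonneg_right (le_max_right _ _) hFprod0.le

end Pool.Agent.RefW
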