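import Mathlib

/-!
RW22. Discriminant and roots, up to sign: `Polynomial.resultant_deriv`,
`Polynomial.resultant_eq_prod_eval`.
-/

open Polynomial NumberField
open scoped Classical

namespace Pool.Agent.RefW

private theorem discRoots_eval {A : Type} [Field A] (a : A) {n : ℕ} (x : Fin n → A) (i : Fin n) :
    (derivative (Polynomial.C a * ∏ l, (X - Polynomial.C (x l)))).eval (x i) =
      a * ∏ j ∈ Finset.univ.erase i, (x i - x j) := by
  rw [derivative_C_mul, eval_mul, eval_C, derivative_prod_finset, eval_finset_sum]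
  congr 1
  rw [Finset.sum_eq_single i]
  · simp [eval_prod]
  · intro b _ hb
    have hmem : i ∈ Finset.univ.erase b := by simp [Ne.symm hb]
    rw [eval_mul, eval_prod]
    rw [Finset.prod_eq_zero hmem (by simp), zero_mul]
  · intro h
    exact absurd (Finset.mem_univ i) h

theorem discr_roots {A : Type} [Field A] (a : A) {n : ℕ} (x : Fin n → A) (hn : 0 < n) (ha : a ≠ 0) :
    (Polynomial.C a * ∏ l, (X - Polynomial.C (x l))).discr ^ 2 =
      (a ^ (2 * n - 2) * ∏ i, ∏ j ∈ Finset.univ.erase i, (x i - x j)) ^ 2 := by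
  set f : A[X] := Polynomial.C a * ∏ l, (X - Polynomial.C (x l)) with hf
  have hmon : (∏ l, (X - Polynomial.C (x l))).Monic := monic_prod_X_sub_C x Finset.univ
  have hdeg : f.natDegree = n := by
    rw [hf, natDegree_C_mul ha, natDegree_prod_of_monic _ _ (fun i _ => monic_X_sub_C (x i))]
    simp
  have hlc : f.leadingCoeff = a := by
    rw [hf, leadingCoeff_mul, leadingCoeff_C, hmon.leadingCoeff, mul_one]
  have hf0 : f ≠ 0 := by
    rw [hf]
    exact mul_ne_zero (by simpa using ha) hmon.ne_zero
  have hroots : f.roots = Finset.univ.val.map x := by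
    rw [hf, roots_C_mul _ ha]
    have := roots_multiset_prod_X_sub_C (Finset.univ.val.map x)
    rw [Multiset.map_map] at this
    exact this
  have hsp : f.Splits := by
    rw [hf]
    exact (Splits.C a).mul (Splits.prod fun i _ => Splits.X_sub_C (x i))
  have hdeg0 : 0 < f.degree := by
    rw [← natDegree_pos_iff_degree_pos, hdeg]; exact hn
  have h1 := resultant_deriv hdeg0
  have h2 := resultant_eq_prod_eval f (derivative f) (f.natDegree - 1) (natDegree_derivative_le f)
    hsp
  rw [h2, hlc, hdeg, hroots, Multiset.map_map] at h1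
  have h3 : (Multiset.map ((fun y => eval y (derivative f)) ∘ x) Finset.univ.val).prod =
      a ^ n * ∏ i, ∏ j ∈ Finset.univ.erase i, (x i - x j) := by
    have : (Multiset.map ((fun y => eval y (derivative f)) ∘ x) Finset.univ.val).prod =
        ∏ i, eval (x i) (derivative f) := rfl
    rw [this, Finset.prod_congr rfl fun i _ => discRoots_eval a x i, Finset.prod_mul_distrib]
    simp
  rw [h3] at h1
  have h4 : a * f.discr = (-1) ^ (n * (n - 1) / 2) *
      (a * (a ^ (2 * n - 2) * ∏ i, ∏ j ∈ Finset.univ.erase i, (x i - x j))) := by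
    have h5 : a ^ (n - 1) * (a ^ n * ∏ i, ∏ j ∈ Finset.univ.erase i, (x i - x j)) =
        a * (a ^ (2 * n - 2) * ∏ i, ∏ j ∈ Finset.univ.erase i, (x i - x j)) := by
      rw [← mul_assoc, ← mul_assoc, ← pow_add, ← pow_succ']
      congr 2
      omega
    rw [← h5, h1]
    have h6 : ((-1 : A) ^ (n * (n - 1) / 2)) * (-1) ^ (n * (n - 1) / 2) = 1 := by
      rw [← mul_pow]; simp
    calc a * f.discr = (((-1 : A) ^ (n * (n - 1) / 2)) * (-1) ^ (n * (n - 1) / 2)) *
        (a * f.discr) := by rw [h6, one_mul]
      _ = _ := by ring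
  have h7 : f.discr = (-1) ^ (n * (n - 1) / 2) *
      (a ^ (2 * n - 2) * ∏ i, ∏ j ∈ Finset.univ.erase i, (x i - x j)) := by
    apply mul_left_cancel₀ ha
    rw [h4]; ring
  rw [h7, mul_pow, ← pow_mul, mul_comm _ 2, pow_mul]
  simp

end Pool.Agent.RefW
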