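import Pool.Agent.RefW.Defs2
import Pool.Agent.RefW.Balanced
import Pool.Agent.RefW.DiscRoots
import Pool.Agent.RefW.Fibre
import Pool.Agent.RefW.Mahler
import Pool.Agent.RefW.NormProd
import Mathlib

/-!
RW27. Logarithm of the discriminant, over `k` (compare DiscLog.lean, the case `k = ℚ`).
For `ρ : k →+* A`, `exists_fibre_equiv` gives the conjugates `x l` of `x` above `ρ`. With
`Mρ = ‖ρ (F n)‖ * ∏ l, max 1 ‖x l‖` and `discr_roots`: `‖ρ (disc F)‖ = ‖ρ (F n)‖ ^ (2 n - 2) *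
∏ i ≠ j, ‖x i - x j‖`; complex case: `≥ Mρ ^ (2 n - 2) * ∏ i ≠ j, chord (x i) (x j)`; `p`-adic case:
`= Mρ ^ (2 n - 2) * ∏ i ≠ j, chordM (x i) (x j)`. Complex case: `∏ ρ, Mρ ≥ 2 ^ (- n d) * ∏ ρ, ‖ρ F‖ ≥
C * hs F ^ d` by `mahler_le` and `supMin_balanced`. `p`-adic case: `Mρ = ‖ρ F‖ ≥ c > 0`
(`gauss_eq`), since the content ideal `𝔠` has bounded norm: `N = absNorm 𝔠 ∈ 𝔠`, so
`N = ∑ a i * F i` with `a i ∈ 𝓞 k`, `‖N‖ ≤ max ‖ρ (F i)‖` and `‖N‖ ≥ 1 / N ≥ 1 / C` for the integer
`N` at `p`. The conjugates above `ρ` are distinct, so all logarithms are of positive numbers, and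
`disc F ≠ 0`. Split `conjSum` according to the common restriction `ρ` of `σ` and `τ` (see Roots.lean
for the similar statement `pairSum_eq`).
-/

open Polynomial NumberField
open scoped Classical

namespace Pool.Agent.RefW

private theorem discLogK_map {R A : Type} [CommRing R] [Field A] (φ : R →+* A)
    (hφ : Function.Injective φ) (f : R[X]) (hf : 0 < f.natDegree) :
    (f.map φ).discr = φ f.discr := by
  have hdeg : (f.map φ).natDegree = f.natDegree := natDegree_map_eq_of_injective hφ f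
  have hlc : (f.map φ).leadingCoeff = φ f.leadingCoeff := by
    rw [leadingCoeff, hdeg, coeff_map, leadingCoeff]
  have h1 := resultant_deriv (natDegree_pos_iff_degree_pos.mp hf)
  have h2 := resultant_deriv (f := f.map φ)
    (natDegree_pos_iff_degree_pos.mp (by rw [hdeg]; exact hf))
  rw [derivative_map, resultant_map_map, hdeg, hlc, h1] at h2
  rw [map_mul, map_mul, map_pow, map_neg, map_one] at h2
  have hne : (-1 : A) ^ (f.natDegree * (f.natDegree - 1) / 2) * φ f.leadingCoeff ≠ 0 := by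
    apply mul_ne_zero
    · exact pow_ne_zero _ (neg_ne_zero.mpr one_ne_zero)
    · have : f.leadingCoeff ≠ 0 := by
        rw [Ne, leadingCoeff_eq_zero]
        rintro rfl
        simp at hf
      exact fun h => this (hφ (by rw [h, map_zero]))
  exact (mul_left_cancel₀ hne h2).symm

private theorem discLogK_norm {A : Type} [NormedField A] (a : A) {n : ℕ} (x : Fin n → A)
    (hn : 0 < n) (ha : a ≠ 0) :
    ‖(Polynomial.C a * ∏ l, (X - Polynomial.C (x l))).discr‖ =
      ‖a‖ ^ (2 * n - 2) * ∏ i, ∏ j ∈ Finset.univ.erase i, ‖x i - x j‖ := by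
  have h1 := congrArg norm (discr_roots a x hn ha)
  rw [norm_pow, norm_pow] at h1
  have h2 := (pow_left_inj₀ (norm_nonneg _) (norm_nonneg _) two_ne_zero).mp h1
  rw [h2, norm_mul, norm_pow, norm_prod]
  congr 1
  exact Finset.prod_congr rfl fun i _ => norm_prod _ _

private theorem discLogK_ite {n : ℕ} {M : Type} [CommMonoid M] (g : Fin n → Fin n → M)
    (i : Fin n) :
    ∏ j ∈ Finset.univ.erase i, g i j = ∏ j, if i ≠ j then g i j else 1 := by
  rw [← Finset.prod_filter]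
  refine Finset.prod_congr ?_ fun _ _ => rfl
  ext j
  simp [eq_comm]

private theorem discLogK_prod {n : ℕ} (S : Fin n → ℝ) :
    ∏ i, ∏ j ∈ Finset.univ.erase i, (S i * S j) = (∏ i, S i) ^ (2 * n - 2) := by
  have h1 : ∏ i, ∏ j ∈ Finset.univ.erase i, S i = (∏ i, S i) ^ (n - 1) := by
    rw [← Finset.prod_pow]
    refine Finset.prod_congr rfl fun i _ => ?_
    rw [Finset.prod_const, Finset.card_erase_of_mem (Finset.mem_univ i), Finset.card_univ,
      Fintype.card_fin]
  have h2 : ∏ i, ∏ j ∈ Finset.univ.erase i, S j = (∏ i, S i) ^ (n - 1) := by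
    rw [← h1]
    have h3 : ∀ i, ∏ j ∈ Finset.univ.erase i, S j = ∏ j, if i ≠ j then S j else 1 :=
      fun i => discLogK_ite (fun _ j => S j) i
    have h4 : ∀ i, ∏ j ∈ Finset.univ.erase i, S i = ∏ j, if i ≠ j then S i else 1 :=
      fun i => discLogK_ite (fun i _ => S i) i
    rw [Finset.prod_congr rfl fun i _ => h3 i, Finset.prod_congr rfl fun i _ => h4 i,
      Finset.prod_comm]
    refine Finset.prod_congr rfl fun i _ => Finset.prod_congr rfl fun j _ => ?_
    simp only [ne_eq, eq_comm]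
  simp_rw [Finset.prod_mul_distrib]
  rw [h1, h2, ← pow_add]
  congr 1
  omega

private theorem discLogK_ext {k : Type} [Field k] {A : Type} [Field A] {K : Type} [Field K]
    [Algebra k K] {x : K} (hx : IntermediateField.adjoin k {x} = ⊤) {σ τ : K →+* A}
    (hc : σ.comp (algebraMap k K) = τ.comp (algebraMap k K)) (h : σ x = τ x) : σ = τ := by
  have h1 : ∀ y ∈ IntermediateField.adjoin k {x}, σ y = τ y := by
    intro y hy
    induction hy using IntermediateField.adjoin_induction with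
    | mem z hz =>
      rw [Set.mem_singleton_iff] at hz
      rw [hz, h]
    | algebraMap q => exact RingHom.congr_fun hc q
    | add a b _ _ ha hb => rw [map_add, map_add, ha, hb]
    | inv a _ ha => rw [map_inv₀, map_inv₀, ha]
    | mul a b _ _ ha hb => rw [map_mul, map_mul, ha, hb]
  ext y
  exact h1 y (by rw [hx]; trivial)

private theorem discLogK_last {k : Type} [Field k] [NumberField k] {n : ℕ}
    {F : Fin (n + 1) → 𝓞 k} (hF : F ≠ 0) {A : Type} [Field A] (ρ : k →+* A) (y : Fin n → A)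
    (he : ∑ i, Polynomial.C (ρ (F i : k)) * X ^ (i : ℕ) =
      Polynomial.C (ρ (F (Fin.last n) : k)) * ∏ l, (X - Polynomial.C (y l))) :
    F (Fin.last n) ≠ 0 := by
  intro h0
  have h00 : ρ (F (Fin.last n) : k) = 0 := by
    rw [h0]
    simp
  rw [h00, Polynomial.C_0, zero_mul] at he
  apply hF
  funext i
  have h1 : (∑ j : Fin (n + 1), Polynomial.C (ρ (F j : k)) * X ^ (j : ℕ)).coeff (i : ℕ) =
      ρ (F i : k) := by
    rw [Polynomial.finsetSum_coeff, Finset.sum_eq_single i]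
    · rw [Polynomial.coeff_C_mul_X_pow, if_pos rfl]
    · intro j _ hj
      rw [Polynomial.coeff_C_mul_X_pow, if_neg]
      intro h2
      exact hj (Fin.ext h2.symm)
    · intro h2
      exact absurd (Finset.mem_univ i) h2
  rw [he, Polynomial.coeff_zero] at h1
  have h2 : (F i : k) = 0 := (map_eq_zero ρ).mp h1.symm
  have h3 : F i = 0 := by
    apply RingOfIntegers.coe_injective
    simpa using h2
  simpa using h3

private theorem discLogK_deg {R : Type} [Semiring R] {n : ℕ} (F : Fin (n + 1) → R)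
    (hF : F (Fin.last n) ≠ 0) : (polyOf F).natDegree = n := by
  have hc : ∀ j, (polyOf F).coeff j = if h : j < n + 1 then F ⟨j, h⟩ else 0 := by
    intro j
    unfold polyOf
    rw [Polynomial.finsetSum_coeff]
    split_ifs with h
    · rw [Finset.sum_eq_single (⟨j, h⟩ : Fin (n + 1))]
      · simp
      · intro b _ hb
        rw [Polynomial.coeff_C_mul, Polynomial.coeff_X_pow, if_neg, mul_zero]
        intro hj
        exact hb (Fin.ext hj.symm)
      · intro hh
        exact absurd (Finset.mem_univ _) hh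
    · refine Finset.sum_eq_zero fun i _ => ?_
      rw [Polynomial.coeff_C_mul, Polynomial.coeff_X_pow, if_neg, mul_zero]
      intro hj
      exact h (hj ▸ i.2)
  apply Polynomial.natDegree_eq_of_le_of_coeff_ne_zero
  · rw [Polynomial.natDegree_le_iff_coeff_eq_zero]
    intro j hj
    rw [hc, dif_neg (by omega)]
  · rw [hc, dif_pos (by omega)]
    exact hF

private theorem discLogK_main {k : Type} [Field k] [NumberField k] {A : Type} [NormedField A]
    [IsAlgClosed A] [CharZero A] {n : ℕ}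
    (hn : 0 < n) (K : Type) [Field K] [NumberField K] [Algebra k K] (x : K)
    (F : Fin (n + 1) → 𝓞 k) (hF : F ≠ 0) (hx : RootOf F K x) (S : A → ℝ) (hS : ∀ z, 0 < S z)
    (d : A → OnePoint A → ℝ) (hd : ∀ z w : A, ‖z - w‖ = d z (w : OnePoint A) * (S z * S w))
    (ρ : k →+* A) :
    ∃ (a : A) (y : Fin n → A), a ≠ 0 ∧
      (∑ i : Fin (n + 1), Polynomial.C (ρ (F i : k)) * X ^ (i : ℕ) =
        Polynomial.C a * ∏ l, (X - Polynomial.C (y l))) ∧
      ρ ((polyOf F).discr : k) ≠ 0 ∧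
      Real.log ‖ρ ((polyOf F).discr : k)‖ = (2 * n - 2) * Real.log (‖a‖ * ∏ l, S (y l)) -
        ∑ σ : {σ : K →+* A // σ.comp (algebraMap k K) = ρ},
          ∑ τ : {τ : K →+* A // τ.comp (algebraMap k K) = ρ},
          if σ.1 ≠ τ.1 then -Real.log (d (σ.1 x) ((τ.1 x : A) : OnePoint A)) else 0 := by
  obtain ⟨e, he⟩ := exists_fibre_equiv hF hx ρ
  have hlast := discLogK_last hF ρ _ he
  have hdeg := discLogK_deg F hlast
  set a : A := ρ (F (Fin.last n) : k) with hadef
  have ha : a ≠ 0 := by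
    rw [hadef]
    intro h
    have h2 : (F (Fin.last n) : k) = 0 := (map_eq_zero ρ).mp h
    apply hlast
    apply RingOfIntegers.coe_injective
    simpa using h2
  have hyne : ∀ i j, i ≠ j → (e i).1 x ≠ (e j).1 x := by
    intro i j hij h
    apply hij
    apply e.injective
    apply Subtype.ext
    exact discLogK_ext hx.gen ((e i).2.trans (e j).2.symm) h
  set φ : 𝓞 k →+* A := ρ.comp (algebraMap (𝓞 k) k) with hφ
  have hφi : Function.Injective φ := by
    rw [hφ, RingHom.coe_comp]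
    exact ρ.injective.comp RingOfIntegers.coe_injective
  have hmap : (polyOf F).map φ =
      ∑ i : Fin (n + 1), Polynomial.C (ρ (F i : k)) * X ^ (i : ℕ) := by
    unfold polyOf
    rw [Polynomial.map_sum]
    refine Finset.sum_congr rfl fun i _ => ?_
    rw [Polynomial.map_mul, Polynomial.map_C, Polynomial.map_pow, Polynomial.map_X]
    rfl
  have hD : ‖ρ ((polyOf F).discr : k)‖ =
      ‖a‖ ^ (2 * n - 2) * ∏ i, ∏ j ∈ Finset.univ.erase i, ‖(e i).1 x - (e j).1 x‖ := by
    have h1 : ρ ((polyOf F).discr : k) = φ (polyOf F).discr := rfl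
    rw [h1, ← discLogK_map φ hφi (polyOf F) (by omega), hmap, he]
    exact discLogK_norm a (fun l => (e l).1 x) hn ha
  have hpos : ∀ i, ∀ j ∈ Finset.univ.erase i, 0 < ‖(e i).1 x - (e j).1 x‖ := by
    intro i j hj
    rw [norm_pos_iff, sub_ne_zero]
    exact hyne i j (Finset.ne_of_mem_erase hj).symm
  have hDpos : 0 < ‖ρ ((polyOf F).discr : k)‖ := by
    rw [hD]
    refine mul_pos (pow_pos (norm_pos_iff.mpr ha) _) ?_
    exact Finset.prod_pos fun i _ => Finset.prod_pos fun j hj => hpos i j hj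
  refine ⟨a, fun l => (e l).1 x, ha, he, norm_pos_iff.mp hDpos, ?_⟩
  have hdpos : ∀ i, ∀ j ∈ Finset.univ.erase i,
      0 < d ((e i).1 x) (((e j).1 x : A) : OnePoint A) := by
    intro i j hj
    have h1 := hpos i j hj
    rw [hd] at h1
    exact (pos_iff_pos_of_mul_pos h1).mpr (mul_pos (hS _) (hS _))
  have hD2 : ‖ρ ((polyOf F).discr : k)‖ = (‖a‖ * ∏ l, S ((e l).1 x)) ^ (2 * n - 2) *
      ∏ i, ∏ j ∈ Finset.univ.erase i, d ((e i).1 x) (((e j).1 x : A) : OnePoint A) := by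
    rw [hD, mul_pow, ← discLogK_prod fun l => S ((e l).1 x)]
    simp_rw [hd, Finset.prod_mul_distrib]
    ring
  have hsum : ∑ σ : {σ : K →+* A // σ.comp (algebraMap k K) = ρ},
      ∑ τ : {τ : K →+* A // τ.comp (algebraMap k K) = ρ},
        (if σ.1 ≠ τ.1 then -Real.log (d (σ.1 x) ((τ.1 x : A) : OnePoint A)) else 0) =
      -∑ i, ∑ j ∈ Finset.univ.erase i,
        Real.log (d ((e i).1 x) (((e j).1 x : A) : OnePoint A)) := by
    rw [← e.sum_comp, ← Finset.sum_neg_distrib]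
    refine Finset.sum_congr rfl fun i _ => ?_
    rw [← e.sum_comp, ← Finset.sum_neg_distrib]
    have h1 : ∀ j, (if (e i).1 ≠ (e j).1 then
        -Real.log (d ((e i).1 x) (((e j).1 x : A) : OnePoint A)) else 0) =
        if i ≠ j then -Real.log (d ((e i).1 x) (((e j).1 x : A) : OnePoint A)) else 0 := by
      intro j
      have h2 : ((e i).1 ≠ (e j).1) ↔ i ≠ j := by
        rw [ne_eq, ne_eq, ← Subtype.ext_iff, e.injective.eq_iff]
      simp only [h2]
    rw [Finset.sum_congr rfl fun j _ => h1 j, ← Finset.sum_filter]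
    refine Finset.sum_congr ?_ fun _ _ => rfl
    ext j
    simp [eq_comm]
  rw [hsum, hD2]
  have hP : 0 < ‖a‖ * ∏ l, S ((e l).1 x) :=
    mul_pos (norm_pos_iff.mpr ha) (Finset.prod_pos fun l _ => hS _)
  have hQ : 0 < ∏ i, ∏ j ∈ Finset.univ.erase i, d ((e i).1 x) (((e j).1 x : A) : OnePoint A) :=
    Finset.prod_pos fun i _ => Finset.prod_pos fun j hj => hdpos i j hj
  rw [Real.log_mul (pow_pos hP _).ne' hQ.ne', Real.log_pow, Real.log_prod fun i _ =>
    (Finset.prod_pos fun j hj => hdpos i j hj).ne']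
  have hcast : ((2 * n - 2 : ℕ) : ℝ) = 2 * n - 2 := by
    rw [Nat.cast_sub (by omega)]
    push_cast
    ring
  rw [hcast, sub_neg_eq_add]
  congr 1
  refine Finset.sum_congr rfl fun i _ => ?_
  exact Real.log_prod fun j hj => (hdpos i j hj).ne'

private theorem discLogK_conjSum {k : Type} [Field k] [NumberField k] {A : Type} [Field A]
    [CharZero A] [IsAlgClosed A] (K : Type) [Field K] [NumberField K] [Algebra k K] (x : K)
    (d : A → OnePoint A → ℝ) :
    conjSum k d K x = ∑ ρ : k →+* A, ∑ σ : {σ : K →+* A // σ.comp (algebraMap k K) = ρ},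
          ∑ τ : {τ : K →+* A // τ.comp (algebraMap k K) = ρ},
          if σ.1 ≠ τ.1 then -Real.log (d (σ.1 x) ((τ.1 x : A) : OnePoint A)) else 0 := by
  unfold conjSum
  rw [← (Equiv.sigmaFiberEquiv fun σ : K →+* A => σ.comp (algebraMap k K)).sum_comp,
    Fintype.sum_sigma]
  refine Finset.sum_congr rfl fun ρ _ => ?_
  refine Finset.sum_congr rfl fun σ _ => ?_
  obtain ⟨σ, hσ⟩ := σ
  subst hσ
  show ∑ τ : K →+* A, (if σ.comp (algebraMap k K) = τ.comp (algebraMap k K) ∧ σ ≠ τ then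
      -Real.log (d (σ x) ((τ x : A) : OnePoint A)) else 0) = _
  have h1 : ∀ τ : K →+* A, (if σ.comp (algebraMap k K) = τ.comp (algebraMap k K) ∧ σ ≠ τ then
      -Real.log (d (σ x) ((τ x : A) : OnePoint A)) else 0) =
      if σ.comp (algebraMap k K) = τ.comp (algebraMap k K) then
        (if σ ≠ τ then -Real.log (d (σ x) ((τ x : A) : OnePoint A)) else 0) else 0 := by
    intro τ
    by_cases h : σ.comp (algebraMap k K) = τ.comp (algebraMap k K)
    · simp only [h, true_and, if_true]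
    · simp only [h, false_and, if_false]
  rw [Finset.sum_congr rfl fun τ _ => h1 τ, ← Finset.sum_filter]
  refine (Finset.sum_subtype (Finset.univ.filter fun τ : K →+* A =>
    σ.comp (algebraMap k K) = τ.comp (algebraMap k K))
    (p := fun τ : K →+* A => τ.comp (algebraMap k K) = σ.comp (algebraMap k K)) ?_ _)
  intro τ
  rw [Finset.mem_filter]
  exact ⟨fun h => h.2.symm, fun h => ⟨Finset.mem_univ _, h.symm⟩⟩

private theorem discLogK_content {k : Type} [Field k] [NumberField k] {n : ℕ}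
    (F : Fin (n + 1) → 𝓞 k) (hF : F ≠ 0) (C : ℝ)
    (hC : (Ideal.absNorm (Ideal.span (Set.range F)) : ℝ) ≤ C) (p : ℕ) [Fact p.Prime]
    (ρ : k →+* ℂ_[p]) : 1 / C ≤ ‖fun i => ρ (F i : k)‖ := by
  set N := Ideal.absNorm (Ideal.span (Set.range F)) with hN
  have hN0 : N ≠ 0 := by
    rw [hN, Ne, Ideal.absNorm_eq_zero_iff, Ideal.span_eq_bot]
    intro h
    apply hF
    funext i
    exact h (F i) ⟨i, rfl⟩
  have hmem : ((N : ℕ) : 𝓞 k) ∈ Ideal.span (Set.range F) := Ideal.absNorm_mem _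
  rw [Ideal.mem_span_range_iff_exists_fun] at hmem
  obtain ⟨c, hc⟩ := hmem
  have h1 : ((N : ℕ) : ℂ_[p]) = ∑ i, ρ (c i : k) * ρ (F i : k) := by
    have h2 := congrArg (fun z : 𝓞 k => ρ (z : k)) hc
    simp only [map_sum, map_mul, map_natCast] at h2
    exact h2.symm
  have h2 : ‖((N : ℕ) : ℂ_[p])‖ ≤ ‖fun i => ρ (F i : k)‖ := by
    rw [h1]
    refine IsUltrametricDist.norm_sum_le_of_forall_le_of_nonneg (norm_nonneg _) fun i _ => ?_
    rw [norm_mul]
    calc ‖ρ (c i : k)‖ * ‖ρ (F i : k)‖ ≤ 1 * ‖ρ (F i : k)‖ :=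
          mul_le_mul_of_nonneg_right (norm_le_one_of_ringOfIntegers p ρ (c i)) (norm_nonneg _)
      _ = ‖ρ (F i : k)‖ := one_mul _
      _ ≤ _ := norm_le_pi_norm (fun i => ρ (F i : k)) i
  have h3 : 1 / (N : ℝ) ≤ ‖((N : ℕ) : ℂ_[p])‖ := by
    have h4 : ‖((N : ℕ) : ℂ_[p])‖ = ‖((N : ℕ) : ℚ_[p])‖ := by
      rw [← map_natCast (algebraMap ℚ_[p] ℂ_[p]) N, norm_algebraMap']
    rw [h4]
    have h5 : (((N : ℤ) : ℚ_[p])) = ((N : ℕ) : ℚ_[p]) := by push_cast; rfl
    have hp : (1 : ℝ) ≤ p := by exact_mod_cast (Fact.out : p.Prime).one_lt.le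
    have h6 : ‖((N : ℕ) : ℚ_[p])‖ = (p : ℝ) ^ (-(padicValNat p N : ℤ)) := by
      rw [Padic.norm_eq_zpow_neg_valuation (by exact_mod_cast hN0), Padic.valuation_natCast]
    rw [h6, zpow_neg, one_div]
    apply inv_anti₀
    · exact zpow_pos (by linarith) _
    · rw [zpow_natCast]
      exact_mod_cast Nat.le_of_dvd (Nat.pos_of_ne_zero hN0) pow_padicValNat_dvd
  have h7 : (0 : ℝ) < N := by exact_mod_cast Nat.pos_of_ne_zero hN0
  exact (one_div_le_one_div_of_le h7 hC).trans (h3.trans h2)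

theorem discr_logK (k : Type) [Field k] [NumberField k] {T : Type} [Fintype T] (p : T → ℕ)
    [∀ t, Fact (p t).Prime] (n : ℕ) (hn : 0 < n) :
    ∃ C : ℝ, ∀ (K : Type) [Field K] [NumberField K] [Algebra k K] (x : K)
      (F : Fin (n + 1) → 𝓞 k), RootOf F K x → SupMin F →
      (2 * n - 2) * Module.finrank ℚ k * Real.log (hs F) ≤
        Real.log ((∏ ρ : k →+* ℂ, ‖ρ ((polyOf F).discr : k)‖) *
          ∏ t, ∏ ρ : k →+* ℂ_[p t], ‖ρ ((polyOf F).discr : k)‖) +
        conjSum k SST.chord K x + ∑ t, conjSum k (SST.chordM (A := ℂ_[p t])) K x + C := by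
  obtain ⟨C₀, hC₀, hbal⟩ := supMin_balanced k n
  refine ⟨(2 * n - 2) * (Fintype.card (k →+* ℂ) * (n * Real.log 2) + Real.log C₀) +
    ∑ t, (2 * n - 2) * (Fintype.card (k →+* ℂ_[p t]) * Real.log C₀), ?_⟩
  intro K _ _ _ x F hx hmin
  obtain ⟨hcont, hhs⟩ := hbal F hmin
  have hF : F ≠ 0 := hmin.1
  have hC₀pos : 0 < C₀ := by linarith
  have hn1 : (0 : ℝ) ≤ 2 * n - 2 := by
    have : (1 : ℝ) ≤ n := by exact_mod_cast hn
    linarith
  -- the archimedean places
  have hS : ∀ z : ℂ, 0 < Real.sqrt (1 + ‖z‖ ^ 2) := fun z => Real.sqrt_pos.mpr (by positivity)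
  have hmainC := fun ρ : k →+* ℂ => discLogK_main (A := ℂ) hn K x F hF hx
    (fun z => Real.sqrt (1 + ‖z‖ ^ 2)) hS SST.chord (by
      intro z w
      have h1 := hS z
      have h2 := hS w
      show _ = ‖z - w‖ / (Real.sqrt (1 + ‖z‖ ^ 2) * Real.sqrt (1 + ‖w‖ ^ 2)) *
        (Real.sqrt (1 + ‖z‖ ^ 2) * Real.sqrt (1 + ‖w‖ ^ 2))
      field_simp) ρ
  choose a y ha hay hdne hlog using hmainC
  have hMpos : ∀ ρ, 0 < ‖a ρ‖ * ∏ l, Real.sqrt (1 + ‖y ρ l‖ ^ 2) := fun ρ =>
    mul_pos (norm_pos_iff.mpr (ha ρ)) (Finset.prod_pos fun l _ => hS _)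
  have hMge : ∀ ρ : k →+* ℂ, ‖fun i => ρ (F i : k)‖ ≤
      2 ^ n * (‖a ρ‖ * ∏ l, Real.sqrt (1 + ‖y ρ l‖ ^ 2)) := by
    intro ρ
    refine ((mahler_le (fun i : Fin (n + 1) => ρ (F i : k)) (a ρ) (y ρ) (hay ρ)).2).trans ?_
    gcongr with l
    refine max_le ?_ ?_
    · exact Real.one_le_sqrt.mpr (by nlinarith [norm_nonneg (y ρ l)])
    · exact Real.le_sqrt_of_sq_le (by linarith)
  have hFpos : ∀ ρ : k →+* ℂ, 0 < ‖fun i => ρ (F i : k)‖ := by
    intro ρ
    rw [norm_pos_iff]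
    intro h
    apply hF
    funext i
    have h1 := congrFun h i
    have h2 : (F i : k) = 0 := (map_eq_zero ρ).mp h1
    apply RingOfIntegers.coe_injective
    simpa using h2
  have hspos : 0 < hs F := by
    obtain ⟨ρ⟩ : Nonempty (k →+* ℂ) := inferInstance
    refine (hFpos ρ).trans_le ?_
    unfold hs
    rw [pi_norm_le_iff_of_nonneg (norm_nonneg _)]
    intro i
    exact norm_le_pi_norm (fun q : (k →+* ℂ) × Fin (n + 1) => q.1 (F q.2 : k)) (ρ, i)
  have hsumC : (2 * n - 2) * Module.finrank ℚ k * Real.log (hs F) ≤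
      (∑ ρ : k →+* ℂ, Real.log ‖ρ ((polyOf F).discr : k)‖) + conjSum k SST.chord K x +
      (2 * n - 2) * (Fintype.card (k →+* ℂ) * (n * Real.log 2) + Real.log C₀) := by
    rw [discLogK_conjSum, ← Finset.sum_add_distrib]
    have h1 : ∀ ρ : k →+* ℂ, Real.log ‖ρ ((polyOf F).discr : k)‖ +
        (∑ σ : {σ : K →+* ℂ // σ.comp (algebraMap k K) = ρ},
          ∑ τ : {τ : K →+* ℂ // τ.comp (algebraMap k K) = ρ},
          if σ.1 ≠ τ.1 then -Real.log (SST.chord (σ.1 x) ((τ.1 x : ℂ) : OnePoint ℂ)) else 0) =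
        (2 * n - 2) * Real.log (‖a ρ‖ * ∏ l, Real.sqrt (1 + ‖y ρ l‖ ^ 2)) := by
      intro ρ
      rw [hlog ρ]
      ring
    rw [Finset.sum_congr rfl fun ρ _ => h1 ρ, ← Finset.mul_sum]
    have h2 : Real.log (hs F ^ Module.finrank ℚ k) ≤
        Real.log (C₀ * ∏ ρ : k →+* ℂ, ‖fun i => ρ (F i : k)‖) :=
      Real.log_le_log (pow_pos hspos _) hhs
    rw [Real.log_pow, Real.log_mul hC₀pos.ne' (Finset.prod_pos fun ρ _ => hFpos ρ).ne',
      Real.log_prod fun ρ _ => (hFpos ρ).ne'] at h2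
    have h3 : ∑ ρ : k →+* ℂ, Real.log ‖fun i => ρ (F i : k)‖ ≤
        ∑ ρ : k →+* ℂ, (n * Real.log 2 +
          Real.log (‖a ρ‖ * ∏ l, Real.sqrt (1 + ‖y ρ l‖ ^ 2))) := by
      refine Finset.sum_le_sum fun ρ _ => ?_
      have h4 := Real.log_le_log (hFpos ρ) (hMge ρ)
      rwa [Real.log_mul (by positivity) (hMpos ρ).ne', Real.log_pow] at h4
    rw [Finset.sum_add_distrib, Finset.sum_const, Finset.card_univ, nsmul_eq_mul] at h3
    have h5 := mul_le_mul_of_nonneg_left (h2.trans (add_le_add le_rfl h3)) hn1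
    linarith
  -- the finite places
  have hfin : ∀ t, 0 ≤ (∑ ρ : k →+* ℂ_[p t], Real.log ‖ρ ((polyOf F).discr : k)‖) +
      conjSum k (SST.chordM (A := ℂ_[p t])) K x +
      (2 * n - 2) * (Fintype.card (k →+* ℂ_[p t]) * Real.log C₀) := by
    intro t
    have hS' : ∀ z : ℂ_[p t], 0 < max 1 ‖z‖ := fun z => lt_of_lt_of_le one_pos (le_max_left _ _)
    have hmainT := fun ρ : k →+* ℂ_[p t] => discLogK_main (A := ℂ_[p t]) hn K x F hF hx
      (fun z => max 1 ‖z‖) hS' (SST.chordM (A := ℂ_[p t])) (by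
        intro z w
        have h1 := hS' z
        have h2 := hS' w
        show _ = ‖z - w‖ / (max 1 ‖z‖ * max 1 ‖w‖) * (max 1 ‖z‖ * max 1 ‖w‖)
        field_simp) ρ
    rw [discLogK_conjSum, ← Finset.sum_add_distrib]
    have h1 : ∀ ρ : k →+* ℂ_[p t], -((2 * n - 2) * Real.log C₀) ≤
        Real.log ‖ρ ((polyOf F).discr : k)‖ +
        (∑ σ : {σ : K →+* ℂ_[p t] // σ.comp (algebraMap k K) = ρ},
          ∑ τ : {τ : K →+* ℂ_[p t] // τ.comp (algebraMap k K) = ρ},
          if σ.1 ≠ τ.1 then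
            -Real.log (SST.chordM (σ.1 x) ((τ.1 x : ℂ_[p t]) : OnePoint ℂ_[p t])) else 0) := by
      intro ρ
      obtain ⟨b, w, hb, hbw, -, hlogt⟩ := hmainT ρ
      rw [hlogt]
      have h2 : 1 / C₀ ≤ ‖b‖ * ∏ l, max 1 ‖w l‖ := by
        rw [gauss_eq (fun i : Fin (n + 1) => ρ (F i : k)) b w hbw]
        exact discLogK_content F hF C₀ hcont (p t) ρ
      have h3 := Real.log_le_log (by positivity) h2
      rw [one_div, Real.log_inv] at h3
      have h4 := mul_le_mul_of_nonneg_left h3 hn1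
      linarith
    have h2 := Finset.sum_le_sum fun ρ (_ : ρ ∈ (Finset.univ : Finset (k →+* ℂ_[p t]))) => h1 ρ
    rw [Finset.sum_const, Finset.card_univ, nsmul_eq_mul] at h2
    linarith
  have hdisc : (polyOf F).discr ≠ 0 := by
    intro h
    obtain ⟨ρ⟩ : Nonempty (k →+* ℂ) := inferInstance
    apply hdne ρ
    rw [h]
    simp
  have hne : ∀ {A : Type} [NormedField A] (ρ : k →+* A), ‖ρ ((polyOf F).discr : k)‖ ≠ 0 := by
    intro A _ ρ
    rw [norm_ne_zero_iff]
    intro h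
    have h2 : ((polyOf F).discr : k) = 0 := (map_eq_zero ρ).mp h
    apply hdisc
    apply RingOfIntegers.coe_injective
    simpa using h2
  rw [Real.log_mul (Finset.prod_ne_zero_iff.mpr fun ρ _ => hne ρ)
    (Finset.prod_ne_zero_iff.mpr fun t _ => Finset.prod_ne_zero_iff.mpr fun ρ _ => hne ρ),
    Real.log_prod fun ρ _ => hne ρ,
    Real.log_prod fun t _ => Finset.prod_ne_zero_iff.mpr fun ρ _ => hne ρ,
    Finset.sum_congr rfl fun t _ => Real.log_prod fun ρ _ => hne ρ]
  have hsumfin : 0 ≤ (∑ t, ∑ ρ : k →+* ℂ_[p t], Real.log ‖ρ ((polyOf F).discr : k)‖) +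
      (∑ t, conjSum k (SST.chordM (A := ℂ_[p t])) K x) +
      ∑ t, (2 * n - 2) * (Fintype.card (k →+* ℂ_[p t]) * Real.log C₀) := by
    rw [← Finset.sum_add_distrib, ← Finset.sum_add_distrib]
    exact Finset.sum_nonneg fun t _ => hfin t
  linarith

end Pool.Agent.RefW
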