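import Pool.Agent.RefW.Defs
import Pool.Agent.RefW.DenIdeal
import Pool.Agent.RefW.Mink
import Pool.Agent.RefW.Mahler
import Pool.Agent.RefW.Fibre
import Mathlib

/-!
RW19. `exists_supMin_le`: the elements of `𝓞 k` all of whose conjugates have absolute value at most
`hs F` form a finite set (`NumberField.Embeddings.finite_of_norm_le`), so there are finitely many
`G ≠ 0` with `Par F G` and `hs G ≤ hs F`; take one with `hs G` minimal.
`exists_supMin`: `𝔞` from `exists_den_ideal`, `M ρ = ∏ over σ above ρ of max 1 ‖σ x‖`, `a` from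
`exists_small_mem`, `F i = a * (minpoly k x).coeff i`. By `mahler_le` (the product of the `X - σ x`
over the `σ` above `ρ` is the image of `minpoly k x`) `‖ρ (F i)‖ ≤ 2 ^ n * ‖ρ a‖ * M ρ ≤
2 ^ n * C * (mulHeight₁ x) ^ (1 / d)`, and `n * ht x = log (mulHeight₁ x) / d`. Then
`exists_supMin_le`; `RootOf` passes to nonzero multiples.
-/

open Polynomial NumberField
open scoped Classical

namespace Pool.Agent.RefW

private theorem norm_le_hs {k : Type} [Field k] [NumberField k] {n : ℕ} (F : Fin (n + 1) → 𝓞 k)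
    (ρ : k →+* ℂ) (i : Fin (n + 1)) : ‖ρ (F i : k)‖ ≤ hs F :=
  norm_le_pi_norm (fun q : (k →+* ℂ) × Fin (n + 1) => q.1 (F q.2 : k)) (ρ, i)

theorem exists_supMin_le {k : Type} [Field k] [NumberField k] {n : ℕ} (F : Fin (n + 1) → 𝓞 k)
    (hF : F ≠ 0) : ∃ G : Fin (n + 1) → 𝓞 k, SupMin G ∧ Par F G ∧ hs G ≤ hs F := by
  have hfin : {G : Fin (n + 1) → 𝓞 k | G ≠ 0 ∧ Par F G ∧ hs G ≤ hs F}.Finite := by
    have h1 := NumberField.Embeddings.finite_of_norm_le k ℂ (hs F)
    have h2 : {G : Fin (n + 1) → 𝓞 k | ∀ i, (G i : k) ∈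
        {x : k | IsIntegral ℤ x ∧ ∀ φ : k →+* ℂ, ‖φ x‖ ≤ hs F}}.Finite := by
      have h3 : (Set.pi Set.univ fun _ : Fin (n + 1) =>
          {x : k | IsIntegral ℤ x ∧ ∀ φ : k →+* ℂ, ‖φ x‖ ≤ hs F}).Finite :=
        Set.Finite.pi fun _ => h1
      refine (h3.preimage (f := fun (G : Fin (n + 1) → 𝓞 k) i => (G i : k)) ?_).subset ?_
      · intro G _ H _ h
        funext i
        exact RingOfIntegers.ext (congrFun h i)
      · intro G hG i _
        exact hG i
    refine h2.subset ?_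
    rintro G ⟨-, -, hG⟩ i
    exact ⟨(G i).2, fun φ => (norm_le_hs G φ i).trans hG⟩
  obtain ⟨G, ⟨hG0, hGP, hGh⟩, hmin⟩ := Set.exists_min_image _ hs hfin
    ⟨F, hF, ⟨1, fun i => by rw [one_mul]⟩, le_rfl⟩
  refine ⟨G, ⟨hG0, ?_⟩, hGP, hGh⟩
  intro H hH hP
  by_cases hle : hs H ≤ hs F
  · refine hmin H ⟨hH, ?_, hle⟩
    obtain ⟨c, hc⟩ := hGP
    obtain ⟨c', hc'⟩ := hP
    exact ⟨c' * c, fun i => by rw [hc', hc, mul_assoc]⟩
  · exact hGh.trans (not_le.mp hle).le

private theorem rootOf_par {k : Type} [Field k] [NumberField k] {n : ℕ}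
    {F G : Fin (n + 1) → 𝓞 k} (hP : Par F G) {K : Type} [Field K] [NumberField K] [Algebra k K]
    {x : K} (h : RootOf F K x) : RootOf G K x := by
  refine ⟨h.gen, h.deg, ?_⟩
  obtain ⟨c, hc⟩ := hP
  have h1 : ∀ i, algebraMap k K (G i : k) * x ^ (i : ℕ) =
      algebraMap k K c * (algebraMap k K (F i : k) * x ^ (i : ℕ)) := by
    intro i
    rw [hc, map_mul, mul_assoc]
  rw [Finset.sum_congr rfl fun i _ => h1 i, ← Finset.mul_sum, h.root, mul_zero]

theorem exists_supMin (k : Type) [Field k] [NumberField k] (n : ℕ) :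
    ∃ C : ℝ, 0 < C ∧ ∀ (K : Type) [Field K] [NumberField K] [Algebra k K] (x : K),
      IntermediateField.adjoin k {x} = ⊤ → Module.finrank k K = n →
      ∃ F : Fin (n + 1) → 𝓞 k, SupMin F ∧ RootOf F K x ∧
        hs F ≤ C * Real.exp (n * SST.ht K x) := by
  obtain ⟨C, hC, hmink⟩ := exists_small_mem k
  refine ⟨2 ^ n * C, by positivity, ?_⟩
  intro K _ _ _ x hx hn
  obtain ⟨𝔞, h𝔞, hint, hnorm⟩ := exists_den_ideal x hx
  set M : (k →+* ℂ) → ℝ := fun ρ => ∏ σ : {σ : K →+* ℂ // σ.comp (algebraMap k K) = ρ},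
    max 1 ‖σ.1 x‖ with hM
  have hM0 : ∀ ρ, 0 < M ρ := fun ρ => Finset.prod_pos fun σ _ => lt_of_lt_of_le one_pos
    (le_max_left _ _)
  have hMc : ∀ ρ, M (ComplexEmbedding.conjugate ρ) = M ρ := by
    intro ρ
    rw [hM]
    have hcc : ∀ (σ : K →+* ℂ) (ρ : k →+* ℂ), σ.comp (algebraMap k K) = ρ →
        (ComplexEmbedding.conjugate σ).comp (algebraMap k K) = ComplexEmbedding.conjugate ρ := by
      intro σ ρ h
      rw [← h]
      rfl
    have hc2 : ∀ (ρ : k →+* ℂ),
        ComplexEmbedding.conjugate (ComplexEmbedding.conjugate ρ) = ρ := by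
      intro ρ
      exact RingHom.ext fun z => by simp
    have hc3 : ∀ (σ : K →+* ℂ),
        ComplexEmbedding.conjugate (ComplexEmbedding.conjugate σ) = σ := by
      intro ρ
      exact RingHom.ext fun z => by simp
    refine Fintype.prod_bijective
      (fun σ : {σ : K →+* ℂ // σ.comp (algebraMap k K) = ComplexEmbedding.conjugate ρ} =>
        (⟨ComplexEmbedding.conjugate σ.1, by rw [hcc σ.1 _ σ.2, hc2]⟩ :
          {σ : K →+* ℂ // σ.comp (algebraMap k K) = ρ})) ?_ _ _ ?_
    · constructor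
      · intro σ τ h
        have h1 := congrArg Subtype.val h
        have h2 := congrArg ComplexEmbedding.conjugate h1
        simp only [hc3] at h2
        exact Subtype.ext h2
      · intro σ
        refine ⟨⟨ComplexEmbedding.conjugate σ.1, hcc σ.1 _ σ.2⟩, ?_⟩
        exact Subtype.ext (hc3 σ.1)
    · intro σ
      simp
  have hMprod : ∏ ρ, M ρ = ∏ σ : K →+* ℂ, max 1 ‖σ x‖ := by
    rw [hM]
    exact Fintype.prod_fiberwise (fun σ : K →+* ℂ => σ.comp (algebraMap k K))
      (fun σ => max 1 ‖σ x‖)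
  obtain ⟨a, ha, ha0, hsm⟩ := hmink 𝔞 h𝔞 M hM0 hMc
  choose F hFc using fun i : Fin (n + 1) => hint a ha i
  have hxi : IsIntegral k x := Algebra.IsIntegral.isIntegral x
  have hdeg : (minpoly k x).natDegree = n := by
    rw [← hn]
    have := IntermediateField.adjoin.finrank hxi
    rw [← this, hx]
    exact IntermediateField.finrank_top'
  have hlast : F (Fin.last n) = a := by
    refine RingOfIntegers.ext ?_
    rw [hFc]
    have : (minpoly k x).coeff ((Fin.last n : Fin (n + 1)) : ℕ) = 1 := by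
      rw [Fin.val_last, ← hdeg]
      exact (minpoly.monic hxi).coeff_natDegree
    rw [this, mul_one]
  have hF0 : F ≠ 0 := by
    intro h
    exact ha0 (by rw [← hlast, h]; rfl)
  have hroot : RootOf F K x := by
    refine ⟨hx, hn, ?_⟩
    have h1 : ∀ i : Fin (n + 1), algebraMap k K (F i : k) * x ^ (i : ℕ) =
        algebraMap k K (a : k) * (algebraMap k K ((minpoly k x).coeff i) * x ^ (i : ℕ)) := by
      intro i
      rw [hFc, map_mul, mul_assoc]
    rw [Finset.sum_congr rfl fun i _ => h1 i, ← Finset.mul_sum]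
    have h2 : ∑ i : Fin (n + 1), algebraMap k K ((minpoly k x).coeff i) * x ^ (i : ℕ) = 0 := by
      have h3 := minpoly.aeval k x
      rw [Polynomial.aeval_eq_sum_range, hdeg] at h3
      rw [Fin.sum_univ_eq_sum_range (fun i => algebraMap k K ((minpoly k x).coeff i) * x ^ i)]
      simpa [Algebra.smul_def] using h3
    rw [h2, mul_zero]
  have hbound : hs F ≤ 2 ^ n * C * Real.exp (n * SST.ht K x) := by
    have hexp : Real.exp (n * SST.ht K x) =
        (Height.mulHeight₁ x) ^ (1 / Module.finrank ℚ k : ℝ) := by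
      have hH : 0 < Height.mulHeight₁ x := Height.mulHeight₁_pos x
      have hd : Module.finrank ℚ K = Module.finrank ℚ k * n := by
        rw [← hn, Module.finrank_mul_finrank]
      have hk0 : (Module.finrank ℚ k : ℝ) ≠ 0 := by
        exact_mod_cast (Module.finrank_pos (R := ℚ) (M := k)).ne'
      have hn0 : (n : ℝ) ≠ 0 := by
        have : 0 < n := by rw [← hn]; exact Module.finrank_pos
        exact_mod_cast this.ne'
      rw [Real.rpow_def_of_pos hH, SST.ht, hd]
      congr 1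
      push_cast
      rw [Height.logHeight₁]
      field_simp
    rw [hexp]
    have hH0 : 0 ≤ 2 ^ n * C * (Height.mulHeight₁ x) ^ (1 / Module.finrank ℚ k : ℝ) := by
      have hH : 0 < Height.mulHeight₁ x := Height.mulHeight₁_pos x
      positivity
    rw [hs, pi_norm_le_iff_of_nonneg hH0]
    rintro ⟨ρ, i⟩
    obtain ⟨e, he⟩ := exists_fibre_equiv hF0 hroot ρ
    have h4 := (mahler_le (fun i => ρ (F i : k)) (ρ (F (Fin.last n) : k)) (fun l => (e l).1 x)
      he).2
    have h5 : ∏ l, max 1 ‖(e l).1 x‖ = M ρ := by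
      rw [hM]
      exact Fintype.prod_equiv e _ _ fun l => rfl
    rw [h5, hlast] at h4
    have h6 : ‖ρ (F i : k)‖ ≤ ‖fun i => ρ (F i : k)‖ :=
      norm_le_pi_norm (fun i => ρ (F i : k)) i
    refine h6.trans (h4.trans ?_)
    rw [mul_assoc]
    refine mul_le_mul_of_nonneg_left ?_ (by positivity)
    refine (hsm ρ).trans ?_
    refine mul_le_mul_of_nonneg_left ?_ hC.le
    rw [hMprod]
    refine Real.rpow_le_rpow ?_ hnorm (by positivity)
    exact mul_nonneg (Nat.cast_nonneg _)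
      (Finset.prod_nonneg fun σ _ => le_trans zero_le_one (le_max_left _ _))
  obtain ⟨G, hG1, hG2, hG3⟩ := exists_supMin_le F hF0
  exact ⟨G, hG1, rootOf_par hG2 hroot, hG3.trans hbound⟩

end Pool.Agent.RefW
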