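import Pool.Agent.RefW.Defs
import Pool.Agent.RefW.Core
import Pool.Agent.RefW.Height

/-!
RW20. The inequality for all points of bounded degree over a number field.
-/

open Polynomial NumberField
open scoped Classical

namespace Pool.Agent.RefW

theorem general_ht_nonneg (K : Type) [Field K] [NumberField K] (x : K) : 0 ≤ SST.ht K x := by
  unfold SST.ht
  exact div_nonneg (Height.zero_le_logHeight₁ x) (Nat.cast_nonneg _)

theorem general (k : Type) [Field k] [NumberField k] {r : ℕ}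
    (p : Fin r → ℕ) [∀ t, Fact (p t).Prime] (hp : Function.Injective p) (ν : ℕ)
    (D : (k →+* ℂ) → Finset (OnePoint ℂ)) (D' : ∀ t, (k →+* ℂ_[p t]) → Finset (OnePoint ℂ_[p t]))
    (hD : ∀ ρ, ∀ θ ∈ D ρ, AlgP θ) (hD' : ∀ t ρ, ∀ θ ∈ D' t ρ, AlgP θ) (ε : ℝ) (hε : 0 < ε) :
    ∃ C : ℝ, ∀ (K : Type) [Field K] [NumberField K] [Algebra k K] (x : K),
      IntermediateField.adjoin k {x} = ⊤ → Module.finrank k K ≤ ν →
      (∀ σ : K →+* ℂ, ((σ x : ℂ) : OnePoint ℂ) ∉ D (σ.comp (algebraMap k K))) →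
      (∀ t (σ : K →+* ℂ_[p t]),
        ((σ x : ℂ_[p t]) : OnePoint ℂ_[p t]) ∉ D' t (σ.comp (algebraMap k K))) →
      (diagSum SST.chord D K x + ∑ t, diagSum SST.chordM (D' t) K x) / Module.finrank ℚ K +
        (offSum SST.chord D K x + ∑ t, offSum SST.chordM (D' t) K x) / Module.finrank ℚ K ≤
          2 * Module.finrank k K * SST.ht K x + ε * SST.ht K x + C := by
  choose C₁ hC₁ h₁ using fun n => exists_supMin k n
  choose C₂ h₂ using fun n => core k p hp n D D' hD hD' ε hε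
  set d : ℕ := Module.finrank ℚ k with hd
  have hd0 : 0 < d := Module.finrank_pos
  have hdR : (1 : ℝ) ≤ d := by exact_mod_cast hd0
  refine ⟨∑ n ∈ Finset.range (ν + 1), ((2 * n * d + ε) * |Real.log (C₁ n)| + |C₂ n|),
    fun K _ _ _ x hx hν hσ hσ' => ?_⟩
  set n : ℕ := Module.finrank k K with hn
  have hn0 : 0 < n := Module.finrank_pos
  have hnR : (1 : ℝ) ≤ n := by exact_mod_cast hn0
  obtain ⟨F, hF, hroot, hFle⟩ := h₁ n K x hx hn.symm
  have hmain := h₂ n K x F hroot hF hσ hσ'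
  have hfin : (Module.finrank ℚ K : ℝ) = d * n := by
    rw [hd, hn, ← Module.finrank_mul_finrank ℚ k K]
    push_cast
    rfl
  have hht := general_ht_nonneg K x
  have hhs : 1 ≤ hs F := one_le_hs F hF.1
  have hlog : Real.log (hs F) ≤ |Real.log (C₁ n)| + n * SST.ht K x := by
    have h3 := Real.log_le_log (by linarith) hFle
    rw [Real.log_mul (hC₁ n).ne' (Real.exp_pos _).ne', Real.log_exp] at h3
    linarith [le_abs_self (Real.log (C₁ n))]
  rw [pairSum_split, Finset.sum_congr rfl fun t _ => pairSum_split SST.chordM (D' t) K x,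
    Finset.sum_add_distrib] at hmain
  have hCle : (2 * n * d + ε) * |Real.log (C₁ n)| + |C₂ n| ≤
      ∑ n ∈ Finset.range (ν + 1), ((2 * n * d + ε) * |Real.log (C₁ n)| + |C₂ n|) := by
    refine Finset.single_le_sum
      (f := fun n : ℕ => (2 * (n : ℝ) * d + ε) * |Real.log (C₁ n)| + |C₂ n|)
      (fun i _ => ?_) (Finset.mem_range.2 (by omega))
    positivity
  rw [← add_div, hfin]
  have hnd : (1 : ℝ) ≤ d * n := by nlinarith
  rw [div_le_iff₀ (by linarith)]
  have h4 : (2 * n * d + ε) * Real.log (hs F) ≤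
      (2 * n * d + ε) * (|Real.log (C₁ n)| + n * SST.ht K x) :=
    mul_le_mul_of_nonneg_left hlog (by positivity)
  have h5 : 0 ≤ (2 * n * d + ε) * |Real.log (C₁ n)| + |C₂ n| := by positivity
  set S : ℝ := ∑ n ∈ Finset.range (ν + 1), ((2 * n * d + ε) * |Real.log (C₁ n)| + |C₂ n|)
  have h6 : (2 * n * d + ε) * |Real.log (C₁ n)| + |C₂ n| ≤ S * (d * n) := by
    have h8 : S * 1 ≤ S * (d * n) := mul_le_mul_of_nonneg_left hnd (h5.trans hCle)
    linarith
  have h7 : ε * (n * SST.ht K x) ≤ ε * SST.ht K x * (d * n) := by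
    have h8 : ε * (n * SST.ht K x) * 1 ≤ ε * (n * SST.ht K x) * d :=
      mul_le_mul_of_nonneg_left hdR (by positivity)
    linarith
  have h9 : (2 * n * d + ε) * (|Real.log (C₁ n)| + n * SST.ht K x) =
      2 * n * SST.ht K x * (d * n) + ε * (n * SST.ht K x) +
        (2 * n * d + ε) * |Real.log (C₁ n)| := by ring
  have h10 : (2 * n * SST.ht K x + ε * SST.ht K x + S) * (d * n) =
      2 * n * SST.ht K x * (d * n) + ε * SST.ht K x * (d * n) + S * (d * n) := by ring
  rw [h10]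
  linarith [le_abs_self (C₂ n)]

end Pool.Agent.RefW
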