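import Mathlib

/-!
RW28b. A determinant factorization.
Proof: the matrix is the product of `(q, c) ↦ if q.1 = c.1 then W q.1 q.2 c.2 else 0` and of
`(q, c) ↦ if q.2 = c.2 then B q.2 q.1 c.1 else 0`; both are block diagonal up to the order of the
factors of the index set (`Matrix.det_blockDiagonal`, `Matrix.det_reindex_self`).
Second statement: Vandermonde with a triangular change of basis.
-/

namespace Pool.Agent.RefW

theorem det_mul_blocks {R n : Type} [Fintype R] [DecidableEq R] [Fintype n] [DecidableEq n]
    (B : n → Matrix R R ℂ) (W : R → Matrix n n ℂ) :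
    (Matrix.of fun q c : R × n => B c.2 q.1 c.1 * W q.1 q.2 c.2).det =
      (∏ ρ, (W ρ).det) * ∏ i, (B i).det := by
  have hfac : (Matrix.of fun q c : R × n => B c.2 q.1 c.1 * W q.1 q.2 c.2) =
      ((Matrix.blockDiagonal W).submatrix (Equiv.prodComm R n) (Equiv.prodComm R n)) *
        (Matrix.blockDiagonal B) := by
    ext q c
    obtain ⟨a, b⟩ := q
    obtain ⟨a', b'⟩ := c
    rw [Matrix.mul_apply, Fintype.sum_prod_type]
    rw [Finset.sum_eq_single a, Finset.sum_eq_single b']
    · simp [Matrix.blockDiagonal_apply, mul_comm]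
    · intro x _ hx
      simp [Matrix.blockDiagonal_apply, hx]
    · intro h
      exact absurd (Finset.mem_univ _) h
    · intro x _ hx
      refine Finset.sum_eq_zero fun z _ => ?_
      simp [Matrix.blockDiagonal_apply, Ne.symm hx]
    · intro h
      exact absurd (Finset.mem_univ _) h
  rw [hfac, Matrix.det_mul, Matrix.det_submatrix_equiv_self, Matrix.det_blockDiagonal,
    Matrix.det_blockDiagonal]

/-- Truncations of a polynomial, with the first one replaced by `1`. -/
theorem det_trunc {n : ℕ} (hn : 0 < n) (F : ℕ → ℂ) (y : Fin n → ℂ) :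
    (Matrix.of fun l i : Fin n => if (i : ℕ) = 0 then (1 : ℂ) else
      ∑ j ∈ Finset.range ((i : ℕ) + 1), F (n - j) * y l ^ ((i : ℕ) - j)).det ^ 2 =
      F n ^ (2 * n - 2) * (Matrix.vandermonde y).det ^ 2 := by
  set T : Matrix (Fin n) (Fin n) ℂ := Matrix.of fun k i : Fin n =>
    if (i : ℕ) = 0 then (if (k : ℕ) = 0 then 1 else 0) else
      if (k : ℕ) ≤ (i : ℕ) then F (n - ((i : ℕ) - k)) else 0 with hT
  have hfac : (Matrix.of fun l i : Fin n => if (i : ℕ) = 0 then (1 : ℂ) else
      ∑ j ∈ Finset.range ((i : ℕ) + 1), F (n - j) * y l ^ ((i : ℕ) - j)) =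
      Matrix.vandermonde y * T := by
    ext l i
    rw [Matrix.mul_apply]
    simp only [Matrix.of_apply, Matrix.vandermonde_apply, hT]
    by_cases hi : (i : ℕ) = 0
    · simp only [hi, if_true]
      rw [Finset.sum_eq_single i]
      · simp [hi]
      · intro x _ hx
        have : (x : ℕ) ≠ 0 := fun h => hx (Fin.ext (by rw [h, hi]))
        simp [this]
      · intro h
        exact absurd (Finset.mem_univ _) h
    · simp only [hi, if_false]
      rw [Fin.sum_univ_eq_sum_range (fun k => y l ^ k *
        (if k ≤ (i : ℕ) then F (n - ((i : ℕ) - k)) else 0)) n]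
      have hsub : Finset.range ((i : ℕ) + 1) ⊆ Finset.range n := by
        intro x hx
        rw [Finset.mem_range] at hx ⊢
        have := i.isLt
        omega
      rw [← Finset.sum_subset hsub]
      · rw [← Finset.sum_range_reflect]
        refine Finset.sum_congr rfl fun x hx => ?_
        rw [Finset.mem_range] at hx
        have h1 : (i : ℕ) + 1 - 1 - x = (i : ℕ) - x := by omega
        have h2 : (i : ℕ) - ((i : ℕ) + 1 - 1 - x) = x := by omega
        rw [h2, h1]
        have h3 : x ≤ (i : ℕ) := by omega
        rw [if_pos h3, mul_comm]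
      · intro x _ hx
        rw [Finset.mem_range, not_lt] at hx
        have : ¬ x ≤ (i : ℕ) := by omega
        simp [this]
  have hTdet : T.det = F n ^ (n - 1) := by
    have htri : T.BlockTriangular id := by
      intro a b hab
      simp only [id] at hab
      have hab' : (b : ℕ) < (a : ℕ) := hab
      simp only [hT, Matrix.of_apply]
      by_cases hb : (b : ℕ) = 0
      · have : (a : ℕ) ≠ 0 := by omega
        simp [hb, this]
      · have : ¬ (a : ℕ) ≤ (b : ℕ) := by omega
        simp [hb, this]
    rw [Matrix.det_of_upperTriangular htri]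
    obtain ⟨m, rfl⟩ : ∃ m, n = m + 1 := ⟨n - 1, by omega⟩
    rw [Fin.prod_univ_succ]
    simp [hT]
  rw [hfac, Matrix.det_mul, mul_pow, hTdet, ← pow_mul]
  have : (n - 1) * 2 = 2 * n - 2 := by omega
  rw [this, mul_comm]

end Pool.Agent.RefW
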