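import Mathlib

/-!
RW28a. Integrality of the truncations (compare Order.lean, the case `k = ℚ`, `c = 1`).
Proof: `n = F.natDegree`. The `𝓞 k`-module `L` spanned by `1, x, ..., x ^ (n - 1)` in `K` is finitely
generated and nonzero, and with `h i` the sum in the statement, `c * h i * x ^ j ∈ L` for all
`j < n`: for `i + j < n` it is a combination of powers `x ^ e` with `e < n` and coefficients
`c * F.coeff (n - l)`, which are in `𝓞 k`; for `i + j ≥ n` use `F(x) = 0`, i.e.
`c * h i * x ^ (n - i) = - ∑ l < n - i, c * F.coeff l * x ^ l`, times `x ^ (i + j - n)`. So `c * h i`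
is integral over `𝓞 k` (`isIntegral_of_smul_mem_submodule`), hence over `ℤ`.
-/

open Polynomial NumberField

namespace Pool.Agent.RefW

/-- truncated values of a relation are integral -/
private theorem IndexInt_aux {R K : Type} [CommRing R] [Field K] [Algebra R K] (x : K)
    (b : ℕ → R) (n : ℕ)
    (h0 : ∑ m ∈ Finset.range (n + 1), algebraMap R K (b m) * x ^ m = 0) (i : ℕ) (hi : i < n) :
    IsIntegral R (∑ l ∈ Finset.range (i + 1), algebraMap R K (b (n - l)) * x ^ (i - l)) := by
  set L : Submodule R K := Submodule.span R (Set.range fun j : Fin n => x ^ (j : ℕ)) with hL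
  have hpow : ∀ j < n, x ^ j ∈ L := fun j hj => Submodule.subset_span ⟨⟨j, hj⟩, rfl⟩
  have hcpow : ∀ (c : R) (j : ℕ), j < n → algebraMap R K c * x ^ j ∈ L := fun c j hj => by
    rw [← Algebra.smul_def]
    exact L.smul_mem c (hpow j hj)
  refine isIntegral_of_smul_mem_submodule L ?_ ?_ _ ?_
  · intro h
    have h1 := hpow 0 (by omega)
    rw [h] at h1
    simp at h1
  · exact Submodule.fg_span (Set.finite_range _)
  · intro y hy
    induction hy using Submodule.span_induction with
    | mem y hy =>
      obtain ⟨j, rfl⟩ := hy
      have hj := j.2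
      simp only [smul_eq_mul]
      rcases Nat.lt_or_ge (i + j) n with hij | hij
      · rw [Finset.sum_mul]
        refine L.sum_mem fun l hl => ?_
        have hl' := Finset.mem_range.1 hl
        rw [mul_assoc, ← pow_add]
        exact hcpow _ _ (by omega)
      · have h1 : ∑ l ∈ Finset.range (n + 1), algebraMap R K (b (n - l)) * x ^ (i + j - l) = 0 := by
          have h2 := Finset.sum_range_reflect (fun m => algebraMap R K (b m) * x ^ m) (n + 1)
          rw [h0] at h2
          have h3 : (∑ l ∈ Finset.range (n + 1), algebraMap R K (b (n - l)) * x ^ (i + j - l)) =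
              (∑ l ∈ Finset.range (n + 1), algebraMap R K (b (n + 1 - 1 - l)) *
                x ^ (n + 1 - 1 - l)) * x ^ (i + j - n) := by
            rw [Finset.sum_mul]
            refine Finset.sum_congr rfl fun l hl => ?_
            have hl' := Finset.mem_range.1 hl
            rw [mul_assoc, ← pow_add, Nat.add_sub_cancel]
            congr 2
            omega
          rw [h3, h2, zero_mul]
        have h4 : (∑ l ∈ Finset.range (i + 1), algebraMap R K (b (n - l)) * x ^ (i - l)) *
            x ^ (j : ℕ) =
            -∑ l ∈ Finset.Ico (i + 1) (n + 1), algebraMap R K (b (n - l)) * x ^ (i + j - l) := by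
          rw [eq_neg_iff_add_eq_zero, ← h1,
            ← Finset.sum_range_add_sum_Ico _ (show i + 1 ≤ n + 1 by omega)]
          congr 1
          rw [Finset.sum_mul]
          refine Finset.sum_congr rfl fun l hl => ?_
          have hl' := Finset.mem_range.1 hl
          rw [mul_assoc, ← pow_add]
          congr 2
          omega
        rw [h4]
        refine L.neg_mem (L.sum_mem fun l hl => ?_)
        have hl' := Finset.mem_Ico.1 hl
        exact hcpow _ _ (by omega)
    | zero => simp
    | add a b _ _ ha hb => rw [smul_add]; exact L.add_mem ha hb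
    | smul c a _ ha => rw [smul_comm]; exact L.smul_mem c ha

theorem isIntegral_trunc {k : Type} [Field k] [NumberField k] {K : Type} [Field K] [NumberField K]
    [Algebra k K] (x : K) (F : (𝓞 k)[X]) (hF : aeval x F = 0) (c : k)
    (hc : ∀ i, ∃ b : 𝓞 k, (b : k) = c * (F.coeff i : k)) (i : ℕ) (hi : i < F.natDegree) :
    IsIntegral ℤ (algebraMap k K c * ∑ l ∈ Finset.range (i + 1),
      algebraMap k K (F.coeff (F.natDegree - l) : k) * x ^ (i - l)) := by
  choose b hb using hc
  have hmap : ∀ m, algebraMap (𝓞 k) K (b m) = algebraMap k K c * algebraMap k K (F.coeff m : k) :=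
    fun m => by
      rw [← map_mul, ← hb]
      rfl
  have h0 : ∑ m ∈ Finset.range (F.natDegree + 1), algebraMap (𝓞 k) K (b m) * x ^ m = 0 := by
    have h1 : ∑ m ∈ Finset.range (F.natDegree + 1),
        algebraMap k K (F.coeff m : k) * x ^ m = 0 := by
      rw [← hF, aeval_eq_sum_range]
      refine Finset.sum_congr rfl fun m _ => ?_
      rw [Algebra.smul_def]
      rfl
    have h2 := congrArg (fun z => algebraMap k K c * z) h1
    simp only [mul_zero, Finset.mul_sum] at h2
    rw [← h2]
    refine Finset.sum_congr rfl fun m _ => ?_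
    rw [hmap, mul_assoc]
  have h3 := IndexInt_aux x b F.natDegree h0 i hi
  have h4 : (∑ l ∈ Finset.range (i + 1), algebraMap (𝓞 k) K (b (F.natDegree - l)) * x ^ (i - l)) =
      algebraMap k K c * ∑ l ∈ Finset.range (i + 1),
        algebraMap k K (F.coeff (F.natDegree - l) : k) * x ^ (i - l) := by
    rw [Finset.mul_sum]
    refine Finset.sum_congr rfl fun m _ => ?_
    rw [hmap, mul_assoc]
  rw [h4] at h3
  exact isIntegral_trans _ h3

end Pool.Agent.RefW
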