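import Pool.Agent.RefW.Defs2
import Pool.Agent.RefW.DiscRoots
import Pool.Agent.RefW.Fibre
import Pool.Agent.RefW.IndexInt
import Pool.Agent.RefW.IndexDet
import Mathlib

/-!
RW28. The discriminant of an integral polynomial, its content and the discriminant of the field.
(Compare Order.lean, the case `k = ℚ`.) Integrality: `isIntegral_trunc`; determinants:
`det_mul_blocks`, `det_trunc`; conjugates above `ρ`: `exists_fibre_equiv`.
Proof: `n = [K : k]`, `d = [k : ℚ]`, `a` = leading coefficient of `F`, `𝔠` its content ideal.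
For `i < n` put `h i = ∑ l ≤ i, F.coeff (n - l) * x ^ (i - l)`. For `G = c F` with coefficients in
`𝓞 k` the elements `c * h i` are integral over `𝓞 k`: the `𝓞 k`-module `L` spanned by
`1, x, ..., x ^ (n - 1)` is finitely generated and `c * h i * L ⊆ L`. Choose `0 ≠ b ∈ 𝔠` and an ideal
`𝔟` with `𝔟 * 𝔠 = (b)`, `ℤ`-bases `α` of `𝓞 k` and `γ` of `𝔟` (indexed by the same type). The
elements `e (0, j) = α j` and `e (i, j) = γ j / b * h i` (`0 < i < n`) of `K` are integral, `n d` of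
them. Let `E` be their (integer) matrix with respect to an integral basis of `K`. Then
`Algebra.discr ℚ e = (det E) ^ 2 * discr K`; put `I = |det E|`. On the other hand
`Algebra.discr ℚ e = (det (σ (e (i, j)))) ^ 2` over the embeddings `σ` of `K` in `ℂ`. With
`σ = (ρ, l)`, `ρ` the restriction to `k` and `l < n` (as in Fibre.lean),
`σ (e (i, j)) = B i ρ j * W ρ l i`, where `B i ρ j = ρ (α j)` or `ρ (γ j / b)` and `W ρ l i = σ (h i)`,
(`h 0` replaced by `1`), so the matrix is the product of the block diagonal matrices of the `W ρ` and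
of the `B i` and its determinant is `± ∏ ρ, det (W ρ) * ∏ i, det (B i)`. Now
`(det (W ρ)) ^ 2 = ρ (a) ^ (2 n - 2) * ∏ (differences of the conjugates) = ± ρ (disc F)` (triangular
change of basis from the powers of `x` with diagonal `1, a, ..., a`; Vandermonde; `discr_roots`),
`(det (B 0)) ^ 2 = discr k` and `|det (B i)| = |det (B 0)| * absNorm 𝔟 / |norm b| =
|det (B 0)| / absNorm 𝔠`. Take absolute values. `I > 0` since `disc F ≠ 0` and all other factors are
nonzero.
-/

open Polynomial NumberField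
open scoped Classical

namespace Pool.Agent.RefW

/-- the determinant of the conjugates of a family of integers of a number field -/
private theorem Index_general (L : Type) [Field L] [NumberField L] {ι : Type} [Fintype ι]
    [DecidableEq ι] (Φ : ι ≃ (L →+* ℂ)) (b : Module.Basis ι ℤ (𝓞 L)) (w : ι → 𝓞 L) :
    (Matrix.of fun q c => Φ q (w c : L)).det ^ 2 =
      (((b.toMatrix w).det ^ 2 * NumberField.discr L : ℤ) : ℂ) := by
  have h3 : Algebra.discr ℤ w = (b.toMatrix w).det ^ 2 * NumberField.discr L := by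
    rw [← NumberField.discr_eq_discr L b, ← Algebra.discr_of_matrix_vecMul]
    congr 1
    funext i
    rw [Matrix.vecMul, dotProduct]
    simp only [Matrix.map_apply]
    conv_lhs => rw [← b.sum_repr (w i)]
    refine Finset.sum_congr rfl fun j _ => ?_
    rw [Module.Basis.toMatrix_apply, Algebra.smul_def, mul_comm]
  have h4 : ((Algebra.discr ℤ w : ℤ) : ℚ) = Algebra.discr ℚ (fun i => (w i : L)) := by
    rw [Algebra.discr_def, Algebra.discr_def]
    have := (Int.castRingHom ℚ).map_det (Algebra.traceMatrix ℤ w)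
    rw [eq_intCast] at this
    rw [this]
    congr 1
    ext i j
    rw [RingHom.mapMatrix_apply, Matrix.map_apply, Algebra.traceMatrix_apply,
      Algebra.traceMatrix_apply, Algebra.traceForm_apply, Algebra.traceForm_apply, eq_intCast,
      Algebra.coe_trace_int]
    rfl
  have h5 := Algebra.discr_eq_det_embeddingsMatrixReindex_pow_two ℚ ℂ (fun i => (w i : L))
    (Φ.trans (RingHom.equivRatAlgHom L ℂ))
  rw [← h4, h3] at h5
  have h6 : (algebraMap ℚ ℂ) (((b.toMatrix w).det ^ 2 * NumberField.discr L : ℤ) : ℚ) =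
      (((b.toMatrix w).det ^ 2 * NumberField.discr L : ℤ) : ℂ) := by
    rw [map_intCast]
  rw [← h6, h5]
  congr 1
  rw [← Matrix.det_transpose]
  rfl

/-- the discriminant of the image of a polynomial -/
private theorem Index_discr_map {R S : Type} [CommRing R] [Field S] (φ : R →+* S)
    (hφ : Function.Injective φ) (F : R[X]) (hF : 0 < F.natDegree) :
    (F.map φ).discr = φ F.discr := by
  have h1 := resultant_deriv (f := F) (natDegree_pos_iff_degree_pos.1 hF)
  have hd : (F.map φ).natDegree = F.natDegree := natDegree_map_eq_of_injective hφ F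
  have h2 := resultant_deriv (f := F.map φ) (natDegree_pos_iff_degree_pos.1 (by rw [hd]; exact hF))
  rw [derivative_map, hd, resultant_map_map, h1, leadingCoeff_map_of_injective hφ] at h2
  simp only [map_mul, map_pow, map_neg, map_one] at h2
  have hF0 : F ≠ 0 := by
    rintro rfl
    simp at hF
  have hl : φ F.leadingCoeff ≠ 0 := by
    intro h
    exact hF0 (leadingCoeff_eq_zero.1 (hφ (h.trans (map_zero φ).symm)))
  have hs : ((-1 : S) ^ (F.natDegree * (F.natDegree - 1) / 2)) ≠ 0 :=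
    pow_ne_zero _ (neg_ne_zero.2 one_ne_zero)
  exact (mul_left_cancel₀ (mul_ne_zero hs hl) h2).symm

private theorem Index_vand {n : ℕ} (y : Fin n → ℂ) :
    ‖(Matrix.vandermonde y).det‖ ^ 2 = ‖∏ i, ∏ j ∈ Finset.univ.erase i, (y i - y j)‖ := by
  rw [Matrix.det_vandermonde]
  have h1 : ∀ i : Fin n, ∏ j ∈ Finset.univ.erase i, ‖y i - y j‖ =
      (∏ j ∈ Finset.Ioi i, ‖y i - y j‖) * ∏ j ∈ Finset.Iio i, ‖y i - y j‖ := by
    intro i
    rw [← Finset.prod_union]
    · congr 1
      ext j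
      simp only [Finset.mem_erase, Finset.mem_univ, and_true, Finset.mem_union, Finset.mem_Ioi,
        Finset.mem_Iio, ne_eq]
      constructor
      · intro h
        rcases lt_trichotomy i j with h1 | h1 | h1
        · exact Or.inl h1
        · exact absurd h1.symm h
        · exact Or.inr h1
      · rintro (h | h) h2
        · exact absurd h2.symm h.ne
        · exact absurd h2 h.ne
    · rw [Finset.disjoint_left]
      intro j hj hj'
      exact absurd (Finset.mem_Ioi.1 hj) (not_lt_of_gt (Finset.mem_Iio.1 hj'))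
  have h2 : ∏ i : Fin n, ∏ j ∈ Finset.Iio i, ‖y i - y j‖ =
      ∏ i : Fin n, ∏ j ∈ Finset.Ioi i, ‖y i - y j‖ := by
    rw [Finset.prod_comm' (s := Finset.univ) (t := fun i : Fin n => Finset.Iio i)
      (t' := Finset.univ) (s' := fun j : Fin n => Finset.Ioi j)]
    · refine Finset.prod_congr rfl fun i _ => Finset.prod_congr rfl fun j _ => ?_
      rw [norm_sub_rev]
    · intro i j
      simp
  simp only [norm_prod]
  rw [Finset.prod_congr rfl fun i _ => h1 i, Finset.prod_mul_distrib, h2, sq]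
  congr 1 <;>
  · refine Finset.prod_congr rfl fun i _ => Finset.prod_congr rfl fun j _ => ?_
    rw [norm_sub_rev]

/-- the conjugates of the truncations -/
private noncomputable def Index_W {n : ℕ} (f : ℕ → ℂ) (y : Fin n → ℂ) : Matrix (Fin n) (Fin n) ℂ :=
  Matrix.of fun l i : Fin n => if (i : ℕ) = 0 then (1 : ℂ) else
      ∑ j ∈ Finset.range ((i : ℕ) + 1), f (n - j) * y l ^ ((i : ℕ) - j)

/-- the determinant of the conjugates of the truncations -/
private theorem Index_W_det {k : Type} [Field k] [NumberField k] {n : ℕ} (hn : 0 < n)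
    (F : (𝓞 k)[X]) (hdeg : F.natDegree = n) (ρ : k →+* ℂ) (y : Fin n → ℂ)
    (h : ∑ i : Fin (n + 1), Polynomial.C (ρ (F.coeff i : k)) * X ^ (i : ℕ) =
      Polynomial.C (ρ (F.coeff n : k)) * ∏ l, (X - Polynomial.C (y l))) :
    ‖(Index_W (fun m => ρ (F.coeff m : k)) y).det‖ ^ 2 = ‖ρ (F.discr : k)‖ := by
  have hinj : Function.Injective (ρ.comp (algebraMap (𝓞 k) k)) :=
    ρ.injective.comp RingOfIntegers.coe_injective
  have hmap : F.map (ρ.comp (algebraMap (𝓞 k) k)) =
      Polynomial.C (ρ (F.coeff n : k)) * ∏ l, (X - Polynomial.C (y l)) := by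
    rw [← h, Fin.sum_univ_eq_sum_range (fun i => Polynomial.C (ρ (F.coeff i : k)) * X ^ i) (n + 1),
      ← hdeg, ← natDegree_map_eq_of_injective hinj F]
    conv_lhs => rw [as_sum_range_C_mul_X_pow (F.map (ρ.comp (algebraMap (𝓞 k) k)))]
    simp only [coeff_map]
    rfl
  have ha : ρ (F.coeff n : k) ≠ 0 := by
    rw [← hdeg]
    intro h0
    have h1 := (map_eq_zero_iff _ hinj).1 h0
    have h2 : F = 0 := leadingCoeff_eq_zero.1 h1
    rw [h2, natDegree_zero] at hdeg
    omega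
  have h1 := discr_roots (ρ (F.coeff n : k)) y hn ha
  rw [← hmap, Index_discr_map _ hinj F (by omega)] at h1
  have h2 := det_trunc hn (fun m => ρ (F.coeff m : k)) y
  have h3 : ‖(Index_W (fun m => ρ (F.coeff m : k)) y).det‖ ^ 2 =
      ‖ρ (F.coeff n : k)‖ ^ (2 * n - 2) * ‖(Matrix.vandermonde y).det‖ ^ 2 := by
    have := congrArg (fun z : ℂ => ‖z‖) h2
    simp only [norm_mul, norm_pow] at this
    exact this
  have h4 : ‖ρ (F.discr : k)‖ ^ 2 = (‖ρ (F.coeff n : k)‖ ^ (2 * n - 2) *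
      ‖∏ i, ∏ j ∈ Finset.univ.erase i, (y i - y j)‖) ^ 2 := by
    have := congrArg (fun z : ℂ => ‖z‖) h1
    simp only [norm_mul, norm_pow] at this
    exact this
  rw [← Index_vand] at h4
  rw [h3]
  exact ((pow_left_inj₀ (norm_nonneg _) (by positivity) two_ne_zero).1 h4).symm

/-- the determinant of the conjugates of a basis of a multiple of an ideal -/
private theorem Index_B_det {k : Type} [Field k] [NumberField k]
    (α : Module.Basis (k →+* ℂ) ℤ (𝓞 k)) (𝔟 : Ideal (𝓞 k)) (γ : Module.Basis (k →+* ℂ) ℤ 𝔟)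
    (b : 𝓞 k) (hb : b ≠ 0) :
    ‖(Matrix.of fun (ρ j : k →+* ℂ) => ρ ((γ j : 𝓞 k) / (b : 𝓞 k) : k)).det‖ ^ 2 *
      (|Algebra.norm ℤ b| : ℝ) ^ 2 = (Ideal.absNorm 𝔟 : ℝ) ^ 2 * |(NumberField.discr k : ℝ)| := by
  have h1 := Index_general k (Equiv.refl _) α (fun j => (γ j : 𝓞 k))
  have h2 : (((Algebra.norm ℤ b : ℤ) : ℚ) : ℂ) = ∏ ρ : k →+* ℂ, ρ (b : k) := by
    rw [Algebra.coe_norm_int]
    have h3 := Algebra.norm_eq_prod_embeddings ℚ ℂ (b : k)
    rw [eq_ratCast] at h3
    rw [h3, ← Equiv.prod_comp (RingHom.equivRatAlgHom k ℂ)]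
    rfl
  have h3 : (Matrix.of fun (ρ j : k →+* ℂ) => ρ ((γ j : 𝓞 k) / (b : 𝓞 k) : k)).det *
      (Algebra.norm ℤ b : ℂ) =
      (Matrix.of fun (ρ j : k →+* ℂ) => ρ ((γ j : 𝓞 k) : k)).det := by
    have h4 := Matrix.det_mul_column (fun ρ : k →+* ℂ => ρ (b : k))
      (Matrix.of fun (ρ j : k →+* ℂ) => ρ ((γ j : 𝓞 k) / (b : 𝓞 k) : k))
    rw [← h2] at h4
    rw [mul_comm]
    have h5 : (((Algebra.norm ℤ b : ℤ) : ℚ) : ℂ) = (Algebra.norm ℤ b : ℂ) := by push_cast; rfl
    rw [← h5, ← h4]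
    congr 1
    ext ρ j
    simp only [Matrix.of_apply]
    rw [← map_mul]
    congr 1
    have : (b : k) ≠ 0 := fun h => hb (RingOfIntegers.ext (by simpa using h))
    field_simp
  have h6 := congrArg (fun z : ℂ => ‖z‖ ^ 2) h3
  simp only [norm_mul, mul_pow] at h6
  have h7 := congrArg (fun z : ℂ => ‖z‖) h1
  simp only [norm_pow] at h7
  have h8 : (Matrix.of fun (q c : k →+* ℂ) => (Equiv.refl (k →+* ℂ)) q ((γ c : 𝓞 k) : k)).det =
      (Matrix.of fun (ρ j : k →+* ℂ) => ρ ((γ j : 𝓞 k) : k)).det := rfl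
  rw [h8] at h7
  rw [h7] at h6
  have h9 : ‖(Algebra.norm ℤ b : ℂ)‖ = |(Algebra.norm ℤ b : ℝ)| := by
    rw [Complex.norm_intCast]
  rw [h9] at h6
  rw [h6, Complex.norm_intCast]
  have h10 := Ideal.natAbs_det_basis_change α 𝔟 γ
  rw [← h10, Int.cast_mul, abs_mul, Int.cast_pow, Nat.cast_natAbs, Int.cast_abs, sq_abs, abs_pow,
    sq_abs]
  rfl

theorem exists_index {k : Type} [Field k] [NumberField k] {K : Type} [Field K] [NumberField K]
    [Algebra k K] (x : K) (hx : IntermediateField.adjoin k {x} = ⊤) (F : (𝓞 k)[X])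
    (hF : aeval x F = 0) (hdeg : F.natDegree = Module.finrank k K) :
    ∃ I : ℕ, 0 < I ∧
      |Algebra.norm ℤ F.discr| * |NumberField.discr k| ^ Module.finrank k K =
        (I : ℤ) ^ 2 * |NumberField.discr K| *
          (Ideal.absNorm F.contentIdeal : ℤ) ^ (2 * Module.finrank k K - 2) := by
  set n := Module.finrank k K with hn
  have hn0 : 0 < n := Module.finrank_pos
  have hF0 : F ≠ 0 := by
    rintro rfl
    rw [natDegree_zero] at hdeg
    omega
  -- the equivalence of the conjugates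
  have hF' : (fun i : Fin (n + 1) => F.coeff i) ≠ 0 := by
    intro h
    have h1 := congrFun h (Fin.last n)
    simp only [Fin.val_last, Pi.zero_apply] at h1
    rw [← hdeg] at h1
    exact hF0 (leadingCoeff_eq_zero.1 h1)
  have hroot : RootOf (fun i : Fin (n + 1) => F.coeff i) K x := by
    refine ⟨hx, hn.symm, ?_⟩
    rw [Fin.sum_univ_eq_sum_range (fun i => algebraMap k K (F.coeff i : k) * x ^ i) (n + 1), ← hF,
      aeval_eq_sum_range, hdeg]
    refine Finset.sum_congr rfl fun i _ => ?_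
    rw [Algebra.smul_def]
    rfl
  choose e he using fun ρ : k →+* ℂ => exists_fibre_equiv hF' hroot ρ
  set Φ : (k →+* ℂ) × Fin n ≃ (K →+* ℂ) :=
    ((Equiv.sigmaEquivProd (k →+* ℂ) (Fin n)).symm.trans (Equiv.sigmaCongrRight e)).trans
      (Equiv.sigmaFiberEquiv fun σ : K →+* ℂ => σ.comp (algebraMap k K)) with hΦ
  have hΦ1 : ∀ ρ l, Φ (ρ, l) = (e ρ l).1 := fun ρ l => rfl
  have hΦ2 : ∀ ρ l, (Φ (ρ, l)).comp (algebraMap k K) = ρ := fun ρ l => (e ρ l).2
  set y : (k →+* ℂ) → Fin n → ℂ := fun ρ l => Φ (ρ, l) x with hy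
  -- the ideals
  have hc0 : F.contentIdeal ≠ ⊥ := fun h => hF0 ((contentIdeal_eq_bot_iff F).1 h)
  obtain ⟨b, hb, hb0⟩ := Submodule.exists_mem_ne_zero_of_ne_bot hc0
  obtain ⟨𝔟, h𝔟⟩ := Ideal.dvd_span_singleton.2 hb
  have h𝔟0 : 𝔟 ≠ ⊥ := by
    rintro rfl
    rw [Ideal.mul_bot, Ideal.span_singleton_eq_bot] at h𝔟
    exact hb0 h𝔟
  have hdiv : ∀ g ∈ 𝔟, ∀ i, ∃ c : 𝓞 k, (c : k) = (g : k) / (b : k) * (F.coeff i : k) := by
    intro g hg i
    have h1 : F.coeff i * g ∈ Ideal.span {b} := by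
      rw [h𝔟]
      exact Ideal.mul_mem_mul (coeff_mem_contentIdeal F i) hg
    obtain ⟨c, hc⟩ := Ideal.mem_span_singleton'.1 h1
    refine ⟨c, ?_⟩
    have hbk : (b : k) ≠ 0 := fun h => hb0 (RingOfIntegers.ext (by simpa using h))
    have h2 := congrArg (fun z : 𝓞 k => (z : k)) hc
    simp only [map_mul] at h2
    field_simp
    linear_combination h2
  -- the bases
  have hcard : Fintype.card (Module.Free.ChooseBasisIndex ℤ (𝓞 k)) = Fintype.card (k →+* ℂ) := by
    rw [← Module.finrank_eq_card_chooseBasisIndex, RingOfIntegers.rank, Embeddings.card]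
  set α : Module.Basis (k →+* ℂ) ℤ (𝓞 k) :=
    (RingOfIntegers.basis k).reindex (Fintype.equivOfCardEq hcard) with hα
  set γ : Module.Basis (k →+* ℂ) ℤ 𝔟 := Ideal.selfBasis α 𝔟 h𝔟0 with hγ
  have hcardK : Fintype.card (Module.Free.ChooseBasisIndex ℤ (𝓞 K)) =
      Fintype.card ((k →+* ℂ) × Fin n) := by
    rw [← Module.finrank_eq_card_chooseBasisIndex, RingOfIntegers.rank, Fintype.card_congr Φ,
      Embeddings.card]
  set bK : Module.Basis ((k →+* ℂ) × Fin n) ℤ (𝓞 K) :=
    (RingOfIntegers.basis K).reindex (Fintype.equivOfCardEq hcardK) with hbK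
  -- the integral elements
  set β : Fin n → (k →+* ℂ) → k := fun i j =>
    if (i : ℕ) = 0 then ((α j : 𝓞 k) : k) else ((γ j : 𝓞 k) : k) / (b : k) with hβ
  set h : Fin n → K := fun i => if (i : ℕ) = 0 then 1 else
    ∑ l ∈ Finset.range ((i : ℕ) + 1), algebraMap k K (F.coeff (n - l) : k) * x ^ ((i : ℕ) - l)
    with hh
  have hint : ∀ c : (k →+* ℂ) × Fin n, IsIntegral ℤ (algebraMap k K (β c.2 c.1) * h c.2) := by
    intro c
    simp only [hβ, hh]
    by_cases hc : (c.2 : ℕ) = 0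
    · rw [if_pos hc, if_pos hc, mul_one]
      exact (RingOfIntegers.isIntegral_coe (α c.1)).algebraMap
    · rw [if_neg hc, if_neg hc]
      have := isIntegral_trunc x F hF (((γ c.1 : 𝓞 k) : k) / (b : k))
        (hdiv (γ c.1 : 𝓞 k) (γ c.1).2) c.2 (by rw [hdeg]; exact c.2.2)
      rw [hdeg] at this
      exact this
  set w : (k →+* ℂ) × Fin n → 𝓞 K := fun c => ⟨algebraMap k K (β c.2 c.1) * h c.2, hint c⟩ with hw
  have hgen := Index_general K Φ bK w
  -- the matrix is a product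
  set B : Fin n → Matrix (k →+* ℂ) (k →+* ℂ) ℂ := fun i => Matrix.of fun ρ j => ρ (β i j) with hB
  set W : (k →+* ℂ) → Matrix (Fin n) (Fin n) ℂ := fun ρ =>
    Index_W (fun m => ρ (F.coeff m : k)) (y ρ) with hW
  have hmat : (Matrix.of fun q c => Φ q (w c : K)) =
      Matrix.of fun q c : (k →+* ℂ) × Fin n => B c.2 q.1 c.1 * W q.1 q.2 c.2 := by
    ext ⟨ρ, l⟩ ⟨j, i⟩
    simp only [Matrix.of_apply]
    have h1 : ((w (j, i) : 𝓞 K) : K) = algebraMap k K (β i j) * h i := rfl
    rw [h1, map_mul]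
    have hφ : ∀ z : k, Φ (ρ, l) (algebraMap k K z) = ρ z := fun z => by
      conv_rhs => rw [← hΦ2 ρ l]
      rfl
    rw [hφ]
    congr 1
    simp only [hW, hh, Index_W, Matrix.of_apply]
    split_ifs with hi
    · exact map_one _
    · rw [map_sum]
      refine Finset.sum_congr rfl fun m _ => ?_
      rw [map_mul, map_pow, hφ]
  rw [hmat, det_mul_blocks] at hgen
  -- absolute values
  have hWd : ∀ ρ, ‖(W ρ).det‖ ^ 2 = ‖ρ (F.discr : k)‖ := fun ρ =>
    Index_W_det hn0 F hdeg ρ (y ρ) (he ρ)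
  have hnorm : ∏ ρ : k →+* ℂ, ‖ρ (F.discr : k)‖ = |(Algebra.norm ℤ F.discr : ℝ)| := by
    have h3 := Algebra.norm_eq_prod_embeddings ℚ ℂ (F.discr : k)
    rw [← Equiv.prod_comp (RingHom.equivRatAlgHom k ℂ), eq_ratCast, ← Algebra.coe_norm_int] at h3
    have h4 := congrArg (fun z : ℂ => ‖z‖) h3
    simp only [norm_prod] at h4
    rw [← Complex.norm_intCast]
    have h5 : ((((Algebra.norm ℤ) F.discr : ℤ) : ℚ) : ℂ) = (Algebra.norm ℤ F.discr : ℂ) := by
      push_cast
      rfl
    rw [← h5, h4]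
    rfl
  have hN : (|Algebra.norm ℤ b| : ℝ) =
      (Ideal.absNorm F.contentIdeal : ℝ) * (Ideal.absNorm 𝔟 : ℝ) := by
    have h1 := congrArg Ideal.absNorm h𝔟
    rw [Ideal.absNorm_span_singleton, map_mul] at h1
    have h2 := congrArg (fun z : ℕ => (z : ℝ)) h1
    simp only [Nat.cast_mul] at h2
    rw [Nat.cast_natAbs, Int.cast_abs] at h2
    exact h2
  have hB1 : ∀ i : Fin n, (i : ℕ) ≠ 0 → ‖(B i).det‖ ^ 2 * (Ideal.absNorm F.contentIdeal : ℝ) ^ 2 =
      |(NumberField.discr k : ℝ)| := by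
    intro i hi
    have h1 := Index_B_det α 𝔟 γ b hb0
    have h2 : B i = Matrix.of fun (ρ j : k →+* ℂ) => ρ ((γ j : 𝓞 k) / (b : 𝓞 k) : k) := by
      ext ρ j
      simp only [hB, hβ, Matrix.of_apply, if_neg hi]
    rw [h2]
    rw [hN] at h1
    have h3 : (Ideal.absNorm 𝔟 : ℝ) ^ 2 ≠ 0 := by
      refine pow_ne_zero _ ?_
      rw [Nat.cast_ne_zero, Ne, Ideal.absNorm_eq_zero_iff]
      exact h𝔟0
    apply mul_left_cancel₀ h3
    rw [← h1]
    ring
  have hB0 : ∀ i : Fin n, (i : ℕ) = 0 → ‖(B i).det‖ ^ 2 = |(NumberField.discr k : ℝ)| := by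
    intro i hi
    have h1 := Index_general k (Equiv.refl _) α α
    have h2 : B i = Matrix.of fun (q c : k →+* ℂ) => (Equiv.refl (k →+* ℂ)) q ((α c : 𝓞 k) : k) := by
      ext ρ j
      simp only [hB, hβ, Matrix.of_apply, if_pos hi]
      rfl
    rw [h2, ← norm_pow, h1, Module.Basis.toMatrix_self, Matrix.det_one, one_pow, one_mul,
      Complex.norm_intCast]
  set c0 : ℝ := (Ideal.absNorm F.contentIdeal : ℝ) with hc0'
  set D : ℝ := |(NumberField.discr k : ℝ)| with hD
  have hBall : (∏ i, ‖(B i).det‖ ^ 2) * c0 ^ (2 * n - 2) = D ^ n := by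
    obtain ⟨m, hm⟩ : ∃ m, n = m + 1 := ⟨n - 1, by omega⟩
    clear_value n
    subst hm
    rw [Fin.prod_univ_succ, hB0 0 rfl]
    have h1 : ∀ i : Fin m, ‖(B i.succ).det‖ ^ 2 * c0 ^ 2 = D := fun i =>
      hB1 i.succ (by simp)
    have h2 : (∏ i : Fin m, ‖(B i.succ).det‖ ^ 2) * c0 ^ (2 * (m + 1) - 2) = D ^ m := by
      have h3 : c0 ^ (2 * (m + 1) - 2) = ∏ _i : Fin m, c0 ^ 2 := by
        rw [Finset.prod_const, Finset.card_univ, Fintype.card_fin, ← pow_mul]
        congr 1
      rw [h3, ← Finset.prod_mul_distrib, Finset.prod_congr rfl fun i _ => h1 i, Finset.prod_const,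
        Finset.card_univ, Fintype.card_fin]
    rw [mul_assoc, h2]
    ring
  have hkey : |(Algebra.norm ℤ F.discr : ℝ)| * D ^ n =
      |((bK.toMatrix w).det : ℝ)| ^ 2 * |(NumberField.discr K : ℝ)| * c0 ^ (2 * n - 2) := by
    have h1 := congrArg (fun z : ℂ => ‖z‖) hgen
    simp only [norm_pow, norm_mul, norm_prod] at h1
    rw [mul_pow, ← Finset.prod_pow, ← Finset.prod_pow, Finset.prod_congr rfl fun ρ _ => hWd ρ,
      hnorm, Complex.norm_intCast] at h1
    rw [← hBall, ← mul_assoc, h1]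
    push_cast
    rw [abs_mul, abs_pow]
  have hyinj : ∀ ρ, Function.Injective (y ρ) := by
    intro ρ l l' hll
    have h1 : Φ (ρ, l) = Φ (ρ, l') := by
      let S : IntermediateField k K := ((Φ (ρ, l)).eqLocusField (Φ (ρ, l'))).toIntermediateField
        fun z => by
          show (Φ (ρ, l)) (algebraMap k K z) = (Φ (ρ, l')) (algebraMap k K z)
          have h1 := RingHom.congr_fun (hΦ2 ρ l) z
          have h2 := RingHom.congr_fun (hΦ2 ρ l') z
          exact h1.trans h2.symm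
      have h2 : IntermediateField.adjoin k {x} ≤ S := IntermediateField.adjoin_simple_le_iff.2 hll
      rw [hx] at h2
      ext z
      exact h2 (IntermediateField.mem_top (x := z))
    have h3 := Φ.injective h1
    exact (Prod.mk.inj h3).2
  have hane : ∀ ρ : k →+* ℂ, ρ (F.coeff n : k) ≠ 0 := by
    intro ρ
    rw [← hdeg]
    intro h0
    have h1 : ((F.leadingCoeff : 𝓞 k) : k) = 0 := (map_eq_zero_iff _ ρ.injective).1 h0
    exact hF0 (leadingCoeff_eq_zero.1 (RingOfIntegers.ext (by simpa using h1)))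
  have hWne : ∀ ρ, (W ρ).det ≠ 0 := by
    intro ρ h0
    have h1 := det_trunc hn0 (fun m => ρ (F.coeff m : k)) (y ρ)
    have h2 : (W ρ).det ^ 2 = ρ (F.coeff n : k) ^ (2 * n - 2) *
        (Matrix.vandermonde (y ρ)).det ^ 2 := h1
    rw [h0, zero_pow two_ne_zero] at h2
    exact mul_ne_zero (pow_ne_zero _ (hane ρ)) (pow_ne_zero _
      (Matrix.det_vandermonde_ne_zero_iff.2 (hyinj ρ))) h2.symm
  have hLne : |(Algebra.norm ℤ F.discr : ℝ)| * D ^ n ≠ 0 := by
    refine mul_ne_zero ?_ (pow_ne_zero _ ?_)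
    · rw [← hnorm]
      refine Finset.prod_ne_zero_iff.2 fun ρ _ => ?_
      rw [← hWd ρ]
      exact pow_ne_zero _ (norm_ne_zero_iff.2 (hWne ρ))
    · rw [hD, Ne, abs_eq_zero, Int.cast_eq_zero]
      exact NumberField.discr_ne_zero k
  obtain ⟨E, hE⟩ : ∃ E, E = (bK.toMatrix w).det := ⟨_, rfl⟩
  rw [← hE] at hkey
  have hIne : E ≠ 0 := by
    rintro rfl
    rw [hkey] at hLne
    simp at hLne
  refine ⟨E.natAbs, Int.natAbs_pos.2 hIne, ?_⟩
  have hcast : ((|Algebra.norm ℤ F.discr| * |NumberField.discr k| ^ n : ℤ) : ℝ) =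
      ((((E.natAbs : ℕ) : ℤ) ^ 2 * |NumberField.discr K| *
          ((Ideal.absNorm F.contentIdeal : ℕ) : ℤ) ^ (2 * n - 2) : ℤ) : ℝ) := by
    push_cast
    rw [hkey]
  exact_mod_cast hcast

end Pool.Agent.RefW
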