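import Pool.Agent.RefW.Defs2
import Mathlib

/-!
RW29. Proof: write `c = b / a` with `a, b ∈ 𝓞 k` nonzero (if `G ≠ 0`), so `C a * G = C b * F`. The
discriminant of `C a * G` is `a ^ (2 n - 2) * G.discr` (Mathlib or from the Sylvester matrix /
`resultant_deriv`), its content ideal is `(a) * G.contentIdeal`; `Ideal.absNorm_span_singleton`.
-/

open Polynomial NumberField
open scoped Classical

namespace Pool.Agent.RefW

private theorem Scale_discr {R : Type} [CommRing R] [IsDomain R] (G : R[X]) (n : ℕ) (hn : 0 < n)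
    (hG : G.natDegree = n) (a : R) (ha : a ≠ 0) :
    (C a * G).discr = a ^ (2 * n - 2) * G.discr := by
  have hG0 : G ≠ 0 := by
    rintro rfl
    simp at hG
    omega
  have hd : (C a * G).natDegree = n := by
    rw [natDegree_C_mul ha, hG]
  have h1 := resultant_deriv (f := C a * G) (by rw [← natDegree_pos_iff_degree_pos, hd]; exact hn)
  have h2 := resultant_deriv (f := G) (by rw [← natDegree_pos_iff_degree_pos, hG]; exact hn)
  rw [hd, derivative_C_mul, resultant_C_mul_left, resultant_C_mul_right, leadingCoeff_mul,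
    leadingCoeff_C] at h1
  rw [hG] at h2
  rw [h2] at h1
  have hs : ((-1 : R) ^ (n * (n - 1) / 2)) ≠ 0 := pow_ne_zero _ (by simp)
  have hl : G.leadingCoeff ≠ 0 := leadingCoeff_ne_zero.2 hG0
  have hne : ((-1 : R) ^ (n * (n - 1) / 2)) * (a * G.leadingCoeff) ≠ 0 :=
    mul_ne_zero hs (mul_ne_zero ha hl)
  apply mul_left_cancel₀ hne
  rw [← h1]
  obtain ⟨m, rfl⟩ : ∃ m, n = m + 1 := ⟨n - 1, by omega⟩
  have e : 2 * (m + 1) - 2 = m + m := by omega
  rw [e, pow_add, Nat.add_sub_cancel, pow_succ]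
  ring

private theorem Scale_content {R : Type} [CommRing R] (G : R[X]) (a : R) :
    (C a * G).contentIdeal = Ideal.span {a} * G.contentIdeal := by
  apply le_antisymm
  · refine (contentIdeal_mul_le_mul_contentIdeal (C a) G).trans ?_
    rw [contentIdeal_C]
  · rw [contentIdeal_def G, Ideal.span_mul_span, Ideal.span_le]
    intro x hx
    simp only [Set.singleton_mul, Set.mem_image, Finset.mem_coe] at hx
    obtain ⟨y, hy, rfl⟩ := hx
    rw [mem_coeffs_iff] at hy
    obtain ⟨m, hm, rfl⟩ := hy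
    have e : a * G.coeff m = (C a * G).coeff m := (coeff_C_mul _).symm
    rw [SetLike.mem_coe, e]
    exact coeff_mem_contentIdeal _ _

theorem discr_content_scale {k : Type} [Field k] [NumberField k] (F G : (𝓞 k)[X]) (n : ℕ)
    (hn : 0 < n) (hF : F.natDegree = n) (hG : G.natDegree = n)
    (h : ∃ c : k, ∀ i, (G.coeff i : k) = c * F.coeff i) :
    |Algebra.norm ℤ G.discr| * (Ideal.absNorm F.contentIdeal : ℤ) ^ (2 * n - 2) =
      |Algebra.norm ℤ F.discr| * (Ideal.absNorm G.contentIdeal : ℤ) ^ (2 * n - 2) := by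
  obtain ⟨c, hc⟩ := h
  obtain ⟨b, a, ha, rfl⟩ := IsFractionRing.div_surjective (𝓞 k) c
  have ha0 : a ≠ 0 := nonZeroDivisors.ne_zero ha
  have hka : (algebraMap (𝓞 k) k a) ≠ 0 := by
    simpa using ha0
  have heq : C a * G = C b * F := by
    apply Polynomial.ext
    intro i
    apply RingOfIntegers.ext
    rw [coeff_C_mul, coeff_C_mul]
    have e1 : ((a * G.coeff i : 𝓞 k) : k) = algebraMap (𝓞 k) k a * (G.coeff i : k) :=
      map_mul (algebraMap (𝓞 k) k) _ _
    have e2 : ((b * F.coeff i : 𝓞 k) : k) = algebraMap (𝓞 k) k b * (F.coeff i : k) :=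
      map_mul (algebraMap (𝓞 k) k) _ _
    rw [e1, e2, hc i]
    field_simp
  have hb0 : b ≠ 0 := by
    rintro rfl
    rw [map_zero, zero_mul, mul_eq_zero] at heq
    rcases heq with h | h
    · exact ha0 (by simpa using h)
    · rw [h] at hG
      simp at hG
      omega
  have h1 : a ^ (2 * n - 2) * G.discr = b ^ (2 * n - 2) * F.discr := by
    rw [← Scale_discr G n hn hG a ha0, ← Scale_discr F n hn hF b hb0, heq]
  have h2 : Ideal.span {a} * G.contentIdeal = Ideal.span {b} * F.contentIdeal := by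
    rw [← Scale_content, ← Scale_content, heq]
  have h3 := congrArg (fun x => |Algebra.norm ℤ x|) h1
  have h4 := congrArg (fun x => (Ideal.absNorm x : ℤ)) h2
  simp only [map_mul, map_pow, abs_mul, abs_pow, Ideal.absNorm_span_singleton, Nat.cast_mul,
    Int.natCast_natAbs] at h3 h4
  set na := |Algebra.norm ℤ a| with hna
  set nb := |Algebra.norm ℤ b| with hnb
  have hnap : na ≠ 0 := by
    rw [hna, abs_ne_zero, Algebra.norm_ne_zero_iff]
    exact ha0
  have hnbp : nb ≠ 0 := by
    rw [hnb, abs_ne_zero, Algebra.norm_ne_zero_iff]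
    exact hb0
  apply mul_left_cancel₀ (mul_ne_zero (pow_ne_zero (2 * n - 2) hnap)
    (pow_ne_zero (2 * n - 2) hnbp))
  calc na ^ (2 * n - 2) * nb ^ (2 * n - 2) *
        (|Algebra.norm ℤ G.discr| * (Ideal.absNorm F.contentIdeal : ℤ) ^ (2 * n - 2))
      = (na ^ (2 * n - 2) * |Algebra.norm ℤ G.discr|) *
        (nb * (Ideal.absNorm F.contentIdeal : ℤ)) ^ (2 * n - 2) := by
        rw [mul_pow]; ring
    _ = (nb ^ (2 * n - 2) * |Algebra.norm ℤ F.discr|) *
        (na * (Ideal.absNorm G.contentIdeal : ℤ)) ^ (2 * n - 2) := by rw [h3, h4]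
    _ = _ := by rw [mul_pow]; ring

theorem contentIdeal_polyOf {k : Type} [Field k] [NumberField k] {n : ℕ}
    (F : Fin (n + 1) → 𝓞 k) : (polyOf F).contentIdeal = Ideal.span (Set.range F) := by
  have hco : ∀ i : Fin (n + 1), (polyOf F).coeff i = F i := by
    intro i
    rw [polyOf, finsetSum_coeff, Finset.sum_eq_single i]
    · simp
    · intro j _ hj
      rw [coeff_C_mul_X_pow, if_neg]
      intro h
      exact hj (Fin.ext h.symm)
    · simp
  apply le_antisymm
  · rw [contentIdeal_def, Ideal.span_le]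
    intro x hx
    rw [Finset.mem_coe, mem_coeffs_iff] at hx
    obtain ⟨m, hm, rfl⟩ := hx
    rw [polyOf, finsetSum_coeff]
    apply Ideal.sum_mem
    intro j _
    rw [coeff_C_mul_X_pow]
    split_ifs
    · exact Ideal.subset_span ⟨j, rfl⟩
    · exact Ideal.zero_mem _
  · rw [Ideal.span_le]
    rintro _ ⟨i, rfl⟩
    rw [← hco i]
    exact coeff_mem_contentIdeal _ _

end Pool.Agent.RefW
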