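import Pool.Agent.RefW.Defs2
import Pool.Agent.RefW.Core
import Pool.Agent.RefW.Height
import Pool.Agent.RefW.General
import Pool.Agent.RefW.DiscLogK
import Pool.Agent.RefW.Index
import Pool.Agent.RefW.Scale
import Mathlib

/-!
RW30. The inequality with discriminants for all points of bounded degree over a number field.
-/

open Polynomial NumberField
open scoped Classical

namespace Pool.Agent.RefW

theorem final_coeff {k : Type} [Field k] [NumberField k] {n : ℕ} {F : Fin (n + 1) → 𝓞 k}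
    {K : Type} [Field K] [NumberField K] [Algebra k K] {x : K} (h : RootOf F K x) :
    ∃ a : k, ∀ i : ℕ, ((polyOf F).coeff i : k) = a * (minpoly k x).coeff i := by
  have hint : IsIntegral k x := IsIntegral.of_finite k x
  have hdeg : (minpoly k x).natDegree = n := by
    rw [← IntermediateField.adjoin.finrank hint, h.gen, IntermediateField.finrank_top', h.deg]
  set P : k[X] := (polyOf F).map (algebraMap (𝓞 k) k) with hP
  have hcoeff : ∀ i : ℕ, P.coeff i = ((polyOf F).coeff i : k) := fun i => by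
    rw [hP, Polynomial.coeff_map]
  have hPdeg : P.natDegree ≤ n := by
    refine Polynomial.natDegree_map_le.trans ?_
    refine Polynomial.natDegree_sum_le_of_forall_le _ _ fun i _ => ?_
    refine (Polynomial.natDegree_C_mul_X_pow_le _ _).trans ?_
    omega
  have hroot : aeval x P = 0 := by
    rw [hP, polyOf, Polynomial.map_sum, map_sum]
    refine Eq.trans (Finset.sum_congr rfl fun i _ => ?_) h.root
    simp
  obtain ⟨Q, hQ⟩ := minpoly.dvd k x hroot
  by_cases hQ0 : Q = 0
  · refine ⟨0, fun i => ?_⟩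
    rw [← hcoeff i, hQ, hQ0, mul_zero, Polynomial.coeff_zero, zero_mul]
  · have hm0 : minpoly k x ≠ 0 := minpoly.ne_zero hint
    have h1 : Q.natDegree = 0 := by
      have h2 := Polynomial.natDegree_mul hm0 hQ0
      rw [← hQ, hdeg] at h2
      omega
    obtain ⟨a, ha⟩ := Polynomial.natDegree_eq_zero.1 h1
    refine ⟨a, fun i => ?_⟩
    rw [← hcoeff i, hQ, ← ha, Polynomial.coeff_mul_C, mul_comm]

theorem final_coeff_poly {k : Type} [Field k] [NumberField k] {K : Type} [Field K]
    [NumberField K] [Algebra k K] {x : K} (hx : IntermediateField.adjoin k {x} = ⊤)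
    (F : (𝓞 k)[X]) (hF : aeval x F = 0) (hdeg : F.natDegree = Module.finrank k K) :
    ∃ a : k, a ≠ 0 ∧ ∀ i : ℕ, (F.coeff i : k) = a * (minpoly k x).coeff i := by
  have hint : IsIntegral k x := IsIntegral.of_finite k x
  have hdeg' : (minpoly k x).natDegree = Module.finrank k K := by
    rw [← IntermediateField.adjoin.finrank hint, hx, IntermediateField.finrank_top']
  have hn : 0 < Module.finrank k K := Module.finrank_pos
  have hF0 : F ≠ 0 := by
    rintro rfl
    simp at hdeg
    omega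
  set P : k[X] := F.map (algebraMap (𝓞 k) k) with hP
  have hinj : Function.Injective (algebraMap (𝓞 k) k) := RingOfIntegers.coe_injective
  have hP0 : P ≠ 0 := (Polynomial.map_ne_zero_iff hinj).2 hF0
  have hPdeg : P.natDegree = Module.finrank k K := by
    rw [hP, Polynomial.natDegree_map_eq_of_injective hinj, hdeg]
  have hroot : aeval x P = 0 := by
    rw [hP, Polynomial.aeval_map_algebraMap, hF]
  obtain ⟨Q, hQ⟩ := minpoly.dvd k x hroot
  have hQ0 : Q ≠ 0 := by
    rintro rfl
    rw [mul_zero] at hQ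
    exact hP0 hQ
  have hm0 : minpoly k x ≠ 0 := minpoly.ne_zero hint
  have h1 : Q.natDegree = 0 := by
    have h2 := Polynomial.natDegree_mul hm0 hQ0
    rw [← hQ, hdeg'] at h2
    omega
  obtain ⟨a, ha⟩ := Polynomial.natDegree_eq_zero.1 h1
  refine ⟨a, ?_, fun i => ?_⟩
  · rintro rfl
    rw [Polynomial.C_0] at ha
    exact hQ0 ha.symm
  · have h3 : P.coeff i = (F.coeff i : k) := by rw [hP, Polynomial.coeff_map]
    rw [← h3, hQ, ← ha, Polynomial.coeff_mul_C, mul_comm]

theorem final_conj {k A : Type} [Field k] [NumberField k] [NormedField A] [CharZero A]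
    [IsAlgClosed A] (δ : A → OnePoint A → ℝ) (D : (k →+* A) → Finset (OnePoint A))
    (K : Type) [Field K] [NumberField K] [Algebra k K] (x : K) :
    conjSum k δ K x = excess δ D K x + offSum δ D K x := by
  unfold conjSum excess offSum
  rw [← Finset.sum_add_distrib]
  refine Finset.sum_congr rfl fun σ _ => ?_
  rw [← Finset.sum_add_distrib]
  refine Finset.sum_congr rfl fun τ _ => ?_
  split_ifs with h
  · ring
  · ring

theorem final_norm {k A : Type} [Field k] [NumberField k] [NormedField A] [CharZero A]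
    [IsAlgClosed A] (R : 𝓞 k) :
    ∏ ρ : k →+* A, ‖ρ (R : k)‖ = ‖((Algebra.norm ℤ R : ℤ) : A)‖ := by
  rw [← norm_prod]
  congr 1
  have h1 : ((Algebra.norm ℤ R : ℤ) : A) = algebraMap ℚ A (Algebra.norm ℚ (R : k)) := by
    rw [← Algebra.coe_norm_int]
    simp
  rw [h1, Algebra.norm_eq_prod_embeddings ℚ A (R : k)]
  exact Fintype.prod_equiv (RingHom.equivRatAlgHom k A) _ _ fun ρ => rfl

theorem final (k : Type) [Field k] [NumberField k] {r : ℕ}
    (p : Fin r → ℕ) [∀ t, Fact (p t).Prime] (hp : Function.Injective p) (ν : ℕ)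
    (D : (k →+* ℂ) → Finset (OnePoint ℂ)) (D' : ∀ t, (k →+* ℂ_[p t]) → Finset (OnePoint ℂ_[p t]))
    (hD : ∀ ρ, ∀ θ ∈ D ρ, AlgP θ) (hD' : ∀ t ρ, ∀ θ ∈ D' t ρ, AlgP θ) (ε : ℝ) (hε : 0 < ε) :
    ∃ C : ℝ, ∀ (K : Type) [Field K] [NumberField K] [Algebra k K] (x : K) (F : (𝓞 k)[X]),
      IntermediateField.adjoin k {x} = ⊤ → Module.finrank k K ≤ ν →
      aeval x F = 0 → F.natDegree = Module.finrank k K →
      (∀ σ : K →+* ℂ, ((σ x : ℂ) : OnePoint ℂ) ∉ D (σ.comp (algebraMap k K))) →
      (∀ t (σ : K →+* ℂ_[p t]),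
        ((σ x : ℂ_[p t]) : OnePoint ℂ_[p t]) ∉ D' t (σ.comp (algebraMap k K))) →
      ∃ I : ℕ, 0 < I ∧
        |Algebra.norm ℤ F.discr| * |NumberField.discr k| ^ Module.finrank k K =
          (I : ℤ) ^ 2 * |NumberField.discr K| *
            (Ideal.absNorm F.contentIdeal : ℤ) ^ (2 * Module.finrank k K - 2) ∧
        (diagSum SST.chord D K x + ∑ t, diagSum SST.chordM (D' t) K x) / Module.finrank ℚ K -
            2 * SST.ht K x ≤
          SST.logDisc K + 2 * Real.log (I * ∏ t, ‖((I : ℕ) : ℚ_[p t])‖) / Module.finrank ℚ K +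
            (excess SST.chord D K x + ∑ t, excess SST.chordM (D' t) K x) / Module.finrank ℚ K +
            ε * SST.ht K x + C := by
  choose C₁ hC₁ h₁ using fun n => exists_supMin k n
  choose C₂ h₂ using fun n => core k p hp n D D' hD hD' ε hε
  have hC₃ : ∀ n : ℕ, ∃ C : ℝ, 0 < n → ∀ (K : Type) [Field K] [NumberField K] [Algebra k K] (x : K)
      (F : Fin (n + 1) → 𝓞 k), RootOf F K x → SupMin F →
      (2 * n - 2) * Module.finrank ℚ k * Real.log (hs F) ≤
        Real.log ((∏ ρ : k →+* ℂ, ‖ρ ((polyOf F).discr : k)‖) *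
          ∏ t, ∏ ρ : k →+* ℂ_[p t], ‖ρ ((polyOf F).discr : k)‖) +
        conjSum k SST.chord K x + ∑ t, conjSum k (SST.chordM (A := ℂ_[p t])) K x + C := by
    intro n
    rcases Nat.eq_zero_or_pos n with h | h
    · exact ⟨0, fun h2 => absurd h2 (by omega)⟩
    · obtain ⟨C, hC⟩ := discr_logK k p n h
      exact ⟨C, fun _ => hC⟩
  choose C₃ h₃ using hC₃
  choose C₄ hC₄ h₄ using fun n => supMin_balanced k n
  set d : ℕ := Module.finrank ℚ k with hd
  have hd0 : 0 < d := Module.finrank_pos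
  have hdR : (1 : ℝ) ≤ d := by exact_mod_cast hd0
  set B : ℝ := |(NumberField.discr k : ℝ)| with hB
  have hdk : NumberField.discr k ≠ 0 := NumberField.discr_ne_zero k
  have hB1 : 1 ≤ B := by
    rw [hB, ← Int.cast_abs]
    exact_mod_cast Int.one_le_abs hdk
  set c : ℕ → ℝ := fun n => (2 * d + ε) * |Real.log (C₁ n)| + |C₂ n| + |C₃ n| +
    (2 * n - 2 : ℕ) * Real.log (C₄ n) + (r * n : ℕ) * Real.log B with hc
  have hc0 : ∀ n, 0 ≤ c n := fun n => by
    have e1 := Real.log_nonneg (hC₄ n)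
    have e2 := Real.log_nonneg hB1
    simp only [hc]
    positivity
  refine ⟨∑ n ∈ Finset.range (ν + 1), c n,
    fun K _ _ _ x F hx hν hF hdeg hσ hσ' => ?_⟩
  set n : ℕ := Module.finrank k K with hn
  have hn0 : 0 < n := Module.finrank_pos
  have hnR : (1 : ℝ) ≤ n := by exact_mod_cast hn0
  obtain ⟨I, hI, hdisc⟩ := exists_index x hx F hF hdeg
  refine ⟨I, hI, hdisc, ?_⟩
  obtain ⟨G, hG, hroot, hGle⟩ := h₁ n K x hx hn.symm
  have hmain := h₂ n K x G hroot hG hσ hσ'
  have hdl := h₃ n hn0 K x G hroot hG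
  have hbal := (h₄ n G hG).1
  have hfin : (Module.finrank ℚ K : ℝ) = d * n := by
    rw [hd, hn, ← Module.finrank_mul_finrank ℚ k K]
    push_cast
    rfl
  have hht := general_ht_nonneg K x
  have hhs : 1 ≤ hs G := one_le_hs G hG.1
  -- the discriminant of `G`
  obtain ⟨a, ha⟩ := final_coeff hroot
  obtain ⟨b, hb0, hb⟩ := final_coeff_poly hx F hF hdeg
  have hGP : polyOf G ≠ 0 := by
    intro h
    apply hG.1
    funext j
    have h1 : (polyOf G).coeff (j : ℕ) = G j := by
      rw [polyOf]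
      simp only [finsetSum_coeff, Polynomial.coeff_C_mul, Polynomial.coeff_X_pow]
      rw [Finset.sum_eq_single j (fun b _ hb => by
        rw [if_neg (fun h => hb (Fin.ext h.symm)), mul_zero]) (by simp)]
      simp
    rw [← h1, h, Polynomial.coeff_zero]
    rfl
  have ha0 : a ≠ 0 := by
    rintro rfl
    apply hGP
    ext i
    have h1 := ha i
    rw [zero_mul] at h1
    rw [Polynomial.coeff_zero]
    exact h1
  have hpar : ∃ c : k, ∀ i, ((polyOf G).coeff i : k) = c * (F.coeff i : k) := by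
    refine ⟨a / b, fun i => ?_⟩
    rw [ha, hb]
    field_simp
  have hGdeg : (polyOf G).natDegree = n := by
    have hsupp : (polyOf G).support = F.support := by
      ext i
      rw [Polynomial.mem_support_iff, Polynomial.mem_support_iff, not_iff_not]
      have h1 := ha i
      have h2 := hb i
      constructor
      · intro h
        have h1' : a * (minpoly k x).coeff i = 0 := by
          rw [← h1, h]
          rfl
        have h3 : (minpoly k x).coeff i = 0 := by
          rcases mul_eq_zero.1 h1' with h4 | h4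
          · exact absurd h4 ha0
          · exact h4
        rw [h3, mul_zero] at h2
        exact_mod_cast h2
      · intro h
        have h2' : b * (minpoly k x).coeff i = 0 := by
          rw [← h2, h]
          rfl
        have h3 : (minpoly k x).coeff i = 0 := by
          rcases mul_eq_zero.1 h2' with h4 | h4
          · exact absurd h4 hb0
          · exact h4
        rw [h3, mul_zero] at h1
        exact_mod_cast h1
    have hFP : F ≠ 0 := by rintro rfl; simp at hdeg; omega
    have h1 : (polyOf G).natDegree = F.natDegree := by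
      rw [Polynomial.natDegree_eq_support_max' hGP, Polynomial.natDegree_eq_support_max' hFP]
      simp only [hsupp]
    rw [h1, hdeg]
  have hscale := discr_content_scale F (polyOf G) n hn0 hdeg hGdeg hpar
  have hF0 : F ≠ 0 := by rintro rfl; simp at hdeg; omega
  have hcF : (Ideal.absNorm F.contentIdeal : ℤ) ≠ 0 := by
    have h1 : F.contentIdeal ≠ ⊥ := by
      intro h
      apply hF0
      ext i
      have h2 : F.coeff i ∈ F.contentIdeal := Polynomial.coeff_mem_contentIdeal F i
      rw [h, Ideal.mem_bot] at h2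
      rw [h2, Polynomial.coeff_zero]
    have h2 : Ideal.absNorm F.contentIdeal ≠ 0 := by
      rw [Ne, Ideal.absNorm_eq_zero_iff]
      exact h1
    exact_mod_cast h2
  set N : ℤ := Algebra.norm ℤ (polyOf G).discr with hN
  set c' : ℤ := (Ideal.absNorm (polyOf G).contentIdeal : ℤ) with hc'
  have hdiscG : |N| * |NumberField.discr k| ^ n =
      (I : ℤ) ^ 2 * |NumberField.discr K| * c' ^ (2 * n - 2) := by
    have h1 : (Ideal.absNorm F.contentIdeal : ℤ) ^ (2 * n - 2) ≠ 0 := pow_ne_zero _ hcF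
    apply mul_right_cancel₀ h1
    calc |N| * |NumberField.discr k| ^ n * (Ideal.absNorm F.contentIdeal : ℤ) ^ (2 * n - 2)
        = (|N| * (Ideal.absNorm F.contentIdeal : ℤ) ^ (2 * n - 2)) *
            |NumberField.discr k| ^ n := by ring
      _ = (|Algebra.norm ℤ F.discr| * |NumberField.discr k| ^ n) * c' ^ (2 * n - 2) := by
          rw [hscale]; ring
      _ = _ := by rw [hdisc]; ring
  have hdK : NumberField.discr K ≠ 0 := NumberField.discr_ne_zero K
  have hc'0 : c' ≠ 0 := by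
    have h1 : (polyOf G).contentIdeal ≠ ⊥ := by
      intro h
      apply hGP
      ext i
      have h2 : (polyOf G).coeff i ∈ (polyOf G).contentIdeal :=
        Polynomial.coeff_mem_contentIdeal _ i
      rw [h, Ideal.mem_bot] at h2
      rw [h2, Polynomial.coeff_zero]
    have h2 : Ideal.absNorm (polyOf G).contentIdeal ≠ 0 := by
      rw [Ne, Ideal.absNorm_eq_zero_iff]
      exact h1
    rw [hc']
    exact_mod_cast h2
  have hc'C : (c' : ℝ) ≤ C₄ n := by
    rw [hc', contentIdeal_polyOf]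
    exact_mod_cast hbal
  have hc'1 : (1 : ℝ) ≤ c' := by
    have : (1 : ℤ) ≤ c' := by
      have h1 : 0 ≤ c' := Int.natCast_nonneg _
      omega
    exact_mod_cast this
  have hIR : (1 : ℝ) ≤ I := by exact_mod_cast hI
  have hIZ : (I : ℤ) ≠ 0 := by exact_mod_cast hI.ne'
  have hN0 : N ≠ 0 := by
    intro h
    rw [h, abs_zero, zero_mul] at hdiscG
    have h1 : (I : ℤ) ^ 2 * |NumberField.discr K| * c' ^ (2 * n - 2) ≠ 0 :=
      mul_ne_zero (mul_ne_zero (pow_ne_zero _ hIZ) (abs_ne_zero.2 hdK)) (pow_ne_zero _ hc'0)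
    exact h1 hdiscG.symm
  -- real absolute value
  have hNreal : |(N : ℝ)| ≤ (I : ℝ) ^ 2 * |(NumberField.discr K : ℝ)| * C₄ n ^ (2 * n - 2) := by
    have h1 : |(N : ℝ)| * B ^ n =
        (I : ℝ) ^ 2 * |(NumberField.discr K : ℝ)| * (c' : ℝ) ^ (2 * n - 2) := by
      rw [hB]
      exact_mod_cast hdiscG
    calc |(N : ℝ)| ≤ |(N : ℝ)| * B ^ n :=
          le_mul_of_one_le_right (abs_nonneg _) (one_le_pow₀ hB1)
      _ = _ := h1
      _ ≤ _ := mul_le_mul_of_nonneg_left (pow_le_pow_left₀ (by linarith) hc'C _) (by positivity)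
  -- `p`-adic absolute values
  have hNpad : ∀ t, ‖((N : ℤ) : ℚ_[p t])‖ ≤ ‖((I : ℕ) : ℚ_[p t])‖ ^ 2 * B ^ n := by
    intro t
    have h1 : ‖((N : ℤ) : ℚ_[p t])‖ * ‖((NumberField.discr k : ℤ) : ℚ_[p t])‖ ^ n =
        ‖((I : ℕ) : ℚ_[p t])‖ ^ 2 * ‖((NumberField.discr K : ℤ) : ℚ_[p t])‖ *
          ‖((c' : ℤ) : ℚ_[p t])‖ ^ (2 * n - 2) := by
      have habs : ∀ z : ℤ, ‖((|z| : ℤ) : ℚ_[p t])‖ = ‖((z : ℤ) : ℚ_[p t])‖ := by
        intro z
        rcases abs_choice z with h | h
        · rw [h]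
        · rw [h, Int.cast_neg, norm_neg]
      have h2 := congrArg (fun z : ℤ => ‖((z : ℤ) : ℚ_[p t])‖) hdiscG
      simp only [Int.cast_mul, Int.cast_pow, norm_mul, norm_pow, habs, Int.cast_natCast] at h2
      exact h2
    have h2 : B⁻¹ ≤ ‖((NumberField.discr k : ℤ) : ℚ_[p t])‖ := by
      have h3 : (1 : ℝ) ≤ |(NumberField.discr k : ℝ)| *
          ‖((NumberField.discr k : ℤ) : ℚ_[p t])‖ := by
        have h4 : NumberField.discr k ≠ 0 := hdk
        set z := NumberField.discr k
        have h5 : ((p t : ℕ) ^ padicValInt (p t) z : ℤ) ∣ z := padicValInt_dvd z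
        have h6 : ‖((z : ℤ) : ℚ_[p t])‖ = ((p t : ℝ) ^ padicValInt (p t) z)⁻¹ := by
          rw [Padic.norm_eq_zpow_neg_valuation (by exact_mod_cast h4), Padic.valuation_intCast,
            zpow_neg, zpow_natCast]
        rw [h6]
        have h7 : ((p t : ℝ) ^ padicValInt (p t) z) ≤ |(z : ℝ)| := by
          have h8 := Int.le_of_dvd (abs_pos.2 h4) ((dvd_abs _ _).2 h5)
          rw [← Int.cast_abs]
          exact_mod_cast h8
        have h9 : (0 : ℝ) < (p t : ℝ) ^ padicValInt (p t) z :=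
          pow_pos (by exact_mod_cast (Fact.out : (p t).Prime).pos) _
        rw [← div_eq_mul_inv, le_div_iff₀ h9, one_mul]
        exact h7
      rw [inv_le_iff_one_le_mul₀ (by linarith), mul_comm]
      exact h3
    have h3 : ‖((NumberField.discr K : ℤ) : ℚ_[p t])‖ ≤ 1 := Padic.norm_int_le_one _
    have h4 : ‖((c' : ℤ) : ℚ_[p t])‖ ≤ 1 := Padic.norm_int_le_one _
    have h5 : ‖((N : ℤ) : ℚ_[p t])‖ * (B⁻¹) ^ n ≤ ‖((I : ℕ) : ℚ_[p t])‖ ^ 2 := by
      calc ‖((N : ℤ) : ℚ_[p t])‖ * (B⁻¹) ^ n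
          ≤ ‖((N : ℤ) : ℚ_[p t])‖ * ‖((NumberField.discr k : ℤ) : ℚ_[p t])‖ ^ n :=
            mul_le_mul_of_nonneg_left (pow_le_pow_left₀ (by positivity) h2 _) (norm_nonneg _)
        _ = _ := h1
        _ ≤ ‖((I : ℕ) : ℚ_[p t])‖ ^ 2 * 1 * 1 := by
            refine mul_le_mul (mul_le_mul_of_nonneg_left h3 (by positivity))
              (pow_le_one₀ (norm_nonneg _) h4) (by positivity) (by positivity)
        _ = _ := by ring
    rw [inv_pow, ← div_eq_mul_inv, div_le_iff₀ (by positivity)] at h5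
    exact h5
  have hW0 : ∀ t, 0 < ‖((I : ℕ) : ℚ_[p t])‖ := fun t =>
    norm_pos_iff.2 (by exact_mod_cast hI.ne')
  set W : ℝ := Real.log (I * ∏ t, ‖((I : ℕ) : ℚ_[p t])‖) with hW
  have hprodI : 0 < ∏ t, ‖((I : ℕ) : ℚ_[p t])‖ := Finset.prod_pos fun t _ => hW0 t
  have hDKR : 0 < |(NumberField.discr K : ℝ)| := abs_pos.2 (by exact_mod_cast hdK)
  have hlogdisc : Real.log ((∏ ρ : k →+* ℂ, ‖ρ ((polyOf G).discr : k)‖) *
      ∏ t, ∏ ρ : k →+* ℂ_[p t], ‖ρ ((polyOf G).discr : k)‖) ≤
      2 * W + (d * n) * SST.logDisc K + (2 * n - 2 : ℕ) * Real.log (C₄ n) +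
        (r * n : ℕ) * Real.log B := by
    rw [final_norm, Finset.prod_congr rfl fun t _ => final_norm (A := ℂ_[p t]) (polyOf G).discr]
    have e1 : ‖((N : ℤ) : ℂ)‖ = |(N : ℝ)| := by
      rw [Complex.norm_intCast]
    have e2 : ∀ t, ‖((N : ℤ) : ℂ_[p t])‖ = ‖((N : ℤ) : ℚ_[p t])‖ := by
      intro t
      rw [← map_intCast (algebraMap ℚ_[p t] ℂ_[p t]), norm_algebraMap']
    rw [← hN, e1, Finset.prod_congr rfl fun t _ => e2 t]
    have hpos : 0 < |(N : ℝ)| * ∏ t, ‖((N : ℤ) : ℚ_[p t])‖ :=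
      mul_pos (abs_pos.2 (by exact_mod_cast hN0)) (Finset.prod_pos fun t _ =>
        norm_pos_iff.2 (by exact_mod_cast hN0))
    have h1 : |(N : ℝ)| * ∏ t, ‖((N : ℤ) : ℚ_[p t])‖ ≤
        (I * ∏ t, ‖((I : ℕ) : ℚ_[p t])‖) ^ 2 * |(NumberField.discr K : ℝ)| *
          C₄ n ^ (2 * n - 2) * B ^ (r * n) := by
      calc |(N : ℝ)| * ∏ t, ‖((N : ℤ) : ℚ_[p t])‖
          ≤ ((I : ℝ) ^ 2 * |(NumberField.discr K : ℝ)| * C₄ n ^ (2 * n - 2)) *
            ∏ t, (‖((I : ℕ) : ℚ_[p t])‖ ^ 2 * B ^ n) :=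
            mul_le_mul hNreal (Finset.prod_le_prod (fun t _ => norm_nonneg _) fun t _ => hNpad t)
              (Finset.prod_nonneg fun t _ => norm_nonneg _) (by
                have := hC₄ n
                positivity)
        _ = _ := by
            rw [Finset.prod_mul_distrib, Finset.prod_pow, Finset.prod_const, Finset.card_univ,
              Fintype.card_fin, ← pow_mul, mul_comm n r]
            ring
    refine (Real.log_le_log hpos h1).trans (le_of_eq ?_)
    have h5 := hC₄ n
    rw [Real.log_mul (by positivity) (by positivity), Real.log_mul (by positivity)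
      (by positivity), Real.log_mul (by positivity) hDKR.ne', Real.log_pow, Real.log_pow,
      Real.log_pow]
    have h6 : Real.log |(NumberField.discr K : ℝ)| = (d * n) * SST.logDisc K := by
      unfold SST.logDisc
      rw [hfin]
      have : (d * n : ℝ) ≠ 0 := by positivity
      field_simp
    rw [h6]
    push_cast
    ring
  -- conclusion
  set L : ℝ := Real.log (hs G) with hL
  have hL0 : 0 ≤ L := Real.log_nonneg hhs
  have hlog : L ≤ |Real.log (C₁ n)| + n * SST.ht K x := by
    have h3 := Real.log_le_log (by linarith) hGle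
    rw [Real.log_mul (hC₁ n).ne' (Real.exp_pos _).ne', Real.log_exp] at h3
    linarith [le_abs_self (Real.log (C₁ n))]
  rw [pairSum_split, Finset.sum_congr rfl fun t _ => pairSum_split SST.chordM (D' t) K x,
    Finset.sum_add_distrib] at hmain
  rw [final_conj SST.chord D K x, Finset.sum_congr rfl fun t _ =>
    final_conj SST.chordM (D' t) K x, Finset.sum_add_distrib] at hdl
  have hCle : c n ≤ ∑ n ∈ Finset.range (ν + 1), c n :=
    Finset.single_le_sum (f := c) (fun i _ => hc0 i) (Finset.mem_range.2 (by omega))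
  set S : ℝ := ∑ n ∈ Finset.range (ν + 1), c n
  have hS0 : 0 ≤ S := (hc0 n).trans hCle
  have hdn : (1 : ℝ) ≤ d * n := by nlinarith
  have hSn : S ≤ (d * n) * S := by
    have := mul_le_mul_of_nonneg_right hdn hS0
    linarith
  set Δ₁ : ℝ := diagSum SST.chord D K x
  set Δ₂ : ℝ := ∑ t, diagSum SST.chordM (D' t) K x
  set O₁ : ℝ := offSum SST.chord D K x
  set O₂ : ℝ := ∑ t, offSum SST.chordM (D' t) K x
  set X₁ : ℝ := excess SST.chord D K x
  set X₂ : ℝ := ∑ t, excess SST.chordM (D' t) K x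
  set h : ℝ := SST.ht K x
  have h4 : (2 * d + ε) * L ≤ (2 * d + ε) * (|Real.log (C₁ n)| + n * h) :=
    mul_le_mul_of_nonneg_left hlog (by positivity)
  have h5 : Δ₁ + Δ₂ - 2 * (d * n) * h ≤
      (d * n) * SST.logDisc K + 2 * W + (X₁ + X₂) + ε * (d * n) * h + (d * n) * S := by
    have e1 : (2 * n * d + ε) * L = (2 * d + ε) * L + (2 * n - 2) * d * L := by ring
    have e2 : (2 * d + ε) * (|Real.log (C₁ n)| + n * h) =
        (2 * d + ε) * |Real.log (C₁ n)| + 2 * (d * n) * h + ε * n * h := by ring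
    have e3 : ε * n * h ≤ ε * (d * n) * h := by
      have h8 : ε * n * h * 1 ≤ ε * n * h * d :=
        mul_le_mul_of_nonneg_left hdR (by positivity)
      linarith
    have e4 : c n = (2 * d + ε) * |Real.log (C₁ n)| + |C₂ n| + |C₃ n| +
      (2 * n - 2 : ℕ) * Real.log (C₄ n) + (r * n : ℕ) * Real.log B := rfl
    rw [e1] at hmain
    linarith [le_abs_self (C₂ n), le_abs_self (C₃ n)]
  rw [hfin]
  have hdn0 : (d * n : ℝ) ≠ 0 := by positivity
  have h6 : (Δ₁ + Δ₂) / (d * n) - 2 * h = (Δ₁ + Δ₂ - 2 * (d * n) * h) / (d * n) := by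
    field_simp
  have h7 : SST.logDisc K + 2 * W / (d * n) + (X₁ + X₂) / (d * n) + ε * h + S =
      ((d * n) * SST.logDisc K + 2 * W + (X₁ + X₂) + ε * (d * n) * h + (d * n) * S) /
        (d * n) := by
    field_simp
  rw [h6, h7]
  exact div_le_div_of_nonneg_right h5 (by linarith)

end Pool.Agent.RefW
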