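import Pool.Agent.SST.ProxDefsS
import Mathlib.LinearAlgebra.Dimension.Finrank

/-! Definitions for the refined Wirsing inequality over number fields (MP_6f1c57_nt). -/

open Polynomial NumberField
open scoped Classical

namespace Pool.Agent.RefW

/-- The vectors `y i` generate the subspace `U` of `ℚ ^ N` and have small values of the forms. -/
structure SmallBasis {N : ℕ} {I T : Type} {p : T → ℕ} [∀ t, Fact (p t).Prime] {J : T → Type}
    (L : I → Fin N → ℝ) (M : ∀ t, J t → Fin N → ℚ_[p t]) (s : I → ℝ) (r : ∀ t, J t → ℝ)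
    (C P : ℝ) (U : Submodule ℚ (Fin N → ℚ)) {m : ℕ} (y : Fin m → Fin N → ℤ) (lam : Fin m → ℝ) :
    Prop where
  le : m ≤ N
  mono : Monotone lam
  pos : ∀ i, 0 < lam i
  ne : ∀ i, y i ≠ 0
  span : Submodule.span ℚ (Set.range fun i j => ((y i j : ℤ) : ℚ)) = U
  prod : ∏ i, lam i ≤ P
  real : ∀ i a, |∑ j, L a j * ((y i j : ℤ) : ℝ)| ≤ C * lam i * s a
  padic : ∀ i t a, ‖∑ j, M t a j * ((y i j : ℤ) : ℚ_[p t])‖ ≤ C * r t a

section

variable {A : Type}

/-- Algebraic points of the projective line over `A`. -/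
def AlgP [Field A] [CharZero A] (α : OnePoint A) : Prop :=
  ∀ z : A, α = (z : OnePoint A) → IsAlgebraic ℚ z

/-- Taylor coefficients of the form of degree `n` with coefficients `F` at the point `θ` of the
projective line. -/
noncomputable def tcA [Field A] {n : ℕ} (θ : OnePoint A) (j : Fin (n + 1)) (F : Fin (n + 1) → A) :
    A :=
  match θ with
  | OnePoint.infty => F j.rev
  | OnePoint.some z => ∑ i : Fin (n + 1), ((i : ℕ).choose j : A) * F i * z ^ ((i : ℕ) - j)

/-- `δ` is comparable to the chordal distance of the points `(x : 1)` and `θ`. -/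
structure DistOK [NormedField A] (δ : A → OnePoint A → ℝ) : Prop where
  nonneg : ∀ x θ, 0 ≤ δ x θ
  le_one : ∀ x θ, δ x θ ≤ 1
  infty : ∃ C : ℝ, ∀ x, 1 ≤ C * max 1 ‖x‖ * δ x OnePoint.infty
  some : ∀ z : A, ∃ C : ℝ, ∀ x : A, ‖x - z‖ ≤ C * max 1 ‖x‖ * δ x (z : OnePoint A)
  sep : ∀ α β : OnePoint A, α ≠ β → ∃ c : ℝ, 0 < c ∧ ∀ x, c ≤ max (δ x α) (δ x β)

/-- The sum over all pairs of indices of the closeness to the points of `D`. -/
noncomputable def pairLoc [NormedField A] (δ : A → OnePoint A → ℝ) (D : Finset (OnePoint A))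
    {n : ℕ} (x : Fin n → A) : ℝ :=
  ∑ θ ∈ D, ∑ l, ∑ l', min (-Real.log (δ (x l) θ)) (-Real.log (δ (x l') θ))

end

section

variable {k : Type} [Field k] [NumberField k]

/-- `G` is a multiple of `F` by an element of `k`. -/
def Par {n : ℕ} (F G : Fin (n + 1) → 𝓞 k) : Prop :=
  ∃ c : k, ∀ i, (G i : k) = c * (F i : k)

/-- The maximum of the absolute values of the conjugates of the coefficients of `F`. -/
noncomputable def hs {n : ℕ} (F : Fin (n + 1) → 𝓞 k) : ℝ :=
  ‖fun q : (k →+* ℂ) × Fin (n + 1) => q.1 (F q.2 : k)‖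

/-- `F` has minimal size among its nonzero multiples with integral coefficients. -/
def SupMin {n : ℕ} (F : Fin (n + 1) → 𝓞 k) : Prop :=
  F ≠ 0 ∧ ∀ G : Fin (n + 1) → 𝓞 k, G ≠ 0 → Par F G → hs F ≤ hs G

/-- The Taylor coefficients of `F` at the place given by the embedding `ρ`. -/
noncomputable def tc {A : Type} [Field A] (ρ : k →+* A) {n : ℕ} (θ : OnePoint A) (j : Fin (n + 1))
    (F : Fin (n + 1) → 𝓞 k) : A :=
  tcA θ j fun i => ρ (F i : k)

/-- The field `K` is generated over `k` by the root `x` of the polynomial with coefficients `F`. -/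
structure RootOf {n : ℕ} (F : Fin (n + 1) → 𝓞 k) (K : Type) [Field K] [NumberField K] [Algebra k K]
    (x : K) : Prop where
  gen : IntermediateField.adjoin k {x} = ⊤
  deg : Module.finrank k K = n
  root : ∑ i, algebraMap k K (F i : k) * x ^ (i : ℕ) = 0

end

/-- The sum over all pairs of embeddings of `K` with the same restriction to `k` of the closeness
of the two conjugates of `x` to the points of `D`. -/
noncomputable def pairSum {k A : Type} [Field k] [Field A] (δ : A → OnePoint A → ℝ)
    (D : (k →+* A) → Finset (OnePoint A)) (K : Type) [Field K] [Algebra k K] [Fintype (K →+* A)]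
    (x : K) : ℝ :=
  ∑ σ : K →+* A, ∑ τ : K →+* A,
    if σ.comp (algebraMap k K) = τ.comp (algebraMap k K) then
      ∑ θ ∈ D (σ.comp (algebraMap k K)), min (-Real.log (δ (σ x) θ)) (-Real.log (δ (τ x) θ))
    else 0

/-- The same sum without the pairs of equal embeddings. -/
noncomputable def offSum {k A : Type} [Field k] [Field A] (δ : A → OnePoint A → ℝ)
    (D : (k →+* A) → Finset (OnePoint A)) (K : Type) [Field K] [Algebra k K] [Fintype (K →+* A)]
    (x : K) : ℝ :=
  ∑ σ : K →+* A, ∑ τ : K →+* A,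
    if σ.comp (algebraMap k K) = τ.comp (algebraMap k K) ∧ σ ≠ τ then
      ∑ θ ∈ D (σ.comp (algebraMap k K)), min (-Real.log (δ (σ x) θ)) (-Real.log (δ (τ x) θ))
    else 0

/-- The sum over all embeddings of the closeness of the conjugates of `x` to the points of `D`. -/
noncomputable def diagSum {k A : Type} [Field k] [Field A] (δ : A → OnePoint A → ℝ)
    (D : (k →+* A) → Finset (OnePoint A)) (K : Type) [Field K] [Algebra k K] [Fintype (K →+* A)]
    (x : K) : ℝ :=
  ∑ σ : K →+* A, ∑ θ ∈ D (σ.comp (algebraMap k K)), -Real.log (δ (σ x) θ)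

end Pool.Agent.RefW
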