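import Pool.Agent.RefW.Defs

/-! Further definitions: discriminants and closeness of conjugates. -/

open Polynomial NumberField
open scoped Classical

namespace Pool.Agent.RefW

/-- The polynomial with coefficients `F`. -/
noncomputable def polyOf {R : Type} [Semiring R] {n : ℕ} (F : Fin (n + 1) → R) : R[X] :=
  ∑ i, Polynomial.C (F i) * X ^ (i : ℕ)

/-- The sum over all pairs of different embeddings of `K` with the same restriction to `k` of the
closeness of the two conjugates of `x`. -/
noncomputable def conjSum (k : Type) {A : Type} [Field k] [Field A] (δ : A → OnePoint A → ℝ)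
    (K : Type) [Field K] [Algebra k K] [Fintype (K →+* A)] (x : K) : ℝ :=
  ∑ σ : K →+* A, ∑ τ : K →+* A,
    if σ.comp (algebraMap k K) = τ.comp (algebraMap k K) ∧ σ ≠ τ then
      -Real.log (δ (σ x) ((τ x : A) : OnePoint A)) else 0

/-- The part of the closeness of the conjugates of `x` over `k` to each other which is not
explained by their closeness to the points of `D`. -/
noncomputable def excess {k A : Type} [Field k] [Field A] (δ : A → OnePoint A → ℝ)
    (D : (k →+* A) → Finset (OnePoint A)) (K : Type) [Field K] [Algebra k K] [Fintype (K →+* A)]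
    (x : K) : ℝ :=
  ∑ σ : K →+* A, ∑ τ : K →+* A,
    if σ.comp (algebraMap k K) = τ.comp (algebraMap k K) ∧ σ ≠ τ then
      -Real.log (δ (σ x) ((τ x : A) : OnePoint A)) -
        ∑ θ ∈ D (σ.comp (algebraMap k K)), min (-Real.log (δ (σ x) θ)) (-Real.log (δ (τ x) θ))
    else 0

end Pool.Agent.RefW
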