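import Pool.Agent.RefW.Defs
import Pool.Agent.RefW.DiscRoots
import Pool.Agent.RefW.Fibre
import Pool.Agent.RefW.Mahler
import Mathlib

/-!
RW24. Logarithm of the discriminant. With `F i = f.coeff i`, `ρ : ℚ →+* A`, `exists_fibre_equiv`
gives the conjugates `x l`; `Mf = ‖a‖ * ∏ max 1 ‖x l‖`. Then `‖f.discr‖ = ‖a‖ ^ (2 n - 2) *
∏ i ≠ j, ‖x i - x j‖` (`discr_roots`) and `‖x i - x j‖ = chordM * max 1 ‖x i‖ * max 1 ‖x j‖`, so
`‖f.discr‖ = Mf ^ (2 n - 2) * ∏ i ≠ j, chordM`; in the complex case up to a constant factor since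
`max 1 ‖z‖ ≤ √(1 + ‖z‖ ^ 2) ≤ √2 * max 1 ‖z‖`. `p`-adically `Mf = 1` (`gauss_eq`, `f` primitive).
In the complex case `hs ≤ 2 ^ n * Mf` (`mahler_le`). The conjugates are distinct, all logs are of
positive numbers; `f.discr ≠ 0`.
-/

open Polynomial NumberField
open scoped Classical

namespace Pool.Agent.RefW

private theorem discLog_map {A : Type} [Field A] [CharZero A] (f : ℤ[X]) (hf : 0 < f.natDegree) :
    (f.map (Int.castRingHom A)).discr = ((f.discr : ℤ) : A) := by
  have hinj : Function.Injective (Int.castRingHom A) := by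
    intro a b h
    exact Int.cast_injective (α := A) (by simpa using h)
  have hdeg : (f.map (Int.castRingHom A)).natDegree = f.natDegree :=
    natDegree_map_eq_of_injective hinj f
  have hlc : (f.map (Int.castRingHom A)).leadingCoeff = (f.leadingCoeff : A) := by
    rw [leadingCoeff, hdeg, coeff_map, leadingCoeff]
    simp
  have h1 := resultant_deriv (natDegree_pos_iff_degree_pos.mp hf)
  have h2 := resultant_deriv (f := f.map (Int.castRingHom A))
    (natDegree_pos_iff_degree_pos.mp (by rw [hdeg]; exact hf))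
  rw [derivative_map, resultant_map_map, hdeg, hlc, h1] at h2
  simp only [eq_intCast] at h2
  push_cast at h2
  have hne : (-1 : A) ^ (f.natDegree * (f.natDegree - 1) / 2) * (f.leadingCoeff : A) ≠ 0 := by
    apply mul_ne_zero
    · exact pow_ne_zero _ (neg_ne_zero.mpr one_ne_zero)
    · have : f.leadingCoeff ≠ 0 := by
        rw [Ne, leadingCoeff_eq_zero]
        rintro rfl
        simp at hf
      exact_mod_cast this
  exact (mul_left_cancel₀ hne h2).symm

private theorem discLog_norm {A : Type} [NormedField A] (a : A) {n : ℕ} (x : Fin n → A)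
    (hn : 0 < n) (ha : a ≠ 0) :
    ‖(Polynomial.C a * ∏ l, (X - Polynomial.C (x l))).discr‖ =
      ‖a‖ ^ (2 * n - 2) * ∏ i, ∏ j ∈ Finset.univ.erase i, ‖x i - x j‖ := by
  have h1 := congrArg norm (discr_roots a x hn ha)
  rw [norm_pow, norm_pow] at h1
  have h2 := (pow_left_inj₀ (norm_nonneg _) (norm_nonneg _) two_ne_zero).mp h1
  rw [h2, norm_mul, norm_pow, norm_prod]
  congr 1
  exact Finset.prod_congr rfl fun i _ => norm_prod _ _

private theorem discLog_ite {n : ℕ} {M : Type} [CommMonoid M] (g : Fin n → Fin n → M)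
    (i : Fin n) :
    ∏ j ∈ Finset.univ.erase i, g i j = ∏ j, if i ≠ j then g i j else 1 := by
  rw [← Finset.prod_filter]
  refine Finset.prod_congr ?_ fun _ _ => rfl
  ext j
  simp [eq_comm]

private theorem discLog_prod {n : ℕ} (S : Fin n → ℝ) :
    ∏ i, ∏ j ∈ Finset.univ.erase i, (S i * S j) = (∏ i, S i) ^ (2 * n - 2) := by
  have h1 : ∏ i, ∏ j ∈ Finset.univ.erase i, S i = (∏ i, S i) ^ (n - 1) := by
    rw [← Finset.prod_pow]
    refine Finset.prod_congr rfl fun i _ => ?_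
    rw [Finset.prod_const, Finset.card_erase_of_mem (Finset.mem_univ i), Finset.card_univ,
      Fintype.card_fin]
  have h2 : ∏ i, ∏ j ∈ Finset.univ.erase i, S j = (∏ i, S i) ^ (n - 1) := by
    rw [← h1]
    have h3 : ∀ i, ∏ j ∈ Finset.univ.erase i, S j = ∏ j, if i ≠ j then S j else 1 :=
      fun i => discLog_ite (fun _ j => S j) i
    have h4 : ∀ i, ∏ j ∈ Finset.univ.erase i, S i = ∏ j, if i ≠ j then S i else 1 :=
      fun i => discLog_ite (fun i _ => S i) i
    rw [Finset.prod_congr rfl fun i _ => h3 i, Finset.prod_congr rfl fun i _ => h4 i,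
      Finset.prod_comm]
    refine Finset.prod_congr rfl fun i _ => Finset.prod_congr rfl fun j _ => ?_
    simp only [ne_eq, eq_comm]
  simp_rw [Finset.prod_mul_distrib]
  rw [h1, h2, ← pow_add]
  congr 1
  omega

private theorem discLog_ext {A : Type} [Field A] {K : Type} [Field K] [NumberField K] {x : K}
    (hx : IntermediateField.adjoin ℚ {x} = ⊤) {σ τ : K →+* A} (h : σ x = τ x) : σ = τ := by
  have h1 : ∀ y ∈ IntermediateField.adjoin ℚ {x}, σ y = τ y := by
    intro y hy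
    induction hy using IntermediateField.adjoin_induction with
    | mem z hz =>
      rw [Set.mem_singleton_iff] at hz
      rw [hz, h]
    | algebraMap q => simp
    | add a b _ _ ha hb => rw [map_add, map_add, ha, hb]
    | inv a _ ha => rw [map_inv₀, map_inv₀, ha]
    | mul a b _ _ ha hb => rw [map_mul, map_mul, ha, hb]
  ext y
  exact h1 y (by rw [hx]; trivial)

private theorem discLog_coe (m : ℤ) : ((algebraMap ℤ (𝓞 ℚ) m : 𝓞 ℚ) : ℚ) = (m : ℚ) := by
  simp

private theorem discLog_main {A : Type} [NormedField A] [IsAlgClosed A] [CharZero A] {n : ℕ}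
    (hn : 0 < n) (K : Type) [Field K] [NumberField K] (x : K) (f : ℤ[X])
    (hx : IntermediateField.adjoin ℚ {x} = ⊤) (hK : Module.finrank ℚ K = n)
    (hf : aeval x f = 0) (hfn : f.natDegree = n) (S : A → ℝ) (hS : ∀ z, 0 < S z)
    (d : A → A → ℝ) (hd : ∀ z w, ‖z - w‖ = d z w * (S z * S w)) :
    f.discr ≠ 0 ∧ ∃ (a : A) (y : Fin n → A), a ≠ 0 ∧
      (∑ i : Fin (n + 1), Polynomial.C ((f.coeff i : ℤ) : A) * X ^ (i : ℕ) =
        Polynomial.C a * ∏ l, (X - Polynomial.C (y l))) ∧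
      Real.log ‖((f.discr : ℤ) : A)‖ = (2 * n - 2) * Real.log (‖a‖ * ∏ l, S (y l)) -
        ∑ σ : K →+* A, ∑ τ : K →+* A, if σ ≠ τ then -Real.log (d (σ x) (τ x)) else 0 := by
  have hf0 : f ≠ 0 := by
    rintro rfl
    simp at hfn
    omega
  set F : Fin (n + 1) → 𝓞 ℚ := fun i => algebraMap ℤ (𝓞 ℚ) (f.coeff i) with hFdef
  have hFc : ∀ i, ((F i : 𝓞 ℚ) : ℚ) = (f.coeff i : ℚ) := fun i => discLog_coe _
  have hlead : f.coeff n ≠ 0 := by
    rw [← hfn]
    exact leadingCoeff_ne_zero.mpr hf0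
  have hF : F ≠ 0 := by
    intro h
    have h1 := hFc (Fin.last n)
    rw [h] at h1
    simp only [Pi.zero_apply, Fin.val_last] at h1
    have h2 : ((0 : 𝓞 ℚ) : ℚ) = 0 := by simp
    rw [h2] at h1
    exact hlead (by exact_mod_cast h1.symm)
  have hroot : RootOf F K x := by
    refine ⟨hx, hK, ?_⟩
    rw [aeval_eq_sum_range, hfn, Finset.sum_range] at hf
    rw [← hf]
    refine Finset.sum_congr rfl fun i _ => ?_
    rw [hFc]
    simp
  have hmap : f.map (Int.castRingHom A) =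
      ∑ i : Fin (n + 1), Polynomial.C ((f.coeff i : ℤ) : A) * X ^ (i : ℕ) := by
    rw [Polynomial.as_sum_range_C_mul_X_pow (f.map (Int.castRingHom A)),
      natDegree_map_eq_of_injective (Int.cast_injective (α := A)) f, hfn, Finset.sum_range]
    simp
  obtain ⟨e, he⟩ := exists_fibre_equiv hF hroot (Rat.castHom A)
  have he2 : ∑ i : Fin (n + 1), Polynomial.C ((f.coeff i : ℤ) : A) * X ^ (i : ℕ) =
      Polynomial.C ((f.coeff n : ℤ) : A) * ∏ l, (X - Polynomial.C ((e l).1 x)) := by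
    simp only [hFc] at he
    simpa using he
  set e' : Fin n ≃ (K →+* A) := e.trans (Equiv.subtypeUnivEquiv fun σ => Subsingleton.elim _ _)
    with he'
  have hee : ∀ l, (e l).1 = e' l := fun l => rfl
  simp only [hee] at he2
  set a : A := ((f.coeff n : ℤ) : A) with hadef
  have ha : a ≠ 0 := by
    rw [hadef]
    exact_mod_cast hlead
  have hyne : ∀ i j, i ≠ j → e' i x ≠ e' j x := by
    intro i j hij h
    exact hij (e'.injective (discLog_ext hx h))
  have hD : ‖((f.discr : ℤ) : A)‖ =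
      ‖a‖ ^ (2 * n - 2) * ∏ i, ∏ j ∈ Finset.univ.erase i, ‖e' i x - e' j x‖ := by
    rw [← discLog_map f (by omega), hmap, he2]
    exact discLog_norm a (fun l => e' l x) hn ha
  have hpos : ∀ i, ∀ j ∈ Finset.univ.erase i, 0 < ‖e' i x - e' j x‖ := by
    intro i j hj
    rw [norm_pos_iff, sub_ne_zero]
    exact hyne i j (Finset.ne_of_mem_erase hj).symm
  have hDpos : 0 < ‖((f.discr : ℤ) : A)‖ := by
    rw [hD]
    refine mul_pos (pow_pos (norm_pos_iff.mpr ha) _) ?_
    exact Finset.prod_pos fun i _ => Finset.prod_pos fun j hj => hpos i j hj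
  refine ⟨?_, a, fun l => e' l x, ha, he2, ?_⟩
  · intro h
    rw [h] at hDpos
    simp at hDpos
  have hdpos : ∀ i, ∀ j ∈ Finset.univ.erase i, 0 < d (e' i x) (e' j x) := by
    intro i j hj
    have h1 := hpos i j hj
    rw [hd] at h1
    exact (pos_iff_pos_of_mul_pos h1).mpr (mul_pos (hS _) (hS _))
  have hD2 : ‖((f.discr : ℤ) : A)‖ = (‖a‖ * ∏ l, S (e' l x)) ^ (2 * n - 2) *
      ∏ i, ∏ j ∈ Finset.univ.erase i, d (e' i x) (e' j x) := by
    rw [hD, mul_pow, ← discLog_prod fun l => S (e' l x)]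
    simp_rw [hd, Finset.prod_mul_distrib]
    ring
  have hsum : ∑ σ : K →+* A, ∑ τ : K →+* A, (if σ ≠ τ then -Real.log (d (σ x) (τ x)) else 0) =
      -∑ i, ∑ j ∈ Finset.univ.erase i, Real.log (d (e' i x) (e' j x)) := by
    rw [← e'.sum_comp, ← Finset.sum_neg_distrib]
    refine Finset.sum_congr rfl fun i _ => ?_
    rw [← e'.sum_comp, ← Finset.sum_neg_distrib]
    have h1 : ∀ j, (if e' i ≠ e' j then -Real.log (d (e' i x) (e' j x)) else 0) =
        if i ≠ j then -Real.log (d (e' i x) (e' j x)) else 0 := by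
      intro j
      simp only [ne_eq, e'.injective.eq_iff]
    rw [Finset.sum_congr rfl fun j _ => h1 j, ← Finset.sum_filter]
    refine Finset.sum_congr ?_ fun _ _ => rfl
    ext j
    simp [eq_comm]
  rw [hsum, hD2]
  have hP : 0 < ‖a‖ * ∏ l, S (e' l x) :=
    mul_pos (norm_pos_iff.mpr ha) (Finset.prod_pos fun l _ => hS _)
  have hQ : 0 < ∏ i, ∏ j ∈ Finset.univ.erase i, d (e' i x) (e' j x) :=
    Finset.prod_pos fun i _ => Finset.prod_pos fun j hj => hdpos i j hj
  rw [Real.log_mul (pow_pos hP _).ne' hQ.ne', Real.log_pow, Real.log_prod fun i _ =>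
    (Finset.prod_pos fun j hj => hdpos i j hj).ne']
  have hcast : ((2 * n - 2 : ℕ) : ℝ) = 2 * n - 2 := by
    rw [Nat.cast_sub (by omega)]
    push_cast
    ring
  rw [hcast, sub_neg_eq_add]
  congr 1
  refine Finset.sum_congr rfl fun i _ => ?_
  exact Real.log_prod fun j hj => (hdpos i j hj).ne'

theorem discr_log {T : Type} [Fintype T] (p : T → ℕ) [∀ t, Fact (p t).Prime] (n : ℕ)
    (hn : 0 < n) :
    ∃ C : ℝ, ∀ (K : Type) [Field K] [NumberField K] (x : K) (f : ℤ[X]),
      IntermediateField.adjoin ℚ {x} = ⊤ → Module.finrank ℚ K = n → f.IsPrimitive →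
      aeval x f = 0 → f.natDegree = n →
      (2 * n - 2) * Real.log (hs (k := ℚ) (n := n) fun i => algebraMap ℤ (𝓞 ℚ) (f.coeff i)) ≤
        Real.log (|((f.discr : ℤ) : ℝ)| * ∏ t, ‖((f.discr : ℤ) : ℚ_[p t])‖) +
        (∑ σ : K →+* ℂ, ∑ τ : K →+* ℂ,
          if σ ≠ τ then -Real.log (SST.chord (σ x) ((τ x : ℂ) : OnePoint ℂ)) else 0) +
        (∑ t, ∑ σ : K →+* ℂ_[p t], ∑ τ : K →+* ℂ_[p t],
          if σ ≠ τ then -Real.log (SST.chordM (σ x) ((τ x : ℂ_[p t]) : OnePoint ℂ_[p t])) else 0) +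
        C := by
  refine ⟨(2 * n - 2) * (n * Real.log 2), ?_⟩
  intro K _ _ x f hx hK hprim hf hfn
  -- the archimedean place
  have hS : ∀ z : ℂ, 0 < Real.sqrt (1 + ‖z‖ ^ 2) := fun z => Real.sqrt_pos.mpr (by positivity)
  obtain ⟨hdisc, a, y, ha, hay, hlog⟩ := discLog_main (A := ℂ) hn K x f hx hK hf hfn
    (fun z => Real.sqrt (1 + ‖z‖ ^ 2)) hS (fun z w => SST.chord z (w : OnePoint ℂ)) (by
      intro z w
      have h1 := hS z
      have h2 := hS w
      show _ = ‖z - w‖ / (Real.sqrt (1 + ‖z‖ ^ 2) * Real.sqrt (1 + ‖w‖ ^ 2)) *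
        (Real.sqrt (1 + ‖z‖ ^ 2) * Real.sqrt (1 + ‖w‖ ^ 2))
      field_simp)
  have hlogR : Real.log ‖((f.discr : ℤ) : ℂ)‖ = Real.log |((f.discr : ℤ) : ℝ)| := by
    rw [Complex.norm_intCast]
  have hn1 : (0 : ℝ) ≤ 2 * n - 2 := by
    have : (1 : ℝ) ≤ n := by exact_mod_cast hn
    linarith
  -- the size of the coefficients
  have hhs : (hs (k := ℚ) (n := n) fun i => algebraMap ℤ (𝓞 ℚ) (f.coeff i)) ≤
      2 ^ n * (‖a‖ * ∏ l, Real.sqrt (1 + ‖y l‖ ^ 2)) := by
    have h1 := (mahler_le (fun i : Fin (n + 1) => ((f.coeff i : ℤ) : ℂ)) a y hay).2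
    have h2 : (hs (k := ℚ) (n := n) fun i => algebraMap ℤ (𝓞 ℚ) (f.coeff i)) ≤
        ‖fun i : Fin (n + 1) => ((f.coeff i : ℤ) : ℂ)‖ := by
      unfold hs
      rw [pi_norm_le_iff_of_nonneg (norm_nonneg _)]
      rintro ⟨ρ, i⟩
      refine le_trans (le_of_eq ?_) (norm_le_pi_norm _ i)
      show ‖ρ ((algebraMap ℤ (𝓞 ℚ) (f.coeff i) : 𝓞 ℚ) : ℚ)‖ = _
      rw [discLog_coe, map_intCast]
    refine h2.trans (h1.trans ?_)
    gcongr with l
    refine max_le ?_ ?_
    · exact Real.one_le_sqrt.mpr (by nlinarith [norm_nonneg (y l)])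
    · exact Real.le_sqrt_of_sq_le (by linarith)
  have hlead : f.coeff n ≠ 0 := by
    rw [← hfn]
    exact leadingCoeff_ne_zero.mpr hprim.ne_zero
  have hspos : 0 < hs (k := ℚ) (n := n) fun i => algebraMap ℤ (𝓞 ℚ) (f.coeff i) := by
    unfold hs
    rw [norm_pos_iff]
    intro h
    have h1 := congrFun h (Rat.castHom ℂ, Fin.last n)
    simp only [Pi.zero_apply, Fin.val_last] at h1
    rw [discLog_coe, map_intCast] at h1
    exact hlead (by exact_mod_cast h1)
  have hlog2 : Real.log (hs (k := ℚ) (n := n) fun i => algebraMap ℤ (𝓞 ℚ) (f.coeff i)) ≤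
      n * Real.log 2 + Real.log (‖a‖ * ∏ l, Real.sqrt (1 + ‖y l‖ ^ 2)) := by
    have h1 := Real.log_le_log hspos hhs
    have hP : 0 < ‖a‖ * ∏ l, Real.sqrt (1 + ‖y l‖ ^ 2) :=
      mul_pos (norm_pos_iff.mpr ha) (Finset.prod_pos fun l _ => hS _)
    rwa [Real.log_mul (by positivity) hP.ne', Real.log_pow] at h1
  -- the finite places
  have hfin : ∀ t, Real.log ‖((f.discr : ℤ) : ℚ_[p t])‖ +
      (∑ σ : K →+* ℂ_[p t], ∑ τ : K →+* ℂ_[p t],
        if σ ≠ τ then -Real.log (SST.chordM (σ x) ((τ x : ℂ_[p t]) : OnePoint ℂ_[p t])) else 0) =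
      0 := by
    intro t
    have hS' : ∀ z : ℂ_[p t], 0 < max 1 ‖z‖ := fun z => lt_of_lt_of_le one_pos (le_max_left _ _)
    have hint : ∀ m : ℤ, ‖(m : ℂ_[p t])‖ = ‖(m : ℚ_[p t])‖ := by
      intro m
      rw [← map_intCast (algebraMap ℚ_[p t] ℂ_[p t]) m, norm_algebraMap']
    obtain ⟨-, b, w, hb, hbw, hlogt⟩ := discLog_main (A := ℂ_[p t]) hn K x f hx hK hf hfn
      (fun z => max 1 ‖z‖) hS' (fun z w => SST.chordM z (w : OnePoint ℂ_[p t])) (by
        intro z w
        have h1 := hS' z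
        have h2 := hS' w
        show _ = ‖z - w‖ / (max 1 ‖z‖ * max 1 ‖w‖) * (max 1 ‖z‖ * max 1 ‖w‖)
        field_simp)
    have hM : ‖b‖ * ∏ l, max 1 ‖w l‖ = 1 := by
      rw [gauss_eq (fun i : Fin (n + 1) => ((f.coeff i : ℤ) : ℂ_[p t])) b w hbw]
      apply le_antisymm
      · rw [pi_norm_le_iff_of_nonneg zero_le_one]
        intro i
        rw [hint]
        exact Padic.norm_int_le_one _
      · by_contra hlt
        rw [not_le, pi_norm_lt_iff one_pos] at hlt
        have hdvd : ∀ i, ((p t : ℕ) : ℤ) ∣ f.coeff i := by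
          intro i
          by_cases hi : i < n + 1
          · have h1 := hlt ⟨i, hi⟩
            rw [hint] at h1
            exact (Padic.norm_intCast_lt_one_iff).mp h1
          · rw [coeff_eq_zero_of_natDegree_lt (by omega)]
            exact dvd_zero _
        have h2 : Polynomial.C ((p t : ℕ) : ℤ) ∣ f := (C_dvd_iff_dvd_coeff _ _).mpr hdvd
        have h3 := hprim _ h2
        have h4 : Nat.Prime (p t) := Fact.out
        exact (Nat.prime_iff_prime_int.mp h4).not_isUnit h3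
    rw [hint, hM, Real.log_one, mul_zero, zero_sub] at hlogt
    rw [hlogt, neg_add_cancel]
  have hprodpos : ∀ t, ‖((f.discr : ℤ) : ℚ_[p t])‖ ≠ 0 := by
    intro t
    rw [norm_ne_zero_iff]
    exact_mod_cast hdisc
  have habs : |((f.discr : ℤ) : ℝ)| ≠ 0 := by
    rw [abs_ne_zero]
    exact_mod_cast hdisc
  rw [Real.log_mul habs (Finset.prod_ne_zero_iff.mpr fun t _ => hprodpos t),
    Real.log_prod fun t _ => hprodpos t]
  have hsumfin : (∑ t, Real.log ‖((f.discr : ℤ) : ℚ_[p t])‖) +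
      (∑ t, ∑ σ : K →+* ℂ_[p t], ∑ τ : K →+* ℂ_[p t],
        if σ ≠ τ then -Real.log (SST.chordM (σ x) ((τ x : ℂ_[p t]) : OnePoint ℂ_[p t])) else 0) =
      0 := by
    rw [← Finset.sum_add_distrib]
    exact Finset.sum_eq_zero fun t _ => hfin t
  rw [← hlogR, hlog]
  have h5 := mul_le_mul_of_nonneg_left hlog2 hn1
  linarith

end Pool.Agent.RefW
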