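import Mathlib

/-!
RW21. The discriminant of an integer polynomial and of the field of its root.
Proof: let `n = natDegree f`, `a` its leading coefficient. The elements `ω 0 = 1` and
`ω i = ∑ l < i, f.coeff (n - l) * x ^ (i - l)` for `0 < i < n` of `K` are integral: put
`h i = ∑ l ≤ i, f.coeff (n - l) * x ^ (i - l)`, so `ω i = h i - f.coeff (n - i)`. The module `L`
spanned over `ℤ` by `1, x, ..., x ^ (n - 1)` satisfies `h i * L ⊆ L` for `i < n`: `h i * x ^ j` has
degree at most `n - 1` for `j < n - i`, and `h i * x ^ (n - i) = - ∑ l < n - i, f.coeff l * x ^ l`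
by `f x = 0`. So `h i` is integral (`isIntegral_of_smul_mem_submodule`).
The discriminant of `ω` is `a ^ (2 n - 2)`
times that of the powers of `x`, and `f.discr = a ^ (2 n - 2) *` (discriminant of the powers).
`ω` is an integer matrix times an integral basis: `Algebra.discr_of_matrix_vecMul`,
`NumberField.discr`.
-/

open Polynomial NumberField
open scoped Classical

namespace Pool.Agent.RefW

/-- the truncated values of an integer polynomial at its root are integral -/
private theorem Order_integral {K : Type} [Field K] [NumberField K] (x : K) (f : ℤ[X]) (n : ℕ)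
    (hn : f.natDegree = n) (hf : aeval x f = 0) (i : ℕ) (hi : i < n) :
    IsIntegral ℤ (∑ l ∈ Finset.range (i + 1), (f.coeff (n - l) : K) * x ^ (i - l)) := by
  set L : Submodule ℤ K := Submodule.span ℤ (Set.range fun j : Fin n => x ^ (j : ℕ)) with hL
  have hpow : ∀ j < n, x ^ j ∈ L := fun j hj => Submodule.subset_span ⟨⟨j, hj⟩, rfl⟩
  have hcpow : ∀ (c : ℤ) (j : ℕ), j < n → (c : K) * x ^ j ∈ L := fun c j hj => by
    rw [← zsmul_eq_mul]
    exact L.smul_mem c (hpow j hj)
  refine isIntegral_of_smul_mem_submodule L ?_ ?_ _ ?_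
  · intro h
    have h1 := hpow 0 (by omega)
    rw [h] at h1
    simp at h1
  · exact Submodule.fg_span (Set.finite_range _)
  · intro y hy
    induction hy using Submodule.span_induction with
    | mem y hy =>
      obtain ⟨j, rfl⟩ := hy
      have hj := j.2
      simp only [smul_eq_mul]
      rcases Nat.lt_or_ge (i + j) n with hij | hij
      · rw [Finset.sum_mul]
        refine L.sum_mem fun l hl => ?_
        have hl' := Finset.mem_range.1 hl
        rw [mul_assoc, ← pow_add]
        exact hcpow _ _ (by omega)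
      · have h0 : ∑ m ∈ Finset.range (n + 1), (f.coeff m : K) * x ^ m = 0 := by
          rw [← hf, aeval_eq_sum_range, hn]
          exact Finset.sum_congr rfl fun m _ => by rw [zsmul_eq_mul]
        have h1 : ∑ l ∈ Finset.range (n + 1), (f.coeff (n - l) : K) * x ^ (i + j - l) = 0 := by
          have h2 := Finset.sum_range_reflect (fun m => (f.coeff m : K) * x ^ m) (n + 1)
          rw [h0] at h2
          have h3 : (∑ l ∈ Finset.range (n + 1), (f.coeff (n - l) : K) * x ^ (i + j - l)) =
              (∑ l ∈ Finset.range (n + 1), (f.coeff (n + 1 - 1 - l) : K) * x ^ (n + 1 - 1 - l)) *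
                x ^ (i + j - n) := by
            rw [Finset.sum_mul]
            refine Finset.sum_congr rfl fun l hl => ?_
            have hl' := Finset.mem_range.1 hl
            rw [mul_assoc, ← pow_add, Nat.add_sub_cancel]
            congr 2
            omega
          rw [h3, h2, zero_mul]
        have h4 : (∑ l ∈ Finset.range (i + 1), (f.coeff (n - l) : K) * x ^ (i - l)) * x ^ (j : ℕ) =
            -∑ l ∈ Finset.Ico (i + 1) (n + 1), (f.coeff (n - l) : K) * x ^ (i + j - l) := by
          rw [eq_neg_iff_add_eq_zero, ← h1,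
            ← Finset.sum_range_add_sum_Ico _ (show i + 1 ≤ n + 1 by omega)]
          congr 1
          rw [Finset.sum_mul]
          refine Finset.sum_congr rfl fun l hl => ?_
          have hl' := Finset.mem_range.1 hl
          rw [mul_assoc, ← pow_add]
          congr 2
          omega
        rw [h4]
        refine L.neg_mem (L.sum_mem fun l hl => ?_)
        have hl' := Finset.mem_Ico.1 hl
        exact hcpow _ _ (by omega)
    | zero => simp
    | add a b _ _ ha hb => rw [smul_add]; exact L.add_mem ha hb
    | smul c a _ ha => rw [smul_comm]; exact L.smul_mem c ha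

/-- the integral elements -/
private noncomputable def Order_om {K : Type} [Field K] (x : K) (f : ℤ[X]) (n : ℕ)
    (i : Fin n) : K :=
  if (i : ℕ) = 0 then 1 else ∑ l ∈ Finset.range i, (f.coeff (n - l) : K) * x ^ ((i : ℕ) - l)

private theorem Order_om_integral {K : Type} [Field K] [NumberField K] (x : K) (f : ℤ[X]) (n : ℕ)
    (hn : f.natDegree = n) (hf : aeval x f = 0) (i : Fin n) :
    IsIntegral ℤ (Order_om x f n i) := by
  unfold Order_om
  split_ifs with h
  · exact isIntegral_one
  · have h1 := Order_integral x f n hn hf i i.2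
    rw [Finset.sum_range_succ] at h1
    have h2 : IsIntegral ℤ ((f.coeff (n - i) : K) * x ^ ((i : ℕ) - i)) := by
      rw [Nat.sub_self, pow_zero, mul_one]
      exact isIntegral_algebraMap (R := ℤ) (A := K) (x := f.coeff (n - i))
    have h3 := h1.sub h2
    rwa [add_sub_cancel_right] at h3

/-- the matrix from the powers to the integral elements -/
private noncomputable def Order_P (f : ℤ[X]) (n : ℕ) : Matrix (Fin n) (Fin n) ℚ :=
  fun r i => if (i : ℕ) = 0 then (if (r : ℕ) = 0 then 1 else 0)
    else if 1 ≤ (r : ℕ) ∧ (r : ℕ) ≤ i then (f.coeff (n - (i - r)) : ℚ) else 0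

private theorem Order_vecMul {K : Type} [Field K] [NumberField K] (x : K) (f : ℤ[X]) (n : ℕ) :
    Matrix.vecMul (fun r : Fin n => x ^ (r : ℕ)) ((Order_P f n).map (algebraMap ℚ K)) =
      Order_om x f n := by
  funext i
  rw [Matrix.vecMul, dotProduct]
  simp only [Matrix.map_apply]
  unfold Order_P Order_om
  have hn : 0 < n := i.pos
  split_ifs with h
  · rw [Finset.sum_eq_single (⟨0, hn⟩ : Fin n)]
    · simp
    · intro r _ hr
      have : (r : ℕ) ≠ 0 := fun h0 => hr (Fin.ext h0)
      simp [this]
    · intro h0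
      exact absurd (Finset.mem_univ _) h0
  · rw [Fin.sum_univ_eq_sum_range (fun r => x ^ r * algebraMap ℚ K
      (if 1 ≤ r ∧ r ≤ i then (f.coeff (n - (i - r)) : ℚ) else 0)) n]
    symm
    have h1 : ∑ r ∈ Finset.range n, x ^ r * algebraMap ℚ K
        (if 1 ≤ r ∧ r ≤ i then (f.coeff (n - (i - r)) : ℚ) else 0) =
        ∑ r ∈ Finset.Ico 1 ((i : ℕ) + 1), x ^ r * (f.coeff (n - (i - r)) : K) := by
      symm
      refine Finset.sum_subset_zero_on_sdiff ?_ ?_ ?_
      · intro r hr
        have := Finset.mem_Ico.1 hr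
        have := i.2
        exact Finset.mem_range.2 (by omega)
      · intro r hr
        rw [Finset.mem_sdiff, Finset.mem_Ico] at hr
        rw [if_neg (by omega), map_zero, mul_zero]
      · intro r hr
        have := Finset.mem_Ico.1 hr
        rw [if_pos (by omega), map_intCast]
    rw [h1, Finset.sum_Ico_eq_sum_range]
    rw [← Finset.sum_range_reflect]
    simp only [Nat.add_sub_cancel]
    refine Finset.sum_congr rfl fun l hl => ?_
    have hl' := Finset.mem_range.1 hl
    rw [mul_comm]
    have e1 : (i : ℕ) - ((i : ℕ) - 1 - l) = 1 + l := by omega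
    have e2 : (i : ℕ) - (1 + l) = (i : ℕ) - 1 - l := by omega
    rw [e1, e2]

private theorem Order_det (f : ℤ[X]) (n : ℕ) (hn : f.natDegree = n) :
    (Order_P f n).det = (f.leadingCoeff : ℚ) ^ (n - 1) := by
  have h1 : (Order_P f n).BlockTriangular id := by
    intro r i hir
    have hir' : (i : ℕ) < r := hir
    unfold Order_P
    split_ifs with h2 h3 h4
    · omega
    · rfl
    · omega
    · rfl
  rw [Matrix.det_of_isUpperTriangular h1]
  have h2 : ∀ i : Fin n, Order_P f n i i = if (i : ℕ) = 0 then 1 else (f.leadingCoeff : ℚ) := by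
    intro i
    unfold Order_P
    split_ifs with h3 h4
    · rfl
    · rw [Nat.sub_self, Nat.sub_zero, ← hn]
      rfl
    · exfalso
      omega
  rw [Finset.prod_congr rfl fun i _ => h2 i,
    Fin.prod_univ_eq_prod_range (fun i => if i = 0 then (1 : ℚ) else (f.leadingCoeff : ℚ)) n]
  cases n with
  | zero => simp
  | succ m =>
    rw [Finset.prod_range_succ']
    simp

/-- the norm of a value of a polynomial at the generator, as product over the roots -/
private theorem Order_norm {K : Type} [Field K] [NumberField K] (pb : PowerBasis ℚ K) (g : ℚ[X]) :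
    algebraMap ℚ (AlgebraicClosure K) (Algebra.norm ℚ (aeval pb.gen g)) =
      (((minpoly ℚ pb.gen).map (algebraMap ℚ (AlgebraicClosure K))).roots.map
        fun y => (g.map (algebraMap ℚ (AlgebraicClosure K))).eval y).prod := by
  set E := AlgebraicClosure K
  rw [Algebra.norm_eq_prod_embeddings ℚ E]
  have hnodup : ((minpoly ℚ pb.gen).map (algebraMap ℚ E)).roots.Nodup :=
    nodup_roots (Separable.map (Algebra.IsSeparable.isSeparable ℚ pb.gen))
  have h1 : ((minpoly ℚ pb.gen).map (algebraMap ℚ E)).roots =
      (Finset.univ : Finset (K →ₐ[ℚ] E)).val.map fun σ => σ pb.gen := by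
    refine (Multiset.Nodup.ext hnodup ?_).2 ?_
    · refine Multiset.Nodup.map ?_ Finset.univ.nodup
      intro σ τ h
      exact pb.algHom_ext h
    · intro y
      simp only [Multiset.mem_map, Finset.mem_val, Finset.mem_univ, true_and]
      constructor
      · intro hy
        have hy' : y ∈ (minpoly ℚ pb.gen).aroots E := hy
        exact ⟨pb.liftEquiv'.symm ⟨y, hy'⟩,
          congrArg Subtype.val (pb.liftEquiv'.apply_symm_apply ⟨y, hy'⟩)⟩
      · rintro ⟨σ, rfl⟩
        exact (pb.liftEquiv' σ).2
  rw [h1, Multiset.map_map]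
  refine Finset.prod_congr rfl fun σ _ => ?_
  simp only [Function.comp_apply]
  rw [eval_map_algebraMap, aeval_algHom_apply]

private theorem Order_discr {K : Type} [Field K] [NumberField K] (pb : PowerBasis ℚ K) (f : ℤ[X])
    (hf : aeval pb.gen f = 0) (hdeg : f.natDegree = pb.dim) :
    (f.discr : ℚ) = (f.leadingCoeff : ℚ) ^ (2 * (pb.dim - 1)) * Algebra.discr ℚ pb.basis := by
  have hdim : 0 < pb.dim := pb.dim_pos
  have hf0 : f ≠ 0 := by
    rintro rfl
    rw [natDegree_zero] at hdeg
    omega
  have ha : (f.leadingCoeff : ℚ) ≠ 0 := by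
    rw [Int.cast_ne_zero]
    exact leadingCoeff_ne_zero.2 hf0
  set E := AlgebraicClosure K with hE
  -- the polynomial is a multiple of the minimal polynomial
  have hfQ : f.map (Int.castRingHom ℚ) = C (f.leadingCoeff : ℚ) * minpoly ℚ pb.gen := by
    have hdvd : minpoly ℚ pb.gen ∣ f.map (Int.castRingHom ℚ) := by
      refine minpoly.dvd ℚ _ ?_
      have : aeval pb.gen (f.map (algebraMap ℤ ℚ)) = aeval pb.gen f := aeval_map_algebraMap _ _ _
      rw [← hf, ← this]
      rfl
    obtain ⟨q, hq⟩ := hdvd
    have hne : f.map (Int.castRingHom ℚ) ≠ 0 := by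
      rw [Ne, Polynomial.map_eq_zero_iff (RingHom.injective_int _)]
      exact hf0
    have hq0 : q ≠ 0 := by
      rintro rfl
      rw [mul_zero] at hq
      exact hne hq
    have hm0 : minpoly ℚ pb.gen ≠ 0 := minpoly.ne_zero pb.isIntegral_gen
    have hd := congrArg natDegree hq
    rw [natDegree_mul hm0 hq0, natDegree_map_eq_of_injective (RingHom.injective_int _),
      pb.natDegree_minpoly, hdeg] at hd
    have hqd : q.natDegree = 0 := by omega
    obtain ⟨c, rfl⟩ := natDegree_eq_zero.1 hqd
    have hl := congrArg leadingCoeff hq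
    rw [leadingCoeff_mul, (minpoly.monic pb.isIntegral_gen).leadingCoeff, one_mul,
      leadingCoeff_C, leadingCoeff_map_of_injective (RingHom.injective_int _)] at hl
    rw [hq, mul_comm, ← hl]
    rfl
  have hfE : f.map (Int.castRingHom E) =
      C (f.leadingCoeff : E) * (minpoly ℚ pb.gen).map (algebraMap ℚ E) := by
    have h1 : f.map (Int.castRingHom E) = (f.map (Int.castRingHom ℚ)).map (algebraMap ℚ E) := by
      rw [Polynomial.map_map]
      congr 1
      exact Subsingleton.elim _ _
    rw [h1, hfQ, Polynomial.map_mul, map_C, map_intCast]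
  have haE : (f.leadingCoeff : E) ≠ 0 := by
    have := (map_ne_zero (algebraMap ℚ E)).2 ha
    rwa [map_intCast] at this
  have hdegE : (f.map (Int.castRingHom E)).natDegree = pb.dim := by
    rw [natDegree_map_eq_of_injective (RingHom.injective_int _), hdeg]
  have hleadE : (f.map (Int.castRingHom E)).leadingCoeff = (f.leadingCoeff : E) := by
    rw [leadingCoeff_map_of_injective (RingHom.injective_int _)]
    rfl
  have hres := resultant_eq_prod_eval (f.map (Int.castRingHom E))
    (derivative (f.map (Int.castRingHom E))) (pb.dim - 1)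
    (by rw [← hdegE]; exact natDegree_derivative_le _) (IsAlgClosed.splits _)
  rw [hleadE, hfE, roots_C_mul _ haE] at hres
  have hder : ∀ y : E, (derivative (C (f.leadingCoeff : E) *
      (minpoly ℚ pb.gen).map (algebraMap ℚ E))).eval y =
      (f.leadingCoeff : E) * ((minpoly ℚ pb.gen).derivative.map (algebraMap ℚ E)).eval y := by
    intro y
    rw [derivative_C_mul, eval_C_mul, derivative_map]
  have hcard : ((minpoly ℚ pb.gen).map (algebraMap ℚ E)).roots.card = pb.dim := by
    rw [← (IsAlgClosed.splits _).natDegree_eq_card_roots, natDegree_map, pb.natDegree_minpoly]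
  have hprod : ((((minpoly ℚ pb.gen).map (algebraMap ℚ E)).roots).map
      (derivative (C (f.leadingCoeff : E) *
      (minpoly ℚ pb.gen).map (algebraMap ℚ E))).eval).prod =
      (f.leadingCoeff : E) ^ pb.dim * algebraMap ℚ E
        (Algebra.norm ℚ (aeval pb.gen (minpoly ℚ pb.gen).derivative)) := by
    rw [Order_norm, Multiset.map_congr rfl (fun y _ => hder y), Multiset.prod_map_mul,
      Multiset.map_const', Multiset.prod_replicate, hcard]
  rw [hprod, ← hfE, hdegE] at hres
  have hderiv := resultant_deriv (f := f) (by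
    rw [← natDegree_pos_iff_degree_pos, hdeg]; exact hdim)
  rw [hdeg] at hderiv
  have hres2 : (f.map (Int.castRingHom E)).resultant (derivative (f.map (Int.castRingHom E)))
      pb.dim (pb.dim - 1) = (Int.castRingHom E) (f.resultant (derivative f) pb.dim (pb.dim - 1)) := by
    rw [derivative_map, resultant_map_map]
  rw [hres2, hderiv] at hres
  have hQ : ((-1 : ℚ) ^ (pb.dim * (pb.dim - 1) / 2) * (f.leadingCoeff : ℚ) * (f.discr : ℚ)) =
      (f.leadingCoeff : ℚ) ^ (pb.dim - 1) * ((f.leadingCoeff : ℚ) ^ pb.dim *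
        (Algebra.norm ℚ (aeval pb.gen (minpoly ℚ pb.gen).derivative))) := by
    apply (algebraMap ℚ E).injective
    simp only [map_mul, map_pow, map_neg, map_one, map_intCast] at hres ⊢
    simpa using hres
  rw [Algebra.discr_powerBasis_eq_norm ℚ pb, pb.finrank]
  have hsq : ((-1 : ℚ) ^ (pb.dim * (pb.dim - 1) / 2)) * ((-1 : ℚ) ^ (pb.dim * (pb.dim - 1) / 2)) = 1 := by
    rw [← mul_pow]
    simp
  set s : ℚ := (-1 : ℚ) ^ (pb.dim * (pb.dim - 1) / 2)
  set N : ℚ := Algebra.norm ℚ (aeval pb.gen (minpoly ℚ pb.gen).derivative)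
  set a : ℚ := (f.leadingCoeff : ℚ)
  obtain ⟨m, hm⟩ : ∃ m, pb.dim = m + 1 := ⟨pb.dim - 1, by omega⟩
  rw [hm, Nat.add_sub_cancel] at hQ ⊢
  have h5 : a * (f.discr : ℚ) = a * (a ^ (2 * m) * (s * N)) := by
    have : a * (f.discr : ℚ) = s * (s * a * (f.discr : ℚ)) := by
      linear_combination (-(a * (f.discr : ℚ))) * hsq
    rw [this, hQ]
    ring
  exact mul_left_cancel₀ ha h5

theorem discr_eq_sq_mul (K : Type) [Field K] [NumberField K] (x : K)
    (hx : IntermediateField.adjoin ℚ {x} = ⊤) (f : ℤ[X]) (hf : aeval x f = 0)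
    (hdeg : f.natDegree = Module.finrank ℚ K) :
    ∃ I : ℤ, 0 < I ∧ f.discr = I ^ 2 * NumberField.discr K := by
  have hxi : IsIntegral ℚ x := Algebra.IsIntegral.isIntegral x
  have hx' : Algebra.adjoin ℚ {x} = ⊤ := by
    rw [← IntermediateField.adjoin_simple_toSubalgebra_of_isAlgebraic hxi.isAlgebraic, hx]
    rfl
  set pb : PowerBasis ℚ K := PowerBasis.ofAdjoinEqTop hxi hx' with hpb
  have hgen : pb.gen = x := by simp [hpb]
  have hdim : f.natDegree = pb.dim := by rw [hdeg, pb.finrank]
  have hfx : aeval pb.gen f = 0 := by rw [hgen, hf]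
  have h1 := Order_discr pb f hfx hdim
  -- the integral elements
  have hbasis : (pb.basis : Fin pb.dim → K) = fun r : Fin pb.dim => x ^ (r : ℕ) := by
    funext r
    rw [pb.basis_eq_pow, hgen]
  have h2 : Algebra.discr ℚ (Order_om x f pb.dim) =
      ((f.leadingCoeff : ℚ) ^ (pb.dim - 1)) ^ 2 * Algebra.discr ℚ pb.basis := by
    rw [← Order_vecMul x f pb.dim, ← hbasis, Algebra.discr_of_matrix_vecMul, Order_det f pb.dim hdim]
  rw [← pow_mul, Nat.mul_comm (pb.dim - 1) 2, ← h1] at h2
  -- an integral basis
  have hint : ∀ i, IsIntegral ℤ (Order_om x f pb.dim i) := fun i =>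
    Order_om_integral x f pb.dim hdim (by rw [← hgen]; exact hfx) i
  set w : Fin pb.dim → 𝓞 K := fun i => ⟨Order_om x f pb.dim i, hint i⟩ with hw
  have hcard : Fintype.card (Module.Free.ChooseBasisIndex ℤ (𝓞 K)) = pb.dim := by
    rw [← Module.finrank_eq_card_chooseBasisIndex, RingOfIntegers.rank, pb.finrank]
  set b : Module.Basis (Fin pb.dim) ℤ (𝓞 K) :=
    (RingOfIntegers.basis K).reindex (Fintype.equivFinOfCardEq hcard) with hb
  have h3 : Algebra.discr ℤ w = (b.toMatrix w).det ^ 2 * NumberField.discr K := by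
    rw [← NumberField.discr_eq_discr K b, ← Algebra.discr_of_matrix_vecMul]
    congr 1
    funext i
    rw [Matrix.vecMul, dotProduct]
    simp only [Matrix.map_apply]
    conv_lhs => rw [← b.sum_repr (w i)]
    refine Finset.sum_congr rfl fun j _ => ?_
    rw [Module.Basis.toMatrix_apply, Algebra.smul_def, mul_comm]
  have h4 : ((Algebra.discr ℤ w : ℤ) : ℚ) = Algebra.discr ℚ (Order_om x f pb.dim) := by
    rw [Algebra.discr_def, Algebra.discr_def]
    have := (Int.castRingHom ℚ).map_det (Algebra.traceMatrix ℤ w)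
    rw [eq_intCast] at this
    rw [this]
    congr 1
    ext i j
    rw [RingHom.mapMatrix_apply, Matrix.map_apply, Algebra.traceMatrix_apply,
      Algebra.traceMatrix_apply, Algebra.traceForm_apply, Algebra.traceForm_apply, eq_intCast,
      Algebra.coe_trace_int]
    rfl
  rw [h2] at h4
  have h5 : Algebra.discr ℤ w = f.discr := by exact_mod_cast h4
  rw [h3] at h5
  have hne : f.discr ≠ 0 := by
    intro h0
    rw [h0, Int.cast_zero] at h1
    have hf0 : f ≠ 0 := by
      rintro rfl
      rw [natDegree_zero] at hdim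
      have := pb.dim_pos
      omega
    have ha : (f.leadingCoeff : ℚ) ≠ 0 := by
      rw [Int.cast_ne_zero]
      exact leadingCoeff_ne_zero.2 hf0
    exact mul_ne_zero (pow_ne_zero _ ha) (Algebra.discr_not_zero_of_basis ℚ pb.basis) h1.symm
  refine ⟨|(b.toMatrix w).det|, ?_, ?_⟩
  · rw [abs_pos]
    intro h0
    rw [h0] at h5
    apply hne
    rw [← h5]
    simp
  · rw [sq_abs, h5]

end Pool.Agent.RefW
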