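import Pool.Agent.RefW.Defs
import Mathlib

/-!
RW23. A primitive integer polynomial has minimal size among its integral multiples.
Proof: `𝓞 ℚ = ℤ` (`Rat.ringOfIntegersEquiv`); if `c * f` has integer coefficients, `c` rational and
`f` primitive, then `c` is an integer, so `|c| ≥ 1` if it is nonzero.
-/

open Polynomial NumberField
open scoped Classical

namespace Pool.Agent.RefW

/-- Algebraic integers in `ℚ` are integers. -/
private theorem supMinQ_int (a : 𝓞 ℚ) : ∃ z : ℤ, ((a : 𝓞 ℚ) : ℚ) = z := by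
  have h1 : IsIntegral ℤ ((a : 𝓞 ℚ) : ℚ) := a.2
  obtain ⟨z, hz⟩ := IsIntegrallyClosed.isIntegral_iff.1 h1
  exact ⟨z, by rw [← hz]; rfl⟩

/-- The denominator of `c` divides the coefficients. -/
private theorem supMinQ_den {n : ℕ} (f : ℤ[X]) (hf : f.IsPrimitive) (hn : f.natDegree = n)
    (c : ℚ) (h : ∀ i : Fin (n + 1), ∃ z : ℤ, c * (f.coeff i : ℚ) = z) : c.den = 1 := by
  have h1 : ∀ i : ℕ, (c.den : ℤ) ∣ f.coeff i := by
    intro i
    by_cases hi : i < n + 1
    · obtain ⟨z, hz⟩ := h ⟨i, hi⟩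
      simp only at hz
      have hd : (c.den : ℚ) ≠ 0 := by exact_mod_cast c.den_nz
      have h2 : (c.num : ℚ) * (f.coeff i : ℚ) = (c.den : ℚ) * z := by
        rw [← hz]
        conv_lhs => rw [← Rat.mul_den_eq_num c]
        ring
      have h3 : c.num * f.coeff i = (c.den : ℤ) * z := by exact_mod_cast h2
      have h4 : (c.den : ℤ) ∣ c.num * f.coeff i := ⟨z, h3⟩
      have h5 : IsCoprime (c.den : ℤ) c.num := by
        rw [Int.isCoprime_iff_gcd_eq_one, Int.gcd_comm]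
        have := c.reduced
        simpa [Int.gcd, Nat.Coprime] using this
      exact h5.dvd_of_dvd_mul_left h4
    · rw [Polynomial.coeff_eq_zero_of_natDegree_lt (by omega)]
      exact dvd_zero _
  have h2 : C (c.den : ℤ) ∣ f := (Polynomial.C_dvd_iff_dvd_coeff _ _).2 h1
  have h3 := hf _ h2
  rw [Int.isUnit_iff] at h3
  omega

theorem supMin_rat {n : ℕ} (f : ℤ[X]) (hf : f.IsPrimitive) (hn : f.natDegree = n) :
    SupMin (k := ℚ) (n := n) fun i => (algebraMap ℤ (𝓞 ℚ) (f.coeff i)) := by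
  have hF : ∀ i : ℕ, ((algebraMap ℤ (𝓞 ℚ) (f.coeff i) : 𝓞 ℚ) : ℚ) = (f.coeff i : ℚ) := by
    intro i
    rw [eq_intCast (algebraMap ℤ (𝓞 ℚ))]
    exact map_intCast (algebraMap (𝓞 ℚ) ℚ) _
  refine ⟨fun h => ?_, fun G hG hpar => ?_⟩
  · have h1 : ((algebraMap ℤ (𝓞 ℚ) (f.coeff ((Fin.last n : Fin (n + 1)) : ℕ)) : 𝓞 ℚ) : ℚ) =
        ((0 : 𝓞 ℚ) : ℚ) := congrArg (fun x : 𝓞 ℚ => (x : ℚ)) (congrFun h (Fin.last n))
    rw [hF, Fin.val_last] at h1
    have h2 : f.leadingCoeff = 0 := by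
      rw [Polynomial.leadingCoeff, hn]
      have : ((f.coeff n : ℤ) : ℚ) = 0 := h1.trans (map_zero (algebraMap (𝓞 ℚ) ℚ))
      exact_mod_cast this
    exact hf.ne_zero (Polynomial.leadingCoeff_eq_zero.1 h2)
  · obtain ⟨c, hc⟩ := hpar
    simp only [hF] at hc
    have hden : c.den = 1 := by
      refine supMinQ_den f hf hn c fun i => ?_
      obtain ⟨z, hz⟩ := supMinQ_int (G i)
      exact ⟨z, by rw [← hc i, hz]⟩
    have hc0 : c ≠ 0 := by
      rintro rfl
      apply hG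
      funext i
      have h1 := hc i
      rw [zero_mul] at h1
      exact NumberField.RingOfIntegers.ext (h1.trans (map_zero (algebraMap (𝓞 ℚ) ℚ)).symm)
    have hc1 : 1 ≤ |c| := by
      have h1 : (c.num : ℚ) = c := Rat.den_eq_one_iff c |>.1 hden
      rw [← h1] at hc0 ⊢
      have h2 : c.num ≠ 0 := by exact_mod_cast hc0
      have h3 : 1 ≤ |c.num| := Int.one_le_abs h2
      exact_mod_cast h3
    unfold hs
    refine (pi_norm_le_iff_of_nonneg (norm_nonneg _)).2 fun q => ?_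
    refine le_trans ?_ (norm_le_pi_norm (fun q : (ℚ →+* ℂ) × Fin (n + 1) =>
      q.1 (G q.2 : ℚ)) q)
    simp only [hF]
    rw [hc q.2, map_mul, norm_mul]
    have h2 : ‖q.1 c‖ = |(c : ℝ)| := by
      rw [eq_ratCast q.1 c]
      have : ((c : ℚ) : ℂ) = ((c : ℝ) : ℂ) := by push_cast; rfl
      rw [this, Complex.norm_real, Real.norm_eq_abs]
    have h3 : (1 : ℝ) ≤ |(c : ℝ)| := by exact_mod_cast hc1
    rw [h2]
    exact le_mul_of_one_le_left (norm_nonneg _) h3

end Pool.Agent.RefW
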